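import Pool.Agent.H311.CB.Defs3

/-!
# Blow-up of a smooth body
-/

set_option autoImplicit false

open MeasureTheory Metric Set Filter Topology
open scoped ENNReal NNReal Real RealInnerProductSpace ContDiff Pointwise

namespace Pool.Agent.H311.CB

open Pool.Agent.H311.PM

theorem blow2_cont {ψ : ℝ → ℝ → ℝ} (hψ : Sublin ψ) : Continuous fun z : ℝ × ℝ => ψ z.1 z.2 := by
  obtain ⟨M, hM⟩ := hψ.bdd
  have h1 : ∀ x y x' y', ψ x y - ψ x' y' ≤ M * (|x - x'| + |y - y'|) := by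
    intro x y x' y'
    have h2 := hψ.sub (x - x') (y - y') x' y'
    rw [sub_add_cancel, sub_add_cancel] at h2
    have h3 := (abs_le.1 (hM (x - x') (y - y'))).2
    linarith
  have h2 : ∀ z w : ℝ × ℝ, ‖ψ z.1 z.2 - ψ w.1 w.2‖ ≤ M * (|z.1 - w.1| + |z.2 - w.2|) := by
    intro z w
    rw [Real.norm_eq_abs, abs_le]
    constructor
    · have := h1 w.1 w.2 z.1 z.2
      rw [abs_sub_comm w.1, abs_sub_comm w.2] at this
      linarith
    · exact h1 _ _ _ _
  rw [continuous_iff_continuousAt]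
  intro w
  have h3 : Tendsto (fun z : ℝ × ℝ => M * (|z.1 - w.1| + |z.2 - w.2|)) (𝓝 w) (𝓝 0) := by
    have h4 : Continuous fun z : ℝ × ℝ => M * (|z.1 - w.1| + |z.2 - w.2|) := by fun_prop
    have := h4.tendsto w
    simpa using this
  exact tendsto_iff_norm_sub_tendsto_zero.2
    (squeeze_zero (fun _ => norm_nonneg _) (fun z => h2 z w) h3)

theorem blow2_cont' {ψ : ℝ → ℝ → ℝ} (hψ : Sublin ψ) (k : ℕ) :
    Continuous fun ζ : E (k + 3) => ζ 2 + ψ (ζ 0) (ζ 1) := by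
  have h1 : Continuous fun ζ : E (k + 3) => ((ζ 0 : ℝ), (ζ 1 : ℝ)) := by fun_prop
  have h2 : Continuous fun ζ : E (k + 3) => (ζ 2 : ℝ) := by fun_prop
  exact h2.add ((blow2_cont hψ).comp h1)

theorem blow2_two (k : ℕ) : (2 : Fin (k + 3)) = (0 : Fin (k + 1)).succ.succ := by
  apply Fin.ext
  have w2 : 2 < k + 3 := by omega
  have v2 : ((2 : Fin (k + 3)) : ℕ) = 2 := Nat.mod_eq_of_lt w2
  rw [v2]
  rfl

theorem blow2_one (k : ℕ) : (1 : Fin (k + 3)) = (0 : Fin (k + 2)).succ := by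
  apply Fin.ext
  have w2 : 1 < k + 3 := by omega
  have v2 : ((1 : Fin (k + 3)) : ℕ) = 1 := Nat.mod_eq_of_lt w2
  rw [v2]
  rfl

theorem blow2_null {ψ : ℝ → ℝ → ℝ} (hψ : Sublin ψ) (k : ℕ) (r : ℝ) :
    volume {ζ : E (k + 3) | ζ 2 + ψ (ζ 0) (ζ 1) = r} = 0 := by
  set f : E (k + 3) → ℝ := fun ζ => ζ 2 + ψ (ζ 0) (ζ 1) with hf
  have h1 := Measure.countable_meas_level_set_pos (μ := (volume : Measure (E (k + 3))))
    (blow2_cont' hψ k).measurable
  have h2 : ∃ t : ℝ, ¬ 0 < volume {ζ | f ζ = t} := by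
    by_contra hcon
    push Not at hcon
    refine Cardinal.not_countable_real (h1.mono fun t _ => hcon t)
  obtain ⟨t, ht⟩ := h2
  have h3 : volume {ζ | f ζ = t} = 0 := le_antisymm (not_lt.1 ht) bot_le
  set e : E (k + 3) := EuclideanSpace.single 2 (t - r) with he
  have h02 : (0 : Fin (k + 3)) ≠ 2 := by
    rw [blow2_two]
    exact (Fin.succ_ne_zero _).symm
  have h12 : (1 : Fin (k + 3)) ≠ 2 := by
    rw [blow2_two, blow2_one]
    intro h
    exact (Fin.succ_ne_zero _).symm (Fin.succ_injective _ h)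
  have h4 : (fun ζ => e + ζ) ⁻¹' {ζ | f ζ = t} = {ζ | f ζ = r} := by
    ext ζ
    show f (e + ζ) = t ↔ f ζ = r
    have h5 : f (e + ζ) = t - r + f ζ := by
      simp only [hf, he, PiLp.add_apply, PiLp.single_apply, if_neg h02, if_neg h12, if_true, zero_add]
      ring
    rw [h5]
    constructor
    · intro h; linarith
    · intro h; linarith
  rw [← h4, measure_preimage_add]
  exact h3

/-- the linear map -/
noncomputable def blow2_map (k : ℕ) (s c1 c2 w e : ℝ) : E (k + 3) →ₗ[ℝ] E (k + 3) where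
  toFun ζ := WithLp.toLp 2 (Fin.cons (α := fun _ => ℝ) (s * ζ 0 + c1 * ζ 2)
    (Fin.cons (α := fun _ => ℝ) (s * ζ 1 + c2 * ζ 2)
      (fun i : Fin (k + 1) => (if i = 0 then w else e) * ζ i.succ.succ)))
  map_add' x y := by
    ext i
    refine Fin.cases ?_ (fun i => Fin.cases ?_ (fun i => ?_) i) i
    · simp only [PiLp.add_apply, Fin.cons_zero]
      ring
    · simp only [PiLp.add_apply, Fin.cons_zero, Fin.cons_succ]
      ring
    · simp only [PiLp.add_apply, Fin.cons_succ]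
      ring
  map_smul' c x := by
    ext i
    refine Fin.cases ?_ (fun i => Fin.cases ?_ (fun i => ?_) i) i
    · simp only [PiLp.smul_apply, smul_eq_mul, RingHom.id_apply, Fin.cons_zero]
      ring
    · simp only [PiLp.smul_apply, smul_eq_mul, RingHom.id_apply, Fin.cons_zero, Fin.cons_succ]
      ring
    · simp only [PiLp.smul_apply, smul_eq_mul, RingHom.id_apply, Fin.cons_succ]
      ring

theorem blow2_map0 (k : ℕ) (s c1 c2 w e : ℝ) (ζ : E (k + 3)) :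
    blow2_map k s c1 c2 w e ζ 0 = s * ζ 0 + c1 * ζ 2 := rfl

theorem blow2_map1 (k : ℕ) (s c1 c2 w e : ℝ) (ζ : E (k + 3)) :
    blow2_map k s c1 c2 w e ζ 1 = s * ζ 1 + c2 * ζ 2 := rfl

theorem blow2_mapi (k : ℕ) (s c1 c2 w e : ℝ) (ζ : E (k + 3)) (i : Fin (k + 1)) :
    blow2_map k s c1 c2 w e ζ i.succ.succ = (if i = 0 then w else e) * ζ i.succ.succ := rfl

theorem blow2_inj (k : ℕ) {s w e : ℝ} (c1 c2 : ℝ) (hs : s ≠ 0) (hw : w ≠ 0) (he : e ≠ 0) :
    Function.Injective (blow2_map k s c1 c2 w e) := by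
  rw [← LinearMap.ker_eq_bot, LinearMap.ker_eq_bot']
  intro ζ h
  have h1 : ∀ i : Fin (k + 1), ζ i.succ.succ = 0 := by
    intro i
    have h2 : (if i = 0 then w else e) * ζ i.succ.succ = 0 := by
      rw [← blow2_mapi k s c1 c2, h]
      rfl
    have h3 : (if i = 0 then w else e) ≠ 0 := by
      split_ifs
      · exact hw
      · exact he
    exact (mul_eq_zero.1 h2).resolve_left h3
  have h2 : ζ 2 = 0 := by
    rw [blow2_two]
    exact h1 0
  have h3 : ζ 0 = 0 := by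
    have h4 := blow2_map0 k s c1 c2 w e ζ
    rw [h, h2, mul_zero, add_zero] at h4
    exact (mul_eq_zero.1 h4.symm).resolve_left hs
  have h4 : ζ 1 = 0 := by
    have h5 := blow2_map1 k s c1 c2 w e ζ
    rw [h, h2, mul_zero, add_zero] at h5
    exact (mul_eq_zero.1 h5.symm).resolve_left hs
  ext i
  refine Fin.cases ?_ (fun i => Fin.cases ?_ (fun i => ?_) i) i
  · exact h3
  · exact h4
  · exact h1 i

/-- the centre of the blow-up -/
noncomputable def blow2_pt (k : ℕ) (ξ : ℝ × ℝ) (z : ℝ) : E (k + 3) :=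
  WithLp.toLp 2 (Fin.cons (α := fun _ => ℝ) ξ.1 (Fin.cons (α := fun _ => ℝ) ξ.2
    (fun i : Fin (k + 1) => if i = 0 then z else 0)))

theorem blow2_theta {k : ℕ} (Φ : ℝ × ℝ → ℝ) (ξ : ℝ × ℝ) (s e z om ρ r : ℝ) (hs : s ≠ 0)
    (hz : z ^ 2 = 1 - Φ ξ) (hρ : ρ * (1 + om * r) = 1) (hom : om * (2 * z ^ 2) = e)
    (ζ : E (k + 3)) :
    theta Φ (ρ • (blow2_pt k ξ z + blow2_map k s (om * ξ.1) (om * ξ.2) (om * z) e ζ)) - 1 =
      Φ (ξ + s • (ρ * ζ 0 + ρ * om * (ζ 2 - r) / s * ξ.1, ρ * ζ 1 + ρ * om * (ζ 2 - r) / s * ξ.2)) -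
        Φ ξ + (ρ * e * (ζ 2 - r) + z ^ 2 * (ρ * om * (ζ 2 - r)) ^ 2 +
          ρ ^ 2 * e ^ 2 * ∑ i : Fin k, ζ i.succ.succ.succ ^ 2) := by
  have e0 : (ρ • (blow2_pt k ξ z + blow2_map k s (om * ξ.1) (om * ξ.2) (om * z) e ζ)) 0 =
      ρ * (ξ.1 + (s * ζ 0 + om * ξ.1 * ζ 2)) := rfl
  have e1 : (ρ • (blow2_pt k ξ z + blow2_map k s (om * ξ.1) (om * ξ.2) (om * z) e ζ)) 1 =
      ρ * (ξ.2 + (s * ζ 1 + om * ξ.2 * ζ 2)) := rfl
  have e2 : ∀ i : Fin (k + 1),
      (ρ • (blow2_pt k ξ z + blow2_map k s (om * ξ.1) (om * ξ.2) (om * z) e ζ)) i.succ.succ =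
      ρ * ((if i = 0 then z else 0) + (if i = 0 then om * z else e) * ζ i.succ.succ) :=
    fun i => rfl
  unfold theta
  rw [e0, e1]
  simp only [e2]
  rw [Fin.sum_univ_succ]
  simp only [if_true, Fin.succ_ne_zero, if_false, zero_add]
  rw [← blow2_two]
  have hA : ((ρ * (ξ.1 + (s * ζ 0 + om * ξ.1 * ζ 2)), ρ * (ξ.2 + (s * ζ 1 + om * ξ.2 * ζ 2))) : ℝ × ℝ) =
      ξ + s • (ρ * ζ 0 + ρ * om * (ζ 2 - r) / s * ξ.1, ρ * ζ 1 + ρ * om * (ζ 2 - r) / s * ξ.2) := by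
    ext
    · simp only [Prod.fst_add, Prod.smul_mk, smul_eq_mul]
      field_simp
      linear_combination ξ.1 * hρ
    · simp only [Prod.snd_add, Prod.smul_mk, smul_eq_mul]
      field_simp
      linear_combination ξ.2 * hρ
  rw [hA]
  have hB : ∑ i : Fin k, (ρ * (e * ζ i.succ.succ.succ)) ^ 2 =
      ρ ^ 2 * e ^ 2 * ∑ i : Fin k, ζ i.succ.succ.succ ^ 2 := by
    rw [Finset.mul_sum]
    refine Finset.sum_congr rfl fun i _ => ?_
    ring
  rw [hB]
  have hC : ρ * (z + om * z * ζ 2) = z * (1 + ρ * om * (ζ 2 - r)) := by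
    linear_combination z * hρ
  rw [hC]
  linear_combination hz + ρ * (ζ 2 - r) * hom

/-- the sequences may be shifted -/
theorem blow2_shift {Φ : ℝ × ℝ → ℝ} {ψ : ℝ → ℝ → ℝ} (hΦ : Continuous Φ) (h0 : Φ 0 < 1)
    (h : BlowsUpTo Φ ψ) : ∃ (ξ : ℕ → ℝ × ℝ) (s e : ℕ → ℝ), Tendsto ξ atTop (𝓝 0) ∧
      Tendsto s atTop (𝓝 0) ∧ (∀ j, 0 < e j ∧ e j ≤ s j) ∧ (∀ j, Φ (ξ j) < 1) ∧
      ∀ R : ℝ, ∀ η : ℝ, 0 < η → ∀ᶠ j in atTop, ∀ u : ℝ × ℝ, ‖u‖ ≤ R →
        |Φ (ξ j + s j • u) - Φ (ξ j) - e j * ψ u.1 u.2| ≤ η * e j := by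
  obtain ⟨ξ, s, e, hξ, hs, he, hb⟩ := h
  have h1 : ∀ᶠ j in atTop, Φ (ξ j) < 1 := by
    have h2 : Tendsto (fun j => Φ (ξ j)) atTop (𝓝 (Φ 0)) := (hΦ.tendsto 0).comp hξ
    exact h2.eventually_lt_const h0
  obtain ⟨N, hN⟩ := eventually_atTop.1 h1
  have hsh : Tendsto (fun j : ℕ => j + N) atTop atTop := tendsto_add_atTop_nat N
  refine ⟨fun j => ξ (j + N), fun j => s (j + N), fun j => e (j + N), hξ.comp hsh, hs.comp hsh,
    fun j => he _, fun j => hN _ (by omega), fun R η hη => ?_⟩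
  exact hsh.eventually (hb R η hη)

theorem blow2 : S_blow2 := by
  intro k ψ hψ Φ hΦ h0 hbl C h
  obtain ⟨ξ, s, e, hξ, hs, he, hq, hb⟩ := blow2_shift hΦ h0 hbl
  have hΦξ : Tendsto (fun j => Φ (ξ j)) atTop (𝓝 (Φ 0)) := (hΦ.tendsto 0).comp hξ
  have hKm : MeasurableSet {ζ : E (k + 3) | theta Φ ζ ≤ 1} := by
    have h1 : Continuous fun ζ : E (k + 3) => theta Φ ζ := by
      unfold theta
      fun_prop
    exact h1.measurable measurableSet_Iic
  have hs0 : ∀ j, 0 < s j := fun j => (he j).1.trans_le (he j).2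
  have het : Tendsto e atTop (𝓝 0) :=
    squeeze_zero (fun j => (he j).1.le) (fun j => (he j).2) hs
  obtain ⟨q, hqdef⟩ : ∃ q : ℕ → ℝ, q = fun j => 1 - Φ (ξ j) := ⟨_, rfl⟩
  have hq0 : ∀ j, 0 < q j := fun j => by
    rw [hqdef]
    have := hq j
    simp only
    linarith
  have hqt : Tendsto q atTop (𝓝 (1 - Φ 0)) := by
    rw [hqdef]
    exact hΦξ.const_sub 1
  have hQ0 : (0 : ℝ) < 1 - Φ 0 := by linarith
  obtain ⟨z, hzdef⟩ : ∃ z : ℕ → ℝ, z = fun j => √(q j) := ⟨_, rfl⟩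
  have hz0 : ∀ j, 0 < z j := fun j => by
    rw [hzdef]
    exact Real.sqrt_pos.2 (hq0 j)
  have hz2 : ∀ j, z j ^ 2 = q j := fun j => by
    rw [hzdef]
    exact Real.sq_sqrt (hq0 j).le
  obtain ⟨om, homdef⟩ : ∃ om : ℕ → ℝ, om = fun j => e j / (2 * q j) := ⟨_, rfl⟩
  have hom0 : ∀ j, 0 < om j := fun j => by
    rw [homdef]
    have h1 := (he j).1
    have h2 := hq0 j
    simp only
    positivity
  have hom2 : ∀ j, om j * (2 * z j ^ 2) = e j := fun j => by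
    rw [hz2, homdef]
    have h2 := hq0 j
    simp only
    field_simp
  have homt : Tendsto om atTop (𝓝 0) := by
    rw [homdef]
    have h1 : Tendsto (fun j => 2 * q j) atTop (𝓝 (2 * (1 - Φ 0))) := hqt.const_mul 2
    have h2 := het.div h1 (by positivity)
    rw [zero_div] at h2
    exact h2
  classical
  let φ : ℕ → ℝ → {R : ℝ // 0 < R} := fun j r =>
    if h : 0 < 1 + om j * r then ⟨_, h⟩ else ⟨1, one_pos⟩
  obtain ⟨T, hTdef⟩ : ∃ T : ℕ → (E (k + 3) ≃ₗ[ℝ] E (k + 3)),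
      ∀ j ζ, T j ζ = blow2_map k (s j) (om j * (ξ j).1) (om j * (ξ j).2) (om j * z j) (e j) ζ :=
    ⟨fun j => LinearEquiv.ofInjectiveEndo _ (blow2_inj k (om j * (ξ j).1) (om j * (ξ j).2)
      (hs0 j).ne' (mul_pos (hom0 j) (hz0 j)).ne' (he j).1.ne'), fun j ζ => rfl⟩
  obtain ⟨p, hpdef⟩ : ∃ p : ℕ → E (k + 3), p = fun j => blow2_pt k (ξ j) (z j) := ⟨_, rfl⟩
  have hmeas : ∀ (j : ℕ) (r : ℝ),
      MeasurableSet {ζ : E (k + 3) | p j + ζ ∈ (φ j r : ℝ) • {ζ : E (k + 3) | theta Φ ζ ≤ 1}} :=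
    fun j r => (measurable_const_add (p j)) (hKm.const_smul₀ _)
  have hB : ∀ j, FM (fun r : ℝ => {ζ : E (k + 3) |
      T j ζ ∈ {ζ | p j + ζ ∈ (φ j r : ℝ) • {ζ : E (k + 3) | theta Φ ζ ≤ 1}}}) C := by
    intro j
    exact ((h.comp (φ j)).translate (p j)).linear (hmeas j) _
  refine FM.of_tendsto (fun j r => ?_)
    (fun r => (blow2_cont' hψ k).measurable measurableSet_Iic) hB fun r => ?_
  · exact (LinearMap.continuous_of_finiteDimensional
      (T j : E (k + 3) →ₗ[ℝ] E (k + 3))).measurable (hmeas j r)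
  · have hnull : ∀ᵐ ζ : E (k + 3), ζ 2 + ψ (ζ 0) (ζ 1) ≠ r := by
      rw [ae_iff]
      simpa using blow2_null hψ k r
    filter_upwards [hnull] with ζ hζ
    have hRt : Tendsto (fun j => 1 + om j * r) atTop (𝓝 1) := by
      have := (homt.mul_const r).const_add 1
      simpa using this
    obtain ⟨ρ, hρdef⟩ : ∃ ρ : ℕ → ℝ, ρ = fun j => (1 + om j * r)⁻¹ := ⟨_, rfl⟩
    have hρt : Tendsto ρ atTop (𝓝 1) := by
      rw [hρdef]
      have := hRt.inv₀ one_ne_zero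
      simpa using this
    obtain ⟨τ, hτdef⟩ : ∃ τ : ℕ → ℝ, τ = fun j => ρ j * om j * (ζ 2 - r) / s j := ⟨_, rfl⟩
    have hτb : ∀ j, |τ j| ≤ |ρ j| * |ζ 2 - r| / (2 * q j) := by
      intro j
      have h1 := (he j).1
      have h2 := hq0 j
      have h3 := hs0 j
      rw [hτdef]
      simp only
      rw [abs_div, abs_mul, abs_mul, abs_of_pos h3, abs_of_pos (hom0 j)]
      have h4 : |ρ j| * om j * |ζ 2 - r| / s j = |ρ j| * |ζ 2 - r| / (2 * q j) * (e j / s j) := by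
        rw [homdef]
        field_simp
      rw [h4]
      have h5 : e j / s j ≤ 1 := by
        rw [div_le_one h3]
        exact (he j).2
      have h6 : 0 ≤ |ρ j| * |ζ 2 - r| / (2 * q j) := by positivity
      calc _ ≤ |ρ j| * |ζ 2 - r| / (2 * q j) * 1 := mul_le_mul_of_nonneg_left h5 h6
        _ = _ := mul_one _
    have hbt : Tendsto (fun j => |ρ j| * |ζ 2 - r| / (2 * q j)) atTop
        (𝓝 (|1| * |ζ 2 - r| / (2 * (1 - Φ 0)))) :=
      ((hρt.abs.mul_const _).div (hqt.const_mul 2) (by positivity))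
    have hξ1 : Tendsto (fun j => (ξ j).1) atTop (𝓝 0) :=
      (continuous_fst.tendsto (0 : ℝ × ℝ)).comp hξ
    have hξ2 : Tendsto (fun j => (ξ j).2) atTop (𝓝 0) :=
      (continuous_snd.tendsto (0 : ℝ × ℝ)).comp hξ
    have hτ : ∀ y : ℕ → ℝ, Tendsto y atTop (𝓝 0) → Tendsto (fun j => τ j * y j) atTop (𝓝 0) := by
      intro y hy
      have h1 : Tendsto (fun j => |ρ j| * |ζ 2 - r| / (2 * q j) * |y j|) atTop (𝓝 0) := by
        have h2 := hbt.mul hy.abs
        simpa using h2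
      refine squeeze_zero_norm (fun j => ?_) h1
      rw [Real.norm_eq_abs, abs_mul]
      exact mul_le_mul_of_nonneg_right (hτb j) (abs_nonneg _)
    obtain ⟨u, hudef⟩ : ∃ u : ℕ → ℝ × ℝ, u = fun j =>
      (ρ j * ζ 0 + τ j * (ξ j).1, ρ j * ζ 1 + τ j * (ξ j).2) := ⟨_, rfl⟩
    have hut : Tendsto u atTop (𝓝 (ζ 0, ζ 1)) := by
      rw [hudef]
      refine Tendsto.prodMk_nhds ?_ ?_
      · have := (hρt.mul_const (ζ 0)).add (hτ _ hξ1)
        simpa using this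
      · have := (hρt.mul_const (ζ 1)).add (hτ _ hξ2)
        simpa using this
    have hψt : Tendsto (fun j => ψ (u j).1 (u j).2) atTop (𝓝 (ψ (ζ 0) (ζ 1))) :=
      ((blow2_cont hψ).tendsto (ζ 0, ζ 1)).comp hut
    have hat : Tendsto (fun j => (Φ (ξ j + s j • u j) - Φ (ξ j) - e j * ψ (u j).1 (u j).2) / e j)
        atTop (𝓝 0) := by
      rw [Metric.tendsto_nhds]
      intro η hη
      have h1 : ∀ᶠ j in atTop, ‖u j‖ ≤ ‖((ζ 0, ζ 1) : ℝ × ℝ)‖ + 1 := by
        have h2 : Tendsto (fun j => ‖u j‖) atTop (𝓝 ‖((ζ 0, ζ 1) : ℝ × ℝ)‖) := hut.norm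
        filter_upwards [h2.eventually_lt_const (lt_add_one _)] with j hj using hj.le
      filter_upwards [h1, hb (‖((ζ 0, ζ 1) : ℝ × ℝ)‖ + 1) (η / 2) (half_pos hη)] with j h2 h3
      have h4 := h3 (u j) h2
      have h5 := (he j).1
      rw [dist_zero_right, Real.norm_eq_abs, abs_div, abs_of_pos h5, div_lt_iff₀ h5]
      have h6 : η / 2 * e j < η * e j := mul_lt_mul_of_pos_right (half_lt_self hη) h5
      exact h4.trans_lt h6
    have hdt : Tendsto (fun j => e j * (ρ j ^ 2 * ((ζ 2 - r) ^ 2 / (4 * q j) +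
        ∑ i : Fin k, ζ i.succ.succ.succ ^ 2))) atTop (𝓝 0) := by
      have h1 : Tendsto (fun j => (ρ j ^ 2 * ((ζ 2 - r) ^ 2 / (4 * q j) +
        ∑ i : Fin k, ζ i.succ.succ.succ ^ 2))) atTop (𝓝 (1 ^ 2 * ((ζ 2 - r) ^ 2 / (4 * (1 - Φ 0)) +
        ∑ i : Fin k, ζ i.succ.succ.succ ^ 2))) := by
        refine (hρt.pow 2).mul ((Tendsto.div tendsto_const_nhds (hqt.const_mul 4)
          (by positivity)).add tendsto_const_nhds)
      have h2 := het.mul h1
      simpa using h2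
    obtain ⟨D, hDdef⟩ : ∃ D : ℕ → ℝ, D = fun j =>
      theta Φ (ρ j • (p j + T j ζ)) - 1 := ⟨_, rfl⟩
    have hDt : Tendsto (fun j => D j / e j) atTop (𝓝 (ζ 2 + ψ (ζ 0) (ζ 1) - r)) := by
      have h1 := ((hat.add hψt).add (hρt.mul_const (ζ 2 - r))).add hdt
      have h2 : (0 : ℝ) + ψ (ζ 0) (ζ 1) + 1 * (ζ 2 - r) + 0 = ζ 2 + ψ (ζ 0) (ζ 1) - r := by ring
      rw [h2] at h1
      refine h1.congr' ?_
      filter_upwards [hRt.eventually_const_lt zero_lt_one] with j hj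
      have h3 : ρ j * (1 + om j * r) = 1 := by
        rw [hρdef]
        exact inv_mul_cancel₀ hj.ne'
      have h4 := blow2_theta (k := k) Φ (ξ j) (s j) (e j) (z j) (om j) (ρ j) r (hs0 j).ne'
        (by rw [hz2, hqdef]) h3 (hom2 j) ζ
      have h5 : D j = Φ (ξ j + s j • u j) - Φ (ξ j) + (ρ j * e j * (ζ 2 - r) +
          z j ^ 2 * (ρ j * om j * (ζ 2 - r)) ^ 2 +
          ρ j ^ 2 * e j ^ 2 * ∑ i : Fin k, ζ i.succ.succ.succ ^ 2) := by
        rw [hDdef]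
        simp only
        rw [hTdef, hpdef, h4, hudef, hτdef]
      rw [h5, hz2]
      have h6 := (he j).1.ne'
      have h7 := (hq0 j).ne'
      have h8 : om j = e j / (2 * q j) := by rw [homdef]
      rw [h8]
      field_simp
      ring
    have hmem : ∀ᶠ j in atTop, (T j ζ ∈ {ζ | p j + ζ ∈ (φ j r : ℝ) •
        {ζ : E (k + 3) | theta Φ ζ ≤ 1}} ↔ D j ≤ 0) := by
      filter_upwards [hRt.eventually_const_lt zero_lt_one] with j hj
      have hφ : (φ j r : ℝ) = 1 + om j * r := by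
        simp only [φ]
        rw [dif_pos hj]
      show p j + T j ζ ∈ (φ j r : ℝ) • {ζ : E (k + 3) | theta Φ ζ ≤ 1} ↔ D j ≤ 0
      rw [hφ, Set.mem_smul_set_iff_inv_smul_mem₀ hj.ne']
      rw [hDdef, hρdef]
      show theta Φ _ ≤ 1 ↔ _
      constructor
      · intro h1
        simp only
        linarith
      · intro h1
        simp only at h1
        linarith
    rcases lt_or_gt_of_ne hζ with hlt | hgt
    · have h1 : ζ 2 + ψ (ζ 0) (ζ 1) - r < 0 := by linarith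
      filter_upwards [hmem, hDt.eventually_lt_const h1] with j h2 h3
      rw [h2]
      refine ⟨fun _ => hlt.le, fun _ => ?_⟩
      by_contra hcon
      have h4 : 0 < D j / e j := div_pos (not_le.1 hcon) (he j).1
      linarith
    · have h1 : 0 < ζ 2 + ψ (ζ 0) (ζ 1) - r := by linarith
      filter_upwards [hmem, hDt.eventually_const_lt h1] with j h2 h3
      rw [h2]
      constructor
      · intro h4
        have h5 : D j / e j ≤ 0 := div_nonpos_of_nonpos_of_nonneg h4 (he j).1.le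
        linarith
      · intro h4
        exact absurd h4 (not_le.2 hgt)

end Pool.Agent.H311.CB
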