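import Pool.Agent.H311.CB.Defs2

/-!
# The cone (task CB T4)
-/

set_option autoImplicit false

namespace Pool.Agent.H311.CB

open Pool.Agent.H311.PM

/-- a maximum of linear functionals -/
theorem cone_max (M : ℕ) (A B : ℕ → ℝ) : ∃ ψ : ℝ → ℝ → ℝ, Sublin ψ ∧
    (∀ x y, ∀ j ≤ M, A j * x + B j * y ≤ ψ x y) ∧
    (∀ x y, ∃ j ≤ M, ψ x y = A j * x + B j * y) := by
  have hne : (Finset.range (M + 1)).Nonempty := ⟨0, Finset.mem_range.2 (by omega)⟩
  obtain ⟨ψ, hψ⟩ : ∃ ψ : ℝ → ℝ → ℝ,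
    ψ = fun x y => (Finset.range (M + 1)).sup' hne (fun j => A j * x + B j * y) := ⟨_, rfl⟩
  have h1 : ∀ x y, ∀ j ≤ M, A j * x + B j * y ≤ ψ x y := by
    intro x y j hj
    rw [hψ]
    exact Finset.le_sup' (fun j => A j * x + B j * y) (Finset.mem_range.2 (by omega))
  have h2 : ∀ x y, ∃ j ≤ M, ψ x y = A j * x + B j * y := by
    intro x y
    obtain ⟨j, hj, he⟩ := Finset.exists_mem_eq_sup' hne (fun j => A j * x + B j * y)
    have hj' := Finset.mem_range.1 hj
    refine ⟨j, by omega, ?_⟩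
    rw [hψ]
    exact he
  refine ⟨ψ, ⟨?_, ?_, ?_⟩, h1, h2⟩
  · intro t ht x y
    apply le_antisymm
    · obtain ⟨j, hj, he⟩ := h2 (t * x) (t * y)
      rw [he]
      have := mul_le_mul_of_nonneg_left (h1 x y j hj) ht
      linarith
    · obtain ⟨j, hj, he⟩ := h2 x y
      rw [he]
      have := h1 (t * x) (t * y) j hj
      linarith
  · intro x y x' y'
    obtain ⟨j, hj, he⟩ := h2 (x + x') (y + y')
    rw [he]
    have h3 := h1 x y j hj
    have h4 := h1 x' y' j hj
    linarith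
  · refine ⟨∑ j ∈ Finset.range (M + 1), (|A j| + |B j|), fun x y => ?_⟩
    obtain ⟨j, hj, he⟩ := h2 x y
    rw [he]
    have h3 : |A j| + |B j| ≤ ∑ j ∈ Finset.range (M + 1), (|A j| + |B j|) :=
      Finset.single_le_sum (f := fun j => |A j| + |B j|) (fun i _ => by positivity)
        (Finset.mem_range.2 (by omega))
    calc |A j * x + B j * y| ≤ |A j * x| + |B j * y| := abs_add_le _ _
      _ = |A j| * |x| + |B j| * |y| := by rw [abs_mul, abs_mul]
      _ ≤ |A j| * |x| + |B j| * |y| + (|A j| * |y| + |B j| * |x|) :=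
          le_add_of_nonneg_right (by positivity)
      _ = (|A j| + |B j|) * (|x| + |y|) := by ring
      _ ≤ _ := mul_le_mul_of_nonneg_right h3 (by positivity)

/-- the initial sums of a sequence which changes its sign once -/
theorem cone_sum {F : ℕ → ℝ} {v M : ℕ} (h1 : ∀ i < v, F i ≤ 0) (h2 : ∀ i, v ≤ i → i ≤ M → 0 ≤ F i)
    {j : ℕ} (hj : j ≤ M) : ∑ i ∈ Finset.range v, F i ≤ ∑ i ∈ Finset.range j, F i := by
  rcases le_total j v with hjv | hjv
  · have h3 : ∑ i ∈ Finset.range j, -F i ≤ ∑ i ∈ Finset.range v, -F i := by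
      refine Finset.sum_le_sum_of_subset_of_nonneg (Finset.range_mono hjv) fun i hi _ => ?_
      have := h1 i (Finset.mem_range.1 hi)
      linarith
    rw [Finset.sum_neg_distrib, Finset.sum_neg_distrib] at h3
    linarith
  · refine Finset.sum_le_sum_of_subset_of_nonneg (Finset.range_mono hjv) fun i hi hi' => ?_
    refine h2 i ?_ ?_
    · by_contra hcon
      exact hi' (Finset.mem_range.2 (by omega))
    · have := Finset.mem_range.1 hi
      omega

theorem cone_pow {Q : ℝ} (hQ : 1 ≤ Q) {a v : ℕ} (h : a < v) : Q ^ a ≤ Q ^ v / Q := by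
  rw [le_div_iff₀ (by linarith), ← pow_succ]
  exact pow_le_pow_right₀ hQ h

/-- a lacunary sum -/
theorem cone_lac {Q : ℝ} (hQ : 1 ≤ Q) {v M : ℕ} (hv : v ≤ M) {R : ℝ} (hR : 0 ≤ R) {f : ℕ → ℝ}
    (hf : ∀ a < v, |f a| ≤ R) : |∑ a ∈ Finset.range v, f a * Q ^ a| ≤ M * R * (Q ^ v / Q) := by
  have hQ0 : 0 < Q := by linarith
  have hp : 0 ≤ Q ^ v / Q := by positivity
  calc |∑ a ∈ Finset.range v, f a * Q ^ a| ≤ ∑ a ∈ Finset.range v, |f a * Q ^ a| :=
        Finset.abs_sum_le_sum_abs _ _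
    _ ≤ ∑ a ∈ Finset.range v, R * (Q ^ v / Q) := by
        refine Finset.sum_le_sum fun a ha => ?_
        have ha := Finset.mem_range.1 ha
        rw [abs_mul, abs_of_nonneg (pow_nonneg hQ0.le a)]
        exact mul_le_mul (hf a ha) (cone_pow hQ ha) (by positivity) hR
    _ = v * (R * (Q ^ v / Q)) := by rw [Finset.sum_const, Finset.card_range, nsmul_eq_mul]
    _ ≤ M * (R * (Q ^ v / Q)) := by
        refine mul_le_mul_of_nonneg_right ?_ (by positivity)
        exact_mod_cast hv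
    _ = _ := by ring

theorem cone_red {n : ℕ → ℤ} {v M : ℕ} (hv : v < M) (h1 : n v = 1) (h0 : ∀ w, v < w → n w = 0)
    (f : ℕ → ℝ) : ∑ a ∈ Finset.range M, (n a : ℝ) * f a =
      ∑ a ∈ Finset.range v, (n a : ℝ) * f a + f v := by
  have h2 : ∑ a ∈ Finset.range (v + 1), (n a : ℝ) * f a = ∑ a ∈ Finset.range M, (n a : ℝ) * f a := by
    refine Finset.sum_subset (Finset.range_mono (by omega)) fun a _ ha => ?_
    have : v < a := by
      by_contra hcon
      exact ha (Finset.mem_range.2 (by omega))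
    rw [h0 a this, Int.cast_zero, zero_mul]
  rw [← h2, Finset.sum_range_succ, h1, Int.cast_one, one_mul]

theorem cone_coord {k : ℕ} (n : ℕ → ℤ) (Z : ℕ → E (k + 3)) (s : Finset ℕ) (i : Fin (k + 3)) :
    (∑ a ∈ s, n a • Z a) i = ∑ a ∈ s, (n a : ℝ) * Z a i := by
  rw [WithLp.ofLp_sum, Finset.sum_apply]
  refine Finset.sum_congr rfl fun a _ => ?_
  rw [WithLp.ofLp_smul, Pi.smul_apply, zsmul_eq_mul]

/-- **(T4) the cone** -/
theorem cone : S_cone := by
  intro k M K t ht
  obtain ⟨S, hS⟩ : ∃ S : ℝ, S = ∑ v ∈ Finset.range M, t v := ⟨_, rfl⟩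
  have hS0 : 0 ≤ S := by
    rw [hS]
    exact Finset.sum_nonneg fun v _ => (ht v).le
  have htS : ∀ i < M, t i ≤ S := by
    intro i hi
    rw [hS]
    exact Finset.single_le_sum (f := t) (fun v _ => (ht v).le) (Finset.mem_range.2 hi)
  have hK0 : (0 : ℝ) ≤ K := Nat.cast_nonneg K
  have hM0 : (0 : ℝ) ≤ M := Nat.cast_nonneg M
  obtain ⟨Q, hQdef⟩ : ∃ Q : ℝ, Q = 1 + 2 * K * M * (M + 1) + 8 * S * K * M * M * (M + 1) := ⟨_, rfl⟩
  have hp1 : 0 ≤ 2 * (K : ℝ) * M * (M + 1) := by positivity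
  have hp2 : 0 ≤ 8 * S * K * M * M * (M + 1) := by positivity
  have hQ1 : 1 ≤ Q := by rw [hQdef]; linarith
  have hQ2 : 2 * (K : ℝ) * M * (M + 1) ≤ Q := by rw [hQdef]; linarith
  have hQ3 : 2 * (K : ℝ) * M < Q := by
    have : 2 * (K : ℝ) * M ≤ 2 * (K : ℝ) * M * (M + 1) := by
      have : 0 ≤ 2 * (K : ℝ) * M * M := by positivity
      linarith
    rw [hQdef]
    linarith
  have hQ4 : 8 * S * K * M * M * (M + 1) ≤ Q := by rw [hQdef]; linarith
  clear hQdef
  have hQ0 : 0 < Q := by linarith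
  obtain ⟨lam, hlam⟩ : ∃ lam : ℕ → ℝ, lam = fun i => 2 * t i / Q ^ i := ⟨_, rfl⟩
  have hlam0 : ∀ i, 0 ≤ lam i := by
    intro i
    rw [hlam]
    have := ht i
    positivity
  obtain ⟨ψ, hψ, hψ1, hψ2⟩ := cone_max M (fun j => -∑ i ∈ Finset.range j, lam i * (i + 1 / 2))
    (fun j => ∑ i ∈ Finset.range j, lam i)
  have hlin : ∀ (j : ℕ) (x y : ℝ), (-∑ i ∈ Finset.range j, lam i * (i + 1 / 2)) * x +
      (∑ i ∈ Finset.range j, lam i) * y =
      -∑ i ∈ Finset.range j, lam i * ((i + 1 / 2) * x - y) := by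
    intro j x y
    rw [neg_mul, Finset.sum_mul, Finset.sum_mul, ← Finset.sum_neg_distrib, ← Finset.sum_add_distrib,
      ← Finset.sum_neg_distrib]
    refine Finset.sum_congr rfl fun i _ => ?_
    ring
  simp only [hlin] at hψ1 hψ2
  -- the values of the functionals at the points
  obtain ⟨w, hw⟩ : ∃ w : ℕ → ℕ → ℝ, w = fun (i a : ℕ) =>
    lam i * (((i : ℝ) + 1 / 2) * Q ^ a - (a : ℝ) * Q ^ a) := ⟨_, rfl⟩
  have hwaa : ∀ a, w a a = t a := by
    intro a
    rw [hw, hlam]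
    have : Q ^ a ≠ 0 := by positivity
    field_simp
    ring
  have hwia : ∀ i a, a < i → i < M → |w i a| ≤ 2 * S * (M + 1) / Q := by
    intro i a hai hiM
    have h1 : w i a = 2 * t i * ((i : ℝ) + 1 / 2 - a) * (Q ^ a / Q ^ i) := by
      rw [hw, hlam]
      ring
    have h2 : Q ^ a / Q ^ i ≤ 1 / Q := by
      rw [div_le_iff₀ (by positivity)]
      have := cone_pow hQ1 hai
      calc Q ^ a ≤ Q ^ i / Q := this
        _ = 1 / Q * Q ^ i := by ring
    have h3 : (a : ℝ) ≤ i := by exact_mod_cast hai.le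
    have h4 : (i : ℝ) ≤ M := by exact_mod_cast hiM.le
    have h5 : (0 : ℝ) ≤ a := Nat.cast_nonneg a
    have h6 : 0 ≤ (i : ℝ) + 1 / 2 - a := by linarith
    have h7 := ht i
    have h8 : 0 ≤ 2 * t i * ((i : ℝ) + 1 / 2 - a) := by positivity
    rw [h1, abs_of_nonneg (by positivity)]
    calc 2 * t i * ((i : ℝ) + 1 / 2 - a) * (Q ^ a / Q ^ i)
        ≤ 2 * t i * ((i : ℝ) + 1 / 2 - a) * (1 / Q) := mul_le_mul_of_nonneg_left h2 h8
      _ ≤ 2 * S * (M + 1) * (1 / Q) := by
          refine mul_le_mul_of_nonneg_right ?_ (by positivity)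
          refine mul_le_mul ?_ (by linarith) h6 (by positivity)
          linarith [htS i hiM]
      _ = _ := by ring
  obtain ⟨τ, hτ⟩ : ∃ τ : ℕ → ℝ, τ = fun a => t a + ∑ i ∈ Finset.range a, w i a := ⟨_, rfl⟩
  obtain ⟨Z, hZ⟩ : ∃ Z : ℕ → E (k + 3), Z = fun a : ℕ => WithLp.toLp 2 (fun i : Fin (k + 3) =>
      if (i : ℕ) = 0 then Q ^ a else if (i : ℕ) = 1 then (a : ℝ) * Q ^ a else
        if (i : ℕ) = 2 then τ a else 0) := ⟨_, rfl⟩
  have hZ0 : ∀ a, Z a 0 = Q ^ a := by
    intro a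
    rw [hZ]
    simp
  have hZ1 : ∀ a, Z a 1 = a * Q ^ a := by
    intro a
    rw [hZ]
    simp
  have hZ2 : ∀ a, Z a 2 = τ a := by
    intro a
    rw [hZ]
    have h2 : 2 % (k + 3) = 2 := Nat.mod_eq_of_lt (by omega)
    simp [h2]
  refine ⟨ψ, Z, hψ, ?_, ?_⟩
  · intro v hv n h1 h0 hn
    rw [cone_coord, cone_coord, cone_coord]
    simp only [hZ0, hZ1, hZ2]
    have hnR : ∀ a, |(n a : ℝ)| ≤ K := by
      intro a
      have := hn a
      have h2 : ((|n a| : ℤ) : ℝ) ≤ ((K : ℤ) : ℝ) := by exact_mod_cast this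
      rw [Int.cast_abs] at h2
      exact_mod_cast h2
    obtain ⟨X, hX⟩ : ∃ X : ℝ, X = ∑ a ∈ Finset.range M, (n a : ℝ) * Q ^ a := ⟨_, rfl⟩
    obtain ⟨Y, hY⟩ : ∃ Y : ℝ, Y = ∑ a ∈ Finset.range M, (n a : ℝ) * (a * Q ^ a) := ⟨_, rfl⟩
    rw [← hX, ← hY]
    rw [cone_red hv h1 h0] at hX hY ⊢
    have hvM : (v : ℝ) + 1 ≤ M := by exact_mod_cast hv
    have hv0 : (0 : ℝ) ≤ v := Nat.cast_nonneg v
    -- the signs
    have hsgn : ∀ i : ℕ, i ≤ M →
        |((i : ℝ) + 1 / 2) * X - Y - ((i : ℝ) + 1 / 2 - v) * Q ^ v| ≤ Q ^ v / 2 := by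
      intro i hi
      have hiM : (i : ℝ) ≤ M := by exact_mod_cast hi
      have hi0 : (0 : ℝ) ≤ i := Nat.cast_nonneg i
      have h2 : ((i : ℝ) + 1 / 2) * X - Y - ((i : ℝ) + 1 / 2 - v) * Q ^ v =
          ∑ a ∈ Finset.range v, ((n a : ℝ) * ((i : ℝ) + 1 / 2 - a)) * Q ^ a := by
        have h3 : ∑ a ∈ Finset.range v, ((n a : ℝ) * ((i : ℝ) + 1 / 2 - a)) * Q ^ a =
            ((i : ℝ) + 1 / 2) * ∑ a ∈ Finset.range v, (n a : ℝ) * Q ^ a -
              ∑ a ∈ Finset.range v, (n a : ℝ) * (a * Q ^ a) := by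
          rw [Finset.mul_sum, ← Finset.sum_sub_distrib]
          refine Finset.sum_congr rfl fun a _ => ?_
          ring
        rw [h3, hX, hY]
        ring
      rw [h2]
      refine (cone_lac hQ1 hv.le (R := K * (M + 1)) (by positivity) fun a ha => ?_).trans ?_
      · rw [abs_mul]
        refine mul_le_mul (hnR a) ?_ (abs_nonneg _) hK0
        have ha1 : (a : ℝ) + 1 ≤ v := by exact_mod_cast ha
        have ha0 : (0 : ℝ) ≤ a := Nat.cast_nonneg a
        rw [abs_le]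
        constructor <;> linarith
      · have h3 : 0 ≤ Q ^ v := by positivity
        have h4 := mul_le_mul_of_nonneg_right hQ2 h3
        rw [← mul_div_assoc, div_le_div_iff₀ hQ0 (by norm_num)]
        calc (M : ℝ) * (K * (M + 1)) * Q ^ v * 2 = 2 * K * M * (M + 1) * Q ^ v := by ring
          _ ≤ Q * Q ^ v := h4
          _ = Q ^ v * Q := by ring
    have hQv : 0 ≤ Q ^ v := by positivity
    have hneg : ∀ i < v, lam i * (((i : ℝ) + 1 / 2) * X - Y) ≤ 0 := by
      intro i hi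
      refine mul_nonpos_of_nonneg_of_nonpos (hlam0 i) ?_
      have h2 := (abs_le.1 (hsgn i (by omega))).2
      have h3 : (i : ℝ) + 1 ≤ v := by exact_mod_cast hi
      have h4 : ((i : ℝ) + 1 / 2 - v) * Q ^ v ≤ (-1 / 2) * Q ^ v :=
        mul_le_mul_of_nonneg_right (by linarith) hQv
      linarith
    have hpos : ∀ i, v ≤ i → i ≤ M → 0 ≤ lam i * (((i : ℝ) + 1 / 2) * X - Y) := by
      intro i hi hi'
      refine mul_nonneg (hlam0 i) ?_
      have h2 := (abs_le.1 (hsgn i hi')).1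
      have h3 : (v : ℝ) ≤ i := by exact_mod_cast hi
      have h4 : (1 / 2) * Q ^ v ≤ ((i : ℝ) + 1 / 2 - v) * Q ^ v :=
        mul_le_mul_of_nonneg_right (by linarith) hQv
      linarith
    have hψv : ψ X Y = -∑ i ∈ Finset.range v, lam i * (((i : ℝ) + 1 / 2) * X - Y) := by
      apply le_antisymm
      · obtain ⟨j, hj, he⟩ := hψ2 X Y
        rw [he, neg_le_neg_iff]
        exact cone_sum hneg hpos hj
      · exact hψ1 X Y v hv.le
    have hexp : -∑ i ∈ Finset.range v, lam i * (((i : ℝ) + 1 / 2) * X - Y) =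
        -(∑ a ∈ Finset.range v, (n a : ℝ) * ∑ i ∈ Finset.range v, w i a) -
          ∑ i ∈ Finset.range v, w i v := by
      have h2 : ∑ a ∈ Finset.range v, (n a : ℝ) * ∑ i ∈ Finset.range v, w i a =
          ∑ i ∈ Finset.range v, ∑ a ∈ Finset.range v, (n a : ℝ) * w i a := by
        rw [Finset.sum_comm]
        refine Finset.sum_congr rfl fun a _ => ?_
        rw [Finset.mul_sum]
      rw [h2, neg_sub_left, ← Finset.sum_add_distrib]
      congr 1
      refine Finset.sum_congr rfl fun i _ => ?_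
      have h3 : ∑ a ∈ Finset.range v, (n a : ℝ) * w i a =
          lam i * (((i : ℝ) + 1 / 2) * ∑ a ∈ Finset.range v, (n a : ℝ) * Q ^ a -
            ∑ a ∈ Finset.range v, (n a : ℝ) * (a * Q ^ a)) := by
        rw [Finset.mul_sum, ← Finset.sum_sub_distrib, Finset.mul_sum]
        refine Finset.sum_congr rfl fun a _ => ?_
        rw [hw]
        ring
      rw [h3, hX, hY, hw]
      ring
    rw [hψv, hexp]
    have hmain : ∑ a ∈ Finset.range v, (n a : ℝ) * τ a + τ v +
        (-(∑ a ∈ Finset.range v, (n a : ℝ) * ∑ i ∈ Finset.range v, w i a) -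
          ∑ i ∈ Finset.range v, w i v) - t v =
        ∑ a ∈ Finset.range v, (n a : ℝ) * -(∑ i ∈ Finset.Ico (a + 1) v, w i a) := by
      have h2 : τ v = t v + ∑ i ∈ Finset.range v, w i v := by rw [hτ]
      have h3 : ∑ a ∈ Finset.range v, (n a : ℝ) * -(∑ i ∈ Finset.Ico (a + 1) v, w i a) =
          ∑ a ∈ Finset.range v, (n a : ℝ) * τ a -
            ∑ a ∈ Finset.range v, (n a : ℝ) * ∑ i ∈ Finset.range v, w i a := by
        rw [← Finset.sum_sub_distrib]
        refine Finset.sum_congr rfl fun a ha => ?_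
        have ha := Finset.mem_range.1 ha
        have h4 : ∑ i ∈ Finset.range v, w i a = ∑ i ∈ Finset.range a, w i a +
            (w a a + ∑ i ∈ Finset.Ico (a + 1) v, w i a) := by
          have h5 := Finset.sum_eq_sum_Ico_succ_bot ha (fun i => w i a)
          have h6 := Finset.sum_range_add_sum_Ico (fun i => w i a) ha.le
          linarith
        rw [h4, hwaa, hτ]
        ring
      rw [h3, h2]
      ring
    rw [hmain]
    have hbd : ∀ a ∈ Finset.range v, |(n a : ℝ) * -(∑ i ∈ Finset.Ico (a + 1) v, w i a)| ≤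
        K * (M * (2 * S * (M + 1) / Q)) := by
      intro a ha
      have ha := Finset.mem_range.1 ha
      rw [abs_mul, abs_neg]
      refine mul_le_mul (hnR a) ?_ (abs_nonneg _) hK0
      calc |∑ i ∈ Finset.Ico (a + 1) v, w i a| ≤ ∑ i ∈ Finset.Ico (a + 1) v, |w i a| :=
            Finset.abs_sum_le_sum_abs _ _
        _ ≤ ∑ i ∈ Finset.Ico (a + 1) v, 2 * S * (M + 1) / Q := by
            refine Finset.sum_le_sum fun i hi => ?_
            rw [Finset.mem_Ico] at hi
            exact hwia i a (by omega) (by omega)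
        _ = ((v - (a + 1) : ℕ) : ℝ) * (2 * S * (M + 1) / Q) := by
            rw [Finset.sum_const, Nat.card_Ico, nsmul_eq_mul]
        _ ≤ M * (2 * S * (M + 1) / Q) := by
            refine mul_le_mul_of_nonneg_right ?_ (by positivity)
            exact_mod_cast (by omega : v - (a + 1) ≤ M)
    calc |∑ a ∈ Finset.range v, (n a : ℝ) * -(∑ i ∈ Finset.Ico (a + 1) v, w i a)|
        ≤ ∑ a ∈ Finset.range v, |(n a : ℝ) * -(∑ i ∈ Finset.Ico (a + 1) v, w i a)| :=
          Finset.abs_sum_le_sum_abs _ _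
      _ ≤ ∑ a ∈ Finset.range v, K * (M * (2 * S * (M + 1) / Q)) := Finset.sum_le_sum hbd
      _ = v * (K * (M * (2 * S * (M + 1) / Q))) := by
          rw [Finset.sum_const, Finset.card_range, nsmul_eq_mul]
      _ ≤ M * (K * (M * (2 * S * (M + 1) / Q))) :=
          mul_le_mul_of_nonneg_right (by linarith) (by positivity)
      _ = (8 * S * K * M * M * (M + 1)) / Q * (1 / 4) := by ring
      _ ≤ 1 * (1 / 4) := by
          refine mul_le_mul_of_nonneg_right ?_ (by norm_num)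
          rw [div_le_one hQ0]
          exact hQ4
      _ = 1 / 4 := by norm_num
  · intro n hn hsum
    by_contra hcon
    push Not at hcon
    obtain ⟨a0, ha0, hna0⟩ := hcon
    have hne : ((Finset.range M).filter (fun a => n a ≠ 0)).Nonempty :=
      ⟨a0, Finset.mem_filter.2 ⟨Finset.mem_range.2 ha0, hna0⟩⟩
    obtain ⟨v, hv, hmax⟩ := Finset.exists_max_image _ (fun a => a) hne
    rw [Finset.mem_filter, Finset.mem_range] at hv
    have h0 : (∑ a ∈ Finset.range M, n a • Z a) 0 = 0 := by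
      rw [hsum]
      rfl
    rw [cone_coord] at h0
    simp only [hZ0] at h0
    have h2 : ∑ a ∈ Finset.range (v + 1), (n a : ℝ) * Q ^ a =
        ∑ a ∈ Finset.range M, (n a : ℝ) * Q ^ a := by
      refine Finset.sum_subset (Finset.range_mono (by omega)) fun a ha ha' => ?_
      have h3 : v < a := by
        by_contra hc
        exact ha' (Finset.mem_range.2 (by omega))
      have h4 : n a = 0 := by
        by_contra hc
        have := hmax a (Finset.mem_filter.2 ⟨ha, hc⟩)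
        omega
      rw [h4, Int.cast_zero, zero_mul]
    rw [← h2, Finset.sum_range_succ] at h0
    have h3 : |∑ a ∈ Finset.range v, (n a : ℝ) * Q ^ a| ≤ M * (2 * K) * (Q ^ v / Q) := by
      refine cone_lac hQ1 hv.1.le (by positivity) fun a _ => ?_
      have := hn a
      have h4 : ((|n a| : ℤ) : ℝ) ≤ ((2 * K : ℤ) : ℝ) := by exact_mod_cast this
      rw [Int.cast_abs] at h4
      push_cast at h4
      exact h4
    have h4 : |(n v : ℝ) * Q ^ v| = |∑ a ∈ Finset.range v, (n a : ℝ) * Q ^ a| := by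
      have : (n v : ℝ) * Q ^ v = -∑ a ∈ Finset.range v, (n a : ℝ) * Q ^ a := by linarith
      rw [this, abs_neg]
    rw [← h4, abs_mul, abs_of_nonneg (pow_nonneg hQ0.le v)] at h3
    have h5 : (1 : ℝ) ≤ |(n v : ℝ)| := by
      have := Int.one_le_abs hv.2
      have h6 : ((1 : ℤ) : ℝ) ≤ ((|n v| : ℤ) : ℝ) := by exact_mod_cast this
      rw [Int.cast_abs, Int.cast_one] at h6
      exact h6
    have hQv : 0 < Q ^ v := by positivity
    have h6 : 1 * Q ^ v ≤ M * (2 * K) * (Q ^ v / Q) :=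
      (mul_le_mul_of_nonneg_right h5 hQv.le).trans h3
    have h7 : M * (2 * K) * (Q ^ v / Q) = (2 * K * M) / Q * Q ^ v := by ring
    rw [h7] at h6
    have h8 := le_of_mul_le_mul_right h6 hQv
    rw [le_div_iff₀ hQ0] at h8
    linarith

end Pool.Agent.H311.CB
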