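import Pool.Agent.H311.CB.Defs3

/-!
(U2) The functions `σ` and `β`.
-/

set_option autoImplicit false

open MeasureTheory Metric Set Filter Topology
open scoped ENNReal NNReal Real RealInnerProductSpace ContDiff Pointwise

namespace Pool.Agent.H311.CB

/-- the integrated smooth transition -/
noncomputable def funsG (a w t : ℝ) : ℝ := ∫ s in a..t, Real.smoothTransition ((s - a) / w)

theorem funs_cont (a w : ℝ) : Continuous fun s : ℝ => Real.smoothTransition ((s - a) / w) :=
  Real.smoothTransition.continuous.comp ((continuous_id.sub continuous_const).div_const w)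

theorem funs_hasDeriv (a w t : ℝ) :
    HasDerivAt (funsG a w) (Real.smoothTransition ((t - a) / w)) t :=
  ((funs_cont a w).integral_hasStrictDerivAt a t).hasDerivAt

theorem funs_deriv (a w : ℝ) :
    deriv (funsG a w) = fun t => Real.smoothTransition ((t - a) / w) :=
  funext fun t => (funs_hasDeriv a w t).deriv

theorem funs_diff (a w : ℝ) : Differentiable ℝ (funsG a w) :=
  fun t => (funs_hasDeriv a w t).differentiableAt

theorem funs_smooth (a w : ℝ) : ContDiff ℝ ∞ (funsG a w) := by
  rw [contDiff_infty_iff_deriv]
  refine ⟨funs_diff a w, ?_⟩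
  rw [funs_deriv]
  exact Real.smoothTransition.contDiff.comp ((contDiff_id.sub contDiff_const).div_const w)

theorem funs_convex (a w : ℝ) (hw : 0 < w) : ConvexOn ℝ univ (funsG a w) := by
  apply Monotone.convexOn_univ_of_deriv (funs_diff a w)
  rw [funs_deriv]
  intro s t hst
  apply Real.smoothTransition.monotone
  apply div_le_div_of_nonneg_right _ hw.le
  linarith

theorem funs_mono (a w : ℝ) : Monotone (funsG a w) := by
  apply monotone_of_deriv_nonneg (funs_diff a w)
  intro t
  rw [funs_deriv]
  exact Real.smoothTransition.nonneg _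

theorem funs_lip (a w s t : ℝ) : |funsG a w s - funsG a w t| ≤ |s - t| := by
  have h := Convex.norm_image_sub_le_of_norm_deriv_le (f := funsG a w) (C := 1) (s := univ)
    (x := t) (y := s) (fun x _ => (funs_diff a w) x) (fun x _ => by
      rw [funs_deriv, Real.norm_eq_abs, abs_of_nonneg (Real.smoothTransition.nonneg _)]
      exact Real.smoothTransition.le_one _) convex_univ (mem_univ _) (mem_univ _)
  rw [one_mul, Real.norm_eq_abs, Real.norm_eq_abs] at h
  exact h

theorem funs_zero (a w t : ℝ) (hw : 0 < w) (ht : t ≤ a) : funsG a w t = 0 := by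
  unfold funsG
  rw [intervalIntegral.integral_congr (g := fun _ => (0 : ℝ))]
  · simp
  · intro s hs
    rw [uIcc_of_ge ht] at hs
    exact Real.smoothTransition.zero_of_nonpos (div_nonpos_of_nonpos_of_nonneg
      (by linarith [hs.2]) hw.le)

theorem funs_nonneg (a w t : ℝ) (hw : 0 < w) : 0 ≤ funsG a w t := by
  rcases le_total t a with h | h
  · rw [funs_zero a w t hw h]
  · rw [← funs_zero a w a hw le_rfl]
    exact funs_mono a w h

theorem funs_le (a w t : ℝ) (hw : 0 < w) (ht : a ≤ t) : funsG a w t ≤ t - a := by
  have h := funs_lip a w t a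
  rw [funs_zero a w a hw le_rfl, sub_zero, abs_of_nonneg (funs_nonneg a w t hw),
    abs_of_nonneg (by linarith)] at h
  exact h

theorem funs_ge (a w t : ℝ) (hw : 0 < w) (ht : a ≤ t) : t - a - w ≤ funsG a w t := by
  rcases le_total t (a + w) with h | h
  · have := funs_nonneg a w t hw
    linarith
  · have h1 : funsG a w t - funsG a w (a + w) = t - (a + w) := by
      unfold funsG
      rw [intervalIntegral.integral_interval_sub_left ((funs_cont a w).intervalIntegrable _ _)
        ((funs_cont a w).intervalIntegrable _ _)]
      rw [intervalIntegral.integral_congr (g := fun _ => (1 : ℝ))]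
      · simp
      · intro s hs
        rw [uIcc_of_le h] at hs
        apply Real.smoothTransition.one_of_one_le
        rw [le_div_iff₀ hw]
        linarith [hs.1]
    have h2 := funs_nonneg a w (a + w) hw
    linarith

theorem funs : S_fun := by
  refine ⟨⟨funsG (-1) 2, ?_⟩, ⟨funsG 1 3, ?_⟩⟩
  · have hw : (0 : ℝ) < 2 := by norm_num
    refine ⟨funs_smooth _ _, funs_convex _ _ hw, funs_mono _ _, fun t => funs_nonneg _ _ t hw,
      fun t ht => funs_zero _ _ t hw ht, fun t => ?_, fun s t => funs_lip _ _ s t⟩
    rcases le_total t (-1) with h | h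
    · rw [funs_zero _ _ t hw h, max_eq_left (by linarith)]
      norm_num
    · have h1 := funs_le (-1) 2 t hw h
      have h2 := funs_ge (-1) 2 t hw h
      have h3 := funs_nonneg (-1) 2 t hw
      rw [abs_le]
      rcases le_total t 0 with h4 | h4
      · rw [max_eq_left h4]
        constructor <;> linarith
      · rw [max_eq_right h4]
        constructor <;> linarith
  · have hw : (0 : ℝ) < 3 := by norm_num
    refine ⟨funs_smooth _ _, funs_convex _ _ hw, funs_mono _ _,
      fun t ht => funs_zero _ _ t hw ht, fun t ht => ?_, fun t ht => ?_, fun t ht => ?_,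
      fun t => ?_, fun t ht => ?_, fun s t => funs_lip _ _ s t⟩
    · rcases le_total t 1 with h | h
      · rw [funs_zero _ _ t hw h]
        exact ht
      · have := funs_le 1 3 t hw h
        linarith
    · rcases le_total t 1 with h | h
      · rw [funs_zero _ _ t hw h]
        linarith
      · have := funs_ge 1 3 t hw h
        linarith
    · rw [funs_deriv]
      apply Real.smoothTransition.pos_of_pos
      apply div_pos _ hw
      linarith
    · rw [funs_deriv]
      exact ⟨Real.smoothTransition.nonneg _, Real.smoothTransition.le_one _⟩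
    · rw [funs_deriv]
      apply Real.smoothTransition.one_of_one_le
      rw [le_div_iff₀ hw]
      linarith

end Pool.Agent.H311.CB
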