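import Pool.Agent.H311.CB.Defs2

/-!
# Smooth convex bodies: definitions and interfaces

Goal: for `d ≥ 3` there are convex bodies `{Θ ≤ 1}` in `ℝᵈ`, `Θ` a convex `C^∞` function, close to
`‖·‖²` in `C¹`, with positive definite Hessian off a subspace of codimension two, for which the
maximal estimate over the dilates fails.
-/

set_option autoImplicit false

open MeasureTheory Metric Set Filter Topology
open scoped ENNReal NNReal Real RealInnerProductSpace ContDiff Pointwise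

namespace Pool.Agent.H311.CB

open Pool.Agent.H311.PM

/-- the ridge function `∑_{i<M} lam i * max 0 (y - (i + 1/2) x)` -/
noncomputable def ridge (M : ℕ) (lam : ℕ → ℝ) (x y : ℝ) : ℝ :=
  ∑ i ∈ Finset.range M, lam i * max 0 (y - ((i : ℝ) + 1 / 2) * x)

/-- (U1) THE CONE, with an explicit sublinear function. This is `S_cone` (proved in
`Pool/Agent/H311/CB/Cone.lean`) with `ψ = ridge M lam` for some `lam ≥ 0`.

Paper proof. As for `S_cone` (see `Defs2.lean`), with the same `lam i = 2 t i / Q^i`, `h i`, `Z a`. In the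
symbols there `(i + 1/2) X - Y` is `≥ 0` for `v ≤ i` and `≤ 0` for `i < v`, hence
`ridge M lam X Y = ∑_{i<v} lam i (Y - (i + 1/2) X) = - ∑_{i<v} h i (X, Y) = g v (X, Y)`, which is the
value used there. The rest of the proof does not change. -/
def S_cone2 : Prop :=
  ∀ (k M K : ℕ) (t : ℕ → ℝ), (∀ v, 0 < t v) → ∃ (lam : ℕ → ℝ) (Z : ℕ → E (k + 3)),
    (∀ i, 0 ≤ lam i) ∧
    (∀ v < M, ∀ n : ℕ → ℤ, n v = 1 → (∀ w, v < w → n w = 0) → (∀ a, |n a| ≤ K) →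
      |(∑ a ∈ Finset.range M, n a • Z a) 2 + ridge M lam ((∑ a ∈ Finset.range M, n a • Z a) 0)
        ((∑ a ∈ Finset.range M, n a • Z a) 1) - t v| ≤ 1 / 4) ∧
    (∀ n : ℕ → ℤ, (∀ a, |n a| ≤ 2 * K) → ∑ a ∈ Finset.range M, n a • Z a = 0 →
      ∀ a < M, n a = 0)

/-- properties of the smoothed positive part -/
structure IsSigma (σ : ℝ → ℝ) : Prop where
  smooth : ContDiff ℝ ∞ σ
  convex : ConvexOn ℝ univ σ
  mono : Monotone σ
  nonneg : ∀ t, 0 ≤ σ t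
  zero : ∀ t ≤ -1, σ t = 0
  near : ∀ t, |σ t - max 0 t| ≤ 2
  lip : ∀ s t, |σ s - σ t| ≤ |s - t|

/-- properties of the function `β` -/
structure IsBeta (β : ℝ → ℝ) : Prop where
  smooth : ContDiff ℝ ∞ β
  convex : ConvexOn ℝ univ β
  mono : Monotone β
  zero : ∀ t ≤ 1, β t = 0
  le : ∀ t, 0 ≤ t → β t ≤ t
  far : ∀ t, 0 ≤ t → t - 4 ≤ β t
  pos : ∀ t, 1 < t → 0 < deriv β t
  bd : ∀ t, 0 ≤ deriv β t ∧ deriv β t ≤ 1
  one : ∀ t, 4 ≤ t → deriv β t = 1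
  lip : ∀ s t, |β s - β t| ≤ |s - t|

/-- (U2) Existence of `σ` and `β`.

Paper proof. Let `χ = Real.smoothTransition` (`C^∞`, monotone, values in `[0,1]`, `0` on `(-∞, 0]`,
positive on `(0, ∞)`, `1` on `[1, ∞)`). Put `σ t = ∫_{-1}^t χ((s+1)/2) ds` and
`β t = ∫_1^t χ((s-1)/3) ds`. The derivatives are `χ((t+1)/2)` and `χ((t-1)/3)` (fundamental theorem of
calculus), so both functions are `C^∞` (`contDiff_infty_iff_deriv`), convex (monotone derivative),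
monotone and `1`-Lipschitz; `σ = 0` on `(-∞,-1]`, and for `t ≥ 1`
`σ t - t` is constant with value in `[-1, 1]`; `β = 0` on `(-∞, 1]`; `β t = t - c` for `t ≥ 4` with
`1 ≤ c ≤ 4`. -/
def S_fun : Prop := (∃ σ, IsSigma σ) ∧ (∃ β, IsBeta β)

/-- (U3) A series of smooth functions on the plane with sufficiently small coefficients is smooth.

Paper proof. Let `χ j` be a `ContDiffBump` with centre `0`, equal to `1` on the ball of radius `j + 1`,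
supported in the ball of radius `j + 2`. For `i ≤ j` the function `iteratedFDeriv ℝ i (χ j * T j)` is
continuous with compact support, so bounded by some `B j ≥ 1` (the maximum over `i ≤ j`). Put
`A j = 2^(-j) / B j`. Let `0 ≤ a j ≤ A j`. For `x` in the open ball of radius `R ∈ ℕ` and `j ≥ R` we have
`T j = χ j * T j` near `x`, so near `x` the sum is `∑_{j<R} a j T j + ∑'_{j} a (j+R) χ(j+R) T(j+R)`, where
the second sum is `C^∞` by `contDiff_tsum_of_eventually` (for each `i` the `i`-th derivatives of the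
`j`-th term are bounded by `2^(-j)` for all `j ≥ i`). -/
def S_smoothsum : Prop :=
  ∀ T : ℕ → ℝ × ℝ → ℝ, (∀ j, ContDiff ℝ ∞ (T j)) → ∃ A : ℕ → ℝ, (∀ j, 0 < A j) ∧
    ∀ a : ℕ → ℝ, (∀ j, 0 ≤ a j ∧ a j ≤ A j) → (∀ x, Summable fun j => a j * T j x) ∧
      ContDiff ℝ ∞ (fun x => ∑' j, a j * T j x)

/-- `x_j = -4^(-j)` -/
noncomputable def xj (j : ℕ) : ℝ := -(1 / 4) ^ j

/-- the tangential scale `s_j = 4^(-j) / (16 (j+1))` -/
noncomputable def sj (j : ℕ) : ℝ := (1 / 4) ^ j / (16 * (j + 1))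

/-- the smoothing scale `δ_j = s_j / (j+1)` -/
noncomputable def dj (j : ℕ) : ℝ := sj j / (j + 1)

/-- the `j`-th term: a smoothed ridge function at the point `(x_j, 0)` plus a small radial term -/
noncomputable def TT (σ β : ℝ → ℝ) (M : ℕ) (lam : ℕ → ℝ) (j : ℕ) (z : ℝ × ℝ) : ℝ :=
  ∑ i ∈ Finset.range M, lam i * (dj j * σ ((z.2 - ((i : ℝ) + 1 / 2) * (z.1 - xj j)) / dj j)) +
    (1 / 16) ^ j / (j + 1) * β ((z.1 ^ 2 + z.2 ^ 2) / (1 / 16) ^ j)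

/-- (U4) Properties of the terms.

Paper proof. Smoothness: composition. Convexity: `σ` convex composed with an affine map; `β` convex
and monotone composed with the convex function `(x² + y²)/16^(-j)`. Nonnegativity: `β ≥ 0` since it is
monotone and vanishes at `1 ≥ t` or is `≥ β 1 = 0`; `σ ≥ 0`. (zero) At `z = 0` the argument of `σ` is
`(i + 1/2) x_j / δ_j ≤ -1`, since `δ_j ≤ 4^(-j)/16`; `β 0 = 0`. (van) Let `i < j` and `‖z - (x_j, 0)‖ ≤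
4^(-j)/16` (sup norm). Then `z.1 - x_i ≥ 4^(-i) - (17/16) 4^(-j) ≥ (7/10) 4^(-i)`,
`z.2 ≤ 4^(-j)/16 ≤ 4^(-i)/64`, so the argument of `σ` in `TT i` is at most
`(4^(-i)/64 - (7/20) 4^(-i))/δ_i ≤ -1`; and `z.1² + z.2² ≤ ((17/16)² + 1/256) 16^(-j) ≤ 16^(-i)`, so
`β = β(≤1) = 0`. (lip) On the unit ball the function is Lipschitz: `σ` and `β` are `1`-Lipschitz and the
arguments are Lipschitz on bounded sets; the constant may depend on `j`. (main) Put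
`z = (x_j, 0) + s_j u`, `‖u‖ ≤ R`. `δ σ(s n·u / δ)` differs from `s max 0 (n·u)` by at most `2 δ`, so the
first sum differs from `s_j ridge u` by at most `2 δ_j ∑ lam i = 2 s_j ∑ lam i / (j+1)`. The radial term
is bounded by `16^(-j)/(j+1) * (its argument) ≤ (z.1² + z.2²)/(j+1) ≤ 4 R'² 16^(-j)`, hmm, use instead
the difference: the radial term at `z` minus the radial term at `(x_j,0)` is at most
`(1/(j+1)) |z.1² + z.2² - x_j²| ≤ (1/(j+1)) (2 |x_j| s_j R + 2 s_j² R²) ≤ s_j (2R + 2R²)/(j+1)`. And the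
first sum at `(x_j, 0)` is between `0` and `2 δ_j ∑ lam i`. -/
def S_terms : Prop :=
  ∀ (σ β : ℝ → ℝ), IsSigma σ → IsBeta β → ∀ (M : ℕ) (lam : ℕ → ℝ), (∀ i, 0 ≤ lam i) → ∀ j : ℕ,
    ContDiff ℝ ∞ (TT σ β M lam j) ∧ ConvexOn ℝ univ (TT σ β M lam j) ∧
    (∀ z, 0 ≤ TT σ β M lam j z) ∧ TT σ β M lam j 0 = 0 ∧
    (∀ l, j < l → ∀ z : ℝ × ℝ, ‖z - (xj l, 0)‖ ≤ (1 / 4) ^ l / 16 → TT σ β M lam j z = 0) ∧
    (∃ G : ℝ, 0 < G ∧ ∀ z w : ℝ × ℝ, ‖z‖ ≤ 2 → ‖w‖ ≤ 2 →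
      |TT σ β M lam j z - TT σ β M lam j w| ≤ G * ‖z - w‖) ∧
    (∀ (R : ℝ), 0 ≤ R → ∀ u : ℝ × ℝ, ‖u‖ ≤ R →
      |TT σ β M lam j ((xj j, 0) + sj j • u) - TT σ β M lam j (xj j, 0) -
        sj j * ridge M lam u.1 u.2| ≤
        sj j * (4 * ∑ i ∈ Finset.range M, lam i + 2 * R + 2 * R ^ 2) / (j + 1))

/-- `Φ` has the sublinear function `ψ` as a blow-up at the origin. -/
def BlowsUpTo (Φ : ℝ × ℝ → ℝ) (ψ : ℝ → ℝ → ℝ) : Prop :=
  ∃ (ξ : ℕ → ℝ × ℝ) (s e : ℕ → ℝ), Tendsto ξ atTop (𝓝 0) ∧ Tendsto s atTop (𝓝 0) ∧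
    (∀ j, 0 < e j ∧ e j ≤ s j) ∧
    ∀ R : ℝ, ∀ η : ℝ, 0 < η → ∀ᶠ j in atTop, ∀ u : ℝ × ℝ, ‖u‖ ≤ R →
      |Φ (ξ j + s j • u) - Φ (ξ j) - e j * ψ u.1 u.2| ≤ η * e j

/-- (U5) THE SERIES.

Paper proof. Let `m j = (Nat.unpair j).1` and `T j = TT σ β (M (m j)) (lam (m j)) j`, let `A` be the
thresholds of `S_smoothsum` for `T` and `G j` the Lipschitz constants. Choose `a j` recursively with
`0 < a j ≤ min (A j) 1`, `a (j+1) ≤ a j / 2` and `a (j+1) * G (j+1) ≤ 2^(-(j+2)) * a j`, and so small that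
moreover `a i * G i ≤ 2^(-i) * a j` for all `j < i` (follows from the previous conditions since `a` is
decreasing). `S = ∑' a j T j` is `C^∞`, convex (sum of convex functions, pointwise limits), `≥ 0`, `S 0 = 0`.
Hessian: let `z ≠ 0`, choose `i` with `16^(-i) < z.1² + z.2²`. `S = c B + P` with
`B z = β((z.1² + z.2²)/16^(-i))`, `c = a i 16^(-i)/(i+1) > 0`, and `P = S - c B` is convex (a sum of
convex functions: all other terms, and the `σ` terms of `T i`) and `C^∞`. The second derivative of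
`t ↦ P(z + t h)` at `0` is `≥ 0` (convexity), that of `t ↦ B(z + t h)` is
`β'(q) 2|h|²/16^(-i) + β''(q) (2 z·h/16^(-i))² > 0` (`q > 1`, `β'(q) > 0`, `β'' ≥ 0`).
Blow-up: for given `m` use the sequence `j = Nat.pair m n`, `n → ∞` (then `(Nat.unpair j).1 = m`, `j ≥ n`),
`ξ = (x_j, 0)`, `s = s_j`, `e = a_j s_j ≤ s_j`. For `‖u‖ ≤ R` and `j` large (`R s_j ≤ 4^(-j)/16`):
`S(ξ + s u) - S(ξ)` is the sum of: the terms `i < j`: zero, both values vanish; the term `j`: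
`a_j (s_j ψ_m(u) + error)`, error `≤ s_j (4 Λ_m + 2R + 2R²)/(j+1)` by (U4); the terms `i > j`: at most
`∑_{i>j} a_i G_i s_j R ≤ a_j s_j R ∑_{i>j} 2^(-i) ≤ e R 2^(-j)`. -/
def S_series : Prop :=
  ∀ (M : ℕ → ℕ) (lam : ℕ → ℕ → ℝ), (∀ m i, 0 ≤ lam m i) →
    ∃ S : ℝ × ℝ → ℝ, ContDiff ℝ ∞ S ∧ ConvexOn ℝ univ S ∧ (∀ z, 0 ≤ S z) ∧ S 0 = 0 ∧
      (∀ z : ℝ × ℝ, z ≠ 0 → ∀ h : ℝ × ℝ, h ≠ 0 →
        0 < iteratedDeriv 2 (fun t : ℝ => S (z + t • h)) 0) ∧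
      ∀ m, BlowsUpTo S (ridge (M m) (lam m))

/-- the function on `ℝᵏ⁺³` -/
noncomputable def theta {k : ℕ} (Φ : ℝ × ℝ → ℝ) (ζ : E (k + 3)) : ℝ :=
  Φ (ζ 0, ζ 1) + ∑ i : Fin (k + 1), ζ i.succ.succ ^ 2

/-- (U6) BLOW-UP OF A SMOOTH BODY. Compare `Pool.Agent.H311.PM.blow`, `Pool.Agent.H311.PM.limit_mem`
(`Pool/Agent/H311/PM/Asm.lean`, `Blow.lean`) and `blowv` (`Pool/Agent/H311/CB/BlowV.lean`).

Paper proof. Write `ζ = (η, τ, y)` with `η = (ζ 0, ζ 1)`, `τ = ζ 2`, `y ∈ ℝᵏ` the other coordinates;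
`theta Φ ζ = Φ η + τ² + |y|²`; `K = {theta Φ ≤ 1}`. Let `ξ, s, e` be as in `BlowsUpTo`; `Φ (ξ j) → Φ 0 < 1`, so
for large `j` put `z = √(1 - Φ ξ_j) > 0`, `p = (ξ_j, z, 0)` and, with `ω = e/(2 z²)`,
`T ζ = (s η + ω τ ξ_j, ω τ z, e y)`, a linear automorphism with `T e_2 = ω p`. Let
`R' = 1 + ω r > 0`. For `p + T ζ ∈ R' • K` the condition is `R'⁻¹ (p + T ζ) = p + T ζ' ∈ K` with
`ζ' = R'⁻¹ (ζ - r e_2)`, since `R'⁻¹ p - p = - R'⁻¹ ω r p = - R'⁻¹ r T e_2`. As `j → ∞`, `ζ' → ζ - r e_2`. For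
bounded `ζ' = (η, τ, y)`, with `t = ω τ`:
`theta Φ (p + T ζ') - 1 = (1+t)² z² - z² + e² |y|² + Φ(ξ + s (η + (t/s) ξ)) - Φ(ξ)
 = e τ + t² z² + e² |y|² + e ψ(η + (t/s) ξ) + o(e)`, where `t = O(e)`, `t² = o(e)`, `e² = o(e)`,
`(t/s) ξ → 0` (as `e ≤ s`, `ξ → 0`; `e → 0` since `e ≤ s → 0`), and `ψ` is continuous. So
`(theta Φ (p + T ζ') - 1)/e → (ζ 2 - r) + ψ (ζ 0) (ζ 1)`, and for `ζ` with
`ζ 2 + ψ (ζ 0) (ζ 1) ≠ r` the membership `p + T ζ ∈ R' • K` is for large `j` equivalent to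
`ζ 2 + ψ (ζ 0) (ζ 1) ≤ r`. The exceptional set `{ζ 2 + ψ (ζ 0) (ζ 1) = r}` is a null set (translates in the
direction `e_2`; same proof as `Pool.Agent.H311.PM.null_pv`). Conclude with `FM.comp`, `FM.translate`,
`FM.linear`, `FM.of_tendsto` (for the finitely many small `j` for which `z` or `R'` does not make
sense use the values `1`, or shift the sequence). -/
def S_blow2 : Prop :=
  ∀ (k : ℕ) (ψ : ℝ → ℝ → ℝ), Sublin ψ → ∀ Φ : ℝ × ℝ → ℝ, Continuous Φ → Φ 0 < 1 →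
    BlowsUpTo Φ ψ → ∀ C : ℝ≥0,
      FM (fun R : {R : ℝ // 0 < R} => (R : ℝ) • {ζ : E (k + 3) | theta Φ ζ ≤ 1}) C →
        FM (fun r : ℝ => {ζ : E (k + 3) | ζ 2 + ψ (ζ 0) (ζ 1) ≤ r}) C

end Pool.Agent.H311.CB
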