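import Pool.Agent.H311.CB.Lower
import Pool.Agent.H311.CB.Defs3

/-!
# Lower bounds for the maximal functions of cones with ridge functions
-/

set_option autoImplicit false

open MeasureTheory Finset
open scoped BigOperators ENNReal NNReal

namespace Pool.Agent.H311.CB

open Pool.Agent.H311.PM

/-- LOWER BOUND, for any sublinear function which orders the characters as prescribed. -/
theorem exists_LK (hT : S_transfer) (hP : S_poly) (k : ℕ) (C : ℝ≥0) :
    ∃ L K : ℕ, ∀ (ψ : ℝ → ℝ → ℝ) (Z : ℕ → E (k + 3)), Sublin ψ →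
      (∀ v < 2 ^ L, ∀ n : ℕ → ℤ, n v = 1 → (∀ w, v < w → n w = 0) → (∀ a, |n a| ≤ K) →
        |(∑ a ∈ Finset.range (2 ^ L), n a • Z a) 2 + ψ ((∑ a ∈ Finset.range (2 ^ L), n a • Z a) 0)
          ((∑ a ∈ Finset.range (2 ^ L), n a • Z a) 1) - (pos L v : ℝ)| ≤ 1 / 4) →
      (∀ n : ℕ → ℤ, (∀ a, |n a| ≤ 2 * K) → ∑ a ∈ Finset.range (2 ^ L), n a • Z a = 0 →
        ∀ a < 2 ^ L, n a = 0) →
      ¬ FM (fun r : ℝ => {ζ : E (k + 3) | ζ 2 + ψ (ζ 0) (ζ 1) ≤ r}) C := by
  -- the number of levels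
  obtain ⟨L, hL⟩ := exists_nat_gt (32 * (C : ℝ))
  have hL0 : 0 < (L : ℝ) := lt_of_le_of_lt (by positivity) hL
  obtain ⟨c, hc, hc1, hc2, hc3⟩ := hP (1 / L) (by positivity)
  have hcs : Sym c := hc
  obtain ⟨K1, hK1⟩ := bound_exists (gL c L)
  obtain ⟨K2, hK2⟩ := bound_exists (∑ C ∈ Ico (2 ^ L) (2 ^ (L + 1)), W c C * fC c L C)
  obtain ⟨K, hK⟩ : ∃ K, K = K1 + K2 := ⟨_, rfl⟩
  refine ⟨L, K, fun ψ Z hψ hZ1 hZ2 hFM => ?_⟩
  have hcont : Continuous fun ζ : E (k + 3) => ζ 2 + ψ (ζ 0) (ζ 1) := by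
    have h1 := blowv_cont hψ
    have h2 : Continuous fun ζ : E (k + 3) => (ζ 0, ζ 1) := by fun_prop
    have h3 : Continuous fun ζ : E (k + 3) => ψ (ζ 0) (ζ 1) := h1.comp h2
    exact (by fun_prop : Continuous fun ζ : E (k + 3) => ζ 2).add h3
  have hFM' := hFM.comp (fun i : ℕ => (i : ℝ) + 1 / 2)
  -- the frequencies
  have hlam : ∀ v ∈ Ico 1 (2 ^ L), ∀ n : ℕ →₀ ℤ, (F c v).coeff n ≠ 0 →
      |(lamZ Z n) 2 + ψ ((lamZ Z n) 0) ((lamZ Z n) 1) - pos L v| ≤ 1 / 4 := by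
    intro v hv n hn
    have h1 := F_supp (Finset.mem_Ico.1 hv).1 hn
    have h2 : (gL c L).coeff n ≠ 0 := by
      rw [coeff_gL hv hn]
      exact hn
    have h3 : ∀ a, |n a| ≤ (K : ℤ) := fun a => (hK1 n h2 a).trans (by
      rw [hK]; push_cast; linarith [Int.natCast_nonneg K2])
    have h4 := hZ1 v (Finset.mem_Ico.1 hv).2 n h1.1 h1.2 h3
    rw [lamZ_eq Z (gL_low c L n h2)]
    exact h4
  have hres := hT (k + 3) ℕ (fun i => {ζ : E (k + 3) | ζ 2 + ψ (ζ 0) (ζ 1) ≤ (i : ℝ) + 1 / 2}) C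
    (fun i => hcont.measurable measurableSet_Iic) hFM' (lamZ Z) (Ico (2 ^ L) (2 ^ (L + 1)))
    (gL c L) (fC c L) (W c) ?_ ?_ ?_ ?_
  · -- conclusion
    have hm := mean_eq hcs L
    have hn := norm_eq hcs L
    have ht := total_eq hcs L
    set G : ℝ := ∑ v ∈ Ico 1 (2 ^ L), M0 (W c v * W c v) with hG
    rw [hn] at hres
    have h0 : (∑ C ∈ Ico (2 ^ L) (2 ^ (L + 1)), W c C * fC c L C).coeff 0 =
        G * (c.coeff 1 / 2) := hm
    rw [h0] at hres
    set ρ : ℝ := (1 + ∑ n ∈ c.coeff.support, (c.coeff n) ^ 2) / 2 with hρ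
    have hρ1 : 1 - 1 / (2 * L) ≤ ρ := by
      rw [hρ]
      have : 1 / (2 * (L : ℝ)) = 1 / L / 2 := by field_simp
      rw [this]
      linarith
    have hρ0 : 0 ≤ ρ := by
      rw [hρ]
      have : 0 ≤ ∑ n ∈ c.coeff.support, (c.coeff n) ^ 2 := Finset.sum_nonneg fun _ _ => sq_nonneg _
      linarith
    have hGL : (L : ℝ) / 2 ≤ G := by
      rw [ht]
      have h1 : ∀ j ∈ range L, (1 / 2 : ℝ) ≤ ρ ^ j := by
        intro j hj
        have hjL : (j : ℝ) ≤ L := by exact_mod_cast (Finset.mem_range.1 hj).le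
        have hL1 : (1 : ℝ) ≤ L := by
          have : 1 ≤ L := by
            have := Finset.mem_range.1 hj
            omega
          exact_mod_cast this
        have h2 : -2 ≤ ρ - 1 := by linarith
        have h3 := one_add_mul_le_pow h2 j
        rw [show (1 : ℝ) + (ρ - 1) = ρ by ring] at h3
        refine le_trans ?_ h3
        have h4 : -(1 / (2 * L)) ≤ ρ - 1 := by linarith
        have h5 : (j : ℝ) * (-(1 / (2 * L))) ≤ j * (ρ - 1) :=
          mul_le_mul_of_nonneg_left h4 (Nat.cast_nonneg j)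
        have h6 : (j : ℝ) * (1 / (2 * L)) ≤ 1 / 2 := by
          calc (j : ℝ) * (1 / (2 * L)) ≤ L * (1 / (2 * L)) :=
                mul_le_mul_of_nonneg_right hjL (by positivity)
            _ = 1 / 2 := by field_simp
        linarith
      calc (L : ℝ) / 2 = ∑ _j ∈ range L, (1 / 2 : ℝ) := by
            rw [Finset.sum_const, Finset.card_range, nsmul_eq_mul]; ring
        _ ≤ _ := Finset.sum_le_sum h1
    have hG0 : 0 < G := by linarith
    have hc4 : 1 / 4 ≤ c.coeff 1 / 2 := by linarith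
    have h5 : (G * (1 / 4)) ^ 2 ≤ C * G := by
      refine le_trans ?_ hres
      refine pow_le_pow_left₀ (by positivity) ?_ 2
      exact mul_le_mul_of_nonneg_left hc4 hG0.le
    have h6 : G * (1 / 16) ≤ C := by
      have : G * (G * (1 / 16)) ≤ G * C := by nlinarith
      exact le_of_mul_le_mul_left this hG0
    linarith
  · -- classification
    intro i hi n
    by_cases hg : (gL c L).coeff n = 0
    · exact Or.inr (Or.inr ⟨fC_zero hg, hg⟩)
    · obtain ⟨v, hv, hn⟩ := exists_F hg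
      have h1 := hlam v hv n hn
      rw [abs_le] at h1
      rw [coeff_fC hv hn, coeff_gL hv hn]
      by_cases hp : pos L v ≤ i
      · left
        rw [if_pos hp]
        refine ⟨rfl, ?_⟩
        rw [mem_interior]
        refine ⟨{ζ : E (k + 3) | ζ 2 + ψ (ζ 0) (ζ 1) < (i : ℝ) + 1 / 2}, ?_,
          isOpen_lt hcont continuous_const, ?_⟩
        · intro ζ hζ
          have hζ' : ζ 2 + ψ (ζ 0) (ζ 1) < (i : ℝ) + 1 / 2 := hζ
          exact hζ'.le
        · show (lamZ Z n) 2 + ψ ((lamZ Z n) 0) ((lamZ Z n) 1) < (i : ℝ) + 1 / 2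
          have : (pos L v : ℝ) ≤ i := by exact_mod_cast hp
          linarith [h1.2]
      · right; left
        rw [if_neg hp]
        refine ⟨rfl, ?_⟩
        rw [mem_interior]
        refine ⟨{ζ : E (k + 3) | (i : ℝ) + 1 / 2 < ζ 2 + ψ (ζ 0) (ζ 1)}, ?_,
          isOpen_lt continuous_const hcont, ?_⟩
        · intro ζ hζ h
          have hζ' : (i : ℝ) + 1 / 2 < ζ 2 + ψ (ζ 0) (ζ 1) := hζ
          have h' : ζ 2 + ψ (ζ 0) (ζ 1) ≤ (i : ℝ) + 1 / 2 := h
          exact absurd hζ' (not_lt.2 h')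
        · show (i : ℝ) + 1 / 2 < (lamZ Z n) 2 + ψ ((lamZ Z n) 0) ((lamZ Z n) 1)
          have : (i : ℝ) + 1 ≤ (pos L v : ℝ) := by exact_mod_cast not_le.1 hp
          linarith [h1.1]
  · -- injectivity
    intro n hn m hm h
    have hn' := Finsupp.mem_support_iff.1 hn
    have hm' := Finsupp.mem_support_iff.1 hm
    have h1 : lamZ Z (n - m) = 0 := by rw [map_sub, h, sub_self]
    have hlow : ∀ w, 2 ^ L ≤ w → (n - m) w = 0 := by
      intro w hw
      rw [Finsupp.sub_apply, gL_low c L n hn' w hw, gL_low c L m hm' w hw, sub_zero]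
    rw [lamZ_eq Z hlow] at h1
    have h2 := hZ2 (n - m) (fun a => ?_) h1
    · ext a
      by_cases ha : a < 2 ^ L
      · have := h2 a ha
        rw [Pi.sub_apply] at this
        omega
      · rw [gL_low c L n hn' a (not_lt.1 ha), gL_low c L m hm' a (not_lt.1 ha)]
    · rw [Pi.sub_apply]
      have h3 := hK1 n hn' a
      have h4 := hK1 m hm' a
      rw [abs_le] at h3 h4 ⊢
      have : (K : ℤ) = K1 + K2 := by rw [hK]; push_cast; ring
      have := Int.natCast_nonneg K2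
      constructor <;> linarith [h3.1, h3.2, h4.1, h4.2]
  · -- non-degeneracy
    intro n hn h
    have hn' := Finsupp.mem_support_iff.1 hn
    have hlow : ∀ w, 2 ^ L ≤ w → n w = 0 := h_low c L n hn'
    rw [lamZ_eq Z hlow] at h
    have h2 := hZ2 n (fun a => ?_) h
    · ext a
      by_cases ha : a < 2 ^ L
      · exact h2 a ha
      · exact hlow a (not_lt.1 ha)
    · have h3 := hK2 n hn' a
      have : (K : ℤ) = K1 + K2 := by rw [hK]; push_cast; ring
      have h5 := Int.natCast_nonneg K1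
      have h6 := Int.natCast_nonneg K2
      linarith
  · intro x
    exact sum_ev_W (lamZ Z) x hcs hc1 L


theorem sublin_ridge (M : ℕ) {lam : ℕ → ℝ} (hlam : ∀ i, 0 ≤ lam i) : Sublin (ridge M lam) where
  hom := by
    intro t ht x y
    unfold ridge
    rw [Finset.mul_sum]
    refine Finset.sum_congr rfl fun i _ => ?_
    rw [show t * y - ((i : ℝ) + 1 / 2) * (t * x) = t * (y - ((i : ℝ) + 1 / 2) * x) by ring,
      ← mul_zero t, ← mul_max_of_nonneg _ _ ht, mul_zero]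
    ring
  sub := by
    intro x y x' y'
    unfold ridge
    rw [← Finset.sum_add_distrib]
    refine Finset.sum_le_sum fun i _ => ?_
    rw [← mul_add]
    refine mul_le_mul_of_nonneg_left ?_ (hlam i)
    refine max_le (add_nonneg (le_max_left _ _) (le_max_left _ _)) ?_
    have h1 := le_max_right 0 (y - ((i : ℝ) + 1 / 2) * x)
    have h2 := le_max_right 0 (y' - ((i : ℝ) + 1 / 2) * x')
    linarith
  bdd := by
    refine ⟨∑ i ∈ range M, lam i * ((i : ℝ) + 1), fun x y => ?_⟩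
    unfold ridge
    rw [Finset.sum_mul]
    refine (Finset.abs_sum_le_sum_abs _ _).trans (Finset.sum_le_sum fun i _ => ?_)
    rw [abs_mul, abs_of_nonneg (hlam i), mul_assoc]
    refine mul_le_mul_of_nonneg_left ?_ (hlam i)
    have h1 : |max 0 (y - ((i : ℝ) + 1 / 2) * x)| ≤ |y - ((i : ℝ) + 1 / 2) * x| := by
      rw [abs_of_nonneg (le_max_left _ _)]
      exact max_le (abs_nonneg _) (le_abs_self _)
    have h2 : |y - ((i : ℝ) + 1 / 2) * x| ≤ |y| + ((i : ℝ) + 1 / 2) * |x| := by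
      refine (abs_sub _ _).trans ?_
      rw [abs_mul, abs_of_nonneg (by positivity : (0 : ℝ) ≤ (i : ℝ) + 1 / 2)]
    have h3 := abs_nonneg x
    have h4 := abs_nonneg y
    have h5 : (0 : ℝ) ≤ (i : ℝ) := Nat.cast_nonneg i
    nlinarith [mul_nonneg h5 h4]

/-- LOWER BOUND for ridge functions -/
theorem exists_ridge (hT : S_transfer) (hP : S_poly) (hC : S_cone2) (k : ℕ) (C : ℝ≥0) :
    ∃ (M : ℕ) (lam : ℕ → ℝ), (∀ i, 0 ≤ lam i) ∧
      ¬ FM (fun r : ℝ => {ζ : E (k + 3) | ζ 2 + ridge M lam (ζ 0) (ζ 1) ≤ r}) C := by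
  obtain ⟨L, K, hLK⟩ := exists_LK hT hP k C
  obtain ⟨lam, Z, hlam, h1, h2⟩ := hC k (2 ^ L) K (fun v => (pos L v : ℝ)) (fun v => by
    unfold pos
    positivity)
  exact ⟨2 ^ L, lam, hlam, hLK _ Z (sublin_ridge _ hlam) h1 h2⟩

end Pool.Agent.H311.CB
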