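import Pool.Agent.H311.CB.Defs

/-!
# Typical convex bodies (helper311), task T3 (helper353): Laurent polynomials close to the sign of the
cosine
-/

set_option autoImplicit false

open MeasureTheory Metric Set Filter Topology
open scoped ENNReal NNReal Real RealInnerProductSpace ContDiff Pointwise

namespace Pool.Agent.H311.CB

/-- the iterates of `(3 x - x³) / 2` -/
noncomputable def polyQ : ℕ → ℝ → ℝ
  | 0, x => x
  | (m + 1), x => (3 * polyQ m x - polyQ m x ^ 3) / 2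

/-- `(T + T⁻¹) / 2` -/
noncomputable def polyX : AddMonoidAlgebra ℝ ℤ :=
  AddMonoidAlgebra.single 1 (1 / 2) + AddMonoidAlgebra.single (-1) (1 / 2)

/-- the iterates in the algebra -/
noncomputable def polyC : ℕ → AddMonoidAlgebra ℝ ℤ
  | 0 => polyX
  | (m + 1) => (3 / 2 : ℝ) • polyC m - (1 / 2 : ℝ) • (polyC m) ^ 3

/-- evaluation -/
noncomputable def polyE (z : ℂˣ) : AddMonoidAlgebra ℝ ℤ →ₐ[ℝ] ℂ :=
  AddMonoidAlgebra.lift ℝ ℂ ℤ ((Units.coeHom ℂ).comp (zpowersHom ℂˣ z))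

theorem polyE_eq (z : ℂˣ) (g : AddMonoidAlgebra ℝ ℤ) :
    polyE z g = ∑ n ∈ g.coeff.support, (g.coeff n : ℂ) * (z : ℂ) ^ n := by
  unfold polyE
  rw [AddMonoidAlgebra.lift_apply]
  simp [Finsupp.sum]

theorem polyE_single (z : ℂˣ) (n : ℤ) (a : ℝ) :
    polyE z (AddMonoidAlgebra.single n a) = a * (z : ℂ) ^ n := by
  unfold polyE
  rw [AddMonoidAlgebra.lift_single]
  simp

/-- the point of the circle -/
noncomputable def polyZ (θ : ℝ) : ℂˣ := Units.mk0 (Complex.exp (θ * Complex.I)) (Complex.exp_ne_zero _)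

theorem polyE_X (θ : ℝ) : polyE (polyZ θ) polyX = (Real.cos θ : ℂ) := by
  unfold polyX
  rw [map_add, polyE_single, polyE_single, zpow_one, zpow_neg_one]
  have h1 : ((polyZ θ : ℂˣ) : ℂ) = Complex.exp (θ * Complex.I) := rfl
  rw [h1, ← Complex.exp_neg, Complex.ofReal_cos, Complex.cos]
  push_cast
  rw [neg_mul]
  ring

theorem polyE_C (θ : ℝ) (m : ℕ) : polyE (polyZ θ) (polyC m) = (polyQ m (Real.cos θ) : ℂ) := by
  induction m with
  | zero => exact polyE_X θ
  | succ m ih =>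
    unfold polyC polyQ
    rw [map_sub, map_smul, map_smul, map_pow, ih, Complex.real_smul, Complex.real_smul]
    push_cast
    ring

theorem polyQ_step {x : ℝ} (h0 : 0 ≤ x) (h1 : x ≤ 1) :
    x ≤ (3 * x - x ^ 3) / 2 ∧ (3 * x - x ^ 3) / 2 ≤ 1 := by
  constructor
  · nlinarith [mul_nonneg h0 (sub_nonneg.2 h1), mul_nonneg (mul_nonneg h0 h0) (sub_nonneg.2 h1)]
  · nlinarith [mul_nonneg (sq_nonneg (1 - x)) (show 0 ≤ x + 2 by linarith)]

theorem polyQ_neg (m : ℕ) (x : ℝ) : polyQ m (-x) = -polyQ m x := by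
  induction m with
  | zero => rfl
  | succ m ih =>
    unfold polyQ
    rw [ih]
    ring

theorem polyQ_pos (m : ℕ) {x : ℝ} (h0 : 0 ≤ x) (h1 : x ≤ 1) : x ≤ polyQ m x ∧ polyQ m x ≤ 1 := by
  induction m with
  | zero => exact ⟨le_rfl, h1⟩
  | succ m ih =>
    have h2 := polyQ_step (h0.trans ih.1) ih.2
    exact ⟨ih.1.trans h2.1, h2.2⟩

theorem polyQ_abs (m : ℕ) {x : ℝ} (h : |x| ≤ 1) : |polyQ m x| ≤ 1 ∧ x ^ 2 ≤ polyQ m x * x := by
  rw [abs_le] at h
  rcases le_total 0 x with h0 | h0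
  · have h1 := polyQ_pos m h0 h.2
    refine ⟨abs_le.2 ⟨by linarith, h1.2⟩, ?_⟩
    nlinarith
  · have h1 := polyQ_pos m (x := -x) (by linarith) (by linarith)
    rw [polyQ_neg] at h1
    refine ⟨abs_le.2 ⟨by linarith, by linarith⟩, ?_⟩
    nlinarith

theorem polyQ_sq (m : ℕ) {x : ℝ} (h : |x| ≤ 1) :
    0 ≤ 1 - polyQ m x ^ 2 ∧ 1 - polyQ m x ^ 2 ≤ (1 - x ^ 2) ^ (2 ^ m) := by
  induction m with
  | zero =>
    have h1 : x ^ 2 ≤ 1 := by
      rw [← sq_abs]
      have := abs_nonneg x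
      nlinarith
    refine ⟨by show 0 ≤ 1 - x ^ 2; linarith, ?_⟩
    show 1 - x ^ 2 ≤ (1 - x ^ 2) ^ 1
    rw [pow_one]
  | succ m ih =>
    obtain ⟨y, hy⟩ : ∃ y, y = polyQ m x := ⟨_, rfl⟩
    rw [← hy] at ih
    have h1 : polyQ (m + 1) x = (3 * y - y ^ 3) / 2 := by rw [hy]; rfl
    have h2 : 1 - polyQ (m + 1) x ^ 2 = (1 - y ^ 2) ^ 2 * ((4 - y ^ 2) / 4) := by rw [h1]; ring
    have h3 : y ^ 2 ≤ 1 := by linarith
    have h4 : 0 ≤ (4 - y ^ 2) / 4 := by linarith
    have h5 : (4 - y ^ 2) / 4 ≤ 1 := by linarith [sq_nonneg y]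
    rw [h2]
    refine ⟨mul_nonneg (sq_nonneg _) h4, ?_⟩
    calc (1 - y ^ 2) ^ 2 * ((4 - y ^ 2) / 4) ≤ (1 - y ^ 2) ^ 2 * 1 :=
          mul_le_mul_of_nonneg_left h5 (sq_nonneg _)
      _ = (1 - y ^ 2) ^ 2 := mul_one _
      _ ≤ ((1 - x ^ 2) ^ (2 ^ m)) ^ 2 := pow_le_pow_left₀ ih.1 ih.2 2
      _ = (1 - x ^ 2) ^ (2 ^ (m + 1)) := by rw [← pow_mul, ← pow_succ]

theorem polyQ_cont (m : ℕ) : Continuous (polyQ m) := by
  induction m with
  | zero => exact continuous_id
  | succ m ih =>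
    show Continuous fun x => (3 * polyQ m x - polyQ m x ^ 3) / 2
    fun_prop

theorem poly_orth (k : ℤ) : ∫ θ in (0 : ℝ)..(2 * π), (polyZ θ : ℂ) ^ k =
    if k = 0 then (2 * π : ℂ) else 0 := by
  have h0 : ∀ θ : ℝ, (polyZ θ : ℂ) ^ k = Complex.exp ((k * Complex.I) * θ) := by
    intro θ
    show Complex.exp (θ * Complex.I) ^ k = _
    rw [← Complex.exp_int_mul]
    congr 1
    ring
  simp only [h0]
  split_ifs with h
  · rw [h]
    simp
  · have hc : (k : ℂ) * Complex.I ≠ 0 := mul_ne_zero (by exact_mod_cast h) Complex.I_ne_zero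
    rw [integral_exp_mul_complex hc]
    have h1 : Complex.exp (k * Complex.I * ((2 * π : ℝ) : ℂ)) = 1 := by
      rw [Complex.exp_eq_one_iff]
      refine ⟨k, ?_⟩
      push_cast
      ring
    rw [h1]
    simp

theorem polyZ_cont : Continuous fun θ : ℝ => (polyZ θ : ℂ) := by
  show Continuous fun θ : ℝ => Complex.exp (θ * Complex.I)
  fun_prop

theorem polyZ_zpow_cont (k : ℤ) : Continuous fun θ : ℝ => (polyZ θ : ℂ) ^ k :=
  polyZ_cont.zpow₀ k fun θ => Or.inl (polyZ θ).ne_zero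

theorem poly_coef (c : AddMonoidAlgebra ℝ ℤ) (n : ℤ) :
    ∫ θ in (0 : ℝ)..(2 * π), (polyZ θ : ℂ) ^ (-n) * polyE (polyZ θ) c = 2 * π * (c.coeff n : ℂ) := by
  have h1 : ∀ θ : ℝ, (polyZ θ : ℂ) ^ (-n) * polyE (polyZ θ) c =
      ∑ k ∈ c.coeff.support, (c.coeff k : ℂ) * (polyZ θ : ℂ) ^ (k - n) := by
    intro θ
    rw [polyE_eq, Finset.mul_sum]
    refine Finset.sum_congr rfl fun k _ => ?_
    rw [sub_eq_add_neg, zpow_add₀ (polyZ θ).ne_zero]
    ring
  simp only [h1]
  rw [intervalIntegral.integral_finsetSum]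
  swap
  · intro k _
    exact ((polyZ_zpow_cont (k - n)).const_mul _).intervalIntegrable _ _
  simp only [intervalIntegral.integral_const_mul, poly_orth]
  by_cases hn : n ∈ c.coeff.support
  · rw [Finset.sum_eq_single n]
    · rw [if_pos (sub_self n)]
      ring
    · intro k _ hk
      rw [if_neg (sub_ne_zero.2 hk), mul_zero]
    · intro h
      exact absurd hn h
  · rw [Finset.sum_eq_zero]
    · rw [Finsupp.notMem_support_iff] at hn
      rw [hn]
      simp
    · intro k hk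
      have : k ≠ n := fun h => hn (h ▸ hk)
      rw [if_neg (sub_ne_zero.2 this), mul_zero]

/-- the coefficients as real integrals -/
theorem poly_real (m : ℕ) (n : ℤ) :
    ∫ θ in (0 : ℝ)..(2 * π), Real.cos (n * θ) * polyQ m (Real.cos θ) = 2 * π * (polyC m).coeff n := by
  have h1 := poly_coef (polyC m) n
  have h2 := congrArg Complex.reCLM h1
  rw [← ContinuousLinearMap.intervalIntegral_comp_comm] at h2
  · have h3 : Complex.reCLM (2 * π * ((polyC m).coeff n : ℂ)) = 2 * π * (polyC m).coeff n := by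
      simp
    rw [h3] at h2
    rw [← h2]
    refine intervalIntegral.integral_congr fun θ _ => ?_
    show _ = ((polyZ θ : ℂ) ^ (-n) * polyE (polyZ θ) (polyC m)).re
    rw [polyE_C]
    have h4 : (polyZ θ : ℂ) ^ (-n) = Complex.exp (((-(n * θ) : ℝ) : ℂ) * Complex.I) := by
      show Complex.exp (θ * Complex.I) ^ (-n) = _
      rw [← Complex.exp_int_mul]
      congr 1
      push_cast
      ring
    rw [h4, Complex.re_mul_ofReal, Complex.exp_ofReal_mul_I_re, Real.cos_neg]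
  · apply Continuous.intervalIntegrable
    have h4 : ∀ θ : ℝ, (polyZ θ : ℂ) ^ (-n) * polyE (polyZ θ) (polyC m) =
        (polyZ θ : ℂ) ^ (-n) * (polyQ m (Real.cos θ) : ℂ) := fun θ => by rw [polyE_C]
    simp only [h4]
    exact (polyZ_zpow_cont (-n)).mul
      (Complex.continuous_ofReal.comp ((polyQ_cont m).comp Real.continuous_cos))

theorem poly_cos (m : ℕ) (θ : ℝ) : ∑ n ∈ (polyC m).coeff.support,
    (polyC m).coeff n * Real.cos (n * θ) = polyQ m (Real.cos θ) := by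
  have h1 := polyE_C θ m
  rw [polyE_eq] at h1
  have h2 := congrArg Complex.re h1
  rw [Complex.re_sum, Complex.ofReal_re] at h2
  rw [← h2]
  refine Finset.sum_congr rfl fun n _ => ?_
  have h4 : (polyZ θ : ℂ) ^ n = Complex.exp (((n * θ : ℝ) : ℂ) * Complex.I) := by
    show Complex.exp (θ * Complex.I) ^ n = _
    rw [← Complex.exp_int_mul]
    congr 1
    push_cast
    ring
  rw [h4, Complex.re_ofReal_mul, Complex.exp_ofReal_mul_I_re]

theorem poly_parseval (m : ℕ) : 2 * π * ∑ n ∈ (polyC m).coeff.support, (polyC m).coeff n ^ 2 =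
    ∫ θ in (0 : ℝ)..(2 * π), polyQ m (Real.cos θ) ^ 2 := by
  have h1 : ∀ θ : ℝ, polyQ m (Real.cos θ) ^ 2 = ∑ n ∈ (polyC m).coeff.support,
      (polyC m).coeff n * (Real.cos (n * θ) * polyQ m (Real.cos θ)) := by
    intro θ
    rw [pow_two]
    nth_rewrite 1 [← poly_cos m θ]
    rw [Finset.sum_mul]
    exact Finset.sum_congr rfl fun n _ => by ring
  simp only [h1]
  rw [intervalIntegral.integral_finsetSum]
  · rw [Finset.mul_sum]
    refine Finset.sum_congr rfl fun n _ => ?_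
    rw [intervalIntegral.integral_const_mul, poly_real]
    ring
  · intro n _
    apply Continuous.intervalIntegrable
    have := polyQ_cont m
    fun_prop

theorem poly_lim : Tendsto (fun m : ℕ => ∫ θ in (0 : ℝ)..(2 * π), polyQ m (Real.cos θ) ^ 2) atTop
    (𝓝 (2 * π)) := by
  have h0 : (2 * π : ℝ) = ∫ θ in (0 : ℝ)..(2 * π), (1 : ℝ) := by simp
  nth_rewrite 2 [h0]
  apply intervalIntegral.tendsto_integral_filter_of_dominated_convergence (fun _ => (1 : ℝ))
  · refine Filter.Eventually.of_forall fun m => ?_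
    have := polyQ_cont m
    exact (by fun_prop : Continuous fun θ : ℝ => polyQ m (Real.cos θ) ^ 2).aestronglyMeasurable
  · refine Filter.Eventually.of_forall fun m => Filter.Eventually.of_forall fun θ _ => ?_
    have h1 := (polyQ_sq m (x := Real.cos θ) (Real.abs_cos_le_one θ)).1
    rw [Real.norm_eq_abs, abs_of_nonneg (sq_nonneg _)]
    linarith
  · exact intervalIntegrable_const
  · have hc : ({θ : ℝ | Real.cos θ = 0} : Set ℝ).Countable := by
      have : {θ : ℝ | Real.cos θ = 0} ⊆ Set.range fun k : ℤ => (2 * k + 1) * π / 2 := by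
        intro θ hθ
        obtain ⟨k, hk⟩ := Real.cos_eq_zero_iff.1 hθ
        exact ⟨k, hk.symm⟩
      exact (Set.countable_range _).mono this
    filter_upwards [hc.ae_notMem volume] with θ hθ _
    have h1 : Real.cos θ ≠ 0 := hθ
    have h2 : 0 < Real.cos θ ^ 2 := by positivity
    have h3 : Real.cos θ ^ 2 ≤ 1 := Real.cos_sq_le_one θ
    have h4 : Tendsto (fun m : ℕ => (1 - Real.cos θ ^ 2) ^ (2 ^ m)) atTop (𝓝 0) :=
      (tendsto_pow_atTop_nhds_zero_of_lt_one (by linarith) (by linarith)).comp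
        (tendsto_pow_atTop_atTop_of_one_lt (by norm_num))
    have h5 : Tendsto (fun m : ℕ => 1 - polyQ m (Real.cos θ) ^ 2) atTop (𝓝 0) :=
      squeeze_zero (fun m => (polyQ_sq m (Real.abs_cos_le_one θ)).1)
        (fun m => (polyQ_sq m (Real.abs_cos_le_one θ)).2) h4
    have h6 := (tendsto_const_nhds (x := (1 : ℝ))).sub h5
    simpa using h6

theorem poly : S_poly := by
  intro ε hε
  have hpi := Real.pi_pos
  have h1 : ∀ᶠ m : ℕ in atTop, 2 * π * (1 - ε) < ∫ θ in (0 : ℝ)..(2 * π), polyQ m (Real.cos θ) ^ 2 :=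
    poly_lim.eventually (lt_mem_nhds (by nlinarith))
  obtain ⟨m, hm⟩ := h1.exists
  refine ⟨polyC m, ?_, ?_, ?_, ?_⟩
  · intro n
    have h2 := poly_real m n
    have h3 := poly_real m (-n)
    have h4 : ∫ θ in (0 : ℝ)..(2 * π), Real.cos (((-n : ℤ) : ℝ) * θ) * polyQ m (Real.cos θ) =
        ∫ θ in (0 : ℝ)..(2 * π), Real.cos (n * θ) * polyQ m (Real.cos θ) := by
      refine intervalIntegral.integral_congr fun θ _ => ?_
      show Real.cos (((-n : ℤ) : ℝ) * θ) * _ = _
      push_cast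
      rw [neg_mul, Real.cos_neg]
    rw [h4, h2] at h3
    exact (mul_left_cancel₀ (by positivity) h3).symm
  · intro z hz
    obtain ⟨θ, hθ⟩ : ∃ θ : ℝ, Complex.exp (θ * Complex.I) = z := (Complex.norm_eq_one_iff z).1 hz
    have h2 := polyE_C θ m
    rw [polyE_eq] at h2
    have h3 : ((polyZ θ : ℂˣ) : ℂ) = z := hθ
    rw [h3] at h2
    rw [h2, Complex.norm_real, Real.norm_eq_abs]
    exact (polyQ_abs m (Real.abs_cos_le_one θ)).1
  · have h2 := poly_real m 1
    have h3 : ∫ θ in (0 : ℝ)..(2 * π), Real.cos θ ^ 2 ≤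
        ∫ θ in (0 : ℝ)..(2 * π), Real.cos (((1 : ℤ) : ℝ) * θ) * polyQ m (Real.cos θ) := by
      apply intervalIntegral.integral_mono_on (by positivity)
      · exact (by fun_prop : Continuous fun θ : ℝ => Real.cos θ ^ 2).intervalIntegrable _ _
      · have := polyQ_cont m
        exact (by fun_prop : Continuous fun θ : ℝ => Real.cos (((1 : ℤ) : ℝ) * θ) *
          polyQ m (Real.cos θ)).intervalIntegrable _ _
      · intro θ _
        have h4 := (polyQ_abs m (Real.abs_cos_le_one θ)).2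
        rw [Int.cast_one, one_mul, mul_comm]
        exact h4
    rw [h2] at h3
    have h4 : ∫ θ in (0 : ℝ)..(2 * π), Real.cos θ ^ 2 = π := by
      rw [integral_cos_sq]
      simp
    rw [h4] at h3
    nlinarith
  · rw [← poly_parseval] at hm
    have h2 : 1 - ε < ∑ n ∈ (polyC m).coeff.support, (polyC m).coeff n ^ 2 :=
      lt_of_mul_lt_mul_left hm (by positivity)
    exact h2.le

end Pool.Agent.H311.CB
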