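import Pool.Agent.H311.CB.Defs3

/-!
# A series of smooth functions with small coefficients is smooth
-/

set_option autoImplicit false

open MeasureTheory Metric Set Filter Topology
open scoped ENNReal NNReal Real RealInnerProductSpace ContDiff Pointwise

namespace Pool.Agent.H311.CB

/-- the cutoff functions -/
noncomputable def smoothsum_chi (j : ℕ) : ContDiffBump (0 : ℝ × ℝ) :=
  ⟨(j : ℝ) + 1, (j : ℝ) + 2, by positivity, by linarith⟩

theorem smoothsum_chi_one {j : ℕ} {y : ℝ × ℝ} (h : ‖y‖ ≤ (j : ℝ) + 1) : smoothsum_chi j y = 1 := by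
  apply ContDiffBump.one_of_mem_closedBall
  rw [mem_closedBall, dist_zero_right]
  exact h

/-- a product with a cutoff function has bounded derivatives -/
theorem smoothsum_bound {T : ℝ × ℝ → ℝ} (hT : ContDiff ℝ ∞ T) (j : ℕ) :
    ∃ B : ℝ, 1 ≤ B ∧ ∀ i ≤ j, ∀ x,
      ‖iteratedFDeriv ℝ i (fun y => smoothsum_chi j y * T y) x‖ ≤ B := by
  have hsm : ContDiff ℝ ∞ (fun y => smoothsum_chi j y * T y) :=
    (smoothsum_chi j).contDiff.mul hT
  have hcs : HasCompactSupport (fun y => smoothsum_chi j y * T y) :=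
    (smoothsum_chi j).hasCompactSupport.mul_right
  have h1 : ∀ i : ℕ, ∃ C, ∀ x, ‖iteratedFDeriv ℝ i (fun y => smoothsum_chi j y * T y) x‖ ≤ C :=
    fun i => Continuous.bounded_above_of_compact_support
      (hsm.continuous_iteratedFDeriv (by exact_mod_cast le_top)) (hcs.iteratedFDeriv i)
  choose C hC using h1
  refine ⟨1 + ∑ i ∈ Finset.range (j + 1), |C i|, ?_, fun i hi x => ?_⟩
  · have : 0 ≤ ∑ i ∈ Finset.range (j + 1), |C i| := Finset.sum_nonneg fun i _ => abs_nonneg _
    linarith
  · have h2 := Finset.single_le_sum (f := fun i => |C i|) (fun i _ => abs_nonneg _)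
      (Finset.mem_range.2 (Nat.lt_succ_of_le hi))
    have h3 := hC i x
    have h4 := le_abs_self (C i)
    linarith

/-- (U3) -/
theorem smoothsum : S_smoothsum := by
  intro T hT
  choose B hB1 hB using fun j => smoothsum_bound (hT j) j
  refine ⟨fun j => (1 / 2) ^ j / B j, fun j => ?_, fun a ha => ?_⟩
  · have := hB1 j
    positivity
  -- the bound for the terms
  have hbd : ∀ (i j : ℕ), i ≤ j → ∀ x, ‖iteratedFDeriv ℝ i
      (fun y => a j * (smoothsum_chi j y * T j y)) x‖ ≤ (1 / 2) ^ j := by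
    intro i j hij x
    have hsm : ContDiff ℝ ∞ (fun y => smoothsum_chi j y * T j y) :=
      (smoothsum_chi j).contDiff.mul (hT j)
    have e1 : iteratedFDeriv ℝ i (fun y => a j * (smoothsum_chi j y * T j y)) x =
        a j • iteratedFDeriv ℝ i (fun y => smoothsum_chi j y * T j y) x := by
      rw [← iteratedFDeriv_const_smul_apply
        ((hsm.of_le (by exact_mod_cast le_top)).contDiffAt)]
      rfl
    rw [e1, norm_smul, Real.norm_eq_abs, abs_of_nonneg (ha j).1]
    have h1 := hB j i hij x
    have h2 : 0 < B j := lt_of_lt_of_le one_pos (hB1 j)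
    calc a j * _ ≤ ((1 / 2) ^ j / B j) * B j :=
          mul_le_mul (ha j).2 h1 (norm_nonneg _) (by positivity)
      _ = (1 / 2) ^ j := div_mul_cancel₀ _ h2.ne'
  have hgeo : Summable fun j : ℕ => ((1 : ℝ) / 2) ^ j :=
    summable_geometric_of_lt_one (by norm_num) (by norm_num)
  have hF : ContDiff ℝ ∞ (fun x => ∑' j, a j * (smoothsum_chi j x * T j x)) := by
    refine contDiff_tsum_of_eventually (N := ⊤) (v := fun _ j => (1 / 2) ^ j) (fun j => ?_)
      (fun _ _ => hgeo) (fun k _ => ?_)
    · exact contDiff_const.mul ((smoothsum_chi j).contDiff.mul (hT j))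
    · rw [Nat.cofinite_eq_atTop]
      filter_upwards [eventually_ge_atTop k] with j hj x
      exact hbd k j hj x
  have hs1 : ∀ x, Summable fun j => a j * (smoothsum_chi j x * T j x) := by
    intro x
    refine Summable.of_norm_bounded hgeo fun j => ?_
    have h1 := hbd 0 j (Nat.zero_le j) x
    rwa [norm_iteratedFDeriv_zero] at h1
  -- the difference is a finite sum
  have hz : ∀ (R : ℕ) (x : ℝ × ℝ), ‖x‖ < R → ∀ j ∉ Finset.range R,
      a j * ((1 - smoothsum_chi j x) * T j x) = 0 := by
    intro R x hx j hj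
    rw [Finset.mem_range, not_lt] at hj
    have h1 : (R : ℝ) ≤ j := by exact_mod_cast hj
    rw [smoothsum_chi_one (by linarith), sub_self, zero_mul, mul_zero]
  have hsplit : ∀ x j, a j * T j x =
      a j * (smoothsum_chi j x * T j x) + a j * ((1 - smoothsum_chi j x) * T j x) := by
    intro x j
    ring
  have hex : ∀ x : ℝ × ℝ, ∃ R : ℕ, ‖x‖ < R := fun x => exists_nat_gt _
  have hs2 : ∀ x, Summable fun j => a j * ((1 - smoothsum_chi j x) * T j x) := by
    intro x
    obtain ⟨R, hR⟩ := hex x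
    exact summable_of_ne_finset_zero (hz R x hR)
  refine ⟨fun x => ?_, ?_⟩
  · have h1 := (hs1 x).add (hs2 x)
    refine h1.congr fun j => (hsplit x j).symm ▸ rfl
  · rw [contDiff_iff_contDiffAt]
    intro x
    obtain ⟨R, hR⟩ := hex x
    have hG : ContDiff ℝ ∞ (fun x => ∑ j ∈ Finset.range R, a j * ((1 - smoothsum_chi j x) * T j x)) :=
      ContDiff.sum fun j _ =>
        contDiff_const.mul ((contDiff_const.sub (smoothsum_chi j).contDiff).mul (hT j))
    refine ((hF.add hG).contDiffAt (x := x)).congr_of_eventuallyEq ?_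
    have hn : ∀ᶠ y in 𝓝 x, ‖y‖ < R := (continuous_norm.tendsto x).eventually_lt_const hR
    filter_upwards [hn] with y hy
    have h1 : ∑' j, a j * ((1 - smoothsum_chi j y) * T j y) =
        ∑ j ∈ Finset.range R, a j * ((1 - smoothsum_chi j y) * T j y) := tsum_eq_sum (hz R y hy)
    rw [← h1, ← (hs1 y).tsum_add (hs2 y)]
    exact tsum_congr fun j => hsplit y j

end Pool.Agent.H311.CB
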