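import Pool.Agent.H311.CB.Defs3

/-!
# Smooth convex bodies: properties of the terms (helper627, for helper311)
-/

set_option autoImplicit false

open MeasureTheory Metric Set Filter Topology
open scoped ENNReal NNReal Real RealInnerProductSpace ContDiff Pointwise

namespace Pool.Agent.H311.CB

open Pool.Agent.H311.PM

theorem terms_sj_pos (j : ℕ) : 0 < sj j := by
  unfold sj
  positivity

theorem terms_dj_pos (j : ℕ) : 0 < dj j := by
  unfold dj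
  have := terms_sj_pos j
  positivity

theorem terms_quarter_le (j : ℕ) : ((1 : ℝ) / 4) ^ j ≤ 1 :=
  pow_le_one₀ (by norm_num) (by norm_num)

theorem terms_sj_le (j : ℕ) : sj j ≤ (1 / 4) ^ j / 16 := by
  unfold sj
  apply div_le_div_of_nonneg_left (by positivity) (by norm_num)
  have : (0 : ℝ) ≤ j := Nat.cast_nonneg j
  linarith

theorem terms_sj_le_one (j : ℕ) : sj j ≤ 1 := by
  have h1 := terms_sj_le j
  have h2 := terms_quarter_le j
  linarith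

theorem terms_dj_le (j : ℕ) : dj j ≤ (1 / 4) ^ j / 16 := by
  refine le_trans ?_ (terms_sj_le j)
  unfold dj
  apply div_le_self (terms_sj_pos j).le
  have : (0 : ℝ) ≤ j := Nat.cast_nonneg j
  linarith

theorem terms_sixteen (j : ℕ) : ((1 : ℝ) / 16) ^ j = ((1 / 4) ^ j) ^ 2 := by
  rw [← pow_mul, mul_comm, pow_mul]
  norm_num

theorem terms_beta_nonneg {β : ℝ → ℝ} (hβ : IsBeta β) (t : ℝ) : 0 ≤ β t := by
  rcases le_total t 1 with h | h
  · rw [hβ.zero t h]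
  · have h1 := hβ.mono h
    rwa [hβ.zero 1 le_rfl] at h1

theorem terms_smooth {σ β : ℝ → ℝ} (hσ : IsSigma σ) (hβ : IsBeta β) (M : ℕ) (lam : ℕ → ℝ) (j : ℕ) :
    ContDiff ℝ ∞ (TT σ β M lam j) := by
  unfold TT
  refine ContDiff.add (ContDiff.sum fun i _ => ?_) ?_
  · refine contDiff_const.mul (contDiff_const.mul (hσ.smooth.comp ?_))
    fun_prop
  · refine contDiff_const.mul (hβ.smooth.comp ?_)
    fun_prop

theorem terms_convex {σ β : ℝ → ℝ} (hσ : IsSigma σ) (hβ : IsBeta β) (M : ℕ) (lam : ℕ → ℝ)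
    (hlam : ∀ i, 0 ≤ lam i) (j : ℕ) : ConvexOn ℝ univ (TT σ β M lam j) := by
  refine ⟨convex_univ, ?_⟩
  intro z _ w _ a b ha hb hab
  have hd := terms_dj_pos j
  have hj : (0 : ℝ) ≤ j := Nat.cast_nonneg j
  have hP : (0 : ℝ) < (1 / 16) ^ j := by positivity
  have hb' : b = 1 - a := by linarith
  unfold TT
  simp only [Prod.fst_add, Prod.snd_add, Prod.smul_fst, Prod.smul_snd, smul_eq_mul]
  have h1 : ∑ i ∈ Finset.range M, lam i * (dj j * σ ((a * z.2 + b * w.2 -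
      ((i : ℝ) + 1 / 2) * (a * z.1 + b * w.1 - xj j)) / dj j)) ≤
      a * ∑ i ∈ Finset.range M, lam i * (dj j * σ ((z.2 - ((i : ℝ) + 1 / 2) * (z.1 - xj j)) / dj j)) +
      b * ∑ i ∈ Finset.range M, lam i *
        (dj j * σ ((w.2 - ((i : ℝ) + 1 / 2) * (w.1 - xj j)) / dj j)) := by
    rw [Finset.mul_sum, Finset.mul_sum, ← Finset.sum_add_distrib]
    refine Finset.sum_le_sum fun i _ => ?_
    have h2 := hσ.convex.2 (mem_univ ((z.2 - ((i : ℝ) + 1 / 2) * (z.1 - xj j)) / dj j))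
      (mem_univ ((w.2 - ((i : ℝ) + 1 / 2) * (w.1 - xj j)) / dj j)) ha hb hab
    simp only [smul_eq_mul] at h2
    have h3 : a * ((z.2 - ((i : ℝ) + 1 / 2) * (z.1 - xj j)) / dj j) +
        b * ((w.2 - ((i : ℝ) + 1 / 2) * (w.1 - xj j)) / dj j) =
        (a * z.2 + b * w.2 - ((i : ℝ) + 1 / 2) * (a * z.1 + b * w.1 - xj j)) / dj j := by
      rw [hb']
      field_simp
      ring
    rw [h3] at h2
    have h4 : 0 ≤ lam i * dj j := mul_nonneg (hlam i) hd.le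
    calc _ = lam i * dj j * σ ((a * z.2 + b * w.2 -
          ((i : ℝ) + 1 / 2) * (a * z.1 + b * w.1 - xj j)) / dj j) := by ring
      _ ≤ lam i * dj j * (a * σ ((z.2 - ((i : ℝ) + 1 / 2) * (z.1 - xj j)) / dj j) +
          b * σ ((w.2 - ((i : ℝ) + 1 / 2) * (w.1 - xj j)) / dj j)) :=
          mul_le_mul_of_nonneg_left h2 h4
      _ = _ := by ring
  have h5 : β (((a * z.1 + b * w.1) ^ 2 + (a * z.2 + b * w.2) ^ 2) / (1 / 16) ^ j) ≤
      a * β ((z.1 ^ 2 + z.2 ^ 2) / (1 / 16) ^ j) + b * β ((w.1 ^ 2 + w.2 ^ 2) / (1 / 16) ^ j) := by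
    have h2 := hβ.convex.2 (mem_univ ((z.1 ^ 2 + z.2 ^ 2) / (1 / 16 : ℝ) ^ j))
      (mem_univ ((w.1 ^ 2 + w.2 ^ 2) / (1 / 16 : ℝ) ^ j)) ha hb hab
    simp only [smul_eq_mul] at h2
    refine le_trans (hβ.mono ?_) h2
    have h3 : a * ((z.1 ^ 2 + z.2 ^ 2) / (1 / 16 : ℝ) ^ j) +
        b * ((w.1 ^ 2 + w.2 ^ 2) / (1 / 16 : ℝ) ^ j) =
        (a * (z.1 ^ 2 + z.2 ^ 2) + b * (w.1 ^ 2 + w.2 ^ 2)) / (1 / 16 : ℝ) ^ j := by ring
    rw [h3]
    refine div_le_div_of_nonneg_right ?_ hP.le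
    have h6 : a * (z.1 ^ 2 + z.2 ^ 2) + b * (w.1 ^ 2 + w.2 ^ 2) -
        ((a * z.1 + b * w.1) ^ 2 + (a * z.2 + b * w.2) ^ 2) =
        a * b * ((z.1 - w.1) ^ 2 + (z.2 - w.2) ^ 2) := by
      rw [hb']
      ring
    have h7 : 0 ≤ a * b * ((z.1 - w.1) ^ 2 + (z.2 - w.2) ^ 2) := by positivity
    linarith
  have h8 : (0 : ℝ) ≤ (1 / 16) ^ j / (j + 1) := by positivity
  have h9 := mul_le_mul_of_nonneg_left h5 h8
  calc _ ≤ _ := add_le_add h1 h9
    _ = _ := by ring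

theorem terms_nonneg {σ β : ℝ → ℝ} (hσ : IsSigma σ) (hβ : IsBeta β) (M : ℕ) (lam : ℕ → ℝ)
    (hlam : ∀ i, 0 ≤ lam i) (j : ℕ) (z : ℝ × ℝ) : 0 ≤ TT σ β M lam j z := by
  have hd := terms_dj_pos j
  unfold TT
  refine add_nonneg (Finset.sum_nonneg fun i _ => ?_) ?_
  · exact mul_nonneg (hlam i) (mul_nonneg hd.le (hσ.nonneg _))
  · exact mul_nonneg (by positivity) (terms_beta_nonneg hβ _)

/-- the term vanishes where all arguments are small -/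
theorem terms_vanish {σ β : ℝ → ℝ} (hσ : IsSigma σ) (hβ : IsBeta β) (M : ℕ) (lam : ℕ → ℝ) (j : ℕ)
    (z : ℝ × ℝ) (h1 : (1 / 4) ^ j / 2 ≤ z.1 - xj j) (h2 : z.2 ≤ (1 / 4) ^ j / 64)
    (h3 : z.1 ^ 2 + z.2 ^ 2 ≤ (1 / 16) ^ j) : TT σ β M lam j z = 0 := by
  have hd := terms_dj_pos j
  have hd2 := terms_dj_le j
  have hp : (0 : ℝ) < (1 / 4) ^ j := by positivity
  have hP : (0 : ℝ) < (1 / 16) ^ j := by positivity
  unfold TT
  have h4 : ∀ i ∈ Finset.range M,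
      lam i * (dj j * σ ((z.2 - ((i : ℝ) + 1 / 2) * (z.1 - xj j)) / dj j)) = 0 := by
    intro i _
    rw [hσ.zero, mul_zero, mul_zero]
    rw [div_le_iff₀ hd]
    have hi : (0 : ℝ) ≤ i := Nat.cast_nonneg i
    nlinarith
  rw [Finset.sum_eq_zero h4, hβ.zero, mul_zero, add_zero]
  rwa [div_le_one hP]

theorem terms_lip {σ β : ℝ → ℝ} (hσ : IsSigma σ) (hβ : IsBeta β) (M : ℕ) (lam : ℕ → ℝ)
    (hlam : ∀ i, 0 ≤ lam i) (j : ℕ) :
    ∃ G : ℝ, 0 < G ∧ ∀ z w : ℝ × ℝ, ‖z‖ ≤ 2 → ‖w‖ ≤ 2 →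
      |TT σ β M lam j z - TT σ β M lam j w| ≤ G * ‖z - w‖ := by
  have hd := terms_dj_pos j
  have hj : (0 : ℝ) ≤ j := Nat.cast_nonneg j
  have hP : (0 : ℝ) < (1 / 16) ^ j := by positivity
  refine ⟨∑ i ∈ Finset.range M, lam i * ((i : ℝ) + 3 / 2) + 8, ?_, ?_⟩
  · have : 0 ≤ ∑ i ∈ Finset.range M, lam i * ((i : ℝ) + 3 / 2) :=
      Finset.sum_nonneg fun i _ => mul_nonneg (hlam i) (by positivity)
    linarith
  intro z w hz hw
  have hz1 : |z.1| ≤ 2 := (norm_fst_le z).trans hz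
  have hz2 : |z.2| ≤ 2 := (norm_snd_le z).trans hz
  have hw1 : |w.1| ≤ 2 := (norm_fst_le w).trans hw
  have hw2 : |w.2| ≤ 2 := (norm_snd_le w).trans hw
  have h1 : |z.1 - w.1| ≤ ‖z - w‖ := norm_fst_le (z - w)
  have h2 : |z.2 - w.2| ≤ ‖z - w‖ := norm_snd_le (z - w)
  have hsum : |∑ i ∈ Finset.range M, lam i *
        (dj j * σ ((z.2 - ((i : ℝ) + 1 / 2) * (z.1 - xj j)) / dj j)) -
      ∑ i ∈ Finset.range M, lam i *
        (dj j * σ ((w.2 - ((i : ℝ) + 1 / 2) * (w.1 - xj j)) / dj j))| ≤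
      (∑ i ∈ Finset.range M, lam i * ((i : ℝ) + 3 / 2)) * ‖z - w‖ := by
    rw [← Finset.sum_sub_distrib, Finset.sum_mul]
    refine (Finset.abs_sum_le_sum_abs _ _).trans (Finset.sum_le_sum fun i _ => ?_)
    have hi : (0 : ℝ) ≤ i := Nat.cast_nonneg i
    rw [← mul_sub, ← mul_sub, abs_mul, abs_mul, abs_of_nonneg (hlam i), abs_of_pos hd, mul_assoc]
    refine mul_le_mul_of_nonneg_left ?_ (hlam i)
    have h3 := hσ.lip ((z.2 - ((i : ℝ) + 1 / 2) * (z.1 - xj j)) / dj j)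
      ((w.2 - ((i : ℝ) + 1 / 2) * (w.1 - xj j)) / dj j)
    calc _ ≤ dj j * |(z.2 - ((i : ℝ) + 1 / 2) * (z.1 - xj j)) / dj j -
          (w.2 - ((i : ℝ) + 1 / 2) * (w.1 - xj j)) / dj j| := mul_le_mul_of_nonneg_left h3 hd.le
      _ = |(z.2 - w.2) - ((i : ℝ) + 1 / 2) * (z.1 - w.1)| := by
          rw [← sub_div, abs_div, abs_of_pos hd, mul_div_cancel₀ _ hd.ne']
          congr 1
          ring
      _ ≤ |z.2 - w.2| + |((i : ℝ) + 1 / 2) * (z.1 - w.1)| := abs_sub _ _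
      _ = |z.2 - w.2| + ((i : ℝ) + 1 / 2) * |z.1 - w.1| := by
          rw [abs_mul, abs_of_pos (by positivity : (0 : ℝ) < (i : ℝ) + 1 / 2)]
      _ ≤ ‖z - w‖ + ((i : ℝ) + 1 / 2) * ‖z - w‖ := by gcongr
      _ = ((i : ℝ) + 3 / 2) * ‖z - w‖ := by ring
  have hrad : |(1 / 16 : ℝ) ^ j / (j + 1) * β ((z.1 ^ 2 + z.2 ^ 2) / (1 / 16) ^ j) -
      (1 / 16) ^ j / (j + 1) * β ((w.1 ^ 2 + w.2 ^ 2) / (1 / 16) ^ j)| ≤ 8 * ‖z - w‖ := by
    rw [← mul_sub, abs_mul, abs_of_pos (by positivity)]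
    have h3 := hβ.lip ((z.1 ^ 2 + z.2 ^ 2) / (1 / 16 : ℝ) ^ j) ((w.1 ^ 2 + w.2 ^ 2) / (1 / 16) ^ j)
    have h4 : |z.1 ^ 2 + z.2 ^ 2 - (w.1 ^ 2 + w.2 ^ 2)| ≤ 8 * ‖z - w‖ := by
      have e1 : z.1 ^ 2 + z.2 ^ 2 - (w.1 ^ 2 + w.2 ^ 2) =
          (z.1 - w.1) * (z.1 + w.1) + (z.2 - w.2) * (z.2 + w.2) := by ring
      have e2 : |z.1 + w.1| ≤ 4 := (abs_add_le _ _).trans (by linarith)
      have e3 : |z.2 + w.2| ≤ 4 := (abs_add_le _ _).trans (by linarith)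
      rw [e1]
      calc _ ≤ |(z.1 - w.1) * (z.1 + w.1)| + |(z.2 - w.2) * (z.2 + w.2)| := abs_add_le _ _
        _ = |z.1 - w.1| * |z.1 + w.1| + |z.2 - w.2| * |z.2 + w.2| := by rw [abs_mul, abs_mul]
        _ ≤ ‖z - w‖ * 4 + ‖z - w‖ * 4 := by gcongr
        _ = _ := by ring
    calc _ ≤ (1 / 16 : ℝ) ^ j / (j + 1) * |(z.1 ^ 2 + z.2 ^ 2) / (1 / 16 : ℝ) ^ j -
          (w.1 ^ 2 + w.2 ^ 2) / (1 / 16) ^ j| := mul_le_mul_of_nonneg_left h3 (by positivity)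
      _ = |z.1 ^ 2 + z.2 ^ 2 - (w.1 ^ 2 + w.2 ^ 2)| / (j + 1) := by
          rw [← sub_div, abs_div, abs_of_pos hP]
          field_simp
      _ ≤ |z.1 ^ 2 + z.2 ^ 2 - (w.1 ^ 2 + w.2 ^ 2)| :=
          div_le_self (abs_nonneg _) (by linarith)
      _ ≤ _ := h4
  unfold TT
  rw [add_sub_add_comm, add_mul]
  exact (abs_add_le _ _).trans (add_le_add hsum hrad)

theorem terms_main {σ β : ℝ → ℝ} (hσ : IsSigma σ) (hβ : IsBeta β) (M : ℕ) (lam : ℕ → ℝ)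
    (hlam : ∀ i, 0 ≤ lam i) (j : ℕ) (R : ℝ) (_hR : 0 ≤ R) (u : ℝ × ℝ) (hu : ‖u‖ ≤ R) :
    |TT σ β M lam j ((xj j, 0) + sj j • u) - TT σ β M lam j (xj j, 0) -
        sj j * ridge M lam u.1 u.2| ≤
        sj j * (4 * ∑ i ∈ Finset.range M, lam i + 2 * R + 2 * R ^ 2) / (j + 1) := by
  have hd := terms_dj_pos j
  have hs := terms_sj_pos j
  have hs1 := terms_sj_le_one j
  have hj : (0 : ℝ) ≤ j := Nat.cast_nonneg j
  have hj1 : (0 : ℝ) < (j : ℝ) + 1 := by linarith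
  have hP : (0 : ℝ) < (1 / 16) ^ j := by positivity
  have hu1 : |u.1| ≤ R := (norm_fst_le u).trans hu
  have hu2 : |u.2| ≤ R := (norm_snd_le u).trans hu
  have hx : |xj j| ≤ 1 := by
    unfold xj
    rw [abs_neg, abs_of_pos (by positivity)]
    exact terms_quarter_le j
  unfold TT ridge
  simp only [Prod.fst_add, Prod.snd_add, Prod.smul_fst, Prod.smul_snd, smul_eq_mul]
  have hsum : |∑ i ∈ Finset.range M, lam i *
        (dj j * σ ((0 + sj j * u.2 - ((i : ℝ) + 1 / 2) * (xj j + sj j * u.1 - xj j)) / dj j)) -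
      ∑ i ∈ Finset.range M, lam i *
        (dj j * σ ((0 - ((i : ℝ) + 1 / 2) * (xj j - xj j)) / dj j)) -
      sj j * ∑ i ∈ Finset.range M, lam i * max 0 (u.2 - ((i : ℝ) + 1 / 2) * u.1)| ≤
      4 * (∑ i ∈ Finset.range M, lam i) * dj j := by
    rw [Finset.mul_sum, ← Finset.sum_sub_distrib, ← Finset.sum_sub_distrib, Finset.mul_sum,
      Finset.sum_mul]
    refine (Finset.abs_sum_le_sum_abs _ _).trans (Finset.sum_le_sum fun i _ => ?_)
    set n : ℝ := u.2 - ((i : ℝ) + 1 / 2) * u.1 with hn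
    have e1 : (0 + sj j * u.2 - ((i : ℝ) + 1 / 2) * (xj j + sj j * u.1 - xj j)) / dj j =
        sj j * n / dj j := by
      rw [hn]
      congr 1
      ring
    have e2 : (0 - ((i : ℝ) + 1 / 2) * (xj j - xj j)) / dj j = 0 := by
      rw [sub_self, mul_zero, sub_zero, zero_div]
    rw [e1, e2]
    have h1 := hσ.near (sj j * n / dj j)
    have h2 := hσ.near 0
    rw [max_self, sub_zero] at h2
    have e3 : dj j * max 0 (sj j * n / dj j) = sj j * max 0 n := by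
      rw [mul_max_of_nonneg _ _ hd.le, mul_max_of_nonneg _ _ hs.le, mul_zero, mul_zero,
        mul_div_cancel₀ _ hd.ne']
    have e4 : lam i * (dj j * σ (sj j * n / dj j)) - lam i * (dj j * σ 0) -
        sj j * (lam i * max 0 n) =
        lam i * (dj j * (σ (sj j * n / dj j) - max 0 (sj j * n / dj j)) - dj j * σ 0) := by
      rw [mul_sub (dj j), e3]
      ring
    rw [e4, abs_mul, abs_of_nonneg (hlam i)]
    have h3 : |dj j * (σ (sj j * n / dj j) - max 0 (sj j * n / dj j)) - dj j * σ 0| ≤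
        4 * dj j := by
      calc _ ≤ |dj j * (σ (sj j * n / dj j) - max 0 (sj j * n / dj j))| + |dj j * σ 0| :=
            abs_sub _ _
        _ = dj j * |σ (sj j * n / dj j) - max 0 (sj j * n / dj j)| + dj j * |σ 0| := by
            rw [abs_mul, abs_mul, abs_of_pos hd]
        _ ≤ dj j * 2 + dj j * 2 := by gcongr
        _ = _ := by ring
    calc _ ≤ lam i * (4 * dj j) := mul_le_mul_of_nonneg_left h3 (hlam i)
      _ = _ := by ring
  have hrad : |(1 / 16 : ℝ) ^ j / (j + 1) *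
        β (((xj j + sj j * u.1) ^ 2 + (0 + sj j * u.2) ^ 2) / (1 / 16) ^ j) -
      (1 / 16) ^ j / (j + 1) * β ((xj j ^ 2 + 0 ^ 2) / (1 / 16) ^ j)| ≤
      sj j * (2 * R + 2 * R ^ 2) / (j + 1) := by
    rw [← mul_sub, abs_mul, abs_of_pos (by positivity)]
    have h3 := hβ.lip (((xj j + sj j * u.1) ^ 2 + (0 + sj j * u.2) ^ 2) / (1 / 16 : ℝ) ^ j)
      ((xj j ^ 2 + 0 ^ 2) / (1 / 16) ^ j)
    have h4 : |(xj j + sj j * u.1) ^ 2 + (0 + sj j * u.2) ^ 2 - (xj j ^ 2 + 0 ^ 2)| ≤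
        sj j * (2 * R + 2 * R ^ 2) := by
      have e1 : (xj j + sj j * u.1) ^ 2 + (0 + sj j * u.2) ^ 2 - (xj j ^ 2 + 0 ^ 2) =
          sj j * (2 * xj j * u.1 + sj j * (u.1 ^ 2 + u.2 ^ 2)) := by ring
      rw [e1, abs_mul, abs_of_pos hs]
      refine mul_le_mul_of_nonneg_left ?_ hs.le
      have e2 : |2 * xj j * u.1| ≤ 2 * R := by
        rw [abs_mul, abs_mul, abs_two]
        calc 2 * |xj j| * |u.1| ≤ 2 * 1 * R := by gcongr
          _ = _ := by ring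
      have e3 : |sj j * (u.1 ^ 2 + u.2 ^ 2)| ≤ 2 * R ^ 2 := by
        rw [abs_of_nonneg (by positivity)]
        have e4 : u.1 ^ 2 ≤ R ^ 2 := sq_le_sq' (by linarith [(abs_le.1 hu1).1]) (abs_le.1 hu1).2
        have e5 : u.2 ^ 2 ≤ R ^ 2 := sq_le_sq' (by linarith [(abs_le.1 hu2).1]) (abs_le.1 hu2).2
        calc sj j * (u.1 ^ 2 + u.2 ^ 2) ≤ 1 * (R ^ 2 + R ^ 2) := by gcongr
          _ = _ := by ring
      exact (abs_add_le _ _).trans (add_le_add e2 e3)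
    calc _ ≤ (1 / 16 : ℝ) ^ j / (j + 1) *
          |((xj j + sj j * u.1) ^ 2 + (0 + sj j * u.2) ^ 2) / (1 / 16 : ℝ) ^ j -
          (xj j ^ 2 + 0 ^ 2) / (1 / 16) ^ j| := mul_le_mul_of_nonneg_left h3 (by positivity)
      _ = |(xj j + sj j * u.1) ^ 2 + (0 + sj j * u.2) ^ 2 - (xj j ^ 2 + 0 ^ 2)| / (j + 1) := by
          rw [← sub_div, abs_div, abs_of_pos hP]
          field_simp
      _ ≤ _ := div_le_div_of_nonneg_right h4 hj1.le
  have hdj : dj j = sj j / (j + 1) := rfl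
  calc _ = |(∑ i ∈ Finset.range M, lam i *
        (dj j * σ ((0 + sj j * u.2 - ((i : ℝ) + 1 / 2) * (xj j + sj j * u.1 - xj j)) / dj j)) -
      ∑ i ∈ Finset.range M, lam i *
        (dj j * σ ((0 - ((i : ℝ) + 1 / 2) * (xj j - xj j)) / dj j)) -
      sj j * ∑ i ∈ Finset.range M, lam i * max 0 (u.2 - ((i : ℝ) + 1 / 2) * u.1)) +
      ((1 / 16 : ℝ) ^ j / (j + 1) *
        β (((xj j + sj j * u.1) ^ 2 + (0 + sj j * u.2) ^ 2) / (1 / 16) ^ j) -
      (1 / 16) ^ j / (j + 1) * β ((xj j ^ 2 + 0 ^ 2) / (1 / 16) ^ j))| := by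
        congr 1
        ring
    _ ≤ 4 * (∑ i ∈ Finset.range M, lam i) * dj j + sj j * (2 * R + 2 * R ^ 2) / (j + 1) :=
        (abs_add_le _ _).trans (add_le_add hsum hrad)
    _ = _ := by
        rw [hdj]
        ring

/-- **U4** -/
theorem terms : S_terms := by
  intro σ β hσ hβ M lam hlam j
  have hp : (0 : ℝ) < (1 / 4) ^ j := by positivity
  refine ⟨terms_smooth hσ hβ M lam j, terms_convex hσ hβ M lam hlam j,
    terms_nonneg hσ hβ M lam hlam j, ?_, ?_, terms_lip hσ hβ M lam hlam j,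
    terms_main hσ hβ M lam hlam j⟩
  · refine terms_vanish hσ hβ M lam j 0 ?_ ?_ ?_
    · unfold xj
      rw [Prod.fst_zero]
      linarith
    · rw [Prod.snd_zero]
      positivity
    · rw [Prod.fst_zero, Prod.snd_zero]
      have h1 : (0 : ℝ) < (1 / 16) ^ j := by positivity
      have h2 : (0 : ℝ) ^ 2 + 0 ^ 2 = 0 := by norm_num
      linarith
  · intro l hl z hz
    have h1 : |z.1 - xj l| ≤ (1 / 4) ^ l / 16 := (norm_fst_le (z - (xj l, 0))).trans hz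
    have h2 : |z.2 - 0| ≤ (1 / 4) ^ l / 16 := (norm_snd_le (z - (xj l, 0))).trans hz
    have hr : (0 : ℝ) < (1 / 4) ^ l := by positivity
    have hrp : ((1 : ℝ) / 4) ^ l ≤ (1 / 4) ^ j / 4 := by
      calc ((1 : ℝ) / 4) ^ l ≤ (1 / 4) ^ (j + 1) :=
            pow_le_pow_of_le_one (by norm_num) (by norm_num) hl
        _ = _ := by rw [pow_succ]; ring
    unfold xj at h1
    rw [sub_zero] at h2
    obtain ⟨a1, a2⟩ := abs_le.1 h1
    obtain ⟨b1, b2⟩ := abs_le.1 h2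
    refine terms_vanish hσ hβ M lam j z ?_ ?_ ?_
    · unfold xj
      linarith
    · linarith
    · rw [terms_sixteen]
      have c1 : z.1 ^ 2 ≤ (1 / 4 * (1 / 4) ^ j + (1 / 64) * (1 / 4) ^ j) ^ 2 :=
        sq_le_sq' (by linarith) (by linarith)
      have c2 : z.2 ^ 2 ≤ ((1 / 64) * (1 / 4) ^ j) ^ 2 := sq_le_sq' (by linarith) (by linarith)
      nlinarith

end Pool.Agent.H311.CB
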