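import Pool.Agent.H311.CB.Defs

/-!
# Transference from `L²(ℝᴺ)` to trigonometric polynomials
-/

set_option autoImplicit false

open MeasureTheory Metric Set Filter Topology FourierTransform
open scoped ENNReal NNReal Real RealInnerProductSpace ContDiff Pointwise SchwartzMap

namespace Pool.Agent.H311.CB

open Pool.Agent.H311.PM

variable {N : ℕ}

/-! ### The bump -/

theorem transfer_chi (N : ℕ) : ∃ χ : E N → ℂ, ContDiff ℝ ∞ χ ∧ HasCompactSupport χ ∧
    (∀ x, χ x ≠ 0 → ‖x‖ < 2) ∧ (∫⁻ s, ‖χ s‖ₑ ^ 2) ≠ 0 ∧ (∫⁻ s, ‖χ s‖ₑ ^ 2) ≠ ⊤ := by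
  let b : ContDiffBump (0 : E N) := ⟨1, 2, one_pos, by norm_num⟩
  have hb : ContDiff ℝ ∞ fun s => ((b s : ℝ) : ℂ) :=
    Complex.ofRealCLM.contDiff.comp b.contDiff
  have hbc : HasCompactSupport fun s => ((b s : ℝ) : ℂ) :=
    b.hasCompactSupport.comp_left (g := fun x : ℝ => (x : ℂ)) Complex.ofReal_zero
  refine ⟨fun s => ((b s : ℝ) : ℂ), hb, hbc, ?_, ?_, ?_⟩
  · intro x hx
    have h1 : b x ≠ 0 := fun h => hx (by
      show ((b x : ℝ) : ℂ) = 0
      rw [h]
      exact Complex.ofReal_zero)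
    have h2 : x ∈ Function.support b := h1
    rw [b.support_eq] at h2
    simpa [b] using h2
  · intro h0
    rw [lintegral_eq_zero_iff (hb.continuous.enorm.measurable.pow_const 2)] at h0
    have h1 : (fun s => ‖((b s : ℝ) : ℂ)‖ₑ ^ 2) = 0 := by
      refine Continuous.ae_eq_iff_eq (μ := (volume : Measure (E N))) ?_ continuous_zero |>.1 h0
      exact (ENNReal.continuous_pow 2).comp hb.continuous.enorm
    have h2 := congrFun h1 0
    simp only [Pi.zero_apply] at h2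
    have h3 : b (0 : E N) = 1 := b.one_of_mem_closedBall (mem_closedBall_self (by norm_num))
    rw [h3] at h2
    simp at h2
  · have h1 : MemLp (fun s => ((b s : ℝ) : ℂ)) 2 (volume : Measure (E N)) :=
      hb.continuous.memLp_of_hasCompactSupport hbc
    have h2 := eLpNorm_nnreal_pow_eq_lintegral (f := fun s => ((b s : ℝ) : ℂ))
      (μ := (volume : Measure (E N))) (p := 2) two_ne_zero
    have h3 : ∫⁻ s, ‖((b s : ℝ) : ℂ)‖ₑ ^ 2 = eLpNorm (fun s => ((b s : ℝ) : ℂ)) 2 volume ^ 2 := by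
      simpa using h2.symm
    rw [h3]
    exact (ENNReal.pow_lt_top h1.2).ne

/-- the inverse Fourier transform of the bump -/
noncomputable def trX (χ : E N → ℂ) (y : E N) : ℂ := ∫ η, ee y η * χ η

theorem transfer_X_cont {χ : E N → ℂ} (hχ : Continuous χ) (hχc : HasCompactSupport χ) :
    Continuous (trX χ) := by
  have h1 : trX χ = I univ χ := by
    funext y
    unfold trX I
    rw [Measure.restrict_univ]
    rfl
  rw [h1]
  exact continuous_I (hχ.integrable_of_hasCompactSupport hχc)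

theorem transfer_planch {χ : E N → ℂ} (hχ : ContDiff ℝ ∞ χ) (hχc : HasCompactSupport χ) :
    ∫⁻ t, ‖trX χ t‖ₑ ^ 2 = ∫⁻ s, ‖χ s‖ₑ ^ 2 := by
  set f : 𝓢(E N, ℂ) := 𝓕⁻ (hχc.toSchwartzMap hχ) with hf
  have h1 : ∀ t, trX χ t = f t := by
    intro t
    rw [hf, SchwartzMap.fourierInv_coe, Real.fourierInv_eq']
    unfold trX ee
    refine integral_congr_ae (Eventually.of_forall fun s => ?_)
    simp only [smul_eq_mul]
    congr 1
    · congr 1
      rw [real_inner_comm]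
      push_cast
      ring
  have h2 : ∀ s, 𝓕 (f : E N → ℂ) s = χ s := by
    intro s
    have h3 : 𝓕 f = hχc.toSchwartzMap hχ := by rw [hf, fourier_fourierInv_eq]
    have h4 : (𝓕 f : 𝓢(E N, ℂ)) s = χ s := by rw [h3]; rfl
    rw [← SchwartzMap.fourier_coe]
    exact h4
  simp_rw [h1]
  rw [plancherel]
  simp_rw [h2]

/-! ### The modulated bumps -/

theorem transfer_I_in {A : Set (E N)} {χ : E N → ℂ} (h2 : ∀ x, χ x ≠ 0 → ‖x‖ < 2) (p : E N)
    (hp : ball p 2 ⊆ A) (x : E N) :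
    I A (fun ζ => χ (ζ - p)) x = ee x p * trX χ x := by
  unfold I
  rw [setIntegral_eq_integral_of_forall_compl_eq_zero]
  · have h3 := integral_sub_right_eq_self (μ := (volume : Measure (E N)))
      (fun ζ => ee x (ζ + p) * χ ζ) p
    have h4 : ∀ ζ, Complex.exp (2 * Real.pi * Complex.I * ((⟪x, ζ⟫ : ℝ) : ℂ)) * χ (ζ - p) =
        (fun ζ => ee x (ζ + p) * χ ζ) (ζ - p) := by
      intro ζ
      simp only [sub_add_cancel]
      rfl
    simp_rw [h4]
    rw [h3]
    unfold trX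
    rw [← integral_const_mul]
    refine integral_congr_ae (Eventually.of_forall fun ζ => ?_)
    simp only [ee_add]
    ring
  · intro ζ hζ
    have h3 : χ (ζ - p) = 0 := by
      by_contra hne
      exact hζ (hp (by rw [mem_ball, dist_eq_norm]; exact h2 _ hne))
    simp only [h3, mul_zero]

theorem transfer_I_out {A : Set (E N)} {χ : E N → ℂ} (h2 : ∀ x, χ x ≠ 0 → ‖x‖ < 2) (p : E N)
    (hp : ball p 2 ⊆ Aᶜ) (x : E N) :
    I A (fun ζ => χ (ζ - p)) x = 0 := by
  unfold I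
  refine setIntegral_eq_zero_of_forall_eq_zero fun ζ hζ => ?_
  have h3 : χ (ζ - p) = 0 := by
    by_contra hne
    exact hp (by rw [mem_ball, dist_eq_norm]; exact h2 _ hne) hζ
  simp only [h3, mul_zero]

theorem transfer_I_sum {A : Set (E N)} {χ : E N → ℂ} (hχ : Continuous χ)
    (hχc : HasCompactSupport χ) {κ : Type} (S : Finset κ) (c : κ → ℂ) (p : κ → E N) (x : E N) :
    I A (fun ζ => ∑ n ∈ S, c n * χ (ζ - p n)) x = ∑ n ∈ S, c n * I A (fun ζ => χ (ζ - p n)) x := by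
  have hi : ∀ n, Integrable (fun ζ => χ (ζ - p n)) := fun n =>
    (hχ.comp (continuous_id.sub continuous_const)).integrable_of_hasCompactSupport
      (hχc.comp_homeomorph (Homeomorph.subRight (p n)))
  unfold I
  have h1 : ∀ ζ, Complex.exp (2 * Real.pi * Complex.I * ((⟪x, ζ⟫ : ℝ) : ℂ)) *
      ∑ n ∈ S, c n * χ (ζ - p n) = ∑ n ∈ S, c n * (ee x ζ * χ (ζ - p n)) := by
    intro ζ
    rw [Finset.mul_sum]
    refine Finset.sum_congr rfl fun n _ => ?_
    unfold ee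
    ring
  simp_rw [h1]
  rw [integral_finsetSum S fun n _ => ((integrable_ee_mul (hi n) x).const_mul (c n)).integrableOn]
  refine Finset.sum_congr rfl fun n _ => ?_
  rw [integral_const_mul]
  rfl

theorem transfer_norm {χ : E N → ℂ} (hχ : Continuous χ) (h2 : ∀ x, χ x ≠ 0 → ‖x‖ < 2)
    {κ : Type} (S : Finset κ) (c : κ → ℂ) (p : κ → E N)
    (hp : ∀ n ∈ S, ∀ m ∈ S, n ≠ m → 4 ≤ dist (p n) (p m)) :
    ∫⁻ ζ, ‖∑ n ∈ S, c n * χ (ζ - p n)‖ₑ ^ 2 = (∑ n ∈ S, ‖c n‖ₑ ^ 2) * ∫⁻ s, ‖χ s‖ₑ ^ 2 := by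
  have h1 : ∀ ζ, ‖∑ n ∈ S, c n * χ (ζ - p n)‖ₑ ^ 2 = ∑ n ∈ S, ‖c n‖ₑ ^ 2 * ‖χ (ζ - p n)‖ₑ ^ 2 := by
    intro ζ
    by_cases h : ∃ n ∈ S, χ (ζ - p n) ≠ 0
    · obtain ⟨n, hn, hne⟩ := h
      have h3 : ∀ m ∈ S, m ≠ n → χ (ζ - p m) = 0 := by
        intro m hm hmn
        by_contra hne'
        have e1 := h2 _ hne
        have e2 := h2 _ hne'
        have e3 := hp m hm n hn hmn
        have e4 : dist (p m) (p n) ≤ ‖ζ - p m‖ + ‖ζ - p n‖ := by
          rw [← dist_eq_norm, ← dist_eq_norm, dist_comm ζ (p m)]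
          exact dist_triangle _ _ _
        linarith
      rw [Finset.sum_eq_single_of_mem n hn (fun m hm hmn => by rw [h3 m hm hmn, mul_zero]),
        Finset.sum_eq_single_of_mem n hn (fun m hm hmn => by
          rw [h3 m hm hmn, enorm_zero, zero_pow two_ne_zero, mul_zero]), enorm_mul, mul_pow]
    · push Not at h
      rw [Finset.sum_eq_zero (fun n hn => by rw [h n hn, mul_zero]),
        Finset.sum_eq_zero (fun n hn => by
          rw [h n hn, enorm_zero, zero_pow two_ne_zero, mul_zero]), enorm_zero,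
        zero_pow two_ne_zero]
  simp_rw [h1]
  have hm : ∀ n, Measurable fun ζ => ‖χ (ζ - p n)‖ₑ ^ 2 := fun n =>
    ((hχ.comp (continuous_id.sub continuous_const)).enorm.measurable).pow_const 2
  rw [lintegral_finsetSum S fun n _ => (hm n).const_mul _, Finset.sum_mul]
  refine Finset.sum_congr rfl fun n _ => ?_
  rw [lintegral_const_mul _ (hm n)]
  congr 1
  exact lintegral_sub_right_eq_self (fun ζ => ‖χ ζ‖ₑ ^ 2) (p n)

/-! ### The maximal function dominates the combination -/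

theorem transfer_sup {ι : Type} (J : Finset ι) (w v : ι → ℂ) (z : ℂ) (hw : ∑ i ∈ J, ‖w i‖ ≤ 1) :
    ‖z * ∑ i ∈ J, w i * v i‖ₑ ≤ J.sup fun i => ‖z * v i‖ₑ := by
  have h1 : z * ∑ i ∈ J, w i * v i = ∑ i ∈ J, w i * (z * v i) := by
    rw [Finset.mul_sum]
    exact Finset.sum_congr rfl fun i _ => by ring
  have h2 : ∑ i ∈ J, ‖w i‖ₑ ≤ 1 := by
    have h3 : ∑ i ∈ J, ‖w i‖ₑ = ENNReal.ofReal (∑ i ∈ J, ‖w i‖) := by
      rw [ENNReal.ofReal_sum_of_nonneg fun i _ => norm_nonneg _]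
      exact Finset.sum_congr rfl fun i _ => (ofReal_norm _).symm
    rw [h3, ← ENNReal.ofReal_one]
    exact ENNReal.ofReal_le_ofReal hw
  rw [h1]
  calc ‖∑ i ∈ J, w i * (z * v i)‖ₑ ≤ ∑ i ∈ J, ‖w i * (z * v i)‖ₑ := enorm_sum_le _ _
    _ ≤ ∑ i ∈ J, ‖w i‖ₑ * J.sup (fun i => ‖z * v i‖ₑ) := by
        refine Finset.sum_le_sum fun i hi => ?_
        rw [enorm_mul]
        exact mul_le_mul_right (Finset.le_sup (f := fun i => ‖z * v i‖ₑ) hi) _
    _ = (∑ i ∈ J, ‖w i‖ₑ) * J.sup (fun i => ‖z * v i‖ₑ) := by rw [Finset.sum_mul]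
    _ ≤ 1 * J.sup (fun i => ‖z * v i‖ₑ) := mul_le_mul_left h2 _
    _ = _ := one_mul _

/-! ### The key inequality -/

theorem transfer_compact {χ : E N → ℂ} (hχc : HasCompactSupport χ) {κ : Type} (S : Finset κ)
    (c : κ → ℂ) (p : κ → E N) : HasCompactSupport fun ζ => ∑ n ∈ S, c n * χ (ζ - p n) := by
  classical
  induction S using Finset.induction_on with
  | empty =>
    simp only [Finset.sum_empty]
    exact HasCompactSupport.zero
  | insert a S ha ih =>
    simp only [Finset.sum_insert ha]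
    refine HasCompactSupport.add ?_ ih
    have h1 : HasCompactSupport fun ζ => χ (ζ - p a) :=
      hχc.comp_homeomorph (Homeomorph.subRight (p a))
    exact h1.mul_left

theorem transfer_ball {A : Set (E N)} {p : E N} (hp : p ∈ interior A) :
    ∀ᶠ R : ℝ in atTop, ball p (2 / R) ⊆ A := by
  obtain ⟨ε, hε, hb⟩ := Metric.isOpen_iff.1 isOpen_interior p hp
  have h1 : Tendsto (fun R : ℝ => 2 / R) atTop (𝓝 0) := tendsto_const_nhds.div_atTop tendsto_id
  filter_upwards [h1.eventually_lt_const hε] with R hR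
  exact (ball_subset_ball hR.le).trans (hb.trans interior_subset)

theorem transfer_ball' {A : Set (E N)} {R : ℝ} (hR : 0 < R) {p : E N} (hp : ball p (2 / R) ⊆ A) :
    ball (R • p) 2 ⊆ {ζ | R⁻¹ • ζ ∈ A} := by
  intro ζ hζ
  apply hp
  rw [mem_ball, dist_eq_norm] at hζ ⊢
  have h1 : R⁻¹ • ζ - p = R⁻¹ • (ζ - R • p) := by
    rw [smul_sub, smul_smul, inv_mul_cancel₀ hR.ne', one_smul]
  rw [h1, norm_smul, Real.norm_of_nonneg (inv_nonneg.2 hR.le), div_eq_inv_mul]
  exact mul_lt_mul_of_pos_left hζ (inv_pos.2 hR)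

theorem transfer_ee_smul (R : ℝ) (x ξ : E N) : ee x (R • ξ) = ee (R • x) ξ := by
  unfold ee
  rw [inner_smul_left, inner_smul_right]
  rfl

theorem transfer_key {ι : Type} {𝒜 : ι → Set (E N)} {C : ℝ≥0} (h𝒜 : ∀ i, MeasurableSet (𝒜 i))
    (hFM : FM 𝒜 C) (lam : (ℕ →₀ ℤ) →+ E N) (J : Finset ι) (g : TP) (f W : ι → TP)
    (h1 : ∀ i ∈ J, ∀ n, ((f i).coeff n = g.coeff n ∧ lam n ∈ interior (𝒜 i)) ∨
        ((f i).coeff n = 0 ∧ lam n ∈ interior (𝒜 i)ᶜ) ∨
        ((f i).coeff n = 0 ∧ g.coeff n = 0))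
    (h2 : ∀ n ∈ g.coeff.support, ∀ m ∈ g.coeff.support, lam n = lam m → n = m)
    (h4 : ∀ x : E N, ∑ i ∈ J, ‖ev lam x (W i)‖ ≤ 1)
    {χ : E N → ℂ} (hχ : ContDiff ℝ ∞ χ) (hχc : HasCompactSupport χ)
    (hχ2 : ∀ x, χ x ≠ 0 → ‖x‖ < 2) :
    ∀ᶠ R : ℝ in atTop, ∫⁻ x, ‖trX χ x * ev lam (R • x) (∑ i ∈ J, W i * f i)‖ₑ ^ 2 ≤
      C * ((∑ n ∈ g.coeff.support, ‖((g.coeff n : ℝ) : ℂ)‖ₑ ^ 2) * ∫⁻ s, ‖χ s‖ₑ ^ 2) := by
  classical
  have e1 : ∀ᶠ R : ℝ in atTop, ∀ i ∈ J, ∀ n ∈ g.coeff.support,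
      ((f i).coeff n = g.coeff n ∧ ball (lam n) (2 / R) ⊆ 𝒜 i) ∨
      ((f i).coeff n = 0 ∧ ball (lam n) (2 / R) ⊆ (𝒜 i)ᶜ) := by
    refine (Finset.eventually_all J).2 fun i hi => (Finset.eventually_all _).2 fun n hn => ?_
    rcases h1 i hi n with h | h | h
    · filter_upwards [transfer_ball h.2] with R hR
      exact Or.inl ⟨h.1, hR⟩
    · filter_upwards [transfer_ball h.2] with R hR
      exact Or.inr ⟨h.1, hR⟩
    · exact absurd h.2 (Finsupp.mem_support_iff.1 hn)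
  have e2 : ∀ᶠ R : ℝ in atTop, ∀ n ∈ g.coeff.support, ∀ m ∈ g.coeff.support, n ≠ m →
      4 ≤ R * dist (lam n) (lam m) := by
    refine (Finset.eventually_all _).2 fun n hn => (Finset.eventually_all _).2 fun m hm => ?_
    by_cases hnm : n = m
    · exact Eventually.of_forall fun R h => absurd hnm h
    · have h5 : 0 < dist (lam n) (lam m) := dist_pos.2 fun h => hnm (h2 n hn m hm h)
      have h6 : Tendsto (fun R : ℝ => R * dist (lam n) (lam m)) atTop atTop :=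
        tendsto_id.atTop_mul_const h5
      filter_upwards [h6.eventually_ge_atTop 4] with R hR _
      exact hR
  filter_upwards [e1, e2, eventually_gt_atTop 0] with R hR1 hR2 hR0
  have hRi : R⁻¹ ≠ 0 := inv_ne_zero hR0.ne'
  have hFM' := hFM.linear h𝒜 (LinearEquiv.smulOfNeZero ℝ (E N) R⁻¹ hRi)
  have hT : ∀ i, {ζ : E N | (LinearEquiv.smulOfNeZero ℝ (E N) R⁻¹ hRi) ζ ∈ 𝒜 i} =
      {ζ : E N | R⁻¹ • ζ ∈ 𝒜 i} := fun i => rfl
  simp only [hT] at hFM'
  have hGs : ContDiff ℝ ∞ fun ζ : E N =>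
      ∑ n ∈ g.coeff.support, ((g.coeff n : ℝ) : ℂ) * χ (ζ - R • lam n) := by
    refine ContDiff.sum fun n _ => contDiff_const.mul ?_
    exact hχ.comp (contDiff_id.sub contDiff_const)
  have hGc := transfer_compact hχc g.coeff.support (fun n => ((g.coeff n : ℝ) : ℂ))
    (fun n => R • lam n)
  have key := hFM' J _ hGs hGc
  have hnorm := transfer_norm hχ.continuous hχ2 g.coeff.support (fun n => ((g.coeff n : ℝ) : ℂ))
    (fun n => R • lam n) (by
      intro n hn m hm hnm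
      rw [dist_smul₀, Real.norm_of_nonneg hR0.le]
      exact hR2 n hn m hm hnm)
  rw [hnorm] at key
  refine le_trans (lintegral_mono fun x => ?_) key
  refine pow_le_pow_left' ?_ 2
  have hI : ∀ i ∈ J, I {ζ : E N | R⁻¹ • ζ ∈ 𝒜 i}
      (fun ζ => ∑ n ∈ g.coeff.support, ((g.coeff n : ℝ) : ℂ) * χ (ζ - R • lam n)) x =
      trX χ x * ev lam (R • x) (f i) := by
    intro i hi
    rw [transfer_I_sum hχ.continuous hχc g.coeff.support (fun n => ((g.coeff n : ℝ) : ℂ))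
      (fun n => R • lam n) x, ev_eq]
    have hsub : (f i).coeff.support ⊆ g.coeff.support := by
      intro n hn
      rw [Finsupp.mem_support_iff] at hn ⊢
      intro h0
      rcases h1 i hi n with h | h | h
      · exact hn (h.1.trans h0)
      · exact hn h.1
      · exact hn h.1
    rw [Finset.sum_subset hsub (f := fun n => (((f i).coeff n : ℝ) : ℂ) * ee (R • x) (lam n))
      (fun n _ hn => by
        rw [Finsupp.notMem_support_iff.1 hn, Complex.ofReal_zero, zero_mul]), Finset.mul_sum]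
    refine Finset.sum_congr rfl fun n hn => ?_
    rcases hR1 i hi n hn with ⟨h5, h6⟩ | ⟨h5, h6⟩
    · rw [transfer_I_in hχ2 (R • lam n) (transfer_ball' hR0 h6) x, h5, transfer_ee_smul]
      ring
    · rw [transfer_I_out (A := {ζ : E N | R⁻¹ • ζ ∈ 𝒜 i}) hχ2 (R • lam n)
        (transfer_ball' (A := (𝒜 i)ᶜ) hR0 h6) x, h5]
      simp
  have hsup : (J.sup fun i => ‖I {ζ : E N | R⁻¹ • ζ ∈ 𝒜 i}
      (fun ζ => ∑ n ∈ g.coeff.support, ((g.coeff n : ℝ) : ℂ) * χ (ζ - R • lam n)) x‖ₑ) =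
      J.sup fun i => ‖trX χ x * ev lam (R • x) (f i)‖ₑ :=
    Finset.sup_congr rfl fun i hi => by rw [hI i hi]
  rw [hsup, map_sum]
  simp only [map_mul]
  exact transfer_sup J (fun i => ev lam (R • x) (W i)) (fun i => ev lam (R • x) (f i)) (trX χ x)
    (h4 (R • x))

/-! ### The limit -/

theorem transfer_RL {Φ : E N → ℂ} {p : E N} (hp : p ≠ 0) :
    Tendsto (fun R : ℝ => ∫ x, Φ x * ee (R • x) p) atTop (𝓝 0) := by
  have h1 := tendsto_integral_exp_inner_smul_cocompact (V := E N) Φ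
  have h2 : Tendsto (fun R : ℝ => -(R • p)) atTop (cocompact (E N)) := by
    rw [← comap_dist_left_atTop_eq_cocompact (0 : E N), tendsto_comap_iff]
    have h3 : (dist (0 : E N) ∘ fun R : ℝ => -(R • p)) = fun R => |R| * ‖p‖ := by
      funext R
      simp [norm_smul]
    rw [h3]
    exact tendsto_abs_atTop_atTop.atTop_mul_const (norm_pos_iff.2 hp)
  refine (h1.comp h2).congr fun R => ?_
  refine integral_congr_ae (Eventually.of_forall fun x => ?_)
  show _ • _ = _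
  rw [Circle.smul_def, Real.fourierChar_apply, smul_eq_mul, mul_comm]
  unfold ee
  congr 2
  rw [inner_neg_right, inner_smul_right, inner_smul_left]
  push_cast
  simp
  ring

theorem transfer_bound (lam : (ℕ →₀ ℤ) →+ E N) (h : TP) (x : E N) :
    ‖ev lam x h‖ ≤ ∑ n ∈ h.coeff.support, ‖((h.coeff n : ℝ) : ℂ)‖ := by
  rw [ev_eq]
  refine (norm_sum_le _ _).trans (Finset.sum_le_sum fun n _ => ?_)
  rw [norm_mul, norm_ee, mul_one]

theorem transfer_cont (lam : (ℕ →₀ ℤ) →+ E N) (h : TP) (R : ℝ) :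
    Continuous fun x : E N => ev lam (R • x) h := by
  simp_rw [ev_eq]
  refine continuous_finsetSum _ fun n _ => continuous_const.mul ?_
  exact (continuous_ee' (lam n)).comp (continuous_const_smul R)

theorem transfer_lim (lam : (ℕ →₀ ℤ) →+ E N) (h : TP)
    (h3 : ∀ n ∈ h.coeff.support, lam n = 0 → n = 0) {Φ : E N → ℂ} (hΦ : Integrable Φ) :
    Tendsto (fun R : ℝ => ∫ x, Φ x * ev lam (R • x) h) atTop
      (𝓝 (((h.coeff 0 : ℝ) : ℂ) * ∫ x, Φ x)) := by
  have hint : ∀ (R : ℝ) (n : ℕ →₀ ℤ), Integrable fun x => Φ x * ee (R • x) (lam n) := by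
    intro R n
    have e1 := hΦ.bdd_mul (c := 1) (f := fun x : E N => ee (R • x) (lam n))
      ((continuous_ee' (lam n)).comp (continuous_const_smul R)).aestronglyMeasurable
      (Eventually.of_forall fun x => (norm_ee _ _).le)
    refine e1.congr (Eventually.of_forall fun x => ?_)
    exact mul_comm _ _
  have e1 : ∀ R : ℝ, ∫ x, Φ x * ev lam (R • x) h =
      ∑ n ∈ h.coeff.support, ((h.coeff n : ℝ) : ℂ) * ∫ x, Φ x * ee (R • x) (lam n) := by
    intro R
    have e2 : ∀ x, Φ x * ev lam (R • x) h =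
        ∑ n ∈ h.coeff.support, ((h.coeff n : ℝ) : ℂ) * (Φ x * ee (R • x) (lam n)) := by
      intro x
      rw [ev_eq, Finset.mul_sum]
      exact Finset.sum_congr rfl fun n _ => by ring
    simp_rw [e2]
    rw [integral_finsetSum _ fun n _ => (hint R n).const_mul _]
    exact Finset.sum_congr rfl fun n _ => integral_const_mul _ _
  simp_rw [e1]
  have e3 : ((h.coeff 0 : ℝ) : ℂ) * ∫ x, Φ x =
      ∑ n ∈ h.coeff.support, ((h.coeff n : ℝ) : ℂ) * (if n = 0 then ∫ x, Φ x else 0) := by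
    by_cases h0 : (0 : ℕ →₀ ℤ) ∈ h.coeff.support
    · rw [Finset.sum_eq_single_of_mem 0 h0 fun m _ hm => by rw [if_neg hm, mul_zero], if_pos rfl]
    · have e5 : ∀ n ∈ h.coeff.support,
          ((h.coeff n : ℝ) : ℂ) * (if n = 0 then ∫ x, Φ x else 0) = 0 := by
        intro n hn
        rw [if_neg (fun hh : n = 0 => h0 (by rw [← hh]; exact hn)), mul_zero]
      rw [Finset.sum_eq_zero e5, Finsupp.notMem_support_iff.1 h0, Complex.ofReal_zero, zero_mul]
  rw [e3]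
  refine tendsto_finsetSum _ fun n hn => Tendsto.const_mul _ ?_
  by_cases h0 : n = 0
  · subst h0
    rw [if_pos rfl]
    simp only [map_zero, ee_zero, mul_one]
    exact tendsto_const_nhds
  · rw [if_neg h0]
    exact transfer_RL fun hh => h0 (h3 n hn hh)

/-- TRANSFERENCE -/
theorem transfer : S_transfer := by
  intro N ι 𝒜 C h𝒜 hFM lam J g f W h1 h2 h3 h4
  obtain ⟨χ, hχ, hχc, hχ2, ha0, hat⟩ := transfer_chi N
  set h : TP := ∑ i ∈ J, W i * f i with hh
  have hkey := transfer_key h𝒜 hFM lam J g f W h1 h2 h4 hχ hχc hχ2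
  rw [← hh] at hkey
  have hXc := transfer_X_cont hχ.continuous hχc
  have hpl := transfer_planch hχ hχc
  set a : ℝ := (∫⁻ s, ‖χ s‖ₑ ^ 2).toReal with ha
  have hapos : 0 < a := ENNReal.toReal_pos ha0 hat
  have haof : ENNReal.ofReal a = ∫⁻ s, ‖χ s‖ₑ ^ 2 := ENNReal.ofReal_toReal hat
  -- the density
  have hΦe : ∀ x, ENNReal.ofReal (‖trX χ x‖ ^ 2) = ‖trX χ x‖ₑ ^ 2 := by
    intro x
    rw [ENNReal.ofReal_pow (norm_nonneg _), ofReal_norm]
  have hΦi : Integrable fun x => ‖trX χ x‖ ^ 2 := by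
    refine ⟨(hXc.norm.pow 2).aestronglyMeasurable, ?_⟩
    rw [hasFiniteIntegral_iff_ofReal (Eventually.of_forall fun x => by positivity)]
    simp_rw [hΦe]
    rw [hpl]
    exact hat.lt_top
  have hΦa : ∫ x, ‖trX χ x‖ ^ 2 = a := by
    have e1 := ofReal_integral_eq_lintegral_ofReal hΦi (Eventually.of_forall fun x => by positivity)
    simp_rw [hΦe] at e1
    rw [hpl, ← haof] at e1
    exact (ENNReal.ofReal_eq_ofReal_iff (integral_nonneg fun x => by positivity) hapos.le).1 e1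
  set B : ℝ := ∑ n ∈ h.coeff.support, ‖((h.coeff n : ℝ) : ℂ)‖ with hB
  have hevB : ∀ (R : ℝ) (x : E N), ‖ev lam (R • x) h‖ ≤ B := fun R x => transfer_bound lam h _
  have hint2 : ∀ R : ℝ, Integrable fun x => ‖trX χ x‖ ^ 2 * ‖ev lam (R • x) h‖ ^ 2 := by
    intro R
    have e1 := hΦi.bdd_mul (c := B ^ 2) (f := fun x : E N => ‖ev lam (R • x) h‖ ^ 2)
      ((transfer_cont lam h R).norm.pow 2).aestronglyMeasurable
      (Eventually.of_forall fun x => by
        rw [Real.norm_of_nonneg (by positivity)]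
        exact pow_le_pow_left₀ (norm_nonneg _) (hevB R x) 2)
    refine e1.congr (Eventually.of_forall fun x => ?_)
    exact mul_comm _ _
  have hint1 : ∀ R : ℝ, Integrable fun x => ((‖trX χ x‖ ^ 2 : ℝ) : ℂ) * ev lam (R • x) h := by
    intro R
    have e1 := (hΦi.ofReal (𝕜 := ℂ)).bdd_mul (c := B) (f := fun x : E N => ev lam (R • x) h)
      (transfer_cont lam h R).aestronglyMeasurable (Eventually.of_forall fun x => hevB R x)
    refine e1.congr (Eventually.of_forall fun x => ?_)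
    exact mul_comm _ _
  have hlim := transfer_lim lam h h3 (hΦi.ofReal (𝕜 := ℂ))
  -- the inequality for large radii
  set c0 : ℝ := h.coeff 0 with hc0
  set Sg : ℝ := ∑ n ∈ g.coeff.support, (g.coeff n) ^ 2 with hSg
  have hSg0 : 0 ≤ Sg := Finset.sum_nonneg fun n _ => sq_nonneg _
  have hineq : ∀ᶠ R : ℝ in atTop,
      2 * c0 * (∫ x, ((‖trX χ x‖ ^ 2 : ℝ) : ℂ) * ev lam (R • x) h).re - c0 ^ 2 * a ≤
        C * (Sg * a) := by
    filter_upwards [hkey] with R hR
    have e1 : ∫ x, ‖trX χ x‖ ^ 2 * ‖ev lam (R • x) h‖ ^ 2 ≤ C * (Sg * a) := by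
      have e2 : ∀ x, ‖trX χ x * ev lam (R • x) h‖ₑ ^ 2 =
          ENNReal.ofReal (‖trX χ x‖ ^ 2 * ‖ev lam (R • x) h‖ ^ 2) := by
        intro x
        rw [← mul_pow, ← norm_mul, ENNReal.ofReal_pow (norm_nonneg _), ofReal_norm]
      have e3 : (∑ n ∈ g.coeff.support, ‖((g.coeff n : ℝ) : ℂ)‖ₑ ^ 2) = ENNReal.ofReal Sg := by
        rw [hSg, ENNReal.ofReal_sum_of_nonneg fun n _ => sq_nonneg _]
        refine Finset.sum_congr rfl fun n _ => ?_
        rw [← ofReal_norm, ← ENNReal.ofReal_pow (norm_nonneg _), Complex.norm_real,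
          Real.norm_eq_abs, sq_abs]
      simp_rw [e2] at hR
      rw [← ofReal_integral_eq_lintegral_ofReal (hint2 R)
        (Eventually.of_forall fun x => by positivity), e3, ← haof,
        ← ENNReal.ofReal_mul hSg0, ← ENNReal.ofReal_coe_nnreal,
        ← ENNReal.ofReal_mul C.coe_nonneg] at hR
      exact (ENNReal.ofReal_le_ofReal_iff (by positivity)).1 hR
    have e4 : (∫ x, ((‖trX χ x‖ ^ 2 : ℝ) : ℂ) * ev lam (R • x) h).re =
        ∫ x, ‖trX χ x‖ ^ 2 * (ev lam (R • x) h).re := by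
      have e5 := (integral_re (hint1 R))
      simp only [RCLike.re_eq_complex_re] at e5
      rw [← e5]
      refine integral_congr_ae (Eventually.of_forall fun x => ?_)
      simp only [Complex.re_ofReal_mul]
    have hint3 : Integrable fun x => ‖trX χ x‖ ^ 2 * (ev lam (R • x) h).re := by
      have e5 := (hint1 R).re
      refine e5.congr (Eventually.of_forall fun x => ?_)
      simp only [RCLike.re_eq_complex_re, Complex.re_ofReal_mul]
    refine le_trans ?_ e1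
    rw [e4, ← hΦa, ← integral_const_mul, ← integral_const_mul, ← integral_sub
      (hint3.const_mul _) (hΦi.const_mul _)]
    refine integral_mono ((hint3.const_mul _).sub (hΦi.const_mul _)) (hint2 R) fun x => ?_
    have e6 : (ev lam (R • x) h).re ^ 2 ≤ ‖ev lam (R • x) h‖ ^ 2 := by
      rw [← sq_abs (ev lam (R • x) h).re]
      exact pow_le_pow_left₀ (abs_nonneg _) (Complex.abs_re_le_norm _) 2
    have e7 : 2 * c0 * (ev lam (R • x) h).re - c0 ^ 2 ≤ ‖ev lam (R • x) h‖ ^ 2 := by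
      nlinarith [sq_nonneg ((ev lam (R • x) h).re - c0)]
    have e8 : 0 ≤ ‖trX χ x‖ ^ 2 := by positivity
    show 2 * c0 * (‖trX χ x‖ ^ 2 * (ev lam (R • x) h).re) - c0 ^ 2 * ‖trX χ x‖ ^ 2 ≤
      ‖trX χ x‖ ^ 2 * ‖ev lam (R • x) h‖ ^ 2
    nlinarith [mul_le_mul_of_nonneg_left e7 e8]
  have hlim2 : Tendsto (fun R : ℝ =>
      2 * c0 * (∫ x, ((‖trX χ x‖ ^ 2 : ℝ) : ℂ) * ev lam (R • x) h).re - c0 ^ 2 * a) atTop
      (𝓝 (2 * c0 * (c0 * a) - c0 ^ 2 * a)) := by
    have e1 : (((c0 : ℝ) : ℂ) * ∫ x, ((‖trX χ x‖ ^ 2 : ℝ) : ℂ)).re = c0 * a := by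
      have e0 : ∫ x, ((‖trX χ x‖ ^ 2 : ℝ) : ℂ) = ((∫ x, ‖trX χ x‖ ^ 2 : ℝ) : ℂ) :=
        integral_ofReal (𝕜 := ℂ)
      rw [e0, hΦa, ← Complex.ofReal_mul, Complex.ofReal_re]
    rw [← e1]
    exact (((Complex.continuous_re.tendsto _).comp hlim).const_mul _).sub_const _
  have hfin := le_of_tendsto hlim2 hineq
  have e9 : c0 ^ 2 * a ≤ (C * Sg) * a := by nlinarith
  exact le_of_mul_le_mul_right e9 hapos

end Pool.Agent.H311.CB
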