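import Pool.Agent.H311.CB.Near
import Pool.Agent.H311.CB.Lower2
import Pool.Agent.H311.CB.Cone2
import Pool.Agent.H311.CB.Funs
import Pool.Agent.H311.CB.SmoothSum
import Pool.Agent.H311.CB.Terms
import Pool.Agent.H311.CB.Blow2
import Pool.Agent.H311.CB.Poly
import Pool.Agent.H311.CB.Transfer

/-!
# Smooth convex bodies without maximal estimate
-/

set_option autoImplicit false

open MeasureTheory Metric Set Filter Topology
open scoped ENNReal NNReal Real RealInnerProductSpace ContDiff Pointwise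

namespace Pool.Agent.H311.CB

open Pool.Agent.H311.PM

theorem FM_mono {N : ℕ} {ι : Type*} {𝒜 : ι → Set (E N)} {C C' : ℝ≥0} (h : FM 𝒜 C)
    (hC : C ≤ C') : FM 𝒜 C' := by
  intro F G hG hGc
  refine (h F G hG hGc).trans ?_
  exact mul_le_mul_left (by exact_mod_cast hC) _

theorem blowsUp_PhiF {β : ℝ → ℝ} (hβ : IsBeta β) {S : ℝ × ℝ → ℝ} {ψ : ℝ → ℝ → ℝ}
    (hS : BlowsUpTo S ψ) {ρ θ : ℝ} (hρ : 0 < ρ) (hθ : 0 < θ) (hθ1 : θ ≤ 1) :
    BlowsUpTo (PhiF β S ρ θ) ψ := by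
  obtain ⟨ξ, s, e, hξ, hs, he, hlim⟩ := hS
  refine ⟨ξ, s, fun j => θ * e j, hξ, hs, fun j => ⟨mul_pos hθ (he j).1, ?_⟩, ?_⟩
  · calc θ * e j ≤ 1 * e j := mul_le_mul_of_nonneg_right hθ1 (he j).1.le
      _ ≤ s j := by rw [one_mul]; exact (he j).2
  · intro R η hη
    have hz : ∀ z : ℝ × ℝ, ‖z‖ ≤ ρ / 2 → PhiF β S ρ θ z = θ * S z := by
      intro z hz
      unfold PhiF
      have h1 : |z.1| ≤ ρ / 2 := (norm_fst_le z).trans hz
      have h2 : |z.2| ≤ ρ / 2 := (norm_snd_le z).trans hz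
      have h3 : z.1 ^ 2 ≤ (ρ / 2) ^ 2 := sq_le_sq' (by linarith [(abs_le.1 h1).1]) (abs_le.1 h1).2
      have h4 : z.2 ^ 2 ≤ (ρ / 2) ^ 2 := sq_le_sq' (by linarith [(abs_le.1 h2).1]) (abs_le.1 h2).2
      rw [hβ.zero, mul_zero, zero_add]
      rw [div_le_one (by positivity)]
      nlinarith
    have h5 : ∀ᶠ j in atTop, ‖ξ j‖ < ρ / 4 := by
      have := hξ.norm
      rw [norm_zero] at this
      exact this.eventually_lt_const (by positivity)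
    have h6 : ∀ᶠ j in atTop, s j * (|R| + 1) < ρ / 4 := by
      have := hs.mul_const (|R| + 1)
      rw [zero_mul] at this
      exact this.eventually_lt_const (by positivity)
    filter_upwards [hlim R η hη, h5, h6] with j k1 k2 k3 u hu
    have hsj : 0 < s j := lt_of_lt_of_le (he j).1 (he j).2
    have h7 : ‖ξ j + s j • u‖ ≤ ρ / 2 := by
      refine (norm_add_le _ _).trans ?_
      rw [norm_smul, Real.norm_of_nonneg hsj.le]
      have h8 : s j * ‖u‖ ≤ s j * (|R| + 1) :=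
        mul_le_mul_of_nonneg_left (by linarith [le_abs_self R]) hsj.le
      linarith
    rw [hz _ h7, hz _ (by linarith)]
    rw [show θ * S (ξ j + s j • u) - θ * S (ξ j) - θ * e j * ψ u.1 u.2 =
      θ * (S (ξ j + s j • u) - S (ξ j) - e j * ψ u.1 u.2) by ring, abs_mul, abs_of_pos hθ]
    calc θ * |S (ξ j + s j • u) - S (ξ j) - e j * ψ u.1 u.2| ≤ θ * (η * e j) :=
          mul_le_mul_of_nonneg_left (k1 u hu) hθ.le
      _ = η * (θ * e j) := by ring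

theorem smooth_body (hSer : S_series) (k : ℕ) {ε : ℝ} (hε : 0 < ε) :
    ∃ Θ : E (k + 3) → ℝ, ContDiff ℝ ∞ Θ ∧ ConvexOn ℝ univ Θ ∧
      (∀ ζ : E (k + 3), ‖ζ‖ ≤ 2 → |Θ ζ - ‖ζ‖ ^ 2| ≤ ε ∧
        ∀ h : E (k + 3), |fderiv ℝ Θ ζ h - 2 * ⟪ζ, h⟫| ≤ ε * ‖h‖) ∧
      {ζ | Θ ζ ≤ 1} ⊆ closedBall 0 2 ∧
      (∀ ζ h : E (k + 3), (ζ 0 ≠ 0 ∨ ζ 1 ≠ 0) → h ≠ 0 →
        0 < iteratedDeriv 2 (fun t : ℝ => Θ (ζ + t • h)) 0) ∧
      ∀ C : ℝ≥0, ¬ FM (fun R : {R : ℝ // 0 < R} => (R : ℝ) • {ζ | Θ ζ ≤ 1}) C := by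
  have hex : ∀ m : ℕ, ∃ (M : ℕ) (lam : ℕ → ℝ), (∀ i, 0 ≤ lam i) ∧
      ¬ FM (fun r : ℝ => {ζ : E (k + 3) | ζ 2 + ridge M lam (ζ 0) (ζ 1) ≤ r}) (m : ℝ≥0) :=
    fun m => exists_ridge transfer poly cone2 k m
  choose M lam hlam hbad using hex
  obtain ⟨S, hSs, hSc, hS0, hS00, hSh, hSb⟩ := hSer M lam hlam
  obtain ⟨-, β, hβ⟩ := funs
  -- bounds
  have hcomp : IsCompact (closedBall (0 : ℝ × ℝ) 2) := isCompact_closedBall 0 2
  obtain ⟨B1, hB1⟩ := hcomp.exists_bound_of_continuousOn (f := S) hSs.continuous.continuousOn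
  obtain ⟨B2, hB2⟩ := hcomp.exists_bound_of_continuousOn (f := fderiv ℝ S)
    (hSs.continuous_fderiv (by simp)).continuousOn
  set B : ℝ := max B1 B2 with hB
  have hB1' : ∀ z : ℝ × ℝ, ‖z‖ ≤ 2 → |S z| ≤ B := fun z hz =>
    (hB1 z (mem_closedBall_zero_iff.2 hz)).trans (le_max_left _ _)
  have hB2' : ∀ z : ℝ × ℝ, ‖z‖ ≤ 2 → ‖fderiv ℝ S z‖ ≤ B := fun z hz =>
    (hB2 z (mem_closedBall_zero_iff.2 hz)).trans (le_max_right _ _)
  have hBn : 0 ≤ B := (abs_nonneg _).trans (hB1' 0 (by simp))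
  set ρ : ℝ := min (1 / 2) (ε / 8) with hρ
  have hρ0 : 0 < ρ := by rw [hρ]; positivity
  have hρ1 : ρ ≤ 1 / 2 := min_le_left _ _
  have hρ2 : ρ ≤ ε / 8 := min_le_right _ _
  set θ : ℝ := min 1 (ε / (2 * (B + 1))) with hθ
  have hθ0 : 0 < θ := by rw [hθ]; positivity
  have hθ1 : θ ≤ 1 := min_le_left _ _
  have hθ2 : θ * B ≤ ε / 2 := by
    calc θ * B ≤ ε / (2 * (B + 1)) * B := mul_le_mul_of_nonneg_right (min_le_right _ _) hBn
      _ ≤ ε / 2 := by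
        rw [div_mul_eq_mul_div, div_le_div_iff₀ (by positivity) (by norm_num)]
        nlinarith
  refine ⟨theta (PhiF β S ρ θ), contDiff_theta (contDiff_PhiF hβ.smooth hSs ρ θ),
    convexOn_theta (convexOn_PhiF hβ.convex hβ.mono hSc hθ0.le), ?_, ?_, ?_, ?_⟩
  · intro ζ hζ
    constructor
    · refine (theta_near hβ hρ0 hθ0.le hB1' ζ hζ).trans ?_
      nlinarith
    · intro h
      refine (theta_deriv_near hβ hSs hρ0 hθ0.le hB2' ζ h hζ).trans ?_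
      refine mul_le_mul_of_nonneg_right ?_ (norm_nonneg _)
      linarith
  · exact theta_sub hβ hS0 hρ0 (by nlinarith) hθ0.le
  · intro ζ h hζ hh
    refine theta_hess hβ.smooth hβ.convex hβ.mono hSs hSh hθ0 ζ h ?_ hh
    intro h0
    rcases hζ with h1 | h1
    · exact h1 (congrArg Prod.fst h0)
    · exact h1 (congrArg Prod.snd h0)
  · intro C hFM
    obtain ⟨m, hm⟩ := exists_nat_ge C
    refine hbad m ?_
    refine blow2 k _ (sublin_ridge (M m) (hlam m)) (PhiF β S ρ θ)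
      (contDiff_PhiF hβ.smooth hSs ρ θ).continuous ?_ (blowsUp_PhiF hβ (hSb m) hρ0 hθ0 hθ1) m
      (FM_mono hFM hm)
    unfold PhiF
    rw [hS00, hβ.zero _ (by simp)]
    norm_num

end Pool.Agent.H311.CB
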