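import Pool.Agent.H311.CB.Defs

/-!
# The space of convex bodies is a Baire space
-/

set_option autoImplicit false

open MeasureTheory Metric Set Filter Topology
open scoped ENNReal NNReal Real RealInnerProductSpace ContDiff Pointwise

namespace Pool.Agent.H311.CB

open Pool.Agent.H311.PM

/-- a convex body as a nonempty compact set -/
def baireNC {N : ℕ} (K : ConvexBody (E N)) : TopologicalSpace.NonemptyCompacts (E N) :=
  ⟨⟨(K : Set (E N)), K.isCompact⟩, K.nonempty⟩

theorem baireNC_coe {N : ℕ} (K : ConvexBody (E N)) : (baireNC K : Set (E N)) = (K : Set (E N)) :=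
  rfl

theorem baire_isom {N : ℕ} : Isometry (baireNC (N := N)) := by
  refine Isometry.of_dist_eq fun K L => ?_
  rw [Metric.NonemptyCompacts.dist_eq, baireNC_coe, baireNC_coe]
  exact ConvexBody.hausdorffDist_coe (K := K) (L := L)

theorem baire_range {N : ℕ} : range (baireNC (N := N)) =
    {s : TopologicalSpace.NonemptyCompacts (E N) | Convex ℝ (s : Set (E N))} := by
  ext s
  constructor
  · rintro ⟨K, rfl⟩
    exact K.convex
  · intro hs
    exact ⟨⟨(s : Set (E N)), hs, s.isCompact, s.nonempty⟩, rfl⟩

theorem baire_closed {N : ℕ} : IsClosed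
    {s : TopologicalSpace.NonemptyCompacts (E N) | Convex ℝ (s : Set (E N))} := by
  rw [← isSeqClosed_iff_isClosed]
  intro u s hu hlim
  rw [mem_ofPred_eq]
  have hu' : ∀ n, Convex ℝ (u n : Set (E N)) := hu
  intro x hx y hy a b ha hb hab
  have hcl : IsClosed (s : Set (E N)) := s.isCompact.isClosed
  rw [← hcl.closure_eq, Metric.mem_closure_iff]
  intro ε hε
  rw [Metric.tendsto_atTop] at hlim
  obtain ⟨n, hn⟩ := hlim (ε / 2) (by positivity)
  have hd := hn n le_rfl
  rw [Metric.NonemptyCompacts.dist_eq] at hd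
  have hd' : hausdorffDist (s : Set (E N)) (u n : Set (E N)) < ε / 2 := by
    rw [hausdorffDist_comm]
    exact hd
  have hfin : hausdorffEDist (s : Set (E N)) (u n : Set (E N)) ≠ ⊤ :=
    hausdorffEDist_ne_top_of_nonempty_of_bounded s.nonempty (u n).nonempty
      s.isCompact.isBounded (u n).isCompact.isBounded
  have hfin' : hausdorffEDist (u n : Set (E N)) (s : Set (E N)) ≠ ⊤ := by
    rw [hausdorffEDist_comm]
    exact hfin
  obtain ⟨x', hx', hxx'⟩ := exists_dist_lt_of_hausdorffDist_lt hx hd' hfin
  obtain ⟨y', hy', hyy'⟩ := exists_dist_lt_of_hausdorffDist_lt hy hd' hfin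
  have hz' : a • x' + b • y' ∈ (u n : Set (E N)) := hu' n hx' hy' ha hb hab
  obtain ⟨z, hz, hzz⟩ := exists_dist_lt_of_hausdorffDist_lt hz' hd hfin'
  refine ⟨z, hz, ?_⟩
  have h1 : dist (a • x + b • y) (a • x' + b • y') ≤ ε / 2 := by
    rw [dist_eq_norm] at hxx' hyy' ⊢
    have e : a • x + b • y - (a • x' + b • y') = a • (x - x') + b • (y - y') := by
      rw [smul_sub, smul_sub]
      abel
    rw [e]
    refine (norm_add_le _ _).trans ?_
    rw [norm_smul, norm_smul, Real.norm_of_nonneg ha, Real.norm_of_nonneg hb]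
    calc a * ‖x - x'‖ + b * ‖y - y'‖ ≤ a * (ε / 2) + b * (ε / 2) :=
          add_le_add (mul_le_mul_of_nonneg_left hxx'.le ha)
            (mul_le_mul_of_nonneg_left hyy'.le hb)
      _ = ε / 2 := by rw [← add_mul, hab, one_mul]
  calc dist (a • x + b • y) z ≤ dist (a • x + b • y) (a • x' + b • y') +
        dist (a • x' + b • y') z := dist_triangle _ _ _
    _ < ε / 2 + ε / 2 := add_lt_add_of_le_of_lt h1 hzz
    _ = ε := by ring

/-- The space of convex bodies is a Baire space. -/
theorem baire : S_baire := by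
  intro N
  have hc : CompleteSpace (ConvexBody (E N)) := by
    rw [completeSpace_iff_isComplete_range (baire_isom (N := N)).isUniformInducing, baire_range]
    exact baire_closed.isComplete
  infer_instance

end Pool.Agent.H311.CB
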