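import Pool.Agent.H311.CB.Defs

/-!
# (T2a) Convergence of convex bodies in the Hausdorff metric (helper34)
-/

set_option autoImplicit false

open MeasureTheory Metric Set Filter Topology
open scoped ENNReal NNReal Real RealInnerProductSpace ContDiff Pointwise

namespace Pool.Agent.H311.CB

open Pool.Agent.H311.PM

theorem conv_out {N : ℕ} {K L : ConvexBody (E N)} {x : E N}
    (h : dist K L < infDist x (L : Set (E N))) : x ∉ (K : Set (E N)) := by
  intro hxK
  have h1 := Metric.infDist_le_hausdorffDist_of_mem (s := (K : Set (E N))) (t := (L : Set (E N))) hxK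
    ConvexBody.hausdorffEDist_ne_top
  rw [ConvexBody.hausdorffDist_coe] at h1
  exact absurd h (not_lt.2 h1)

theorem conv_in {N : ℕ} {K L : ConvexBody (E N)} {x : E N} {r : ℝ} (hr : 0 < r)
    (hball : ball x r ⊆ (L : Set (E N))) (h : dist K L < r / 2) : x ∈ (K : Set (E N)) := by
  by_contra hx
  obtain ⟨f, u, hfu, hux⟩ := geometric_hahn_banach_closed_point K.convex K.isClosed hx
  set v : E N := (InnerProductSpace.toDual ℝ (E N)).symm f with hv
  have hfv : ∀ y, f y = ⟪v, y⟫ := by
    intro y
    rw [hv, InnerProductSpace.toDual_symm_apply]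
  obtain ⟨y0, hy0⟩ := K.nonempty
  have hv0 : v ≠ 0 := by
    intro h0
    have h1 := hfu y0 hy0
    rw [hfv, h0, inner_zero_left] at h1
    rw [hfv, h0, inner_zero_left] at hux
    linarith
  have hvn : 0 < ‖v‖ := norm_pos_iff.2 hv0
  set z : E N := x + (r / 2 / ‖v‖) • v with hz
  have hzL : z ∈ (L : Set (E N)) := by
    apply hball
    rw [mem_ball, dist_eq_norm, hz, add_sub_cancel_left, norm_smul, Real.norm_of_nonneg (by positivity),
      div_mul_cancel₀ _ hvn.ne']
    linarith
  have h1 := Metric.infDist_le_hausdorffDist_of_mem (s := (L : Set (E N))) (t := (K : Set (E N))) hzL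
    ConvexBody.hausdorffEDist_ne_top
  rw [ConvexBody.hausdorffDist_coe, dist_comm] at h1
  have h2 : r / 2 ≤ infDist z (K : Set (E N)) := by
    rw [Metric.le_infDist K.nonempty]
    intro y hy
    have h3 : ⟪v, z - y⟫ ≤ ‖v‖ * ‖z - y‖ := real_inner_le_norm _ _
    have h4 : ⟪v, z - y⟫ = f x - f y + (r / 2) * ‖v‖ := by
      rw [inner_sub_right, hz, inner_add_right, inner_smul_right, real_inner_self_eq_norm_sq, hfv, hfv]
      field_simp
      ring
    have h5 := hfu y hy
    rw [dist_eq_norm]
    by_contra hcon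
    push Not at hcon
    have h6 : ‖v‖ * ‖z - y‖ < ‖v‖ * (r / 2) := mul_lt_mul_of_pos_left hcon hvn
    linarith
  linarith

/-- (T2a) -/
theorem conv : S_conv := by
  intro N K K0 hK
  have h0 : ∀ᵐ x : E N, x ∉ frontier (K0 : Set (E N)) := by
    rw [ae_iff]
    simp only [not_not]
    exact K0.convex.addHaar_frontier _
  filter_upwards [h0] with x hx
  have hlim : Tendsto (fun j => dist (K j) K0) atTop (𝓝 0) := tendsto_iff_dist_tendsto_zero.1 hK
  by_cases hxK : x ∈ (K0 : Set (E N))
  · have hint : x ∈ interior (K0 : Set (E N)) := by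
      by_contra hcon
      exact hx ⟨subset_closure hxK, hcon⟩
    obtain ⟨r, hr, hball⟩ := Metric.mem_nhds_iff.1 (mem_interior_iff_mem_nhds.1 hint)
    filter_upwards [hlim.eventually (gt_mem_nhds (half_pos hr))] with j hj
    exact iff_of_true (conv_in hr hball hj) hxK
  · have hpos : 0 < infDist x (K0 : Set (E N)) :=
      (K0.isClosed.notMem_iff_infDist_pos K0.nonempty).1 hxK
    filter_upwards [hlim.eventually (gt_mem_nhds hpos)] with j hj
    exact iff_of_false (conv_out hj) hxK

end Pool.Agent.H311.CB
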