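import Pool.Agent.H311.CB.Defs

/-!
# CB T2c (helper225 for helper311): convex bodies with a prescribed vertex are dense
-/

set_option autoImplicit false

open MeasureTheory Metric Set Filter Topology
open scoped ENNReal NNReal Real RealInnerProductSpace ContDiff Pointwise

namespace Pool.Agent.H311.CB

open Pool.Agent.H311.PM

theorem vertex_cont {ψ : ℝ → ℝ → ℝ} (h : Sublin ψ) : Continuous fun p : ℝ × ℝ => ψ p.1 p.2 := by
  obtain ⟨M, hM⟩ := h.bdd
  have h1 : ∀ x y x' y' : ℝ, ψ x y - ψ x' y' ≤ |M| * (|x - x'| + |y - y'|) := by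
    intro x y x' y'
    have h2 := h.sub (x - x') (y - y') x' y'
    rw [sub_add_cancel, sub_add_cancel] at h2
    have h3 := hM (x - x') (y - y')
    have h4 := le_abs_self (ψ (x - x') (y - y'))
    have h5 : M * (|x - x'| + |y - y'|) ≤ |M| * (|x - x'| + |y - y'|) :=
      mul_le_mul_of_nonneg_right (le_abs_self M) (by positivity)
    linarith
  have hL : LipschitzWith (Real.toNNReal (|M| * 2)) fun p : ℝ × ℝ => ψ p.1 p.2 := by
    refine LipschitzWith.of_dist_le_mul fun p q => ?_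
    have h6 : |p.1 - q.1| ≤ dist p q := by
      rw [Prod.dist_eq, Real.dist_eq]
      exact le_max_left _ _
    have h7 : |p.2 - q.2| ≤ dist p q := by
      rw [Prod.dist_eq, Real.dist_eq, Real.dist_eq]
      exact le_max_right _ _
    have h8 : |M| * (|p.1 - q.1| + |p.2 - q.2|) ≤ |M| * 2 * dist p q := by
      rw [mul_assoc]
      exact mul_le_mul_of_nonneg_left (by linarith) (abs_nonneg M)
    rw [Real.coe_toNNReal _ (by positivity), Real.dist_eq, abs_le]
    have h9 := h1 p.1 p.2 q.1 q.2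
    have h10 := h1 q.1 q.2 p.1 p.2
    rw [abs_sub_comm q.1, abs_sub_comm q.2] at h10
    constructor <;> linarith
  exact hL.continuous

theorem vertex_orth {k : ℕ} (p : E (k + 3)) : ∃ α β : E (k + 3), ⟪α, α⟫ = 1 ∧ ⟪β, β⟫ = 1 ∧
    ⟪α, β⟫ = 0 ∧ ⟪α, p⟫ = 0 ∧ ⟪β, p⟫ = 0 := by
  have hf : 2 ≤ Module.finrank ℝ ((ℝ ∙ p)ᗮ : Submodule ℝ (E (k + 3))) := by
    have h1 := Submodule.finrank_add_finrank_orthogonal (ℝ ∙ p : Submodule ℝ (E (k + 3)))
    rw [finrank_euclideanSpace_fin] at h1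
    have h2 : Module.finrank ℝ (ℝ ∙ p : Submodule ℝ (E (k + 3))) ≤ 1 := by
      refine (finrank_span_le_card (R := ℝ) ({p} : Set (E (k + 3)))).trans ?_
      simp
    omega
  obtain ⟨v, hv⟩ : ∃ v, v = stdOrthonormalBasis ℝ ((ℝ ∙ p)ᗮ : Submodule ℝ (E (k + 3))) := ⟨_, rfl⟩
  have ho := v.orthonormal
  rw [orthonormal_iff_ite] at ho
  have h00 := ho ⟨0, by omega⟩ ⟨0, by omega⟩
  have h11 := ho ⟨1, by omega⟩ ⟨1, by omega⟩
  have h01 := ho ⟨0, by omega⟩ ⟨1, by omega⟩
  rw [if_pos rfl] at h00 h11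
  rw [if_neg (by rw [Fin.mk.injEq]; norm_num)] at h01
  refine ⟨v ⟨0, by omega⟩, v ⟨1, by omega⟩, h00, h11, h01, ?_, ?_⟩
  · rw [real_inner_comm]
    exact Submodule.mem_orthogonal_singleton_iff_inner_right.1 (v ⟨0, by omega⟩).2
  · rw [real_inner_comm]
    exact Submodule.mem_orthogonal_singleton_iff_inner_right.1 (v ⟨1, by omega⟩).2

/-- the cut -/
theorem vertex_cut {N : ℕ} {ψ : ℝ → ℝ → ℝ} (h : Sublin ψ) (K : ConvexBody (E N))
    (l a b : E N →L[ℝ] ℝ) (p : E N)
    (hne : ∃ x ∈ (K : Set (E N)), l (x - p) + ψ (a x) (b x) ≤ 0) :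
    ∃ K' : ConvexBody (E N), (K' : Set (E N)) =
      {x | x ∈ (K : Set (E N)) ∧ l (x - p) + ψ (a x) (b x) ≤ 0} := by
  have hψ := vertex_cont h
  have hc : Continuous fun x : E N => l (x - p) + ψ (a x) (b x) := by
    have h1 : Continuous fun x : E N => ψ (a x) (b x) :=
      hψ.comp (a.continuous.prodMk b.continuous)
    exact (l.continuous.comp (continuous_id.sub continuous_const)).add h1
  refine ⟨⟨{x | x ∈ (K : Set (E N)) ∧ l (x - p) + ψ (a x) (b x) ≤ 0}, ?_, ?_, ?_⟩, rfl⟩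
  · intro x hx y hy s t hs ht hst
    refine ⟨K.convex hx.1 hy.1 hs ht hst, ?_⟩
    have e1 : l (s • x + t • y - p) = s * l (x - p) + t * l (y - p) := by
      have : s • x + t • y - p = s • (x - p) + t • (y - p) := by
        have hp : p = s • p + t • p := by rw [← add_smul, hst, one_smul]
        rw [smul_sub, smul_sub]
        nth_rewrite 1 [hp]
        abel
      rw [this, map_add, map_smul, map_smul, smul_eq_mul, smul_eq_mul]
    have e2 : ψ (a (s • x + t • y)) (b (s • x + t • y)) ≤ s * ψ (a x) (b x) + t * ψ (a y) (b y) := by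
      rw [map_add, map_add, map_smul, map_smul, map_smul, map_smul, smul_eq_mul, smul_eq_mul,
        smul_eq_mul, smul_eq_mul]
      refine (h.sub _ _ _ _).trans ?_
      rw [h.hom s hs, h.hom t ht]
    rw [e1]
    have h1 := mul_nonneg hs (neg_nonneg.2 hx.2)
    have h2 := mul_nonneg ht (neg_nonneg.2 hy.2)
    nlinarith
  · have : {x | x ∈ (K : Set (E N)) ∧ l (x - p) + ψ (a x) (b x) ≤ 0} =
        (K : Set (E N)) ∩ {x | l (x - p) + ψ (a x) (b x) ≤ 0} := rfl
    rw [this]
    exact K.isCompact.inter_right (isClosed_le hc continuous_const)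
  · obtain ⟨x, hx1, hx2⟩ := hne
    exact ⟨x, hx1, hx2⟩

theorem vertex : S_vertex := by
  intro k ψ h K ε hε
  obtain ⟨M, hM⟩ := h.bdd
  -- the neighbourhood of the body
  obtain ⟨B, hB⟩ : ∃ B : ConvexBody (E (k + 3)), (B : Set (E (k + 3))) = closedBall 0 (ε / 4) :=
    ⟨⟨closedBall 0 (ε / 4), convex_closedBall _ _, isCompact_closedBall _ _,
      ⟨0, mem_closedBall_self (by positivity)⟩⟩, rfl⟩
  obtain ⟨K1, hK1⟩ : ∃ K1 : ConvexBody (E (k + 3)), K1 = K + B := ⟨_, rfl⟩
  have hK1c : (K1 : Set (E (k + 3))) = (K : Set (E (k + 3))) + closedBall 0 (ε / 4) := by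
    rw [hK1, ConvexBody.coe_add, hB]
  have hmem : ∀ x ∈ (K : Set (E (k + 3))), ∀ v : E (k + 3), ‖v‖ ≤ ε / 4 →
      x + v ∈ (K1 : Set (E (k + 3))) := by
    intro x hx v hv
    rw [hK1c]
    exact Set.add_mem_add hx (mem_closedBall_zero_iff.2 hv)
  have hd1 : dist K K1 ≤ ε / 4 := by
    refine hausdorffDist_le_of_mem_dist (by positivity) ?_ ?_
    · intro x hx
      exact ⟨x, by have := hmem x hx 0 (by rw [norm_zero]; positivity); rwa [add_zero] at this,
        by rw [dist_self]; positivity⟩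
    · intro x hx
      rw [hK1c] at hx
      obtain ⟨y, hy, v, hv, rfl⟩ := Set.mem_add.1 hx
      refine ⟨y, hy, ?_⟩
      rw [dist_eq_norm, add_sub_cancel_left]
      exact mem_closedBall_zero_iff.1 hv
  obtain ⟨z0, hz0⟩ := K.nonempty
  have hz0K : z0 ∈ (K1 : Set (E (k + 3))) := by
    have := hmem z0 hz0 0 (by rw [norm_zero]; positivity)
    rwa [add_zero] at this
  have hball : ball z0 (ε / 4) ⊆ (K1 : Set (E (k + 3))) := by
    intro x hx
    have := hmem z0 hz0 (x - z0) (by rw [← dist_eq_norm]; exact (mem_ball.1 hx).le)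
    rwa [add_sub_cancel] at this
  have hz0i : z0 ∈ interior (K1 : Set (E (k + 3))) :=
    mem_interior.2 ⟨ball z0 (ε / 4), hball, isOpen_ball, mem_ball_self (by positivity)⟩
  -- a nonzero point
  obtain ⟨x1, hx1, hx10⟩ : ∃ x1 ∈ (K1 : Set (E (k + 3))), x1 ≠ 0 := by
    by_cases hz : z0 = 0
    · obtain ⟨α, β, hα, -⟩ := vertex_orth (0 : E (k + 3))
      have hα0 : α ≠ 0 := by
        intro h0
        rw [h0, inner_zero_left] at hα
        norm_num at hα
      have hn : 0 < ‖α‖ := norm_pos_iff.2 hα0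
      refine ⟨z0 + (ε / 4 / ‖α‖) • α, hmem z0 hz0 _ ?_, ?_⟩
      · rw [norm_smul, Real.norm_of_nonneg (by positivity), div_mul_cancel₀ _ hn.ne']
      · rw [hz, zero_add]
        exact smul_ne_zero (by positivity) hα0
    · exact ⟨z0, hz0K, hz⟩
  have hx1n : 0 < ‖x1‖ := norm_pos_iff.2 hx10
  obtain ⟨l, hl⟩ : ∃ l : E (k + 3) →L[ℝ] ℝ, ∀ x, l x = ⟪x1, x⟫ := ⟨innerSL ℝ x1, fun x => rfl⟩
  obtain ⟨x0, hx0, hmax⟩ := K1.isCompact.exists_isMaxOn K1.nonempty l.continuous.continuousOn
  have hmax' : ∀ x ∈ (K1 : Set (E (k + 3))), l x ≤ l x0 := fun x hx => hmax hx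
  have hh : 0 < l x0 := by
    refine lt_of_lt_of_le ?_ (hmax' x1 hx1)
    rw [hl, real_inner_self_eq_norm_sq]
    positivity
  obtain ⟨κ, hκ⟩ : ∃ κ, κ = ε / 4 * ‖x1‖ := ⟨_, rfl⟩
  have hκ0 : 0 < κ := by
    rw [hκ]
    positivity
  have hz0l : l z0 ≤ l x0 - κ := by
    have h1 := hmax' _ (hmem z0 hz0 ((ε / 4 / ‖x1‖) • x1) (by
      rw [norm_smul, Real.norm_of_nonneg (by positivity), div_mul_cancel₀ _ hx1n.ne']))
    rw [map_add, map_smul, smul_eq_mul, hl x1, real_inner_self_eq_norm_sq] at h1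
    have h2 : ε / 4 / ‖x1‖ * ‖x1‖ ^ 2 = κ := by
      rw [hκ]
      field_simp
    linarith
  -- bounds
  obtain ⟨R, hR⟩ := K1.isCompact.isBounded.exists_norm_le
  have hR0 : 0 ≤ R := (norm_nonneg z0).trans (hR z0 hz0K)
  obtain ⟨η, hη⟩ : ∃ η, η = min (l x0 / 2) (min (κ / 2) (ε * κ / (16 * (R + 1)))) := ⟨_, rfl⟩
  have hη0 : 0 < η := by
    rw [hη]
    exact lt_min (by positivity) (lt_min (by positivity) (by positivity))
  have hη1 : η ≤ l x0 / 2 := by
    rw [hη]
    exact min_le_left _ _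
  have hη2 : η ≤ κ / 2 := by
    rw [hη]
    exact (min_le_right _ _).trans (min_le_left _ _)
  have hη3 : η ≤ ε * κ / (16 * (R + 1)) := by
    rw [hη]
    exact (min_le_right _ _).trans (min_le_right _ _)
  -- the point
  obtain ⟨G, hG⟩ : ∃ G, G = l x0 - l z0 := ⟨_, rfl⟩
  have hG0 : 0 < G := by linarith
  obtain ⟨s, hs⟩ : ∃ s, s = min 1 (η / (2 * G)) := ⟨_, rfl⟩
  have hs0 : 0 < s := by
    rw [hs]
    exact lt_min one_pos (by positivity)
  have hs1 : s ≤ 1 := by
    rw [hs]
    exact min_le_left _ _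
  have hsG : s * G ≤ η / 2 := by
    have : s ≤ η / (2 * G) := by
      rw [hs]
      exact min_le_right _ _
    calc s * G ≤ η / (2 * G) * G := mul_le_mul_of_nonneg_right this hG0.le
      _ = η / 2 := by field_simp
  obtain ⟨p, hp⟩ : ∃ p, p = x0 + s • (z0 - x0) := ⟨_, rfl⟩
  have hpi : p ∈ interior (K1 : Set (E (k + 3))) := by
    rw [hp]
    exact K1.convex.add_smul_sub_mem_interior hx0 hz0i ⟨hs0, hs1⟩
  have hlp : l x0 - η ≤ l p := by
    have : l p = l x0 - s * G := by
      rw [hp, map_add, map_smul, map_sub, smul_eq_mul, hG]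
      ring
    rw [this]
    linarith
  have hlp0 : 0 < l p := by linarith
  -- the functionals
  obtain ⟨α, β, hαα, hββ, hαβ, hαp, hβp⟩ := vertex_orth p
  have hαn : ‖α‖ = 1 := by
    rw [real_inner_self_eq_norm_sq] at hαα
    have := norm_nonneg α
    nlinarith
  have hβn : ‖β‖ = 1 := by
    rw [real_inner_self_eq_norm_sq] at hββ
    have := norm_nonneg β
    nlinarith
  obtain ⟨c, hc⟩ : ∃ c, c = η / (2 * (|M| + 1) * (R + 1)) := ⟨_, rfl⟩
  have hc0 : 0 < c := by
    rw [hc]
    positivity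
  obtain ⟨a, ha⟩ : ∃ a : E (k + 3) →L[ℝ] ℝ, ∀ x, a x = c * ⟪α, x⟫ :=
    ⟨c • innerSL ℝ α, fun x => rfl⟩
  obtain ⟨b, hb⟩ : ∃ b : E (k + 3) →L[ℝ] ℝ, ∀ x, b x = c * ⟪β, x⟫ :=
    ⟨c • innerSL ℝ β, fun x => rfl⟩
  have hψ : ∀ x ∈ (K1 : Set (E (k + 3))), |ψ (a x) (b x)| ≤ η := by
    intro x hx
    have hxR := hR x hx
    have h1 : |a x| ≤ c * R := by
      rw [ha, abs_mul, abs_of_pos hc0]
      refine mul_le_mul_of_nonneg_left ?_ hc0.le
      have := abs_real_inner_le_norm α x
      rw [hαn, one_mul] at this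
      linarith
    have h2 : |b x| ≤ c * R := by
      rw [hb, abs_mul, abs_of_pos hc0]
      refine mul_le_mul_of_nonneg_left ?_ hc0.le
      have := abs_real_inner_le_norm β x
      rw [hβn, one_mul] at this
      linarith
    have h3 := hM (a x) (b x)
    have h4 : M * (|a x| + |b x|) ≤ |M| * (|a x| + |b x|) :=
      mul_le_mul_of_nonneg_right (le_abs_self M) (by positivity)
    have h5 : |M| * (|a x| + |b x|) ≤ |M| * (2 * (c * R)) :=
      mul_le_mul_of_nonneg_left (by linarith) (abs_nonneg M)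
    have h6 : |M| * (2 * (c * R)) ≤ (|M| + 1) * (2 * (c * (R + 1))) := by
      have := abs_nonneg M
      gcongr
      · linarith
      · linarith
    have h7 : (|M| + 1) * (2 * (c * (R + 1))) = η := by
      rw [hc]
      have : |M| + 1 ≠ 0 := by positivity
      have : R + 1 ≠ 0 := by positivity
      field_simp
    linarith
  -- the cut
  have hz0cut : l (z0 - p) + ψ (a z0) (b z0) ≤ 0 := by
    have h1 := (abs_le.1 (hψ z0 hz0K)).2
    rw [map_sub]
    linarith
  obtain ⟨K', hK'⟩ := vertex_cut h K1 l a b p ⟨z0, hz0K, hz0cut⟩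
  have hd2 : dist K1 K' ≤ ε / 4 := by
    refine hausdorffDist_le_of_mem_dist (by positivity) ?_ ?_
    · intro x hx
      obtain ⟨t, ht⟩ : ∃ t, t = 2 * η / κ := ⟨_, rfl⟩
      have ht0 : 0 ≤ t := by
        rw [ht]
        positivity
      have ht1 : t ≤ 1 := by
        rw [ht, div_le_one hκ0]
        linarith
      have htκ : t * κ = 2 * η := by
        rw [ht]
        field_simp
      have hx' : x + t • (z0 - x) ∈ (K1 : Set (E (k + 3))) :=
        K1.convex.add_smul_sub_mem hx hz0K ⟨ht0, ht1⟩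
      refine ⟨x + t • (z0 - x), ?_, ?_⟩
      · rw [hK']
        refine ⟨hx', ?_⟩
        have h1 := (abs_le.1 (hψ _ hx')).2
        have h2 : l (x + t • (z0 - x) - p) = (1 - t) * l x + t * l z0 - l p := by
          rw [map_sub, map_add, map_smul, map_sub, smul_eq_mul]
          ring
        rw [h2]
        have h3 : (1 - t) * l x ≤ (1 - t) * l x0 :=
          mul_le_mul_of_nonneg_left (hmax' x hx) (by linarith)
        have h4 : t * l z0 ≤ t * (l x0 - κ) := mul_le_mul_of_nonneg_left hz0l ht0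
        nlinarith
      · rw [dist_eq_norm]
        have h1 : x - (x + t • (z0 - x)) = -(t • (z0 - x)) := by abel
        rw [h1, norm_neg, norm_smul, Real.norm_of_nonneg ht0]
        have h2 : ‖z0 - x‖ ≤ 2 * (R + 1) := by
          have h3 := norm_sub_le z0 x
          have h4 := hR z0 hz0K
          have h5 := hR x hx
          linarith
        calc t * ‖z0 - x‖ ≤ t * (2 * (R + 1)) := mul_le_mul_of_nonneg_left h2 ht0
          _ = 4 * (R + 1) / κ * η := by
              rw [ht]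
              ring
          _ ≤ 4 * (R + 1) / κ * (ε * κ / (16 * (R + 1))) :=
              mul_le_mul_of_nonneg_left hη3 (by positivity)
          _ = ε / 4 := by
              have : R + 1 ≠ 0 := by positivity
              field_simp
              ring
    · intro x hx
      rw [hK'] at hx
      exact ⟨x, hx.1, by rw [dist_self]; positivity⟩
  refine ⟨K', p, l, a, b, ?_, hlp0.ne', ?_, ?_, ?_, ?_⟩
  · have := dist_triangle K K1 K'
    linarith
  · rw [ha, hαp, mul_zero]
  · rw [hb, hβp, mul_zero]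
  · rw [Fintype.linearIndependent_iff]
    intro g hg
    have hg' : ∀ x : E (k + 3), g 0 * a x + g 1 * b x + g 2 * l x = 0 := by
      intro x
      have h1 := congrArg (fun f : E (k + 3) →L[ℝ] ℝ => f x) hg
      simp only [Fin.sum_univ_three] at h1
      simpa using h1
    have e3 : g 2 = 0 := by
      have h1 := hg' p
      rw [ha, hb, hαp, hβp, mul_zero, mul_zero, mul_zero, zero_add, zero_add] at h1
      rcases mul_eq_zero.1 h1 with h2 | h2
      · exact h2
      · exact absurd h2 hlp0.ne'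
    have e1 : g 0 = 0 := by
      have h1 := hg' α
      rw [ha, hb, hαα, real_inner_comm, hαβ, e3] at h1
      have h2 : g 0 * c = 0 := by linarith
      rcases mul_eq_zero.1 h2 with h3 | h3
      · exact h3
      · exact absurd h3 hc0.ne'
    have e2 : g 1 = 0 := by
      have h1 := hg' β
      rw [ha, hb, hββ, hαβ, e3] at h1
      have h2 : g 1 * c = 0 := by linarith
      rcases mul_eq_zero.1 h2 with h3 | h3
      · exact h3
      · exact absurd h3 hc0.ne'
    intro i
    fin_cases i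
    · exact e1
    · exact e2
    · exact e3
  · filter_upwards [mem_interior_iff_mem_nhds.1 hpi] with x hx
    rw [hK']
    exact ⟨fun h1 => h1.2, fun h1 => ⟨hx, h1⟩⟩

end Pool.Agent.H311.CB
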