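import Pool.Agent.H311.CB.Lower
import Pool.Agent.H311.CB.Baire
import Pool.Agent.H311.CB.Vertex
import Pool.Agent.H311.CB.Conv
import Pool.Agent.H311.CB.Poly
import Pool.Agent.H311.CB.Transfer
import Pool.Agent.H311.CB.Cone

/-!
# The bodies with a maximal estimate form a meagre set
-/

set_option autoImplicit false

open MeasureTheory Metric Set Filter Topology FourierTransform
open scoped ENNReal NNReal Real RealInnerProductSpace ContDiff Pointwise SchwartzMap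

namespace Pool.Agent.H311.CB

open Pool.Agent.H311.PM

/-- the convex bodies with the maximal inequality with constant `C` for finite sets of dilations -/
def good (N : ℕ) (C : ℝ≥0) : Set (ConvexBody (E N)) :=
  {K | FM (fun R : {R : ℝ // 0 < R} => (R : ℝ) • (K : Set (E N))) C}

theorem meas_dil {N : ℕ} (K : ConvexBody (E N)) (R : ℝ) : MeasurableSet (R • (K : Set (E N))) :=
  K.isClosed.measurableSet.const_smul₀ R

theorem ae_dil {N : ℕ} {P : E N → Prop} (h : ∀ᵐ x : E N, P x) {R : ℝ} (hR : 0 < R) :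
    ∀ᵐ x : E N, P (R⁻¹ • x) := by
  rw [ae_iff] at h ⊢
  have h1 : {x : E N | ¬ P (R⁻¹ • x)} = R • {x : E N | ¬ P x} := by
    ext x
    rw [Set.mem_smul_set_iff_inv_smul_mem₀ hR.ne']
    rfl
  rw [h1, Measure.addHaar_smul, h, mul_zero]

theorem isClosed_good (N : ℕ) (C : ℝ≥0) : IsClosed (good N C) := by
  refine IsSeqClosed.isClosed ?_
  intro K K0 hK hlim
  refine FM.of_tendsto (fun j R => meas_dil (K j) R) (fun R => meas_dil K0 R) hK fun R => ?_
  filter_upwards [ae_dil (conv N K K0 hlim) R.2] with x hx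
  filter_upwards [hx] with j hj
  rw [Set.mem_smul_set_iff_inv_smul_mem₀ R.2.ne', Set.mem_smul_set_iff_inv_smul_mem₀ R.2.ne']
  exact hj

theorem dense_bad (k : ℕ) (C : ℝ≥0) (K : ConvexBody (E (k + 3))) {ε : ℝ} (hε : 0 < ε) :
    ∃ K' : ConvexBody (E (k + 3)), dist K K' < ε ∧ K' ∉ good (k + 3) C := by
  obtain ⟨ψ, hψ, hF⟩ := exists_cone transfer poly cone k C
  obtain ⟨K', p, l, a, b, hd, hp, ha, hb, hli, hloc⟩ := vertex k ψ hψ K ε hε
  refine ⟨K', hd, fun hgood => hF ?_⟩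
  exact blowv k ψ hψ (K' : Set (E (k + 3))) K'.isClosed.measurableSet p l a b hp ha hb hli hloc C
    hgood

theorem nowhereDense_good (k : ℕ) (C : ℝ≥0) : IsNowhereDense (good (k + 3) C) := by
  rw [(isClosed_good (k + 3) C).isNowhereDense_iff]
  rw [Set.eq_empty_iff_forall_notMem]
  intro K hK
  rw [mem_interior_iff_mem_nhds, Metric.mem_nhds_iff] at hK
  obtain ⟨ε, hε, hball⟩ := hK
  obtain ⟨K', hd, hbad⟩ := dense_bad k C K hε
  refine hbad (hball ?_)
  rw [mem_ball, dist_comm]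
  exact hd

/-- the maximal estimate over the dilates -/
theorem good_of_estimate {N : ℕ} {K : ConvexBody (E N)} {C : ℝ≥0}
    (h : ∀ f : 𝓢(E N, ℂ), ∫⁻ x, (⨆ (R : ℝ) (_ : 0 < R),
      ‖I (R • (K : Set (E N))) (𝓕 (f : E N → ℂ)) x‖ₑ) ^ 2 ≤ C * ∫⁻ x, ‖f x‖ₑ ^ 2) :
    K ∈ good N C := by
  refine FM.of_SM (𝒜 := fun R : {R : ℝ // 0 < R} => (R : ℝ) • (K : Set (E N))) ?_
  intro f
  have h2 := h f
  simp_rw [iSup_subtype'] at h2
  exact h2

theorem meagre_estimate (k : ℕ) : IsMeagre {K : ConvexBody (E (k + 3)) | ∃ C : ℝ≥0,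
    ∀ f : 𝓢(E (k + 3), ℂ), ∫⁻ x, (⨆ (R : ℝ) (_ : 0 < R),
      ‖I (R • (K : Set (E (k + 3)))) (𝓕 (f : E (k + 3) → ℂ)) x‖ₑ) ^ 2 ≤
        C * ∫⁻ x, ‖f x‖ₑ ^ 2} := by
  have h1 : IsMeagre (⋃ m : ℕ, good (k + 3) m) := by
    refine isMeagre_iUnion fun m => ?_
    exact (nowhereDense_good k m).isMeagre
  refine h1.mono ?_
  rintro K ⟨C, hC⟩
  obtain ⟨m, hm⟩ := exists_nat_ge C
  rw [Set.mem_iUnion]
  refine ⟨m, good_of_estimate fun f => (hC f).trans ?_⟩
  refine mul_le_mul_left ?_ _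
  exact_mod_cast hm

end Pool.Agent.H311.CB
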