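import Pool.Agent.H311.CB.Defs4
import Pool.Agent.H311.CB.Smooth
import Pool.Agent.H311.CB.Typical

/-!
# Almost everywhere divergence for typical and for smooth convex bodies: assembly
-/

set_option autoImplicit false

open MeasureTheory Metric Set Filter Topology
open scoped ENNReal NNReal Real RealInnerProductSpace ContDiff Pointwise

namespace Pool.Agent.H311.CB

open Pool.Agent.H311.PM

/-- there is a function in `L²` with unbounded partial integrals at almost every point -/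
def AeDiv {N : ℕ} (K : Set (E N)) : Prop :=
  ∃ G : E N → ℂ, MemLp G 2 ∧ ∀ᵐ x : E N, ∀ B : ℝ, ∃ R : ℝ, B ≤ R ∧ B < ‖I (R • K) G x‖

theorem aeDiv_of_hump (hD : S_density) (hG : S_glide) {N : ℕ} {t : ℕ → E N × ℝ} (ht : Fine t)
    {c : ℝ} (hc : 0 < c) {K : Set (E N)} {r₁ : ℝ} (hr : 0 < r₁) (hK : K ⊆ closedBall 0 r₁)
    (hKm : MeasurableSet K) (h : ∀ m : ℕ, Hump K c m m t m) : AeDiv K := by
  obtain ⟨G, A, hG2, hAm, hA, hAR⟩ := hG N t c K r₁ hr hK hKm h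
  refine ⟨G, hG2, ?_⟩
  filter_upwards [hD N t ht c hc A hAm hA] with x hx B
  obtain ⟨k0, hk0⟩ := exists_nat_ge B
  obtain ⟨k, hk, hxk⟩ := (hx.and_eventually (eventually_ge_atTop k0)).exists
  obtain ⟨R, hR1, hR2⟩ := hAR k x hk
  have h1 : B ≤ (k : ℝ) := hk0.trans (by exact_mod_cast hxk)
  exact ⟨R, h1.trans hR1, h1.trans_lt hR2⟩

theorem isOpen_hump (hO : S_open) (N : ℕ) (c M ρ : ℝ) (t : ℕ → E N × ℝ) (m : ℕ) :
    IsOpen {K : ConvexBody (E N) | Hump (K : Set (E N)) c M ρ t m} := by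
  rw [← isClosed_compl_iff]
  refine IsSeqClosed.isClosed ?_
  intro K K0 hK hlim h0
  obtain ⟨j, hj⟩ := (hO N c M ρ t m K K0 hlim h0).exists
  exact hK j hj

theorem dense_hump (hP : S_poly) (hC : S_cone) (hV : S_vertex) (hH : S_hump) (h1 : S_lim1)
    (h2 : S_lim2) (k : ℕ) {t : ℕ → E (k + 3) × ℝ} (ht : ∀ i, 0 < (t i).2) (m : ℕ) :
    Dense {K : ConvexBody (E (k + 3)) | Hump (K : Set (E (k + 3))) (1 / 40) m m t m} := by
  rw [Metric.dense_iff]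
  intro K ε hε
  obtain ⟨L0, hL0, hL⟩ := hH (k + 3) t m ht m
  obtain ⟨K0, hK0⟩ := h1 k L0 hL0
  obtain ⟨ψ, Z, hψ, hZ1, hZ2⟩ := hC k (2 ^ L0) K0 (fun v => (pos L0 v : ℝ)) (fun v => by
    unfold pos
    positivity)
  obtain ⟨K', p, l, a, b, hd, hp, ha, hb, hli, hloc⟩ := hV k ψ hψ K ε hε
  refine ⟨K', by rw [mem_ball, dist_comm]; exact hd, ?_⟩
  exact hL L0 le_rfl _ (hK0 ψ Z hZ1 hZ2 _ (h2 k ψ hψ _ p l a b hp ha hb hli hloc)) m

theorem meagre_not_aeDiv (hP : S_poly) (hC : S_cone) (hV : S_vertex) (hH : S_hump) (h1 : S_lim1)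
    (h2 : S_lim2) (hO : S_open) (hD : S_density) (hG : S_glide) (hF : S_fine) (k : ℕ) :
    IsMeagre {K : ConvexBody (E (k + 3)) | ¬ AeDiv (K : Set (E (k + 3)))} := by
  obtain ⟨t, ht⟩ := hF (k + 3)
  have h3 : IsMeagre (⋃ m : ℕ, {K : ConvexBody (E (k + 3)) |
      Hump (K : Set (E (k + 3))) (1 / 40) m m t m}ᶜ) := by
    refine isMeagre_iUnion fun m => ?_
    have h4 : IsNowhereDense ({K : ConvexBody (E (k + 3)) |
        Hump (K : Set (E (k + 3))) (1 / 40) m m t m}ᶜ) := by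
      rw [((isOpen_hump hO (k + 3) (1 / 40) m m t m).isClosed_compl).isNowhereDense_iff,
        interior_compl, (dense_hump hP hC hV hH h1 h2 k ht.1 m).closure_eq, compl_univ]
    exact h4.isMeagre
  refine h3.mono ?_
  intro K hK
  by_contra hcon
  rw [Set.mem_iUnion] at hcon
  push Not at hcon
  apply hK
  obtain ⟨r, hr⟩ := K.isCompact.isBounded.subset_closedBall 0
  refine aeDiv_of_hump hD hG ht (by norm_num : (0 : ℝ) < 1 / 40) (r₁ := max r 1) (by positivity)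
    (hr.trans (closedBall_subset_closedBall (le_max_left _ _))) K.isClosed.measurableSet ?_
  intro m
  have := hcon m
  rw [Set.mem_compl_iff, not_not] at this
  exact this

/-- a smooth body with humps at all levels -/
theorem smooth_body2 (hSer : S_series) (hH : S_hump) (h1 : S_lim1) (h3 : S_lim3) (hC : S_cone2)
    (k : ℕ) {ε : ℝ} (hε : 0 < ε) :
    ∃ Θ : E (k + 3) → ℝ, ContDiff ℝ ∞ Θ ∧ ConvexOn ℝ univ Θ ∧
      (∀ ζ : E (k + 3), ‖ζ‖ ≤ 2 → |Θ ζ - ‖ζ‖ ^ 2| ≤ ε ∧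
        ∀ h : E (k + 3), |fderiv ℝ Θ ζ h - 2 * ⟪ζ, h⟫| ≤ ε * ‖h‖) ∧
      {ζ | Θ ζ ≤ 1} ⊆ closedBall 0 2 ∧
      (∀ ζ h : E (k + 3), (ζ 0 ≠ 0 ∨ ζ 1 ≠ 0) → h ≠ 0 →
        0 < iteratedDeriv 2 (fun t : ℝ => Θ (ζ + t • h)) 0) ∧
      ∀ (t : ℕ → E (k + 3) × ℝ), (∀ i, 0 < (t i).2) → ∀ (M ρ : ℝ) (m : ℕ),
        Hump {ζ | Θ ζ ≤ 1} (1 / 40) M ρ t m := by
  have hex : ∀ m : ℕ, ∃ (M : ℕ) (lam : ℕ → ℝ), (∀ i, 0 ≤ lam i) ∧
      ∀ K : Set (E (k + 3)), LocLim K (ridge M lam) → Sim K (m + 1) := by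
    intro m
    obtain ⟨K0, hK0⟩ := h1 k (m + 1) (Nat.succ_pos m)
    obtain ⟨lam, Z, hlam, h4, h5⟩ := hC k (2 ^ (m + 1)) K0 (fun v => (pos (m + 1) v : ℝ))
      (fun v => by
        unfold pos
        positivity)
    exact ⟨2 ^ (m + 1), lam, hlam, hK0 _ Z h4 h5⟩
  choose M lam hlam hbad using hex
  obtain ⟨S, hSs, hSc, hS0, hS00, hSh, hSb⟩ := hSer M lam hlam
  obtain ⟨-, β, hβ⟩ := funs
  -- bounds
  have hcomp : IsCompact (closedBall (0 : ℝ × ℝ) 2) := isCompact_closedBall 0 2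
  obtain ⟨B1, hB1⟩ := hcomp.exists_bound_of_continuousOn (f := S) hSs.continuous.continuousOn
  obtain ⟨B2, hB2⟩ := hcomp.exists_bound_of_continuousOn (f := fderiv ℝ S)
    (hSs.continuous_fderiv (by simp)).continuousOn
  set B : ℝ := max B1 B2 with hB
  have hB1' : ∀ z : ℝ × ℝ, ‖z‖ ≤ 2 → |S z| ≤ B := fun z hz =>
    (hB1 z (mem_closedBall_zero_iff.2 hz)).trans (le_max_left _ _)
  have hB2' : ∀ z : ℝ × ℝ, ‖z‖ ≤ 2 → ‖fderiv ℝ S z‖ ≤ B := fun z hz =>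
    (hB2 z (mem_closedBall_zero_iff.2 hz)).trans (le_max_right _ _)
  have hBn : 0 ≤ B := (abs_nonneg _).trans (hB1' 0 (by simp))
  set ρ : ℝ := min (1 / 2) (ε / 8) with hρ
  have hρ0 : 0 < ρ := by rw [hρ]; positivity
  have hρ1 : ρ ≤ 1 / 2 := min_le_left _ _
  have hρ2 : ρ ≤ ε / 8 := min_le_right _ _
  set θ : ℝ := min 1 (ε / (2 * (B + 1))) with hθ
  have hθ0 : 0 < θ := by rw [hθ]; positivity
  have hθ1 : θ ≤ 1 := min_le_left _ _
  have hθ2 : θ * B ≤ ε / 2 := by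
    calc θ * B ≤ ε / (2 * (B + 1)) * B := mul_le_mul_of_nonneg_right (min_le_right _ _) hBn
      _ ≤ ε / 2 := by
        rw [div_mul_eq_mul_div, div_le_div_iff₀ (by positivity) (by norm_num)]
        nlinarith
  refine ⟨theta (PhiF β S ρ θ), contDiff_theta (contDiff_PhiF hβ.smooth hSs ρ θ),
    convexOn_theta (convexOn_PhiF hβ.convex hβ.mono hSc hθ0.le), ?_, ?_, ?_, ?_⟩
  · intro ζ hζ
    constructor
    · refine (theta_near hβ hρ0 hθ0.le hB1' ζ hζ).trans ?_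
      nlinarith
    · intro h
      refine (theta_deriv_near hβ hSs hρ0 hθ0.le hB2' ζ h hζ).trans ?_
      refine mul_le_mul_of_nonneg_right ?_ (norm_nonneg _)
      linarith
  · exact theta_sub hβ hS0 hρ0 (by nlinarith) hθ0.le
  · intro ζ h hζ hh
    refine theta_hess hβ.smooth hβ.convex hβ.mono hSs hSh hθ0 ζ h ?_ hh
    intro h0
    rcases hζ with h1 | h1
    · exact h1 (congrArg Prod.fst h0)
    · exact h1 (congrArg Prod.snd h0)
  · intro t ht Mr ρr m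
    obtain ⟨L0, hL0, hL⟩ := hH (k + 3) t m ht Mr
    have hΦ0 : PhiF β S ρ θ 0 < 1 := by
      unfold PhiF
      rw [hS00, hβ.zero _ (by simp)]
      norm_num
    refine hL (L0 + 1) (by omega) _ (hbad L0 _ ?_) ρr
    exact h3 k _ (sublin_ridge (M L0) (hlam L0)) (PhiF β S ρ θ)
      (contDiff_PhiF hβ.smooth hSs ρ θ).continuous hΦ0 (blowsUp_PhiF hβ (hSb L0) hρ0 hθ0 hθ1)

end Pool.Agent.H311.CB
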