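import Pool.Agent.H311.CB.Defs4

/-!
# Task G5: a bump whose transform is large on a given ball
-/

set_option autoImplicit false

open MeasureTheory Metric Set Filter Topology
open scoped ENNReal NNReal Real RealInnerProductSpace ContDiff Pointwise

namespace Pool.Agent.H311.CB

open Pool.Agent.H311.PM

theorem chi_cos {t : ℝ} (ht : |t| ≤ Real.pi / 4) : 1 / 2 ≤ Real.cos t := by
  rw [← Real.cos_abs, ← Real.cos_pi_div_three]
  have hpi := Real.pi_pos
  exact Real.cos_le_cos_of_nonneg_of_le_pi (abs_nonneg t) (by linarith) (by linarith)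

theorem chi_re {N : ℕ} (x η : E N) (b : ℝ) :
    (ee x η * ((b : ℝ) : ℂ)).re = Real.cos (2 * Real.pi * ⟪x, η⟫) * b := by
  have h : ee x η = Complex.exp (((2 * Real.pi * ⟪x, η⟫ : ℝ) : ℂ) * Complex.I) := by
    unfold ee
    congr 1
    push_cast
    ring
  rw [h, Complex.re_mul_ofReal, Complex.exp_ofReal_mul_I_re]

theorem chi : S_chi := by
  intro N R0 hR0
  set r : ℝ := 1 / (8 * (R0 + 1)) with hr
  have hR1 : 0 < R0 + 1 := by linarith
  have hr0 : 0 < r := by positivity
  have hr1 : r ≤ 1 / 8 := by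
    rw [hr]
    apply one_div_le_one_div_of_le (by norm_num)
    linarith
  have hrR : R0 * r ≤ 1 / 8 := by
    rw [hr, mul_one_div, div_le_iff₀ (by positivity)]
    nlinarith
  let b : ContDiffBump (0 : E N) := ⟨r / 2, r, by linarith, by linarith⟩
  have hb : ContDiff ℝ ∞ fun s => ((b s : ℝ) : ℂ) :=
    Complex.ofRealCLM.contDiff.comp b.contDiff
  have hbc : HasCompactSupport fun s => ((b s : ℝ) : ℂ) :=
    b.hasCompactSupport.comp_left (g := fun x : ℝ => (x : ℂ)) Complex.ofReal_zero
  have hsupp : ∀ x, b x ≠ 0 → ‖x‖ < r := by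
    intro x hx
    have h2 : x ∈ Function.support b := hx
    rw [b.support_eq] at h2
    simpa [b] using h2
  have hpos : 0 < ∫ η, b η ∂(volume : Measure (E N)) := b.integral_pos
  refine ⟨fun s => ((b s : ℝ) : ℂ), 1 / 2 * ∫ η, b η, hb, hbc, ?_, by positivity, ?_, ?_, ?_⟩
  · intro x hx
    have h1 : b x ≠ 0 := fun h => hx (by
      show ((b x : ℝ) : ℂ) = 0
      rw [h]
      exact Complex.ofReal_zero)
    have := hsupp x h1
    linarith
  · intro x hx
    have hi : Integrable (fun s => ((b s : ℝ) : ℂ)) (volume : Measure (E N)) :=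
      hb.continuous.integrable_of_hasCompactSupport hbc
    have hi2 := integrable_ee_mul hi x
    have hbi : Integrable (fun s => (b s : ℝ)) (volume : Measure (E N)) := b.integrable
    have h1 : (trX (fun s => ((b s : ℝ) : ℂ)) x).re =
        ∫ η, Real.cos (2 * Real.pi * ⟪x, η⟫) * b η := by
      have e1 := Complex.reCLM.integral_comp_comm hi2
      have e2 : (trX (fun s => ((b s : ℝ) : ℂ)) x).re =
          Complex.reCLM (∫ η, ee x η * ((b η : ℝ) : ℂ)) := rfl
      rw [e2, ← e1]
      refine integral_congr_ae (Eventually.of_forall fun η => ?_)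
      exact chi_re x η (b η)
    have h2 : 1 / 2 * ∫ η, b η ≤ ∫ η, Real.cos (2 * Real.pi * ⟪x, η⟫) * b η := by
      rw [← integral_const_mul]
      refine integral_mono (hbi.const_mul _) ?_ ?_
      · have e3 := Complex.reCLM.integrable_comp hi2
        refine e3.congr (Eventually.of_forall fun η => ?_)
        exact chi_re x η (b η)
      · intro η
        show 1 / 2 * b η ≤ Real.cos (2 * Real.pi * ⟪x, η⟫) * b η
        by_cases h0 : b η = 0
        · rw [h0, mul_zero, mul_zero]
        · apply mul_le_mul_of_nonneg_right _ b.nonneg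
          apply chi_cos
          have h3 : |⟪x, η⟫| ≤ ‖x‖ * ‖η‖ := abs_real_inner_le_norm x η
          have h4 : ‖x‖ * ‖η‖ ≤ R0 * r :=
            mul_le_mul hx (hsupp η h0).le (norm_nonneg _) hR0
          have hpi := Real.pi_pos
          rw [abs_mul, abs_of_pos (by positivity : (0 : ℝ) < 2 * Real.pi)]
          have h5 : |⟪x, η⟫| ≤ 1 / 8 := h3.trans (h4.trans hrR)
          nlinarith
    calc 1 / 2 * ∫ η, b η ≤ (trX (fun s => ((b s : ℝ) : ℂ)) x).re := by rw [h1]; exact h2
      _ ≤ ‖trX (fun s => ((b s : ℝ) : ℂ)) x‖ := Complex.re_le_norm _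
  · intro h0
    rw [lintegral_eq_zero_iff (hb.continuous.enorm.measurable.pow_const 2)] at h0
    have h1 : (fun s => ‖((b s : ℝ) : ℂ)‖ₑ ^ 2) = 0 := by
      refine Continuous.ae_eq_iff_eq (μ := (volume : Measure (E N))) ?_ continuous_zero |>.1 h0
      exact (ENNReal.continuous_pow 2).comp hb.continuous.enorm
    have h2 := congrFun h1 0
    simp only [Pi.zero_apply] at h2
    have h3 : b (0 : E N) = 1 := b.one_of_mem_closedBall (mem_closedBall_self (by
      show 0 ≤ r / 2
      linarith))
    rw [h3] at h2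
    simp at h2
  · have h1 : MemLp (fun s => ((b s : ℝ) : ℂ)) 2 (volume : Measure (E N)) :=
      hb.continuous.memLp_of_hasCompactSupport hbc
    have h2 := eLpNorm_nnreal_pow_eq_lintegral (f := fun s => ((b s : ℝ) : ℂ))
      (μ := (volume : Measure (E N))) (p := 2) two_ne_zero
    have h3 : ∫⁻ s, ‖((b s : ℝ) : ℂ)‖ₑ ^ 2 = eLpNorm (fun s => ((b s : ℝ) : ℂ)) 2 volume ^ 2 := by
      simpa using h2.symm
    rw [h3]
    exact (ENNReal.pow_lt_top h1.2).ne

end Pool.Agent.H311.CB
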