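import Pool.Agent.H311.CB.Defs4

/-!
# (G1) and (G2): a fine list of balls; the density lemma (helper643)
-/

set_option autoImplicit false

open MeasureTheory Metric Set Filter Topology
open scoped ENNReal NNReal Real RealInnerProductSpace ContDiff Pointwise

namespace Pool.Agent.H311.CB

open Pool.Agent.H311.PM

/-- (G1) -/
theorem fine : S_fine := by
  intro N
  refine ⟨fun i => (TopologicalSpace.denseSeq (E N) (Nat.unpair i).1,
    1 / (((Nat.unpair i).2 : ℝ) + 1)), fun i => ?_, fun x ε hε => ?_⟩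
  · change 0 < 1 / (((Nat.unpair i).2 : ℝ) + 1)
    positivity
  · obtain ⟨b, hb⟩ := exists_nat_one_div_lt hε
    have hb0 : (0 : ℝ) < 1 / ((b : ℝ) + 1) := by positivity
    obtain ⟨a, ha⟩ := (TopologicalSpace.denseRange_denseSeq (E N)).exists_dist_lt x hb0
    refine ⟨Nat.pair a b, ?_, ?_⟩
    · simp only [Nat.unpair_pair]
      exact hb
    · simp only [Nat.unpair_pair]
      rw [mem_closedBall]
      exact ha.le

/-- the part of a ball which is not in all the `A k`, `k ≥ n` -/
theorem density_part {N : ℕ} {Q : Set (E N)} {c : ℝ} {A : ℕ → Set (E N)}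
    (hA : ∀ k, MeasurableSet (A k))
    (h : ∀ᶠ k in atTop, ENNReal.ofReal c * volume Q ≤ volume (A k ∩ Q)) (n : ℕ) :
    volume ((⋂ k ∈ Ici n, (A k)ᶜ) ∩ Q) + ENNReal.ofReal c * volume Q ≤ volume Q := by
  obtain ⟨k, hk, hkn⟩ := (h.and (eventually_ge_atTop n)).exists
  have h1 : (⋂ k ∈ Ici n, (A k)ᶜ) ∩ Q ⊆ Q \ A k := by
    rintro y ⟨hy, hyQ⟩
    rw [mem_iInter₂] at hy
    exact ⟨hyQ, hy k hkn⟩
  calc volume ((⋂ k ∈ Ici n, (A k)ᶜ) ∩ Q) + ENNReal.ofReal c * volume Q
      ≤ volume (Q \ A k) + volume (Q ∩ A k) := by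
        refine add_le_add (measure_mono h1) ?_
        rw [inter_comm]
        exact hk
    _ = volume Q := by
        rw [add_comm]
        exact measure_inter_add_sdiff Q (hA k)

/-- (G2) -/
theorem density : S_density := by
  intro N t ht c hc A hA h
  have key : ∀ n : ℕ, volume (⋂ k ∈ Ici n, (A k)ᶜ) = 0 := by
    intro n
    have h1 : ∀ᵐ x ∂(volume.restrict (⋂ k ∈ Ici n, (A k)ᶜ)), False := by
      filter_upwards [IsUnifLocDoublingMeasure.ae_tendsto_measure_inter_div
        (volume : Measure (E N)) (⋂ k ∈ Ici n, (A k)ᶜ) 1] with x hx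
      have h2 : ∀ j : ℕ, ∃ i, (t i).2 < 1 / ((j : ℝ) + 1) ∧ x ∈ closedBall (t i).1 (t i).2 :=
        fun j => ht.2 x _ (by positivity)
      choose i hi1 hi2 using h2
      have h3 : Tendsto (fun j => (t (i j)).2) atTop (𝓝[>] 0) := by
        rw [tendsto_nhdsWithin_iff]
        refine ⟨?_, Eventually.of_forall fun j => ht.1 (i j)⟩
        exact squeeze_zero (fun j => (ht.1 (i j)).le) (fun j => (hi1 j).le)
          tendsto_one_div_add_atTop_nhds_zero_nat
      have h4 := hx (fun j => (t (i j)).1) (fun j => (t (i j)).2) h3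
        (Eventually.of_forall fun j => by rw [one_mul]; exact hi2 j)
      have h5 : ∀ j, volume ((⋂ k ∈ Ici n, (A k)ᶜ) ∩ closedBall (t (i j)).1 (t (i j)).2) /
          volume (closedBall (t (i j)).1 (t (i j)).2) + ENNReal.ofReal c ≤ 1 := by
        intro j
        have h6 := density_part hA (h (i j)) n
        have h7 : volume (closedBall (t (i j)).1 (t (i j)).2) ≠ 0 :=
          (measure_closedBall_pos volume _ (ht.1 (i j))).ne'
        have h8 : volume (closedBall (t (i j)).1 (t (i j)).2) ≠ ⊤ :=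
          measure_closedBall_lt_top.ne
        have h9 : volume ((⋂ k ∈ Ici n, (A k)ᶜ) ∩ closedBall (t (i j)).1 (t (i j)).2) /
            volume (closedBall (t (i j)).1 (t (i j)).2) + ENNReal.ofReal c =
            (volume ((⋂ k ∈ Ici n, (A k)ᶜ) ∩ closedBall (t (i j)).1 (t (i j)).2) +
              ENNReal.ofReal c * volume (closedBall (t (i j)).1 (t (i j)).2)) /
            volume (closedBall (t (i j)).1 (t (i j)).2) := by
          rw [ENNReal.add_div, mul_div_assoc, ENNReal.div_self h7 h8, mul_one]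
        rw [h9]
        exact ENNReal.div_le_of_le_mul (by rwa [one_mul])
      have h6 : (1 : ℝ≥0∞) + ENNReal.ofReal c ≤ 1 :=
        le_of_tendsto (h4.add_const _) (Eventually.of_forall h5)
      have h7 : (1 : ℝ≥0∞) < 1 + ENNReal.ofReal c :=
        ENNReal.lt_add_right ENNReal.one_ne_top (by
          rw [Ne, ENNReal.ofReal_eq_zero, not_le]
          exact hc)
      exact absurd h6 (not_le.2 h7)
    rw [eventually_false_iff_eq_bot, ae_eq_bot] at h1
    exact Measure.restrict_eq_zero.1 h1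
  have h1 : ∀ᵐ x : E N, ∀ n : ℕ, x ∉ (⋂ k ∈ Ici n, (A k)ᶜ) :=
    ae_all_iff.2 fun n => measure_eq_zero_iff_ae_notMem.1 (key n)
  filter_upwards [h1] with x hx
  by_contra hcon
  rw [not_frequently, eventually_atTop] at hcon
  obtain ⟨n, hn⟩ := hcon
  apply hx n
  rw [mem_iInter₂]
  intro k hk
  exact hn k hk

end Pool.Agent.H311.CB
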