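import Pool.Agent.H311.CB.Defs4

/-!
# G3: gliding hump
-/

set_option autoImplicit false

open MeasureTheory Metric Set Filter Topology
open scoped ENNReal NNReal Real RealInnerProductSpace ContDiff Pointwise

namespace Pool.Agent.H311.CB

open Pool.Agent.H311.PM

/-- the properties of one step -/
def glide_P {N : ℕ} (K : Set (E N)) (r₁ c : ℝ) (t : ℕ → E N × ℝ) (k : ℕ) (ρ : ℝ)
    (g : E N → ℂ) (F : Finset ℝ) (φ : ℝ) : Prop :=
  Continuous g ∧ HasCompactSupport g ∧ (∀ ξ, ‖ξ‖ < ρ → g ξ = 0) ∧ (∀ ξ, φ ≤ ‖ξ‖ → g ξ = 0) ∧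
    ∫⁻ ξ, ‖g ξ‖ₑ ^ 2 ≤ 1 ∧ (∀ R ∈ F, 0 < R ∧ r₁ * R < φ) ∧ ∫ ξ, ‖g ξ‖ ≤ φ ∧ ρ + 1 ≤ φ ∧
    r₁ * (k + 2) ≤ φ ∧
    ∀ i < k, ENNReal.ofReal c * volume (closedBall (t i).1 (t i).2) ≤
      volume {x | x ∈ closedBall (t i).1 (t i).2 ∧
        ∃ R ∈ F, 2 ^ k * ((k : ℝ) + 1 + k * ρ) < ‖I (R • K) g x‖}

theorem glide_step {N : ℕ} (t : ℕ → E N × ℝ) (c : ℝ) (K : Set (E N)) (r₁ : ℝ)
    (hH : ∀ m : ℕ, Hump K c m m t m) (k : ℕ) (ρ : ℝ) :
    ∃ (g : E N → ℂ) (F : Finset ℝ) (φ : ℝ), glide_P K r₁ c t k ρ g F φ := by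
  obtain ⟨m, hm1, hm2, hm3⟩ : ∃ m : ℕ, k ≤ m ∧ ρ ≤ m ∧ 2 ^ k * ((k : ℝ) + 1 + k * ρ) ≤ m := by
    refine ⟨k + ⌈ρ⌉₊ + ⌈2 ^ k * ((k : ℝ) + 1 + k * ρ)⌉₊, by omega, ?_, ?_⟩
    · refine (Nat.le_ceil _).trans ?_
      exact_mod_cast (by omega : ⌈ρ⌉₊ ≤ k + ⌈ρ⌉₊ + ⌈2 ^ k * ((k : ℝ) + 1 + k * ρ)⌉₊)
    · refine (Nat.le_ceil _).trans ?_
      exact_mod_cast (by omega : ⌈2 ^ k * ((k : ℝ) + 1 + k * ρ)⌉₊ ≤
        k + ⌈ρ⌉₊ + ⌈2 ^ k * ((k : ℝ) + 1 + k * ρ)⌉₊)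
  obtain ⟨g, F, hg, hgc, hg0, hg2, hF, hQ⟩ := hH m
  obtain ⟨B, hB⟩ := hgc.isCompact.isBounded.subset_closedBall (0 : E N)
  have hC : ∀ R ∈ F, r₁ * R < ∑ R ∈ F, |r₁ * R| + 1 := by
    intro R hR
    have h1 := Finset.single_le_sum (f := fun R => |r₁ * R|) (fun _ _ => abs_nonneg _) hR
    have h2 := le_abs_self (r₁ * R)
    have h3 : |r₁ * R| ≤ ∑ R ∈ F, |r₁ * R| := h1
    linarith
  obtain ⟨φ, h1, h2, h3, h4, h5⟩ : ∃ φ : ℝ, B + 1 ≤ φ ∧ ∑ R ∈ F, |r₁ * R| + 1 ≤ φ ∧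
      ∫ ξ, ‖g ξ‖ ≤ φ ∧ ρ + 1 ≤ φ ∧ r₁ * (k + 2) ≤ φ :=
    ⟨max (B + 1) (max (∑ R ∈ F, |r₁ * R| + 1) (max (∫ ξ, ‖g ξ‖) (max (ρ + 1) (r₁ * (k + 2))))),
      le_max_left _ _, le_trans (le_max_left _ _) (le_max_right _ _),
      le_trans (le_max_left _ _) (le_trans (le_max_right _ _) (le_max_right _ _)),
      le_trans (le_max_left _ _) (le_trans (le_max_right _ _) (le_trans (le_max_right _ _)
        (le_max_right _ _))),
      le_trans (le_max_right _ _) (le_trans (le_max_right _ _) (le_trans (le_max_right _ _)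
        (le_max_right _ _)))⟩
  refine ⟨g, F, φ, hg.continuous, hgc, fun ξ hξ => hg0 ξ (lt_of_lt_of_le hξ hm2), ?_, hg2,
    fun R hR => ⟨hF R hR, lt_of_lt_of_le (hC R hR) h2⟩, h3, h4, h5, ?_⟩
  · intro ξ hξ
    by_contra hne
    have h6 : ξ ∈ tsupport g := subset_tsupport g hne
    have h7 := hB h6
    rw [mem_closedBall_zero_iff] at h7
    linarith
  · intro i hi
    refine (hQ i (lt_of_lt_of_le hi hm1)).le.trans (measure_mono ?_)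
    rintro x ⟨hx, R, hR, hx2⟩
    exact ⟨hx, R, hR, lt_of_le_of_lt hm3 hx2⟩

theorem glide_seq {N : ℕ} (t : ℕ → E N × ℝ) (c : ℝ) (K : Set (E N)) (r₁ : ℝ)
    (hH : ∀ m : ℕ, Hump K c m m t m) :
    ∃ (ρ : ℕ → ℝ) (g : ℕ → E N → ℂ) (F : ℕ → Finset ℝ), ρ 0 = 1 ∧
      ∀ k, glide_P K r₁ c t k (ρ k) (g k) (F k) (ρ (k + 1)) := by
  choose g F φ h using glide_step t c K r₁ hH
  exact ⟨fun n => Nat.rec 1 (fun k r => φ k r) n, fun k => g k _, fun k => F k _, rfl,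
    fun k => h k _⟩

section main
variable {N : ℕ} {t : ℕ → E N × ℝ} {c : ℝ} {K : Set (E N)} {r₁ : ℝ} {ρ : ℕ → ℝ}
  {g : ℕ → E N → ℂ} {F : ℕ → Finset ℝ}

theorem glide_mono (hP : ∀ k, glide_P K r₁ c t k (ρ k) (g k) (F k) (ρ (k + 1))) :
    Monotone ρ := by
  refine monotone_nat_of_le_succ fun k => ?_
  have := (hP k).2.2.2.2.2.2.2.1
  linarith

theorem glide_ge (h0 : ρ 0 = 1) (hP : ∀ k, glide_P K r₁ c t k (ρ k) (g k) (F k) (ρ (k + 1)))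
    (k : ℕ) : (k : ℝ) + 1 ≤ ρ k := by
  induction k with
  | zero => rw [h0]; simp
  | succ k ih =>
    have := (hP k).2.2.2.2.2.2.2.1
    push_cast
    linarith

theorem glide_rk (hr : 0 < r₁) (h0 : ρ 0 = 1)
    (hP : ∀ k, glide_P K r₁ c t k (ρ k) (g k) (F k) (ρ (k + 1))) (k : ℕ) : r₁ * k < ρ k := by
  cases k with
  | zero => rw [h0]; simp
  | succ k =>
    have := (hP k).2.2.2.2.2.2.2.2.1
    push_cast
    linarith

/-- the finite sums -/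
noncomputable def glide_S (g : ℕ → E N → ℂ) (n : ℕ) (ξ : E N) : ℂ :=
  ∑ k ∈ Finset.range n, (1 / 2 : ℂ) ^ k * g k ξ

/-- the sum -/
noncomputable def glide_G (g : ℕ → E N → ℂ) (ξ : E N) : ℂ := ∑' k, (1 / 2 : ℂ) ^ k * g k ξ

theorem glide_eq (hP : ∀ k, glide_P K r₁ c t k (ρ k) (g k) (F k) (ρ (k + 1))) {n : ℕ} {ξ : E N}
    (hξ : ‖ξ‖ < ρ n) : glide_G g ξ = glide_S g n ξ := by
  unfold glide_G glide_S
  refine tsum_eq_sum fun k hk => ?_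
  rw [Finset.mem_range, not_lt] at hk
  rw [(hP k).2.2.1 ξ (lt_of_lt_of_le hξ (glide_mono hP hk)), mul_zero]

theorem glide_one (h0 : ρ 0 = 1)
    (hP : ∀ k, glide_P K r₁ c t k (ρ k) (g k) (F k) (ρ (k + 1))) (ξ : E N) :
    ∃ k, glide_G g ξ = (1 / 2 : ℂ) ^ k * g k ξ := by
  classical
  have hex : ∃ n, ‖ξ‖ < ρ n := by
    obtain ⟨n, hn⟩ := exists_nat_gt ‖ξ‖
    have := glide_ge h0 hP n
    exact ⟨n, by linarith⟩
  rcases hn : Nat.find hex with _ | j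
  · have h1 := Nat.find_spec hex
    rw [hn] at h1
    refine ⟨0, ?_⟩
    rw [glide_eq hP h1, (hP 0).2.2.1 ξ h1, mul_zero]
    rfl
  · have h1 := Nat.find_spec hex
    rw [hn] at h1
    have h2 : ¬ ‖ξ‖ < ρ j := Nat.find_min hex (by omega)
    rw [not_lt] at h2
    refine ⟨j, ?_⟩
    rw [glide_eq hP h1]
    unfold glide_S
    rw [Finset.sum_range_succ, Finset.sum_eq_zero, zero_add]
    intro k hk
    rw [Finset.mem_range] at hk
    rw [(hP k).2.2.2.1 ξ ((glide_mono hP hk).trans h2), mul_zero]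

theorem glide_meas (h0 : ρ 0 = 1)
    (hP : ∀ k, glide_P K r₁ c t k (ρ k) (g k) (F k) (ρ (k + 1))) : Measurable (glide_G g) := by
  have h1 : ∀ n, Measurable (glide_S g n) := by
    intro n
    unfold glide_S
    refine Finset.measurable_fun_sum _ fun k _ => ?_
    exact ((hP k).1.measurable).const_mul _
  refine measurable_of_tendsto_metrizable h1 ?_
  rw [tendsto_pi_nhds]
  intro ξ
  refine tendsto_const_nhds.congr' ?_
  obtain ⟨n, hn⟩ := exists_nat_gt ‖ξ‖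
  filter_upwards [eventually_ge_atTop n] with j hj
  have h2 := glide_ge h0 hP n
  have h3 := glide_mono hP hj
  exact glide_eq hP (by linarith)

theorem glide_int (h0 : ρ 0 = 1)
    (hP : ∀ k, glide_P K r₁ c t k (ρ k) (g k) (F k) (ρ (k + 1))) :
    ∫⁻ ξ, ‖glide_G g ξ‖ₑ ^ 2 < ⊤ := by
  have hhalf : ‖(1 / 2 : ℂ)‖ₑ = (1 / 2 : ℝ≥0∞) := by
    rw [← ofReal_norm]
    have : ‖(1 / 2 : ℂ)‖ = 1 / 2 := by norm_num
    rw [this, ENNReal.ofReal_div_of_pos (by norm_num)]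
    norm_num
  have h1 : ∀ ξ, ‖glide_G g ξ‖ₑ ^ 2 ≤ ∑' k, ‖(1 / 2 : ℂ) ^ k * g k ξ‖ₑ ^ 2 := by
    intro ξ
    obtain ⟨k, hk⟩ := glide_one h0 hP ξ
    rw [hk]
    exact ENNReal.le_tsum (f := fun k => ‖(1 / 2 : ℂ) ^ k * g k ξ‖ₑ ^ 2) k
  refine lt_of_le_of_lt (lintegral_mono h1) ?_
  rw [lintegral_tsum fun k => by
    have := (hP k).1
    fun_prop]
  have h2 : ∀ k, ∫⁻ ξ, ‖(1 / 2 : ℂ) ^ k * g k ξ‖ₑ ^ 2 ≤ (1 / 2 : ℝ≥0∞) ^ k := by
    intro k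
    have h3 : ∀ ξ, ‖(1 / 2 : ℂ) ^ k * g k ξ‖ₑ ^ 2 = ((1 / 2 : ℝ≥0∞) ^ k) ^ 2 * ‖g k ξ‖ₑ ^ 2 := by
      intro ξ
      rw [enorm_mul, enorm_pow, hhalf, mul_pow]
    simp_rw [h3]
    rw [lintegral_const_mul' _ _ (by
      refine ENNReal.pow_ne_top (ENNReal.pow_ne_top ?_)
      norm_num)]
    have hle : (1 / 2 : ℝ≥0∞) ≤ 1 := by
      rw [one_div]
      exact ENNReal.inv_le_one.mpr (by norm_num)
    have h4 : (1 / 2 : ℝ≥0∞) ^ k ≤ 1 := pow_le_one₀ zero_le hle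
    calc ((1 / 2 : ℝ≥0∞) ^ k) ^ 2 * ∫⁻ ξ, ‖g k ξ‖ₑ ^ 2
        ≤ ((1 / 2 : ℝ≥0∞) ^ k) ^ 2 * 1 := by gcongr; exact (hP k).2.2.2.2.1
      _ = (1 / 2 : ℝ≥0∞) ^ k * (1 / 2 : ℝ≥0∞) ^ k := by rw [mul_one, sq]
      _ ≤ (1 / 2 : ℝ≥0∞) ^ k * 1 := by gcongr
      _ = (1 / 2 : ℝ≥0∞) ^ k := mul_one _
  refine lt_of_le_of_lt (ENNReal.tsum_le_tsum h2) ?_
  rw [ENNReal.tsum_geometric, one_div]
  rw [ENNReal.one_sub_inv_two, inv_inv]
  norm_num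

theorem glide_memLp (h0 : ρ 0 = 1)
    (hP : ∀ k, glide_P K r₁ c t k (ρ k) (g k) (F k) (ρ (k + 1))) : MemLp (glide_G g) 2 := by
  refine ⟨(glide_meas h0 hP).aestronglyMeasurable, ?_⟩
  rw [eLpNorm_lt_top_iff_lintegral_rpow_enorm_lt_top (by norm_num) (by norm_num)]
  have h1 := glide_int h0 hP
  have h2 : ∀ ξ, ‖glide_G g ξ‖ₑ ^ (2 : ℝ≥0∞).toReal = ‖glide_G g ξ‖ₑ ^ 2 := by
    intro ξ
    rw [ENNReal.toReal_ofNat]
    exact ENNReal.rpow_ofNat _ _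
  simp_rw [h2]
  exact h1

theorem glide_norm_I {A : Set (E N)} {f : E N → ℂ} (hf : Integrable f) (x : E N) :
    ‖I A f x‖ ≤ ∫ ξ, ‖f ξ‖ := by
  unfold I
  refine (norm_integral_le_integral_norm _).trans ?_
  have h1 : ∀ ξ : E N, ‖Complex.exp (2 * Real.pi * Complex.I * ((⟪x, ξ⟫ : ℝ) : ℂ)) * f ξ‖ =
      ‖f ξ‖ := by
    intro ξ
    rw [norm_mul]
    have := norm_ee x ξ
    unfold ee at this
    rw [this, one_mul]
  simp_rw [h1]
  exact setIntegral_le_integral hf.norm (Eventually.of_forall fun ξ => norm_nonneg _)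

theorem glide_sub (hK : K ⊆ closedBall 0 r₁) {R : ℝ} (hR : 0 < R) {ξ : E N} (hξ : ξ ∈ R • K) :
    ‖ξ‖ ≤ R * r₁ := by
  obtain ⟨z, hz, rfl⟩ := hξ
  have h1 := hK hz
  rw [mem_closedBall_zero_iff] at h1
  show ‖R • z‖ ≤ R * r₁
  rw [norm_smul, Real.norm_of_nonneg hR.le]
  exact mul_le_mul_of_nonneg_left h1 hR.le

theorem glide_large (hr : 0 < r₁) (hK : K ⊆ closedBall 0 r₁) (hKm : MeasurableSet K)
    (h0 : ρ 0 = 1) (hP : ∀ k, glide_P K r₁ c t k (ρ k) (g k) (F k) (ρ (k + 1))) (k : ℕ) (x : E N)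
    (R : ℝ) (hR : R ∈ F k) (hx : 2 ^ k * ((k : ℝ) + 1 + k * ρ k) < ‖I (R • K) (g k) x‖) :
    (k : ℝ) ≤ R ∧ (k : ℝ) < ‖I (R • K) (glide_G g) x‖ := by
  obtain ⟨hR0, hR1⟩ := (hP k).2.2.2.2.2.1 R hR
  have hρ0 : 0 ≤ ρ k := by
    have := glide_ge h0 hP k
    have h1 : (0 : ℝ) ≤ k := Nat.cast_nonneg k
    linarith
  have hm : MeasurableSet (R • K) := hKm.const_smul_of_ne_zero hR0.ne'
  have hgi : ∀ j, Integrable (g j) := fun j =>
    (hP j).1.integrable_of_hasCompactSupport (hP j).2.1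
  constructor
  · by_contra hcon
    push Not at hcon
    have h1 : R * r₁ < ρ k := by
      have h2 := glide_rk hr h0 hP k
      have h3 : R * r₁ < k * r₁ := mul_lt_mul_of_pos_right hcon hr
      linarith
    have h2 : I (R • K) (g k) x = 0 := by
      unfold I
      refine (setIntegral_congr_fun hm (g := fun _ => 0) fun ξ hξ => ?_).trans (by simp)
      show _ * g k ξ = 0
      rw [(hP k).2.2.1 ξ (lt_of_le_of_lt (glide_sub hK hR0 hξ) h1), mul_zero]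
    rw [h2, norm_zero] at hx
    have h3 : 0 ≤ 2 ^ k * ((k : ℝ) + 1 + k * ρ k) := by positivity
    linarith
  · have h1 : I (R • K) (glide_G g) x =
        ∑ j ∈ Finset.range (k + 1), (1 / 2 : ℂ) ^ j * I (R • K) (g j) x := by
      unfold I
      have h2 : ∫ ξ in R • K, Complex.exp (2 * Real.pi * Complex.I * ((⟪x, ξ⟫ : ℝ) : ℂ)) *
          glide_G g ξ = ∫ ξ in R • K, ∑ j ∈ Finset.range (k + 1), (1 / 2 : ℂ) ^ j *
          (Complex.exp (2 * Real.pi * Complex.I * ((⟪x, ξ⟫ : ℝ) : ℂ)) * g j ξ) := by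
        refine setIntegral_congr_fun hm fun ξ hξ => ?_
        have h3 : ‖ξ‖ < ρ (k + 1) := by
          have := glide_sub hK hR0 hξ
          linarith [mul_comm R r₁]
        show _ * glide_G g ξ = _
        rw [glide_eq hP h3]
        unfold glide_S
        rw [Finset.mul_sum]
        exact Finset.sum_congr rfl fun j _ => by ring
      rw [h2, integral_finsetSum]
      · exact Finset.sum_congr rfl fun j _ => integral_const_mul _ _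
      · intro j _
        exact ((integrable_ee_mul (hgi j) x).integrableOn).const_mul _
    rw [h1, Finset.sum_range_succ]
    have hn : ∀ j : ℕ, ‖(1 / 2 : ℂ) ^ j‖ = (1 / 2) ^ j := by
      intro j
      rw [norm_pow]
      norm_num
    have h2 : ‖∑ j ∈ Finset.range k, (1 / 2 : ℂ) ^ j * I (R • K) (g j) x‖ ≤ k * ρ k := by
      refine (norm_sum_le _ _).trans ?_
      have h3 : ∀ j ∈ Finset.range k, ‖(1 / 2 : ℂ) ^ j * I (R • K) (g j) x‖ ≤ ρ k := by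
        intro j hj
        rw [Finset.mem_range] at hj
        rw [norm_mul, hn]
        have h4 : ‖I (R • K) (g j) x‖ ≤ ρ k :=
          (glide_norm_I (hgi j) x).trans ((hP j).2.2.2.2.2.2.1.trans (glide_mono hP hj))
        have h5 : (1 / 2 : ℝ) ^ j ≤ 1 := pow_le_one₀ (by norm_num) (by norm_num)
        calc (1 / 2 : ℝ) ^ j * ‖I (R • K) (g j) x‖ ≤ 1 * ‖I (R • K) (g j) x‖ :=
              mul_le_mul_of_nonneg_right h5 (norm_nonneg _)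
          _ = ‖I (R • K) (g j) x‖ := one_mul _
          _ ≤ ρ k := h4
      refine (Finset.sum_le_sum h3).trans ?_
      rw [Finset.sum_const, Finset.card_range, nsmul_eq_mul]
    have h3 : (k : ℝ) + 1 + k * ρ k < ‖(1 / 2 : ℂ) ^ k * I (R • K) (g k) x‖ := by
      rw [norm_mul, hn]
      have h4 : (0 : ℝ) < (1 / 2) ^ k := by positivity
      have h5 := mul_lt_mul_of_pos_left hx h4
      have h6 : (1 / 2 : ℝ) ^ k * (2 ^ k * ((k : ℝ) + 1 + k * ρ k)) = (k : ℝ) + 1 + k * ρ k := by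
        rw [← mul_assoc, ← mul_pow]
        norm_num
      linarith
    have h4 := norm_sub_le
      (∑ j ∈ Finset.range k, (1 / 2 : ℂ) ^ j * I (R • K) (g j) x +
        (1 / 2 : ℂ) ^ k * I (R • K) (g k) x)
      (∑ j ∈ Finset.range k, (1 / 2 : ℂ) ^ j * I (R • K) (g j) x)
    rw [add_sub_cancel_left] at h4
    linarith

end main

theorem glide : S_glide := by
  intro N t c K r₁ hr hK hKm hH
  obtain ⟨ρ, g, F, h0, hP⟩ := glide_seq t c K r₁ hH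
  have hgi : ∀ j, Integrable (g j) := fun j =>
    (hP j).1.integrable_of_hasCompactSupport (hP j).2.1
  refine ⟨glide_G g, fun k => {x | ∃ R ∈ F k,
    2 ^ k * ((k : ℝ) + 1 + k * ρ k) < ‖I (R • K) (g k) x‖}, glide_memLp h0 hP, ?_, ?_, ?_⟩
  · intro k
    have h1 : {x | ∃ R ∈ F k, 2 ^ k * ((k : ℝ) + 1 + k * ρ k) < ‖I (R • K) (g k) x‖} =
        ⋃ R ∈ F k, {x | 2 ^ k * ((k : ℝ) + 1 + k * ρ k) < ‖I (R • K) (g k) x‖} := by
      ext x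
      simp only [mem_ofPred_eq, mem_iUnion, exists_prop]
    show MeasurableSet {x | ∃ R ∈ F k, 2 ^ k * ((k : ℝ) + 1 + k * ρ k) < ‖I (R • K) (g k) x‖}
    rw [h1]
    refine (isOpen_biUnion fun R _ => ?_).measurableSet
    exact isOpen_lt continuous_const (continuous_I (hgi k)).norm
  · intro i
    filter_upwards [eventually_gt_atTop i] with k hk
    refine ((hP k).2.2.2.2.2.2.2.2.2 i hk).trans (measure_mono ?_)
    rintro x ⟨h1, h2⟩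
    exact ⟨h2, h1⟩
  · rintro k x ⟨R, hR, hx⟩
    exact ⟨R, glide_large hr hK hKm h0 hP k x R hR hx⟩

end Pool.Agent.H311.CB
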