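import Pool.Agent.H311.CB.Defs4

set_option autoImplicit false

open MeasureTheory Metric Set Filter Topology
open scoped ENNReal NNReal Real RealInnerProductSpace ContDiff Pointwise

namespace Pool.Agent.H311.CB

open Pool.Agent.H311.PM

/-- the total mass of the tree -/
theorem hump_total {c : LP} {L : ℕ} (hcs : Sym c) (hL : 0 < L)
    (hc3 : 1 - 1 / (L : ℝ) ≤ ∑ n ∈ c.coeff.support, (c.coeff n) ^ 2) :
    (L : ℝ) / 2 ≤ ∑ v ∈ Finset.Ico 1 (2 ^ L), M0 (W c v * W c v) := by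
  have ht := total_eq hcs L
  set G : ℝ := ∑ v ∈ Finset.Ico 1 (2 ^ L), M0 (W c v * W c v) with hG
  have hL0 : (0 : ℝ) < L := by exact_mod_cast hL
  set ρ : ℝ := (1 + ∑ n ∈ c.coeff.support, (c.coeff n) ^ 2) / 2 with hρ
  have hρ1 : 1 - 1 / (2 * L) ≤ ρ := by
    rw [hρ]
    have : 1 / (2 * (L : ℝ)) = 1 / L / 2 := by field_simp
    rw [this]
    linarith
  have hρ0 : 0 ≤ ρ := by
    rw [hρ]
    have : 0 ≤ ∑ n ∈ c.coeff.support, (c.coeff n) ^ 2 := Finset.sum_nonneg fun _ _ => sq_nonneg _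
    linarith
  rw [ht]
  have h1 : ∀ j ∈ Finset.range L, (1 / 2 : ℝ) ≤ ρ ^ j := by
    intro j hj
    have hjL : (j : ℝ) ≤ L := by exact_mod_cast (Finset.mem_range.1 hj).le
    have h2 : -2 ≤ ρ - 1 := by linarith
    have h3 := one_add_mul_le_pow h2 j
    rw [show (1 : ℝ) + (ρ - 1) = ρ by ring] at h3
    refine le_trans ?_ h3
    have h4 : -(1 / (2 * L)) ≤ ρ - 1 := by linarith
    have h5 : (j : ℝ) * (-(1 / (2 * L))) ≤ j * (ρ - 1) :=
      mul_le_mul_of_nonneg_left h4 (Nat.cast_nonneg j)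
    have h6 : (j : ℝ) * (1 / (2 * L)) ≤ 1 / 2 := by
      calc (j : ℝ) * (1 / (2 * L)) ≤ L * (1 / (2 * L)) :=
            mul_le_mul_of_nonneg_right hjL (by positivity)
        _ = 1 / 2 := by field_simp
    linarith
  calc (L : ℝ) / 2 = ∑ _j ∈ Finset.range L, (1 / 2 : ℝ) := by
        rw [Finset.sum_const, Finset.card_range, nsmul_eq_mul]; ring
    _ ≤ _ := Finset.sum_le_sum h1

theorem hump (hW : S_weak) (hS : S_sup) : S_hump := by
  intro N t m ht M
  obtain ⟨κ, hκ, hW'⟩ := hW N t m ht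
  obtain ⟨L1, hL1⟩ := exists_nat_gt (32 * (|M| / κ) ^ 2)
  refine ⟨L1 + 1, Nat.succ_pos _, ?_⟩
  intro L hL K hK ρ
  have hLpos : 0 < L := by omega
  have hL0 : (0 : ℝ) < L := by exact_mod_cast hLpos
  obtain ⟨c, lam, p, R, hcs, hb, hc1, hc2, hcl, hinj, hnd, hp0⟩ := hK
  have hG := hump_total hcs hLpos hc2
  have hm := mean_eq hcs L
  have hn := norm_eq hcs L
  set G : ℝ := ∑ v ∈ Finset.Ico 1 (2 ^ L), M0 (W c v * W c v) with hGdef
  have hG0 : 0 < G := by linarith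
  have h0 : (∑ C ∈ Finset.Ico (2 ^ L) (2 ^ (L + 1)), W c C * fC c L C).coeff 0 =
      G * (c.coeff 1 / 2) := hm
  have hh0 : G / 4 ≤ G * (c.coeff 1 / 2) := by
    have : (1 : ℝ) / 4 ≤ c.coeff 1 / 2 := by linarith
    have h1 := mul_le_mul_of_nonneg_left this hG0.le
    linarith
  have hh1 : 0 < G * (c.coeff 1 / 2) := by linarith
  obtain ⟨g, F, hg1, hg2, hg3, hg4, hF, hfin⟩ := hW' K lam p (Finset.Ico (2 ^ L) (2 ^ (L + 1))) R
    (gL c L) (fC c L) (W c) L (fun i hi => (hcl i hi).1) (fun i hi => (hcl i hi).2) hinj hnd hp0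
    (fun x => sum_ev_W lam x hcs hb L) hL0 (fun i _ x => hS N lam x c hcs hb L i)
    (by rw [h0]; exact hh1) (by rw [hn]; exact hG0) ρ
  refine ⟨g, F, hg1, hg2, hg3, hg4, hF, ?_⟩
  intro i hi
  have h1 := hfin i hi
  rw [h0, hn] at h1
  set V := volume (closedBall (t i).1 (t i).2) with hV
  have hVpos : 0 < V := (measure_ball_pos volume _ (ht i)).trans_le (measure_mono ball_subset_closedBall)
  have hVfin : V < ⊤ := measure_closedBall_lt_top
  -- the proportion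
  have hprop : (1 : ℝ) / 32 ≤ G * (c.coeff 1 / 2) / (4 * L) := by
    rw [le_div_iff₀ (by positivity)]
    linarith
  have h2 : ENNReal.ofReal (1 / 40) * V < ENNReal.ofReal (G * (c.coeff 1 / 2) / (4 * L)) * V := by
    refine ENNReal.mul_lt_mul_left hVpos.ne' hVfin.ne ?_
    refine (ENNReal.ofReal_lt_ofReal_iff ?_).2 ?_
    · exact lt_of_lt_of_le (by norm_num) hprop
    · exact lt_of_lt_of_le (by norm_num) hprop
  refine lt_of_lt_of_le h2 (h1.trans (measure_mono ?_))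
  -- the level
  have hsq : 0 < √G := Real.sqrt_pos.2 hG0
  have hlev : M ≤ κ * (G * (c.coeff 1 / 2)) / √G := by
    have h3 : κ * (G / 4) / √G ≤ κ * (G * (c.coeff 1 / 2)) / √G :=
      div_le_div_of_nonneg_right (mul_le_mul_of_nonneg_left hh0 hκ.le) hsq.le
    refine le_trans ?_ h3
    have h4 : κ * (G / 4) / √G = κ / 4 * √G := by
      rw [div_eq_iff hsq.ne']
      have := Real.mul_self_sqrt hG0.le
      calc κ * (G / 4) = κ / 4 * G := by ring
        _ = κ / 4 * (√G * √G) := by rw [this]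
        _ = _ := by ring
    rw [h4]
    have h5 : 4 * (|M| / κ) ≤ √G := by
      refine Real.le_sqrt_of_sq_le ?_
      have h6 : (L1 : ℝ) + 1 ≤ L := by exact_mod_cast hL
      calc (4 * (|M| / κ)) ^ 2 = 32 * (|M| / κ) ^ 2 / 2 := by ring
        _ ≤ (L : ℝ) / 2 := by linarith
        _ ≤ G := hG
    have h7 : |M| ≤ κ / 4 * √G := by
      have h8 := mul_le_mul_of_nonneg_left h5 (show 0 ≤ κ / 4 by positivity)
      have h9 : κ / 4 * (4 * (|M| / κ)) = |M| := by field_simp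
      linarith
    exact (le_abs_self M).trans h7
  rintro x ⟨hx, r, hr, hI⟩
  exact ⟨hx, r, hr, hlev.trans_lt hI⟩

end Pool.Agent.H311.CB
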