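import Pool.Agent.H311.CB.Defs4

/-!
# (G10) Local limits order the frequencies of the tree (helper670, for helper311)
-/

set_option autoImplicit false

open MeasureTheory Metric Set Filter Topology
open scoped BigOperators ENNReal NNReal Pointwise

namespace Pool.Agent.H311.CB

open Pool.Agent.H311.PM

theorem lim1 (hP : S_poly) : S_lim1 := by
  intro k L hL
  have hL0 : 0 < (L : ℝ) := by exact_mod_cast hL
  obtain ⟨c, hc, hc1, hc2, hc3⟩ := hP (1 / L) (by positivity)
  have hcs : Sym c := hc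
  obtain ⟨K1, hK1⟩ := bound_exists (gL c L)
  obtain ⟨K2, hK2⟩ := bound_exists (∑ C ∈ Finset.Ico (2 ^ L) (2 ^ (L + 1)), W c C * fC c L C)
  obtain ⟨K0, hK⟩ : ∃ K0, K0 = K1 + K2 := ⟨_, rfl⟩
  refine ⟨K0, fun ψ Z hZ1 hZ2 K hlim => ?_⟩
  obtain ⟨p, T, R, hTinj, hRpos, hne, hin, hout⟩ := hlim
  -- the frequencies
  have hlam : ∀ v ∈ Finset.Ico 1 (2 ^ L), ∀ n : ℕ →₀ ℤ, (F c v).coeff n ≠ 0 →
      |(lamZ Z n) 2 + ψ ((lamZ Z n) 0) ((lamZ Z n) 1) - pos L v| ≤ 1 / 4 := by
    intro v hv n hn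
    have h1 := F_supp (Finset.mem_Ico.1 hv).1 hn
    have h2 : (gL c L).coeff n ≠ 0 := by
      rw [coeff_gL hv hn]
      exact hn
    have h3 : ∀ a, |n a| ≤ (K0 : ℤ) := fun a => (hK1 n h2 a).trans (by
      rw [hK]; push_cast; linarith [Int.natCast_nonneg K2])
    have h4 := hZ1 v (Finset.mem_Ico.1 hv).2 n h1.1 h1.2 h3
    rw [lamZ_eq Z (gL_low c L n h2)]
    exact h4
  -- finitely many conditions
  have E1 : ∀ᶠ j in atTop, ∀ i ∈ (Finset.Ico (2 ^ L) (2 ^ (L + 1)) : Finset ℕ),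
      0 < R j ((i : ℝ) + 1 / 2) := by
    rw [Filter.eventually_all_finset]
    exact fun i _ => hRpos _
  have E2 : ∀ᶠ j in atTop, ∀ i ∈ (Finset.Ico (2 ^ L) (2 ^ (L + 1)) : Finset ℕ),
      ∀ n ∈ (gL c L).coeff.support,
      ((fC c L i).coeff n = (gL c L).coeff n ∧
        p j + T j (lamZ Z n) ∈ interior (R j ((i : ℝ) + 1 / 2) • K)) ∨
      ((fC c L i).coeff n = 0 ∧
        p j + T j (lamZ Z n) ∈ interior (R j ((i : ℝ) + 1 / 2) • K)ᶜ) := by
    rw [Filter.eventually_all_finset]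
    intro i hi
    rw [Filter.eventually_all_finset]
    intro n hn
    have hg := Finsupp.mem_support_iff.1 hn
    obtain ⟨v, hv, hn'⟩ := exists_F hg
    have h1 := hlam v hv n hn'
    rw [abs_le] at h1
    rw [coeff_fC hv hn', coeff_gL hv hn']
    by_cases hp : pos L v ≤ i
    · rw [if_pos hp]
      have h2 : (pos L v : ℝ) ≤ i := by exact_mod_cast hp
      have h3 : (lamZ Z n) 2 + ψ ((lamZ Z n) 0) ((lamZ Z n) 1) < (i : ℝ) + 1 / 2 := by
        linarith [h1.2]
      filter_upwards [hin (lamZ Z n) _ h3] with j hj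
      exact Or.inl ⟨rfl, hj⟩
    · rw [if_neg hp]
      have h2 : (i : ℝ) + 1 ≤ (pos L v : ℝ) := by exact_mod_cast not_le.1 hp
      have h3 : (i : ℝ) + 1 / 2 < (lamZ Z n) 2 + ψ ((lamZ Z n) 0) ((lamZ Z n) 1) := by
        linarith [h1.1]
      filter_upwards [hout (lamZ Z n) _ h3] with j hj
      exact Or.inr ⟨rfl, hj⟩
  have E3 : ∀ᶠ j in atTop, ∀ n ∈ (gL c L).coeff.support, p j + T j (lamZ Z n) ≠ 0 := by
    rw [Filter.eventually_all_finset]
    exact fun n _ => hne _
  obtain ⟨j, h1, h2, h3⟩ := (E1.and (E2.and E3)).exists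
  refine ⟨c, (T j).toAddMonoidHom.comp (lamZ Z), p j, fun i => R j ((i : ℝ) + 1 / 2), hcs, hc1,
    hc2, hc3, ?_, ?_, ?_, ?_⟩
  · intro i hi
    refine ⟨h1 i hi, fun n => ?_⟩
    by_cases hg : (gL c L).coeff n = 0
    · exact Or.inr (Or.inr ⟨fC_zero hg, hg⟩)
    · rcases h2 i hi n (Finsupp.mem_support_iff.2 hg) with h | h
      · exact Or.inl h
      · exact Or.inr (Or.inl h)
  · -- injectivity
    intro n hn m hm h
    have h0 : lamZ Z n = lamZ Z m := hTinj j h
    have hn' := Finsupp.mem_support_iff.1 hn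
    have hm' := Finsupp.mem_support_iff.1 hm
    have h1 : lamZ Z (n - m) = 0 := by rw [map_sub, h0, sub_self]
    have hlow : ∀ w, 2 ^ L ≤ w → (n - m) w = 0 := by
      intro w hw
      rw [Finsupp.sub_apply, gL_low c L n hn' w hw, gL_low c L m hm' w hw, sub_zero]
    rw [lamZ_eq Z hlow] at h1
    have h2 := hZ2 (n - m) (fun a => ?_) h1
    · ext a
      by_cases ha : a < 2 ^ L
      · have := h2 a ha
        rw [Pi.sub_apply] at this
        omega
      · rw [gL_low c L n hn' a (not_lt.1 ha), gL_low c L m hm' a (not_lt.1 ha)]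
    · rw [Pi.sub_apply]
      have h3 := hK1 n hn' a
      have h4 := hK1 m hm' a
      rw [abs_le] at h3 h4 ⊢
      have : (K0 : ℤ) = K1 + K2 := by rw [hK]; push_cast; ring
      have := Int.natCast_nonneg K2
      constructor <;> linarith [h3.1, h3.2, h4.1, h4.2]
  · -- non-degeneracy
    intro n hn h
    have h0 : lamZ Z n = 0 := by
      apply hTinj j
      rw [map_zero]
      exact h
    have hn' := Finsupp.mem_support_iff.1 hn
    have hlow : ∀ w, 2 ^ L ≤ w → n w = 0 := h_low c L n hn'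
    rw [lamZ_eq Z hlow] at h0
    have h2 := hZ2 n (fun a => ?_) h0
    · ext a
      by_cases ha : a < 2 ^ L
      · exact h2 a ha
      · exact hlow a (not_lt.1 ha)
    · have h3 := hK2 n hn' a
      have : (K0 : ℤ) = K1 + K2 := by rw [hK]; push_cast; ring
      have h5 := Int.natCast_nonneg K1
      have h6 := Int.natCast_nonneg K2
      linarith
  · exact h3

end Pool.Agent.H311.CB
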