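import Pool.Agent.H311.CB.Defs2

/-!
# Blow-up at a vertex
-/

set_option autoImplicit false

open MeasureTheory Metric Set Filter Topology
open scoped ENNReal NNReal Real RealInnerProductSpace ContDiff Pointwise

namespace Pool.Agent.H311.CB

open Pool.Agent.H311.PM

/-- two linear maps onto the same space differ by a linear automorphism -/
theorem blowv_iso {V W : Type*} [AddCommGroup V] [Module ℝ V] [FiniteDimensional ℝ V]
    [AddCommGroup W] [Module ℝ W] [FiniteDimensional ℝ W] (L P : V →ₗ[ℝ] W)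
    (hL : Function.Surjective L) (hP : Function.Surjective P) :
    ∃ T : V ≃ₗ[ℝ] V, ∀ x, L (T x) = P x := by
  obtain ⟨s, hs⟩ := L.exists_rightInverse_of_surjective (LinearMap.range_eq_top.2 hL)
  obtain ⟨t, ht⟩ := P.exists_rightInverse_of_surjective (LinearMap.range_eq_top.2 hP)
  have hs' : ∀ w, L (s w) = w := fun w => LinearMap.congr_fun hs w
  have ht' : ∀ w, P (t w) = w := fun w => LinearMap.congr_fun ht w
  have hf : Module.finrank ℝ (LinearMap.ker P) = Module.finrank ℝ (LinearMap.ker L) := by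
    have h1 := LinearMap.finrank_range_add_finrank_ker L
    have h2 := LinearMap.finrank_range_add_finrank_ker P
    rw [LinearMap.range_eq_top.2 hL] at h1
    rw [LinearMap.range_eq_top.2 hP] at h2
    omega
  let e : LinearMap.ker P ≃ₗ[ℝ] LinearMap.ker L := LinearEquiv.ofFinrankEq _ _ hf
  let pr : V →ₗ[ℝ] LinearMap.ker P :=
    LinearMap.codRestrict (LinearMap.ker P) (LinearMap.id - t ∘ₗ P) (by
      intro x
      rw [LinearMap.mem_ker]
      simp [ht'])
  let T : V →ₗ[ℝ] V := (LinearMap.ker L).subtype ∘ₗ (e : LinearMap.ker P →ₗ[ℝ] LinearMap.ker L) ∘ₗ pr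
    + s ∘ₗ P
  have hT : ∀ x, T x = (e (pr x) : V) + s (P x) := fun x => rfl
  have hLT : ∀ x, L (T x) = P x := by
    intro x
    rw [hT, map_add, hs', LinearMap.mem_ker.1 (e (pr x)).2, zero_add]
  have hinj : Function.Injective T := by
    rw [← LinearMap.ker_eq_bot, LinearMap.ker_eq_bot']
    intro x hx
    have h1 : P x = 0 := by rw [← hLT, hx, map_zero]
    have h2 : (e (pr x) : V) = 0 := by
      have := hT x
      rw [hx, h1, map_zero, add_zero] at this
      exact this.symm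
    have h3 : e (pr x) = 0 := Subtype.ext h2
    have h4 : pr x = 0 := by
      rw [← e.symm_apply_apply (pr x), h3, map_zero]
    have h5 : (pr x : V) = x - t (P x) := rfl
    rw [h4, h1, map_zero, sub_zero] at h5
    exact h5.symm
  refine ⟨LinearEquiv.ofInjectiveEndo T hinj, fun x => ?_⟩
  rw [LinearEquiv.coe_ofInjectiveEndo]
  exact hLT x

/-- linearly independent functionals give a map onto `ℝ³` -/
theorem blowv_surj {V : Type*} [AddCommGroup V] [Module ℝ V] [TopologicalSpace V]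
    (a b l : V →L[ℝ] ℝ) (h : LinearIndependent ℝ ![a, b, l]) :
    Function.Surjective (LinearMap.pi ![(a : V →ₗ[ℝ] ℝ), (b : V →ₗ[ℝ] ℝ), (l : V →ₗ[ℝ] ℝ)]) := by
  set L := LinearMap.pi ![(a : V →ₗ[ℝ] ℝ), (b : V →ₗ[ℝ] ℝ), (l : V →ₗ[ℝ] ℝ)] with hL
  by_contra hns
  rw [← LinearMap.range_eq_top, ← Ne, ← lt_top_iff_ne_top] at hns
  obtain ⟨φ, φ0, hφ⟩ := (LinearMap.range L).exists_le_ker_of_lt_top hns
  apply φ0
  have h1 : ∀ x : Fin 3 → ℝ, φ x = ∑ i, x i * φ (Pi.single i 1) := by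
    intro x
    conv_lhs => rw [pi_eq_sum_univ' x]
    rw [map_sum]
    refine Finset.sum_congr rfl fun i _ => ?_
    rw [map_smul, smul_eq_mul]
  have h2 : ∀ x : V, φ (L x) = 0 := fun x => hφ ⟨x, rfl⟩
  rw [Fintype.linearIndependent_iff] at h
  have h3 := h (fun i => φ (Pi.single i 1)) (by
    ext x
    have h4 := h2 x
    rw [h1] at h4
    simp only [Fin.sum_univ_three] at h4 ⊢
    have g0 : L x 0 = a x := rfl
    have g1 : L x 1 = b x := rfl
    have g2 : L x 2 = l x := rfl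
    have k0 : (![a, b, l] : Fin 3 → (V →L[ℝ] ℝ)) 0 = a := rfl
    have k1 : (![a, b, l] : Fin 3 → (V →L[ℝ] ℝ)) 1 = b := rfl
    have k2 : (![a, b, l] : Fin 3 → (V →L[ℝ] ℝ)) 2 = l := rfl
    rw [g0, g1, g2] at h4
    rw [k0, k1, k2]
    simp only [_root_.add_apply, _root_.smul_apply, smul_eq_mul, _root_.zero_apply]
    linarith)
  refine LinearMap.ext fun x => ?_
  rw [h1]
  simp [h3]

theorem blowv_cont {ψ : ℝ → ℝ → ℝ} (hψ : Sublin ψ) : Continuous fun z : ℝ × ℝ => ψ z.1 z.2 := by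
  obtain ⟨M, hM⟩ := hψ.bdd
  have h1 : ∀ x y x' y', ψ x y - ψ x' y' ≤ M * (|x - x'| + |y - y'|) := by
    intro x y x' y'
    have h2 := hψ.sub (x - x') (y - y') x' y'
    rw [sub_add_cancel, sub_add_cancel] at h2
    have h3 := (abs_le.1 (hM (x - x') (y - y'))).2
    linarith
  have h2 : ∀ z w : ℝ × ℝ, ‖ψ z.1 z.2 - ψ w.1 w.2‖ ≤ M * (|z.1 - w.1| + |z.2 - w.2|) := by
    intro z w
    rw [Real.norm_eq_abs, abs_le]
    constructor
    · have := h1 w.1 w.2 z.1 z.2
      rw [abs_sub_comm w.1, abs_sub_comm w.2] at this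
      linarith
    · exact h1 _ _ _ _
  rw [continuous_iff_continuousAt]
  intro w
  have h3 : Tendsto (fun z : ℝ × ℝ => M * (|z.1 - w.1| + |z.2 - w.2|)) (𝓝 w) (𝓝 0) := by
    have h4 : Continuous fun z : ℝ × ℝ => M * (|z.1 - w.1| + |z.2 - w.2|) := by fun_prop
    have := h4.tendsto w
    simpa using this
  exact tendsto_iff_norm_sub_tendsto_zero.2
    (squeeze_zero (fun _ => norm_nonneg _) (fun z => h2 z w) h3)

theorem blowv : S_blow := by
  intro k ψ hψ K' hKm p l a b hl ha hb hind hloc C h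
  -- the linear isomorphism
  obtain ⟨T, hTa, hTb, hTl⟩ : ∃ T : E (k + 3) ≃ₗ[ℝ] E (k + 3),
      (∀ ζ, a (T ζ) = ζ 0) ∧ (∀ ζ, b (T ζ) = ζ 1) ∧ (∀ ζ, l (T ζ) = ζ 2) := by
    let P : E (k + 3) →ₗ[ℝ] (Fin 3 → ℝ) :=
      { toFun := fun ζ => ![ζ 0, ζ 1, ζ 2]
        map_add' := fun x y => by ext i; fin_cases i <;> simp
        map_smul' := fun c x => by ext i; fin_cases i <;> simp }
    have hP : Function.Surjective P := by
      intro y
      have w1 : 1 < k + 3 := by omega
      have w2 : 2 < k + 3 := by omega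
      have v1 : ((1 : Fin (k + 3)) : ℕ) = 1 := Nat.mod_eq_of_lt w1
      have v2 : ((2 : Fin (k + 3)) : ℕ) = 2 := Nat.mod_eq_of_lt w2
      have v0 : ((0 : Fin (k + 3)) : ℕ) = 0 := rfl
      have h01 : (0 : Fin (k + 3)) ≠ 1 := by
        intro hh
        have := congrArg Fin.val hh
        omega
      have h02 : (0 : Fin (k + 3)) ≠ 2 := by
        intro hh
        have := congrArg Fin.val hh
        omega
      have h12 : (1 : Fin (k + 3)) ≠ 2 := by
        intro hh
        have := congrArg Fin.val hh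
        omega
      refine ⟨WithLp.toLp 2 fun i => if i = 0 then y 0 else if i = 1 then y 1 else y 2, ?_⟩
      ext i
      fin_cases i
      · simp [P]
      · simp [P, h01.symm]
      · simp [P, h02.symm, h12.symm]
    obtain ⟨T, hT⟩ := blowv_iso _ P (blowv_surj a b l hind) hP
    refine ⟨T, fun ζ => ?_, fun ζ => ?_, fun ζ => ?_⟩
    · exact congrFun (hT ζ) 0
    · exact congrFun (hT ζ) 1
    · exact congrFun (hT ζ) 2
  set δ : ℕ → ℝ := fun j => 1 / ((j : ℝ) + 1) with hδ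
  have hδp : ∀ j, 0 < δ j := fun j => by
    show (0 : ℝ) < 1 / ((j : ℝ) + 1)
    positivity
  have hδ0 : ∀ j, δ j ≠ 0 := fun j => (hδp j).ne'
  have hδt : Tendsto δ atTop (𝓝 0) := tendsto_one_div_add_atTop_nhds_zero_nat
  classical
  let φ : ℕ → ℝ → {R : ℝ // 0 < R} := fun j r =>
    if h : 0 < 1 + δ j * (r / l p) then ⟨_, h⟩ else ⟨1, one_pos⟩
  have hmeas : ∀ (j : ℕ) (r : ℝ), MeasurableSet {ζ : E (k + 3) | p + ζ ∈ (φ j r : ℝ) • K'} :=
    fun j r => (measurable_const_add p) (hKm.const_smul₀ _)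
  let S : ℕ → (E (k + 3) ≃ₗ[ℝ] E (k + 3)) := fun j => T.trans (LinearEquiv.smulOfNeZero ℝ _ (δ j) (hδ0 j))
  have hS : ∀ j ζ, S j ζ = δ j • T ζ := fun j ζ => rfl
  have hB : ∀ j, FM (fun r : ℝ => {ζ : E (k + 3) | S j ζ ∈ {ζ | p + ζ ∈ (φ j r : ℝ) • K'}}) C := by
    intro j
    exact ((h.comp (φ j)).translate p).linear (hmeas j) _
  have hcont : Continuous fun ζ : E (k + 3) => ζ 2 + ψ (ζ 0) (ζ 1) := by
    have h1 : Continuous fun ζ : E (k + 3) => ((ζ 0 : ℝ), (ζ 1 : ℝ)) := by fun_prop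
    have h2 : Continuous fun ζ : E (k + 3) => (ζ 2 : ℝ) := by fun_prop
    exact h2.add ((blowv_cont hψ).comp h1)
  refine FM.of_tendsto (fun j r => ?_) (fun r => hcont.measurable measurableSet_Iic) hB fun r => ?_
  · exact (LinearMap.continuous_of_finiteDimensional
      (S j : E (k + 3) →ₗ[ℝ] E (k + 3))).measurable (hmeas j r)
  · refine Eventually.of_forall fun ζ => ?_
    have hR1 : Tendsto (fun j => 1 + δ j * (r / l p)) atTop (𝓝 1) := by
      have := (hδt.mul_const (r / l p)).const_add 1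
      simpa using this
    have hx : Tendsto (fun j => (1 + δ j * (r / l p))⁻¹ • (p + δ j • T ζ)) atTop (𝓝 p) := by
      have h1 : Tendsto (fun j => p + δ j • T ζ) atTop (𝓝 p) := by
        have := (hδt.smul_const (T ζ)).const_add p
        simpa using this
      have h2 := (hR1.inv₀ one_ne_zero).smul h1
      simpa using h2
    filter_upwards [hx.eventually hloc, hR1.eventually_const_lt zero_lt_one] with j hj hRj
    set R : ℝ := 1 + δ j * (r / l p) with hR
    have hφ : (φ j r : ℝ) = R := by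
      simp only [φ]
      rw [dif_pos hRj]
    show p + S j ζ ∈ (φ j r : ℝ) • K' ↔ ζ 2 + ψ (ζ 0) (ζ 1) ≤ r
    rw [hφ, hS, Set.mem_smul_set_iff_inv_smul_mem₀ hRj.ne', hj]
    have e1 : l (R⁻¹ • (p + δ j • T ζ) - p) = R⁻¹ * δ j * (ζ 2 - r) := by
      simp only [map_sub, map_smul, map_add, smul_eq_mul, hTl]
      have : R * l p = l p + δ j * r := by
        rw [hR]
        field_simp
      have h3 : l p = R⁻¹ * (l p + δ j * r) := by
        rw [← this, ← mul_assoc, inv_mul_cancel₀ hRj.ne', one_mul]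
      linear_combination (-1 : ℝ) * h3
    have e2 : a (R⁻¹ • (p + δ j • T ζ)) = R⁻¹ * δ j * ζ 0 := by
      simp only [map_smul, map_add, smul_eq_mul, hTa, ha]
      ring
    have e3 : b (R⁻¹ • (p + δ j • T ζ)) = R⁻¹ * δ j * ζ 1 := by
      simp only [map_smul, map_add, smul_eq_mul, hTb, hb]
      ring
    have hpos : 0 < R⁻¹ * δ j := mul_pos (inv_pos.2 hRj) (hδp j)
    rw [e1, e2, e3, hψ.hom _ hpos.le]
    rw [show R⁻¹ * δ j * (ζ 2 - r) + R⁻¹ * δ j * ψ (ζ 0) (ζ 1) =
      R⁻¹ * δ j * (ζ 2 + ψ (ζ 0) (ζ 1) - r) by ring]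
    rw [mul_nonpos_iff_pos_imp_nonpos] 
    constructor
    · intro h1
      have := h1.1 hpos
      linarith
    · intro h1
      exact ⟨fun _ => by linarith, fun _ => hpos.le⟩

end Pool.Agent.H311.CB
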