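import Pool.Agent.H311.CB.Defs4
import Pool.Agent.H311.CB.BlowV

/-!
# A vertex gives `LocLim`
-/

set_option autoImplicit false

open MeasureTheory Metric Set Filter Topology
open scoped ENNReal NNReal Real RealInnerProductSpace ContDiff Pointwise

namespace Pool.Agent.H311.CB

open Pool.Agent.H311.PM

/-- the linear isomorphism -/
theorem lim2_iso {k : ℕ} (a b l : E (k + 3) →L[ℝ] ℝ) (hind : LinearIndependent ℝ ![a, b, l]) :
    ∃ T : E (k + 3) ≃ₗ[ℝ] E (k + 3),
      (∀ ζ, a (T ζ) = ζ 0) ∧ (∀ ζ, b (T ζ) = ζ 1) ∧ (∀ ζ, l (T ζ) = ζ 2) := by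
  let P : E (k + 3) →ₗ[ℝ] (Fin 3 → ℝ) :=
    { toFun := fun ζ => ![ζ 0, ζ 1, ζ 2]
      map_add' := fun x y => by ext i; fin_cases i <;> simp
      map_smul' := fun c x => by ext i; fin_cases i <;> simp }
  have hP : Function.Surjective P := by
    intro y
    have w1 : 1 < k + 3 := by omega
    have w2 : 2 < k + 3 := by omega
    have v1 : ((1 : Fin (k + 3)) : ℕ) = 1 := Nat.mod_eq_of_lt w1
    have v2 : ((2 : Fin (k + 3)) : ℕ) = 2 := Nat.mod_eq_of_lt w2
    have v0 : ((0 : Fin (k + 3)) : ℕ) = 0 := rfl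
    have h01 : (0 : Fin (k + 3)) ≠ 1 := by
      intro hh
      have := congrArg Fin.val hh
      omega
    have h02 : (0 : Fin (k + 3)) ≠ 2 := by
      intro hh
      have := congrArg Fin.val hh
      omega
    have h12 : (1 : Fin (k + 3)) ≠ 2 := by
      intro hh
      have := congrArg Fin.val hh
      omega
    refine ⟨WithLp.toLp 2 fun i => if i = 0 then y 0 else if i = 1 then y 1 else y 2, ?_⟩
    ext i
    fin_cases i
    · simp [P]
    · simp [P, h01.symm]
    · simp [P, h02.symm, h12.symm]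
  obtain ⟨T, hT⟩ := blowv_iso _ P (blowv_surj a b l hind) hP
  refine ⟨T, fun ζ => ?_, fun ζ => ?_, fun ζ => ?_⟩
  · exact congrFun (hT ζ) 0
  · exact congrFun (hT ζ) 1
  · exact congrFun (hT ζ) 2

theorem lim2 : S_lim2 := by
  intro k ψ hψ K' p l a b hl ha hb hind hloc
  obtain ⟨T, hTa, hTb, hTl⟩ := lim2_iso a b l hind
  obtain ⟨δ, hδ⟩ : ∃ δ : ℕ → ℝ, δ = fun j : ℕ => 1 / ((j : ℝ) + 1) := ⟨_, rfl⟩
  have hδp : ∀ j, 0 < δ j := fun j => by
    rw [hδ]
    show (0 : ℝ) < 1 / ((j : ℝ) + 1)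
    positivity
  have hδ0 : ∀ j, δ j ≠ 0 := fun j => (hδp j).ne'
  have hδt : Tendsto δ atTop (𝓝 0) := by
    rw [hδ]
    exact tendsto_one_div_add_atTop_nhds_zero_nat
  have hR1 : ∀ r : ℝ, Tendsto (fun j => 1 + δ j * (r / l p)) atTop (𝓝 1) := by
    intro r
    have := (hδt.mul_const (r / l p)).const_add 1
    simpa using this
  have hR0 : ∀ r : ℝ, ∀ᶠ j in atTop, 0 < 1 + δ j * (r / l p) := fun r =>
    (hR1 r).eventually_const_lt zero_lt_one
  have hx1 : ∀ ζ, Tendsto (fun j => p + δ j • T ζ) atTop (𝓝 p) := by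
    intro ζ
    have := (hδt.smul_const (T ζ)).const_add p
    simpa using this
  have hp0 : p ≠ 0 := by
    intro h
    rw [h, map_zero] at hl
    exact hl rfl
  -- the local description at the points near `p`
  have hloc2 := eventually_eventually_nhds.2 hloc
  have hcont : Continuous fun x : E (k + 3) => l (x - p) + ψ (a x) (b x) := by
    have h1 : Continuous fun x : E (k + 3) => ((a x : ℝ), (b x : ℝ)) :=
      a.continuous.prodMk b.continuous
    have h2 : Continuous fun x : E (k + 3) => l (x - p) := l.continuous.comp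
      (continuous_id.sub continuous_const)
    exact h2.add ((blowv_cont hψ).comp h1)
  have key : ∀ (ζ : E (k + 3)) (r : ℝ), ∀ᶠ j in atTop, 0 < 1 + δ j * (r / l p) ∧
      (∀ᶠ y in 𝓝 ((1 + δ j * (r / l p))⁻¹ • (p + δ j • T ζ)),
        (y ∈ K' ↔ l (y - p) + ψ (a y) (b y) ≤ 0)) ∧
      l ((1 + δ j * (r / l p))⁻¹ • (p + δ j • T ζ) - p) +
        ψ (a ((1 + δ j * (r / l p))⁻¹ • (p + δ j • T ζ)))
          (b ((1 + δ j * (r / l p))⁻¹ • (p + δ j • T ζ))) =
        (1 + δ j * (r / l p))⁻¹ * δ j * (ζ 2 + ψ (ζ 0) (ζ 1) - r) := by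
    intro ζ r
    have hx : Tendsto (fun j => (1 + δ j * (r / l p))⁻¹ • (p + δ j • T ζ)) atTop (𝓝 p) := by
      have h2 := ((hR1 r).inv₀ one_ne_zero).smul (hx1 ζ)
      simpa using h2
    filter_upwards [hx.eventually hloc2, hR0 r] with j hj hRj
    refine ⟨hRj, hj, ?_⟩
    obtain ⟨R, hR⟩ : ∃ R : ℝ, R = 1 + δ j * (r / l p) := ⟨_, rfl⟩
    rw [← hR] at hRj ⊢
    have e1 : l (R⁻¹ • (p + δ j • T ζ) - p) = R⁻¹ * δ j * (ζ 2 - r) := by
      simp only [map_sub, map_smul, map_add, smul_eq_mul, hTl]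
      have : R * l p = l p + δ j * r := by
        rw [hR]
        field_simp
      have h3 : l p = R⁻¹ * (l p + δ j * r) := by
        rw [← this, ← mul_assoc, inv_mul_cancel₀ hRj.ne', one_mul]
      linear_combination (-1 : ℝ) * h3
    have e2 : a (R⁻¹ • (p + δ j • T ζ)) = R⁻¹ * δ j * ζ 0 := by
      simp only [map_smul, map_add, smul_eq_mul, hTa, ha]
      ring
    have e3 : b (R⁻¹ • (p + δ j • T ζ)) = R⁻¹ * δ j * ζ 1 := by
      simp only [map_smul, map_add, smul_eq_mul, hTb, hb]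
      ring
    have hpos : 0 < R⁻¹ * δ j := mul_pos (inv_pos.2 hRj) (hδp j)
    rw [e1, e2, e3, hψ.hom _ hpos.le]
    ring
  refine ⟨fun _ => p, fun j => δ j • (T : E (k + 3) →ₗ[ℝ] E (k + 3)),
    fun j r => 1 + δ j * (r / l p), fun j => ?_, hR0, fun ζ => ?_, fun ζ r hr => ?_,
    fun ζ r hr => ?_⟩
  · intro x y hxy
    have h1 : δ j • T x = δ j • T y := hxy
    exact T.injective (smul_right_injective _ (hδ0 j) h1)
  · exact (hx1 ζ).eventually_ne hp0
  · filter_upwards [key ζ r] with j hj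
    obtain ⟨hRj, hj2, hj3⟩ := hj
    show p + δ j • T ζ ∈ interior ((1 + δ j * (r / l p)) • K')
    rw [mem_interior_iff_mem_nhds]
    have hc : Tendsto (fun y : E (k + 3) => (1 + δ j * (r / l p))⁻¹ • y) (𝓝 (p + δ j • T ζ))
        (𝓝 ((1 + δ j * (r / l p))⁻¹ • (p + δ j • T ζ))) :=
      (continuous_const_smul ((1 + δ j * (r / l p))⁻¹)).tendsto _
    have hneg : ∀ᶠ y in 𝓝 ((1 + δ j * (r / l p))⁻¹ • (p + δ j • T ζ)),
        l (y - p) + ψ (a y) (b y) < 0 := by
      refine hcont.continuousAt.eventually_lt_const ?_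
      exact hj3.trans_lt (mul_neg_of_pos_of_neg (mul_pos (inv_pos.2 hRj) (hδp j)) (by linarith))
    filter_upwards [hc.eventually hj2, hc.eventually hneg] with y hy1 hy2
    rw [Set.mem_smul_set_iff_inv_smul_mem₀ hRj.ne', hy1]
    exact hy2.le
  · filter_upwards [key ζ r] with j hj
    obtain ⟨hRj, hj2, hj3⟩ := hj
    show p + δ j • T ζ ∈ interior ((1 + δ j * (r / l p)) • K')ᶜ
    rw [mem_interior_iff_mem_nhds]
    have hc : Tendsto (fun y : E (k + 3) => (1 + δ j * (r / l p))⁻¹ • y) (𝓝 (p + δ j • T ζ))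
        (𝓝 ((1 + δ j * (r / l p))⁻¹ • (p + δ j • T ζ))) :=
      (continuous_const_smul ((1 + δ j * (r / l p))⁻¹)).tendsto _
    have hpos : ∀ᶠ y in 𝓝 ((1 + δ j * (r / l p))⁻¹ • (p + δ j • T ζ)),
        0 < l (y - p) + ψ (a y) (b y) := by
      refine hcont.continuousAt.eventually_const_lt ?_
      exact (mul_pos (mul_pos (inv_pos.2 hRj) (hδp j)) (by linarith)).trans_eq hj3.symm
    filter_upwards [hc.eventually hj2, hc.eventually hpos] with y hy1 hy2
    rw [Set.mem_compl_iff, Set.mem_smul_set_iff_inv_smul_mem₀ hRj.ne', hy1]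
    exact not_le.2 hy2

end Pool.Agent.H311.CB
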