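import Pool.Agent.H311.CB.Defs4

/-!
# A smooth body with blow-up `ψ` has `LocLim` (G12)
-/

set_option autoImplicit false

open MeasureTheory Metric Set Filter Topology
open scoped ENNReal NNReal Real RealInnerProductSpace ContDiff Pointwise

namespace Pool.Agent.H311.CB

open Pool.Agent.H311.PM

theorem lim3_theta_cont {k : ℕ} {Φ : ℝ × ℝ → ℝ} (hΦ : Continuous Φ) :
    Continuous fun ζ : E (k + 3) => theta Φ ζ := by
  unfold theta
  fun_prop

theorem lim3 : S_lim3 := by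
  intro k ψ hψ Φ hΦ h0 hbl
  obtain ⟨ξ, s, e, hξ, hs, he, hq, hb⟩ := blow2_shift hΦ h0 hbl
  have hΦξ : Tendsto (fun j => Φ (ξ j)) atTop (𝓝 (Φ 0)) := (hΦ.tendsto 0).comp hξ
  have hs0 : ∀ j, 0 < s j := fun j => (he j).1.trans_le (he j).2
  have het : Tendsto e atTop (𝓝 0) :=
    squeeze_zero (fun j => (he j).1.le) (fun j => (he j).2) hs
  obtain ⟨q, hqdef⟩ : ∃ q : ℕ → ℝ, q = fun j => 1 - Φ (ξ j) := ⟨_, rfl⟩
  have hq0 : ∀ j, 0 < q j := fun j => by
    rw [hqdef]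
    have := hq j
    simp only
    linarith
  have hqt : Tendsto q atTop (𝓝 (1 - Φ 0)) := by
    rw [hqdef]
    exact hΦξ.const_sub 1
  have hQ0 : (0 : ℝ) < 1 - Φ 0 := by linarith
  obtain ⟨z, hzdef⟩ : ∃ z : ℕ → ℝ, z = fun j => √(q j) := ⟨_, rfl⟩
  have hz0 : ∀ j, 0 < z j := fun j => by
    rw [hzdef]
    exact Real.sqrt_pos.2 (hq0 j)
  have hz2 : ∀ j, z j ^ 2 = q j := fun j => by
    rw [hzdef]
    exact Real.sq_sqrt (hq0 j).le
  obtain ⟨om, homdef⟩ : ∃ om : ℕ → ℝ, om = fun j => e j / (2 * q j) := ⟨_, rfl⟩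
  have hom0 : ∀ j, 0 < om j := fun j => by
    rw [homdef]
    have h1 := (he j).1
    have h2 := hq0 j
    simp only
    positivity
  have hom2 : ∀ j, om j * (2 * z j ^ 2) = e j := fun j => by
    rw [hz2, homdef]
    have h2 := hq0 j
    simp only
    field_simp
  have homt : Tendsto om atTop (𝓝 0) := by
    rw [homdef]
    have h1 : Tendsto (fun j => 2 * q j) atTop (𝓝 (2 * (1 - Φ 0))) := hqt.const_mul 2
    have h2 := het.div h1 (by positivity)
    rw [zero_div] at h2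
    exact h2
  obtain ⟨T, hTdef⟩ : ∃ T : ℕ → (E (k + 3) →ₗ[ℝ] E (k + 3)), T = fun j =>
      blow2_map k (s j) (om j * (ξ j).1) (om j * (ξ j).2) (om j * z j) (e j) := ⟨_, rfl⟩
  obtain ⟨p, hpdef⟩ : ∃ p : ℕ → E (k + 3), p = fun j => blow2_pt k (ξ j) (z j) := ⟨_, rfl⟩
  have hRt : ∀ r : ℝ, Tendsto (fun j => 1 + om j * r) atTop (𝓝 1) := by
    intro r
    have := (homt.mul_const r).const_add 1
    simpa using this
  have key : ∀ (ζ : E (k + 3)) (r : ℝ),
      Tendsto (fun j => (theta Φ ((1 + om j * r)⁻¹ • (p j + T j ζ)) - 1) / e j) atTop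
        (𝓝 (ζ 2 + ψ (ζ 0) (ζ 1) - r)) := by
    intro ζ r
    have hRt := hRt r
    obtain ⟨ρ, hρdef⟩ : ∃ ρ : ℕ → ℝ, ρ = fun j => (1 + om j * r)⁻¹ := ⟨_, rfl⟩
    have hρt : Tendsto ρ atTop (𝓝 1) := by
      rw [hρdef]
      have := hRt.inv₀ one_ne_zero
      simpa using this
    obtain ⟨τ, hτdef⟩ : ∃ τ : ℕ → ℝ, τ = fun j => ρ j * om j * (ζ 2 - r) / s j := ⟨_, rfl⟩
    have hτb : ∀ j, |τ j| ≤ |ρ j| * |ζ 2 - r| / (2 * q j) := by
      intro j
      have h1 := (he j).1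
      have h2 := hq0 j
      have h3 := hs0 j
      rw [hτdef]
      simp only
      rw [abs_div, abs_mul, abs_mul, abs_of_pos h3, abs_of_pos (hom0 j)]
      have h4 : |ρ j| * om j * |ζ 2 - r| / s j = |ρ j| * |ζ 2 - r| / (2 * q j) * (e j / s j) := by
        rw [homdef]
        field_simp
      rw [h4]
      have h5 : e j / s j ≤ 1 := by
        rw [div_le_one h3]
        exact (he j).2
      have h6 : 0 ≤ |ρ j| * |ζ 2 - r| / (2 * q j) := by positivity
      calc _ ≤ |ρ j| * |ζ 2 - r| / (2 * q j) * 1 := mul_le_mul_of_nonneg_left h5 h6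
        _ = _ := mul_one _
    have hbt : Tendsto (fun j => |ρ j| * |ζ 2 - r| / (2 * q j)) atTop
        (𝓝 (|1| * |ζ 2 - r| / (2 * (1 - Φ 0)))) :=
      ((hρt.abs.mul_const _).div (hqt.const_mul 2) (by positivity))
    have hξ1 : Tendsto (fun j => (ξ j).1) atTop (𝓝 0) :=
      (continuous_fst.tendsto (0 : ℝ × ℝ)).comp hξ
    have hξ2 : Tendsto (fun j => (ξ j).2) atTop (𝓝 0) :=
      (continuous_snd.tendsto (0 : ℝ × ℝ)).comp hξ
    have hτ : ∀ y : ℕ → ℝ, Tendsto y atTop (𝓝 0) → Tendsto (fun j => τ j * y j) atTop (𝓝 0) := by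
      intro y hy
      have h1 : Tendsto (fun j => |ρ j| * |ζ 2 - r| / (2 * q j) * |y j|) atTop (𝓝 0) := by
        have h2 := hbt.mul hy.abs
        simpa using h2
      refine squeeze_zero_norm (fun j => ?_) h1
      rw [Real.norm_eq_abs, abs_mul]
      exact mul_le_mul_of_nonneg_right (hτb j) (abs_nonneg _)
    obtain ⟨u, hudef⟩ : ∃ u : ℕ → ℝ × ℝ, u = fun j =>
      (ρ j * ζ 0 + τ j * (ξ j).1, ρ j * ζ 1 + τ j * (ξ j).2) := ⟨_, rfl⟩
    have hut : Tendsto u atTop (𝓝 (ζ 0, ζ 1)) := by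
      rw [hudef]
      refine Tendsto.prodMk_nhds ?_ ?_
      · have := (hρt.mul_const (ζ 0)).add (hτ _ hξ1)
        simpa using this
      · have := (hρt.mul_const (ζ 1)).add (hτ _ hξ2)
        simpa using this
    have hψt : Tendsto (fun j => ψ (u j).1 (u j).2) atTop (𝓝 (ψ (ζ 0) (ζ 1))) :=
      ((blow2_cont hψ).tendsto (ζ 0, ζ 1)).comp hut
    have hat : Tendsto (fun j => (Φ (ξ j + s j • u j) - Φ (ξ j) - e j * ψ (u j).1 (u j).2) / e j)
        atTop (𝓝 0) := by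
      rw [Metric.tendsto_nhds]
      intro η hη
      have h1 : ∀ᶠ j in atTop, ‖u j‖ ≤ ‖((ζ 0, ζ 1) : ℝ × ℝ)‖ + 1 := by
        have h2 : Tendsto (fun j => ‖u j‖) atTop (𝓝 ‖((ζ 0, ζ 1) : ℝ × ℝ)‖) := hut.norm
        filter_upwards [h2.eventually_lt_const (lt_add_one _)] with j hj using hj.le
      filter_upwards [h1, hb (‖((ζ 0, ζ 1) : ℝ × ℝ)‖ + 1) (η / 2) (half_pos hη)] with j h2 h3
      have h4 := h3 (u j) h2
      have h5 := (he j).1
      rw [dist_zero_right, Real.norm_eq_abs, abs_div, abs_of_pos h5, div_lt_iff₀ h5]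
      have h6 : η / 2 * e j < η * e j := mul_lt_mul_of_pos_right (half_lt_self hη) h5
      exact h4.trans_lt h6
    have hdt : Tendsto (fun j => e j * (ρ j ^ 2 * ((ζ 2 - r) ^ 2 / (4 * q j) +
        ∑ i : Fin k, ζ i.succ.succ.succ ^ 2))) atTop (𝓝 0) := by
      have h1 : Tendsto (fun j => (ρ j ^ 2 * ((ζ 2 - r) ^ 2 / (4 * q j) +
        ∑ i : Fin k, ζ i.succ.succ.succ ^ 2))) atTop (𝓝 (1 ^ 2 * ((ζ 2 - r) ^ 2 / (4 * (1 - Φ 0)) +
        ∑ i : Fin k, ζ i.succ.succ.succ ^ 2))) := by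
        refine (hρt.pow 2).mul ((Tendsto.div tendsto_const_nhds (hqt.const_mul 4)
          (by positivity)).add tendsto_const_nhds)
      have h2 := het.mul h1
      simpa using h2
    obtain ⟨D, hDdef⟩ : ∃ D : ℕ → ℝ, D = fun j =>
      theta Φ (ρ j • (p j + T j ζ)) - 1 := ⟨_, rfl⟩
    have hDt : Tendsto (fun j => D j / e j) atTop (𝓝 (ζ 2 + ψ (ζ 0) (ζ 1) - r)) := by
      have h1 := ((hat.add hψt).add (hρt.mul_const (ζ 2 - r))).add hdt
      have h2 : (0 : ℝ) + ψ (ζ 0) (ζ 1) + 1 * (ζ 2 - r) + 0 = ζ 2 + ψ (ζ 0) (ζ 1) - r := by ring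
      rw [h2] at h1
      refine h1.congr' ?_
      filter_upwards [hRt.eventually_const_lt zero_lt_one] with j hj
      have h3 : ρ j * (1 + om j * r) = 1 := by
        rw [hρdef]
        exact inv_mul_cancel₀ hj.ne'
      have h4 := blow2_theta (k := k) Φ (ξ j) (s j) (e j) (z j) (om j) (ρ j) r (hs0 j).ne'
        (by rw [hz2, hqdef]) h3 (hom2 j) ζ
      have h5 : D j = Φ (ξ j + s j • u j) - Φ (ξ j) + (ρ j * e j * (ζ 2 - r) +
          z j ^ 2 * (ρ j * om j * (ζ 2 - r)) ^ 2 +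
          ρ j ^ 2 * e j ^ 2 * ∑ i : Fin k, ζ i.succ.succ.succ ^ 2) := by
        rw [hDdef]
        simp only
        rw [hTdef, hpdef, h4, hudef, hτdef]
      rw [h5, hz2]
      have h6 := (he j).1.ne'
      have h7 := (hq0 j).ne'
      have h8 : om j = e j / (2 * q j) := by rw [homdef]
      rw [h8]
      field_simp
      ring
    have hDe : (fun j => (theta Φ ((1 + om j * r)⁻¹ • (p j + T j ζ)) - 1) / e j) =
        fun j => D j / e j := by
      rw [hDdef, hρdef]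
    rw [hDe]
    exact hDt
  have hco : ∀ r : ℝ, ∀ j, Continuous fun y : E (k + 3) => theta Φ ((1 + om j * r)⁻¹ • y) :=
    fun r j => (lim3_theta_cont hΦ).comp (continuous_const_smul _)
  refine ⟨p, T, fun j r => 1 + om j * r, fun j => ?_, fun r => ?_, fun ζ => ?_, fun ζ r hζ => ?_,
    fun ζ r hζ => ?_⟩
  · rw [hTdef]
    exact blow2_inj k _ _ (hs0 j).ne' (mul_pos (hom0 j) (hz0 j)).ne' (he j).1.ne'
  · exact (hRt r).eventually_const_lt zero_lt_one
  · filter_upwards [(hRt (ζ 2)).eventually_const_lt zero_lt_one] with j hj h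
    have h1 : (p j + T j ζ) 2 = z j * (1 + om j * ζ 2) := by
      have h2 : (p j + T j ζ) (0 : Fin (k + 1)).succ.succ =
          z j + om j * z j * ζ (0 : Fin (k + 1)).succ.succ := by
        rw [hpdef, hTdef]
        rfl
      rw [blow2_two, h2]
      ring
    rw [h] at h1
    exact (mul_pos (hz0 j) hj).ne h1
  · have h1 : ζ 2 + ψ (ζ 0) (ζ 1) - r < 0 := by linarith
    filter_upwards [(hRt r).eventually_const_lt zero_lt_one, (key ζ r).eventually_lt_const h1]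
      with j hj h2
    have h3 : theta Φ ((1 + om j * r)⁻¹ • (p j + T j ζ)) < 1 := by
      by_contra hcon
      have h4 : 0 ≤ (theta Φ ((1 + om j * r)⁻¹ • (p j + T j ζ)) - 1) / e j :=
        div_nonneg (by linarith [not_lt.1 hcon]) (he j).1.le
      linarith
    rw [mem_interior]
    refine ⟨{y | theta Φ ((1 + om j * r)⁻¹ • y) < 1}, fun y hy => ?_,
      isOpen_lt (hco r j) continuous_const, h3⟩
    show y ∈ (1 + om j * r) • {ζ : E (k + 3) | theta Φ ζ ≤ 1}
    rw [Set.mem_smul_set_iff_inv_smul_mem₀ hj.ne']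
    exact le_of_lt (show theta Φ ((1 + om j * r)⁻¹ • y) < 1 from hy)
  · have h1 : 0 < ζ 2 + ψ (ζ 0) (ζ 1) - r := by linarith
    filter_upwards [(hRt r).eventually_const_lt zero_lt_one, (key ζ r).eventually_const_lt h1]
      with j hj h2
    have h3 : 1 < theta Φ ((1 + om j * r)⁻¹ • (p j + T j ζ)) := by
      by_contra hcon
      have h4 : (theta Φ ((1 + om j * r)⁻¹ • (p j + T j ζ)) - 1) / e j ≤ 0 :=
        div_nonpos_of_nonpos_of_nonneg (by linarith [not_lt.1 hcon]) (he j).1.le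
      linarith
    rw [mem_interior]
    refine ⟨{y | 1 < theta Φ ((1 + om j * r)⁻¹ • y)}, fun y hy => ?_,
      isOpen_lt continuous_const (hco r j), h3⟩
    show ¬ (y ∈ (1 + om j * r) • {ζ : E (k + 3) | theta Φ ζ ≤ 1})
    rw [Set.mem_smul_set_iff_inv_smul_mem₀ hj.ne']
    exact not_le.2 (show 1 < theta Φ ((1 + om j * r)⁻¹ • y) from hy)

end Pool.Agent.H311.CB
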