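import Pool.Agent.H311.CB.Defs4

/-!
# Humps exclude the maximal estimate
-/

set_option autoImplicit false

open MeasureTheory Metric Set Filter Topology
open scoped ENNReal NNReal Real RealInnerProductSpace ContDiff Pointwise

namespace Pool.Agent.H311.CB

open Pool.Agent.H311.PM

/-- (G13) Humps exclude the maximal estimate. -/
theorem nofm : S_noFM := by
  intro N K c t hc ht hH C hFM
  have hV : ENNReal.ofReal c * volume (closedBall (t 0).1 (t 0).2) ≠ 0 :=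
    mul_ne_zero (ENNReal.ofReal_pos.2 hc).ne' (measure_closedBall_pos volume _ ht).ne'
  obtain ⟨n, hn⟩ := ENNReal.exists_nat_mul_gt hV (ENNReal.coe_ne_top (r := C))
  obtain ⟨G, F, hG, hGc, -, hG1, hF, hV2⟩ := hH ((n : ℝ) + 1)
  have h0 := hV2 0 one_pos
  have h1 := hFM (F.subtype fun R => 0 < R) G hG hGc
  have hGi : Integrable G := hG.continuous.integrable_of_hasCompactSupport hGc
  have h2 := mul_meas_ge_le_lintegral (μ := volume)
    (measurable_sup (𝒜 := fun R : {R : ℝ // 0 < R} => (R : ℝ) • K)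
      (F.subtype fun R => 0 < R) hGi) (ENNReal.ofReal ((n : ℝ) + 1) ^ 2)
  have h3 : volume {x | x ∈ closedBall (t 0).1 (t 0).2 ∧ ∃ R ∈ F, (n : ℝ) + 1 < ‖I (R • K) G x‖} ≤
      volume {x | ENNReal.ofReal ((n : ℝ) + 1) ^ 2 ≤
        ((F.subtype fun R => 0 < R).sup fun R => ‖I ((R : ℝ) • K) G x‖ₑ) ^ 2} := by
    refine measure_mono ?_
    rintro x ⟨-, R, hR, hx⟩
    rw [mem_ofPred_eq]
    refine pow_le_pow_left₀ zero_le ?_ 2
    have h4 : ((⟨R, hF R hR⟩ : {R : ℝ // 0 < R})) ∈ F.subtype fun R => 0 < R :=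
      Finset.mem_subtype.2 hR
    refine le_trans ?_ (Finset.le_sup h4)
    rw [← ofReal_norm]
    exact ENNReal.ofReal_le_ofReal hx.le
  have h5 : (n : ℝ≥0∞) ≤ ENNReal.ofReal ((n : ℝ) + 1) ^ 2 := by
    have h6 : ENNReal.ofReal ((n : ℝ) + 1) = ((n + 1 : ℕ) : ℝ≥0∞) := by
      rw [← ENNReal.ofReal_natCast]
      push_cast
      rfl
    rw [h6, ← Nat.cast_pow, Nat.cast_le]
    nlinarith
  have h6 : (n : ℝ≥0∞) * (ENNReal.ofReal c * volume (closedBall (t 0).1 (t 0).2)) ≤ C := by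
    calc (n : ℝ≥0∞) * (ENNReal.ofReal c * volume (closedBall (t 0).1 (t 0).2))
        ≤ ENNReal.ofReal ((n : ℝ) + 1) ^ 2 * volume {x | ENNReal.ofReal ((n : ℝ) + 1) ^ 2 ≤
          ((F.subtype fun R => 0 < R).sup fun R => ‖I ((R : ℝ) • K) G x‖ₑ) ^ 2} :=
          mul_le_mul' h5 (h0.le.trans h3)
      _ ≤ ∫⁻ x, ((F.subtype fun R => 0 < R).sup fun R => ‖I ((R : ℝ) • K) G x‖ₑ) ^ 2 := h2
      _ ≤ C * ∫⁻ ξ, ‖G ξ‖ₑ ^ 2 := h1
      _ ≤ C * 1 := mul_le_mul' le_rfl hG1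
      _ = C := mul_one _
  exact absurd hn (not_lt.2 h6)

end Pool.Agent.H311.CB
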