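import Pool.Agent.H311.CB.Defs4
import Pool.Agent.H311.CB.Conv

/-!
# The property `Hump` is open in the Hausdorff metric (G4)
-/

set_option autoImplicit false

open MeasureTheory Metric Set Filter Topology
open scoped ENNReal NNReal Real RealInnerProductSpace ContDiff Pointwise

namespace Pool.Agent.H311.CB

open Pool.Agent.H311.PM

theorem opn_meas_dil {N : ℕ} (K : ConvexBody (E N)) (R : ℝ) :
    MeasurableSet (R • (K : Set (E N))) :=
  K.isClosed.measurableSet.const_smul₀ R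

theorem opn_ae_dil {N : ℕ} {P : E N → Prop} (h : ∀ᵐ x : E N, P x) {R : ℝ} (hR : 0 < R) :
    ∀ᵐ x : E N, P (R⁻¹ • x) := by
  rw [ae_iff] at h ⊢
  have h1 : {x : E N | ¬ P (R⁻¹ • x)} = R • {x : E N | ¬ P x} := by
    ext x
    rw [Set.mem_smul_set_iff_inv_smul_mem₀ hR.ne']
    rfl
  rw [h1, Measure.addHaar_smul, h, mul_zero]

theorem opn_lim {N : ℕ} {K : ℕ → ConvexBody (E N)} {K0 : ConvexBody (E N)}
    (hK : Tendsto K atTop (𝓝 K0)) {G : E N → ℂ} (hG : Integrable G) {R : ℝ} (hR : 0 < R)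
    (x : E N) : Tendsto (fun j => I (R • (K j : Set (E N))) G x) atTop
      (𝓝 (I (R • (K0 : Set (E N))) G x)) := by
  refine tendsto_I (fun j => opn_meas_dil (K j) R) (opn_meas_dil K0 R) hG ?_ x
  filter_upwards [opn_ae_dil (conv N K K0 hK) hR] with x hx
  filter_upwards [hx] with j hj
  rw [Set.mem_smul_set_iff_inv_smul_mem₀ hR.ne', Set.mem_smul_set_iff_inv_smul_mem₀ hR.ne']
  exact hj

/-- Fatou: if every point of `B` is in all but finitely many of the `A j`, lower bounds for the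
measure of `B` pass to the measures of the `A j`. -/
theorem opn_fatou {α : Type*} [MeasurableSpace α] {μ : Measure α} {A : ℕ → Set α} {B : Set α}
    (h : ∀ x ∈ B, ∀ᶠ j in atTop, x ∈ A j) {b : ℝ≥0∞} (hb : b < μ B) :
    ∀ᶠ j in atTop, b < μ (A j) := by
  have hmono : Monotone fun n : ℕ => ⋂ j ∈ Set.Ici n, A j := by
    intro n n' hn
    exact Set.biInter_subset_biInter_left (Set.Ici_subset_Ici.2 hn)
  have hsub : B ⊆ ⋃ n : ℕ, ⋂ j ∈ Set.Ici n, A j := by
    intro x hx
    obtain ⟨n, hn⟩ := eventually_atTop.1 (h x hx)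
    rw [Set.mem_iUnion]
    refine ⟨n, ?_⟩
    rw [Set.mem_iInter₂]
    exact fun j hj => hn j hj
  have h1 : b < ⨆ n : ℕ, μ (⋂ j ∈ Set.Ici n, A j) := by
    rw [← hmono.measure_iUnion]
    exact hb.trans_le (measure_mono hsub)
  obtain ⟨n, hn⟩ := lt_iSup_iff.1 h1
  refine eventually_atTop.2 ⟨n, fun j hj => hn.trans_le (measure_mono ?_)⟩
  exact Set.biInter_subset_of_mem (Set.mem_Ici.2 hj)

theorem opn : S_open := by
  intro N c M ρ t m K K0 hK hH
  obtain ⟨G, F, hG, hGc, hG0, hG2, hF, hvol⟩ := hH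
  have hint : Integrable G := hG.continuous.integrable_of_hasCompactSupport hGc
  have key : ∀ i ∈ {i : ℕ | i < m}, ∀ᶠ j in atTop,
      ENNReal.ofReal c * volume (closedBall (t i).1 (t i).2) <
        volume {x | x ∈ closedBall (t i).1 (t i).2 ∧
          ∃ R ∈ F, M < ‖I (R • (K j : Set (E N))) G x‖} := by
    intro i hi
    refine opn_fatou ?_ (hvol i hi)
    rintro x ⟨hx, R, hR, hM⟩
    have h1 := (opn_lim hK hint (hF R hR) x).norm
    filter_upwards [h1.eventually (lt_mem_nhds hM)] with j hj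
    exact ⟨hx, R, hR, hj⟩
  filter_upwards [(eventually_all_finite (Set.finite_lt_nat m)).2 key] with j hj
  exact ⟨G, F, hG, hGc, hG0, hG2, hF, fun i hi => hj i hi⟩

end Pool.Agent.H311.CB
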