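import Pool.Agent.H311.CB.Defs4

/-!
# Riemann-Lebesgue on a ball for trigonometric polynomials
-/

set_option autoImplicit false

open MeasureTheory Metric Set Filter Topology
open scoped ENNReal NNReal Real RealInnerProductSpace ContDiff Pointwise

namespace Pool.Agent.H311.CB

open Pool.Agent.H311.PM

/-- (G6) Riemann-Lebesgue on a ball. -/
theorem riem : S_riem := by
  intro N lam h h3 x0 r
  have hm : MeasurableSet (closedBall x0 r) := measurableSet_closedBall
  have hfin : volume (closedBall x0 r) ≠ ⊤ := measure_closedBall_lt_top.ne
  have hΦ : Integrable ((closedBall x0 r).indicator fun _ : E N => (1 : ℂ)) := by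
    rw [integrable_indicator_iff hm]
    exact integrableOn_const hfin
  have h1 := transfer_lim lam h h3 hΦ
  have e1 : ∫ x, (closedBall x0 r).indicator (fun _ : E N => (1 : ℂ)) x =
      ((volume (closedBall x0 r)).toReal : ℂ) := by
    rw [integral_indicator hm, setIntegral_const]
    simp [Measure.real]
  rw [e1] at h1
  refine h1.congr fun R => ?_
  rw [← integral_indicator hm]
  refine integral_congr_ae (Eventually.of_forall fun x => ?_)
  by_cases hx : x ∈ closedBall x0 r
  · simp [Set.indicator_of_mem hx]
  · simp [Set.indicator_of_notMem hx]

end Pool.Agent.H311.CB
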