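import Pool.Agent.H311.CB.Defs3

/-!
# Smooth convex bodies: the series (U5)
-/

set_option autoImplicit false

open MeasureTheory Metric Set Filter Topology
open scoped ENNReal NNReal Real RealInnerProductSpace ContDiff Pointwise

namespace Pool.Agent.H311.CB

/-- The coefficients. -/
theorem series_seq (A G : ℕ → ℝ) (hA : ∀ j, 0 < A j) (hG : ∀ j, 0 < G j) :
    ∃ a : ℕ → ℝ, (∀ j, 0 < a j) ∧ (∀ j, a j ≤ A j) ∧ (∀ j, a j ≤ 1) ∧
      ∀ j l, j < l → a l * G l ≤ a j * (1 / 4) ^ l := by
  let step : ℕ → ℝ → ℝ := fun j x =>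
    min (A (j + 1)) (min (x / 2) (x * (1 / 4) ^ (j + 1) / G (j + 1)))
  let a : ℕ → ℝ := fun n => Nat.rec (min (A 0) 1) step n
  have a0 : a 0 = min (A 0) 1 := rfl
  have as : ∀ j, a (j + 1) =
      min (A (j + 1)) (min (a j / 2) (a j * (1 / 4) ^ (j + 1) / G (j + 1))) := fun j => rfl
  have pos : ∀ j, 0 < a j := by
    intro j
    induction j with
    | zero => rw [a0]; exact lt_min (hA 0) one_pos
    | succ j ih =>
      rw [as]
      have := hG (j + 1)
      exact lt_min (hA _) (lt_min (by positivity) (by positivity))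
  have half : ∀ j, a (j + 1) ≤ a j / 2 := fun j => by
    rw [as]; exact (min_le_right _ _).trans (min_le_left _ _)
  have anti : Antitone a := antitone_nat_of_succ_le fun j => by
    have := half j
    have := pos j
    linarith
  have stp : ∀ j, a (j + 1) * G (j + 1) ≤ a j * (1 / 4) ^ (j + 1) := by
    intro j
    have h1 : a (j + 1) ≤ a j * (1 / 4) ^ (j + 1) / G (j + 1) := by
      rw [as]; exact (min_le_right _ _).trans (min_le_right _ _)
    exact (le_div_iff₀ (hG _)).mp h1
  refine ⟨a, pos, ?_, ?_, ?_⟩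
  · intro j
    rcases j with _ | j
    · rw [a0]; exact min_le_left _ _
    · rw [as]; exact min_le_left _ _
  · intro j
    refine (anti (Nat.zero_le j)).trans ?_
    rw [a0]; exact min_le_right _ _
  · intro j l hjl
    obtain ⟨l, rfl⟩ : ∃ l', l = l' + 1 := ⟨l - 1, by omega⟩
    refine (stp l).trans ?_
    exact mul_le_mul_of_nonneg_right (anti (by omega)) (by positivity)

/-- A series of convex functions is convex. -/
theorem series_convex {V : Type} [AddCommGroup V] [Module ℝ V] (F : ℕ → V → ℝ)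
    (hF : ∀ j, ConvexOn ℝ univ (F j)) (hs : ∀ x, Summable fun j => F j x) :
    ConvexOn ℝ univ (fun x => ∑' j, F j x) := by
  refine ⟨convex_univ, ?_⟩
  intro x _ y _ a b ha hb hab
  simp only [smul_eq_mul]
  rw [← tsum_mul_left, ← tsum_mul_left, ← ((hs x).mul_left a).tsum_add ((hs y).mul_left b)]
  refine Summable.tsum_le_tsum (fun j => ?_) (hs _) (((hs x).mul_left a).add ((hs y).mul_left b))
  have := (hF j).2 (mem_univ x) (mem_univ y) ha hb hab
  simpa only [smul_eq_mul] using this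

/-- The second derivative of a convex function. -/
theorem series_d2_nonneg (g : ℝ → ℝ) (hg : ContDiff ℝ ∞ g) (hc : ConvexOn ℝ univ g) (x : ℝ) :
    0 ≤ iteratedDeriv 2 g x := by
  have hd : Differentiable ℝ g := hg.differentiable (by simp)
  have hm : Monotone (deriv g) := by
    rw [← monotoneOn_univ]
    exact hc.monotoneOn_deriv fun x _ => hd x
  have : iteratedDeriv 2 g = deriv (deriv g) := by
    rw [iteratedDeriv_succ, iteratedDeriv_one]
  rw [this]
  exact hm.deriv_nonneg

/-- The second derivative of the radial term. -/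
theorem series_rad (β : ℝ → ℝ) (hβ : IsBeta β) (r : ℝ) (hr : 0 < r) (z h : ℝ × ℝ) (hh : h ≠ 0)
    (hz : r < z.1 ^ 2 + z.2 ^ 2) :
    0 < iteratedDeriv 2 (fun t : ℝ => β (((z + t • h).1 ^ 2 + (z + t • h).2 ^ 2) / r)) 0 := by
  have hbd : Differentiable ℝ β := hβ.smooth.differentiable (by simp)
  have hbs : ContDiff ℝ ∞ (deriv β) := (contDiff_infty_iff_deriv.mp hβ.smooth).2
  have hbd2 : Differentiable ℝ (deriv β) := hbs.differentiable (by simp)
  have hmono : Monotone (deriv β) := by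
    rw [← monotoneOn_univ]
    exact hβ.convex.monotoneOn_deriv fun x _ => hbd x
  -- the quadratic function
  set q : ℝ → ℝ := fun t => ((z.1 + t * h.1) ^ 2 + (z.2 + t * h.2) ^ 2) / r with hq
  have e0 : (fun t : ℝ => β (((z + t • h).1 ^ 2 + (z + t • h).2 ^ 2) / r)) = fun t => β (q t) := by
    funext t
    simp [hq]
  have hq1 : ∀ t, HasDerivAt q
      (2 * ((z.1 + t * h.1) * h.1 + (z.2 + t * h.2) * h.2) / r) t := by
    intro t
    have h1 : HasDerivAt (fun t : ℝ => z.1 + t * h.1) h.1 t := by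
      simpa using ((hasDerivAt_id t).mul_const h.1).const_add z.1
    have h2 : HasDerivAt (fun t : ℝ => z.2 + t * h.2) h.2 t := by
      simpa using ((hasDerivAt_id t).mul_const h.2).const_add z.2
    have h3 := ((h1.pow 2).add (h2.pow 2)).div_const r
    refine h3.congr_deriv ?_
    simp only [Nat.cast_ofNat, Nat.add_one_sub_one, pow_one]
    ring
  set q' : ℝ → ℝ := fun t => 2 * ((z.1 + t * h.1) * h.1 + (z.2 + t * h.2) * h.2) / r with hq'
  have hq2 : ∀ t, HasDerivAt q' (2 * (h.1 ^ 2 + h.2 ^ 2) / r) t := by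
    intro t
    have h1 : HasDerivAt (fun t : ℝ => z.1 + t * h.1) h.1 t := by
      simpa using ((hasDerivAt_id t).mul_const h.1).const_add z.1
    have h2 : HasDerivAt (fun t : ℝ => z.2 + t * h.2) h.2 t := by
      simpa using ((hasDerivAt_id t).mul_const h.2).const_add z.2
    have h3 := (((h1.mul_const h.1).add (h2.mul_const h.2)).const_mul 2).div_const r
    refine h3.congr_deriv ?_
    ring
  have hd1 : deriv (fun t => β (q t)) = fun t => deriv β (q t) * q' t := by
    funext t
    exact ((hbd (q t)).hasDerivAt.comp t (hq1 t)).deriv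
  have hd2 : deriv (fun t => deriv β (q t) * q' t) 0 =
      deriv (deriv β) (q 0) * q' 0 * q' 0 + deriv β (q 0) * (2 * (h.1 ^ 2 + h.2 ^ 2) / r) := by
    have h1 : HasDerivAt (fun t => deriv β (q t)) (deriv (deriv β) (q 0) * q' 0) 0 :=
      (hbd2 (q 0)).hasDerivAt.comp 0 (hq1 0)
    exact (h1.mul (hq2 0)).deriv
  rw [e0, iteratedDeriv_succ, iteratedDeriv_one, hd1, hd2]
  have hq0 : 1 < q 0 := by
    simp only [hq, zero_mul, add_zero]
    rwa [one_lt_div hr]
  have p1 : 0 ≤ deriv (deriv β) (q 0) := hmono.deriv_nonneg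
  have p2 : 0 < deriv β (q 0) := hβ.pos _ hq0
  have p3 : 0 < h.1 ^ 2 + h.2 ^ 2 := by
    rcases eq_or_ne h.1 0 with h1 | h1
    · have h2 : h.2 ≠ 0 := fun h2 => hh (Prod.ext h1 h2)
      positivity
    · positivity
  have p4 : 0 ≤ deriv (deriv β) (q 0) * q' 0 * q' 0 := by
    rw [mul_assoc]
    exact mul_nonneg p1 (mul_self_nonneg _)
  have p5 : 0 < deriv β (q 0) * (2 * (h.1 ^ 2 + h.2 ^ 2) / r) := by positivity
  linarith


/-- The smoothed ridge function is convex. -/
theorem series_sig (σ : ℝ → ℝ) (hσ : IsSigma σ) (M : ℕ) (lam : ℕ → ℝ) (hlam : ∀ i, 0 ≤ lam i)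
    (x0 d : ℝ) (hd : 0 < d) :
    ConvexOn ℝ univ (fun z : ℝ × ℝ => ∑ i ∈ Finset.range M,
      lam i * (d * σ ((z.2 - ((i : ℝ) + 1 / 2) * (z.1 - x0)) / d))) := by
  refine ⟨convex_univ, ?_⟩
  intro x _ y _ a b ha hb hab
  simp only [smul_eq_mul]
  rw [Finset.mul_sum, Finset.mul_sum, ← Finset.sum_add_distrib]
  refine Finset.sum_le_sum fun i _ => ?_
  have e : ((a • x + b • y).2 - ((i : ℝ) + 1 / 2) * ((a • x + b • y).1 - x0)) / d =
      a • ((x.2 - ((i : ℝ) + 1 / 2) * (x.1 - x0)) / d) +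
        b • ((y.2 - ((i : ℝ) + 1 / 2) * (y.1 - x0)) / d) := by
    have h1 : b = 1 - a := by linarith
    subst h1
    simp only [Prod.snd_add, Prod.fst_add, Prod.smul_fst, Prod.smul_snd, smul_eq_mul]
    field_simp
    ring
  rw [e]
  have h1 := hσ.convex.2 (mem_univ ((x.2 - ((i : ℝ) + 1 / 2) * (x.1 - x0)) / d))
    (mem_univ ((y.2 - ((i : ℝ) + 1 / 2) * (y.1 - x0)) / d)) ha hb hab
  have h2 := mul_le_mul_of_nonneg_left h1 (mul_nonneg (hlam i) hd.le)
  simp only [smul_eq_mul] at h2 ⊢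
  linarith

/-- Restriction of a convex function to a line. -/
theorem series_line (P : ℝ × ℝ → ℝ) (hP : ConvexOn ℝ univ P) (z h : ℝ × ℝ) :
    ConvexOn ℝ univ (fun t : ℝ => P (z + t • h)) := by
  refine ⟨convex_univ, ?_⟩
  intro x _ y _ a b ha hb hab
  have e : z + (a • x + b • y) • h = a • (z + x • h) + b • (z + y • h) := by
    have h1 : b = 1 - a := by linarith
    subst h1
    simp only [smul_eq_mul]
    module
  have := hP.2 (mem_univ (z + x • h)) (mem_univ (z + y • h)) ha hb hab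
  simpa only [e] using this

/-- The Hessian of the series. -/
theorem series_hess (σ β : ℝ → ℝ) (hσ : IsSigma σ) (hβ : IsBeta β) (M : ℕ → ℕ)
    (lam : ℕ → ℕ → ℝ) (hlam : ∀ m i, 0 ≤ lam m i) (a : ℕ → ℝ) (ha : ∀ j, 0 < a j)
    (hcx : ∀ j, ConvexOn ℝ univ (TT σ β (M j) (lam j) j))
    (hsum : ∀ x, Summable fun j => a j * TT σ β (M j) (lam j) j x)
    (hS : ContDiff ℝ ∞ fun x => ∑' j, a j * TT σ β (M j) (lam j) j x) (z h : ℝ × ℝ) (hz : z ≠ 0)
    (hh : h ≠ 0) :
    0 < iteratedDeriv 2 (fun t : ℝ => ∑' j, a j * TT σ β (M j) (lam j) j (z + t • h)) 0 := by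
  have p3 : 0 < z.1 ^ 2 + z.2 ^ 2 := by
    rcases eq_or_ne z.1 0 with h1 | h1
    · have h2 : z.2 ≠ 0 := fun h2 => hz (Prod.ext h1 h2)
      positivity
    · positivity
  obtain ⟨i, hi⟩ := exists_pow_lt_of_lt_one p3 (by norm_num : (1 / 16 : ℝ) < 1)
  set r : ℝ := (1 / 16) ^ i with hr
  have hr0 : 0 < r := by positivity
  have hc : 0 < a i * (r / ((i : ℝ) + 1)) := by
    have := ha i
    positivity
  set B : ℝ × ℝ → ℝ := fun x => β ((x.1 ^ 2 + x.2 ^ 2) / r) with hB
  have hBs : ContDiff ℝ ∞ B :=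
    hβ.smooth.comp (((contDiff_fst.pow 2).add (contDiff_snd.pow 2)).div_const r)
  set c : ℝ := a i * (r / ((i : ℝ) + 1)) with hcdef
  set P : ℝ × ℝ → ℝ := fun x => ∑' j, (a j * TT σ β (M j) (lam j) j x -
    if j = i then c * B x else 0) with hP
  have hPsum : ∀ x, HasSum (fun j => a j * TT σ β (M j) (lam j) j x -
      if j = i then c * B x else 0) ((∑' j, a j * TT σ β (M j) (lam j) j x) - c * B x) :=
    fun x => (hsum x).hasSum.sub (hasSum_ite_eq i (c * B x))
  have hPeq : ∀ x, P x = (∑' j, a j * TT σ β (M j) (lam j) j x) - c * B x :=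
    fun x => (hPsum x).tsum_eq
  have hPs : ContDiff ℝ ∞ P := by
    have e : P = fun x => (∑' j, a j * TT σ β (M j) (lam j) j x) - c * B x := funext hPeq
    rw [e]
    exact hS.sub (contDiff_const.mul hBs)
  have hPc : ConvexOn ℝ univ P := by
    refine series_convex _ (fun j => ?_) (fun x => (hPsum x).summable)
    by_cases hji : j = i
    · subst hji
      have hd : 0 < dj j := by
        unfold dj sj
        positivity
      have h1 := (series_sig σ hσ (M j) (lam j) (hlam j) (xj j) (dj j) hd).smul (ha j).le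
      have e : (fun x => a j * TT σ β (M j) (lam j) j x - if j = j then c * B x else 0) =
          fun x : ℝ × ℝ => a j • ∑ k ∈ Finset.range (M j),
            lam j k * (dj j * σ ((x.2 - ((k : ℝ) + 1 / 2) * (x.1 - xj j)) / dj j)) := by
        funext x
        rw [if_pos rfl, smul_eq_mul, hcdef, hB]
        simp only [TT]
        ring
      rw [e]
      exact h1
    · have h1 := (hcx j).smul (ha j).le
      have e : (fun x => a j * TT σ β (M j) (lam j) j x - if j = i then c * B x else 0) =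
          fun x => a j • TT σ β (M j) (lam j) j x := by
        funext x
        rw [if_neg hji, sub_zero, smul_eq_mul]
      rw [e]
      exact h1
  have hline : ContDiff ℝ ∞ (fun t : ℝ => z + t • h) :=
    contDiff_const.add (contDiff_id.smul contDiff_const)
  have hPl : ContDiff ℝ ∞ (fun t : ℝ => P (z + t • h)) := hPs.comp hline
  have hBl : ContDiff ℝ ∞ (fun t : ℝ => B (z + t • h)) := hBs.comp hline
  have e : (fun t : ℝ => ∑' j, a j * TT σ β (M j) (lam j) j (z + t • h)) =
      fun t => P (z + t • h) + c * B (z + t • h) := by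
    funext t
    rw [hPeq]
    ring
  rw [e, iteratedDeriv_fun_add (contDiff_infty.mp hPl 2).contDiffAt
    (contDiff_infty.mp (contDiff_const.mul hBl) 2).contDiffAt, iteratedDeriv_const_mul_field]
  have q1 := series_d2_nonneg _ hPl (series_line P hPc z h) 0
  have q2 := mul_pos hc (series_rad β hβ r hr0 z h hh hi)
  have q3 : (fun t : ℝ => B (z + t • h)) =
    fun t : ℝ => β (((z + t • h).1 ^ 2 + (z + t • h).2 ^ 2) / r) := rfl
  rw [q3]
  linarith

/-- The estimate of the increments of the series. -/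
theorem series_incr (T : ℕ → ℝ × ℝ → ℝ) (a G : ℕ → ℝ) (ha : ∀ j, 0 < a j)
    (_hG : ∀ j, 0 < G j) (hvan : ∀ i l : ℕ, i < l → ∀ z : ℝ × ℝ,
      ‖z - (xj l, 0)‖ ≤ (1 / 4) ^ l / 16 → T i z = 0)
    (hlip : ∀ j, ∀ z w : ℝ × ℝ, ‖z‖ ≤ 2 → ‖w‖ ≤ 2 → |T j z - T j w| ≤ G j * ‖z - w‖)
    (haG : ∀ j l, j < l → a l * G l ≤ a j * (1 / 4) ^ l)
    (hsum : ∀ x, Summable fun j => a j * T j x) (j : ℕ) (R : ℝ) (hR : 0 ≤ R)
    (hj : R * sj j ≤ (1 / 4) ^ j / 16) (ψ L : ℝ) (u : ℝ × ℝ) (hu : ‖u‖ ≤ R)
    (hmain : |T j ((xj j, 0) + sj j • u) - T j (xj j, 0) - sj j * ψ| ≤ sj j * L / (j + 1)) :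
    |(∑' l, a l * T l ((xj j, 0) + sj j • u)) - (∑' l, a l * T l (xj j, 0)) -
      (a j * sj j) * ψ| ≤ (L / (j + 1) + 2 * R * (1 / 2) ^ j) * (a j * sj j) := by
  have hs0 : 0 < sj j := by
    unfold sj
    positivity
  have hu0 : ‖sj j • u‖ ≤ sj j * R := by
    rw [norm_smul, Real.norm_eq_abs, abs_of_pos hs0]
    exact mul_le_mul_of_nonneg_left hu hs0.le
  have hx1 : ‖((xj j, 0) : ℝ × ℝ)‖ ≤ 1 := by
    rw [Prod.norm_def]
    simp only [norm_zero]
    refine max_le ?_ zero_le_one
    unfold xj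
    rw [norm_neg, Real.norm_eq_abs, abs_of_nonneg (by positivity)]
    exact pow_le_one₀ (by norm_num) (by norm_num)
  have hs1 : ‖sj j • u‖ ≤ 1 := by
    refine hu0.trans ?_
    have h1 : ((1 : ℝ) / 4) ^ j ≤ 1 := pow_le_one₀ (by norm_num) (by norm_num)
    linarith
  -- the terms
  have hD := (hsum ((xj j, 0) + sj j • u)).hasSum.sub (hsum (xj j, 0)).hasSum
  set D : ℕ → ℝ := fun l => a l * T l ((xj j, 0) + sj j • u) - a l * T l (xj j, 0) with hDdef
  have hDs : Summable D := hD.summable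
  have hDlow : ∀ l < j, D l = 0 := by
    intro l hl
    rw [hDdef]
    simp only
    rw [hvan l j hl _ (by rw [add_sub_cancel_left]; linarith),
      hvan l j hl _ (by rw [sub_self, norm_zero]; positivity)]
    ring
  have hDhigh : ∀ l, j < l → |D l| ≤ (a j * sj j) * R * (1 / 2) ^ j * (1 / 2) ^ l := by
    intro l hl
    have e : D l = a l * (T l ((xj j, 0) + sj j • u) - T l (xj j, 0)) := by
      rw [hDdef]
      ring
    rw [e, abs_mul, abs_of_pos (ha l)]
    have h1 := hlip l ((xj j, 0) + sj j • u) (xj j, 0)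
      ((norm_add_le _ _).trans (by linarith)) (by linarith)
    rw [add_sub_cancel_left] at h1
    have h2 : a l * (G l * ‖sj j • u‖) ≤ a j * (1 / 4) ^ l * (sj j * R) := by
      rw [← mul_assoc]
      have := haG j l hl
      have h3 := ha j
      exact mul_le_mul this hu0 (norm_nonneg _) (by positivity)
    have h3 : ((1 : ℝ) / 4) ^ l = (1 / 2) ^ l * (1 / 2) ^ l := by
      rw [← mul_pow]
      norm_num
    have h4 : ((1 : ℝ) / 2) ^ l ≤ (1 / 2) ^ j :=
      pow_le_pow_of_le_one (by norm_num) (by norm_num) hl.le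
    have h5 : a j * (1 / 4) ^ l * (sj j * R) ≤
        (a j * sj j) * R * (1 / 2) ^ j * (1 / 2) ^ l := by
      rw [h3]
      have h6 : 0 ≤ (a j * sj j) * R * (1 / 2) ^ l := by
        have := ha j
        positivity
      have := mul_le_mul_of_nonneg_left h4 h6
      linarith
    have h7 := mul_le_mul_of_nonneg_left h1 (ha l).le
    linarith
  have hsplit := hDs.tsum_eq_add_tsum_ite j
  have hrest : |∑' l, ite (l = j) 0 (D l)| ≤ (a j * sj j) * R * (1 / 2) ^ j * 2 := by
    have hg : HasSum (fun l : ℕ => (a j * sj j) * R * (1 / 2) ^ j * (1 / 2 : ℝ) ^ l)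
        ((a j * sj j) * R * (1 / 2) ^ j * 2) := hasSum_geometric_two.mul_left _
    have := tsum_of_norm_bounded hg (f := fun l => ite (l = j) 0 (D l)) (fun l => ?_)
    · simpa only [Real.norm_eq_abs] using this
    · have h0 : 0 ≤ (a j * sj j) * R * (1 / 2) ^ j * (1 / 2 : ℝ) ^ l := by
        have := ha j
        positivity
      rw [Real.norm_eq_abs]
      rcases lt_trichotomy l j with hl | hl | hl
      · rw [if_neg hl.ne, hDlow l hl, abs_zero]
        exact h0
      · rw [if_pos hl, abs_zero]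
        exact h0
      · rw [if_neg hl.ne']
        exact hDhigh l hl
  have hDj : |D j - (a j * sj j) * ψ| ≤ (a j * sj j) * (L / (j + 1)) := by
    have e : D j - (a j * sj j) * ψ =
        a j * (T j ((xj j, 0) + sj j • u) - T j (xj j, 0) - sj j * ψ) := by
      rw [hDdef]
      ring
    rw [e, abs_mul, abs_of_pos (ha j)]
    have := mul_le_mul_of_nonneg_left hmain (ha j).le
    refine this.trans (le_of_eq ?_)
    ring
  rw [← hD.tsum_eq, hsplit]
  have e : D j + (∑' l, ite (l = j) 0 (D l)) - (a j * sj j) * ψ =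
      (D j - (a j * sj j) * ψ) + ∑' l, ite (l = j) 0 (D l) := by ring
  rw [e]
  refine (abs_add_le _ _).trans ?_
  have : (a j * sj j) * (L / (j + 1)) + (a j * sj j) * R * (1 / 2) ^ j * 2 =
      (L / (j + 1) + 2 * R * (1 / 2) ^ j) * (a j * sj j) := by ring
  linarith

/-- The scales tend to zero. -/
theorem series_sj : Tendsto sj atTop (𝓝 0) := by
  have h1 : Tendsto (fun j : ℕ => ((1 : ℝ) / 4) ^ j) atTop (𝓝 0) :=
    tendsto_pow_atTop_nhds_zero_of_lt_one (by norm_num) (by norm_num)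
  refine squeeze_zero (fun j => ?_) (fun j => ?_) h1
  · unfold sj
    positivity
  · unfold sj
    have h2 : (0 : ℝ) ≤ j := Nat.cast_nonneg j
    rw [div_le_iff₀ (by positivity)]
    have h3 : (0 : ℝ) ≤ (1 / 4) ^ j := by positivity
    nlinarith

/-- The points tend to zero. -/
theorem series_xj : Tendsto (fun j => ((xj j, 0) : ℝ × ℝ)) atTop (𝓝 0) := by
  have h1 : Tendsto (fun j : ℕ => ((1 : ℝ) / 4) ^ j) atTop (𝓝 0) :=
    tendsto_pow_atTop_nhds_zero_of_lt_one (by norm_num) (by norm_num)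
  have h2 : Tendsto xj atTop (𝓝 0) := by
    have := h1.neg
    rw [neg_zero] at this
    exact this
  have h3 := h2.prodMk_nhds (tendsto_const_nhds (x := (0 : ℝ)))
  exact h3

theorem series (h2 : S_fun) (h3 : S_smoothsum) (h4 : S_terms) : S_series := by
  intro M lam hlam
  obtain ⟨⟨σ, hσ⟩, ⟨β, hβ⟩⟩ := h2
  have H := fun j : ℕ => h4 σ β hσ hβ (M (Nat.unpair j).1) (lam (Nat.unpair j).1) (hlam _) j
  choose hsm hcx hnn h0 hvan hlip hmain using H
  obtain ⟨A, hA, hA2⟩ := h3 (fun j => TT σ β (M (Nat.unpair j).1) (lam (Nat.unpair j).1) j) hsm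
  choose G hG hGlip using hlip
  obtain ⟨a, ha, haA, ha1, haG⟩ := series_seq A G hA hG
  obtain ⟨hsum, hS⟩ := hA2 a (fun j => ⟨(ha j).le, haA j⟩)
  refine ⟨fun x => ∑' j, a j * TT σ β (M (Nat.unpair j).1) (lam (Nat.unpair j).1) j x, hS,
    ?_, ?_, ?_, ?_, ?_⟩
  · refine series_convex _ (fun j => ?_) hsum
    have := (hcx j).smul (ha j).le
    simpa only [smul_eq_mul] using this
  · intro z
    exact tsum_nonneg fun j => mul_nonneg (ha j).le (hnn j z)
  · simp only [h0, mul_zero, tsum_zero]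
  · intro z hz h hh
    exact series_hess σ β hσ hβ (fun j => M (Nat.unpair j).1) (fun j => lam (Nat.unpair j).1)
      (fun j => hlam _) a ha hcx hsum hS z h hz hh
  · intro m
    have hJ : Tendsto (fun n => Nat.pair m n) atTop atTop :=
      tendsto_atTop_mono (fun n => Nat.right_le_pair m n) tendsto_id
    have hspos : ∀ j, 0 < sj j := fun j => by
      unfold sj
      positivity
    refine ⟨fun n => (xj (Nat.pair m n), 0), fun n => sj (Nat.pair m n),
      fun n => a (Nat.pair m n) * sj (Nat.pair m n), series_xj.comp hJ, series_sj.comp hJ,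
      fun n => ⟨mul_pos (ha _) (hspos _), ?_⟩, ?_⟩
    · exact mul_le_of_le_one_left (hspos _).le (ha1 _)
    · intro R' η hη
      set R : ℝ := max R' 0 with hR
      have hR0 : 0 ≤ R := le_max_right _ _
      set L : ℝ := 4 * ∑ i ∈ Finset.range (M m), lam m i + 2 * R + 2 * R ^ 2 with hL
      have hlim : Tendsto (fun j : ℕ => L / ((j : ℝ) + 1) + 2 * R * (1 / 2) ^ j) atTop (𝓝 0) := by
        have l1 : Tendsto (fun j : ℕ => L / ((j : ℝ) + 1)) atTop (𝓝 0) := by
          have := (tendsto_one_div_add_atTop_nhds_zero_nat (𝕜 := ℝ)).const_mul L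
          rw [mul_zero] at this
          refine this.congr fun j => ?_
          ring
        have l2 : Tendsto (fun j : ℕ => 2 * R * ((1 : ℝ) / 2) ^ j) atTop (𝓝 0) := by
          have := (tendsto_pow_atTop_nhds_zero_of_lt_one (r := (1 : ℝ) / 2) (by norm_num)
            (by norm_num)).const_mul (2 * R)
          rwa [mul_zero] at this
        simpa using l1.add l2
      have ev1 : ∀ᶠ n in atTop, L / (((Nat.pair m n : ℕ) : ℝ) + 1) +
          2 * R * (1 / 2) ^ (Nat.pair m n) ≤ η :=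
        ((hlim.comp hJ).eventually (gt_mem_nhds hη)).mono fun n hn => le_of_lt hn
      have ev2 : ∀ᶠ n in atTop, R ≤ ((Nat.pair m n : ℕ) : ℝ) :=
        ((tendsto_natCast_atTop_atTop (R := ℝ)).comp hJ).eventually_ge_atTop R
      filter_upwards [ev1, ev2] with n hn1 hn2 u hu
      have huR : ‖u‖ ≤ R := hu.trans (le_max_left _ _)
      have hun : (Nat.unpair (Nat.pair m n)).1 = m := by rw [Nat.unpair_pair]
      have hsR : R * sj (Nat.pair m n) ≤ (1 / 4) ^ (Nat.pair m n) / 16 := by
        unfold sj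
        rw [mul_div_assoc', div_le_div_iff₀ (by positivity) (by positivity)]
        have h5 : (0 : ℝ) ≤ (1 / 4) ^ (Nat.pair m n) := by positivity
        have h6 : R ≤ ((Nat.pair m n : ℕ) : ℝ) + 1 := by linarith
        nlinarith [mul_le_mul_of_nonneg_left h6 h5]
      have hm := hmain (Nat.pair m n) R hR0 u huR
      have key := series_incr
        (fun j => TT σ β (M (Nat.unpair j).1) (lam (Nat.unpair j).1) j) a G ha hG
        (fun i l hil z hz => hvan i l hil z hz) (fun j z w hz hw => hGlip j z w hz hw) haG hsum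
        (Nat.pair m n) R hR0 hsR
        (ridge (M (Nat.unpair (Nat.pair m n)).1) (lam (Nat.unpair (Nat.pair m n)).1) u.1 u.2)
        _ u huR hm
      rw [hun] at key
      refine key.trans ?_
      have hpos : 0 ≤ a (Nat.pair m n) * sj (Nat.pair m n) := (mul_pos (ha _) (hspos _)).le
      exact mul_le_mul_of_nonneg_right hn1 hpos

end Pool.Agent.H311.CB
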