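import Pool.Agent.H311.CB.Defs4

/-!
# The partial sums of the tree are bounded by the number of levels (task G8)
-/

set_option autoImplicit false

open Finset

namespace Pool.Agent.H311.CB

open Pool.Agent.H311.PM

theorem supb_levels {N : ℕ} (lam : (ℕ →₀ ℤ) →+ E N) (x : E N) {c : LP} (hc : Sym c)
    (hc1 : Bdd1 c) (L : ℕ) : ∑ v ∈ Ico 1 (2 ^ L), ‖ev lam x (W c v)‖ ≤ L := by
  induction L with
  | zero => simp
  | succ L ih =>
    have h1 : 1 ≤ 2 ^ L := Nat.one_le_two_pow
    have h2 : 2 ^ L ≤ 2 ^ (L + 1) := Nat.pow_le_pow_right (by norm_num) (by omega)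
    rw [← Finset.sum_Ico_consecutive _ h1 h2]
    have h3 := sum_ev_W lam x hc hc1 L
    push_cast
    linarith

theorem supb_F {N : ℕ} (lam : (ℕ →₀ ℤ) →+ E N) (x : E N) (c : LP) (v : ℕ) :
    ‖ev lam x (F c v)‖ = ‖ev lam x (W c v)‖ := by
  unfold F
  rw [map_mul, norm_mul, ev_jj]
  have h : T1.coeff.support = {1} := by
    unfold T1
    rw [AddMonoidAlgebra.coeff_single]
    exact Finsupp.support_single _ one_ne_zero
  rw [h, Finset.sum_singleton]
  have h1 : T1.coeff 1 = 1 := by
    unfold T1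
    rw [AddMonoidAlgebra.coeff_single, Finsupp.single_apply, if_pos rfl]
  rw [h1, zpow_one, norm_mul, norm_ee]
  simp

theorem supb : S_sup := by
  intro N lam x c hc hc1 L C
  unfold fC
  rw [map_sum]
  refine (norm_sum_le _ _).trans ?_
  refine le_trans ?_ (supb_levels lam x hc hc1 L)
  rw [Finset.sum_congr rfl fun v _ => supb_F lam x c v]
  exact Finset.sum_le_sum_of_subset_of_nonneg (Finset.filter_subset _ _)
    fun v _ _ => norm_nonneg _

end Pool.Agent.H311.CB
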