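import Pool.Agent.H311.CB.Defs4

/-!
# Weak type transference
-/

set_option autoImplicit false

open MeasureTheory Metric Set Filter Topology
open scoped ENNReal NNReal Real RealInnerProductSpace ContDiff Pointwise

namespace Pool.Agent.H311.CB

open Pool.Agent.H311.PM

variable {N : ℕ}

theorem weak_dil {K : Set (E N)} {s r : ℝ} (hs : 0 < s) :
    {ζ : E N | s⁻¹ • ζ ∈ r • K} = (s * r) • K := by
  ext ζ
  rw [mul_smul, Set.mem_smul_set_iff_inv_smul_mem₀ hs.ne']
  rfl

/-- the partial integral of the modulated bumps -/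
theorem weak_I {K : Set (E N)} {lam : (ℕ →₀ ℤ) →+ E N} {p : E N} {g f : TP} {s r : ℝ}
    (hs : 0 < s) {χ : E N → ℂ} (hχ : Continuous χ) (hχc : HasCompactSupport χ)
    (hχ2 : ∀ x, χ x ≠ 0 → ‖x‖ < 2) (A : ℝ)
    (hin : ∀ n ∈ g.coeff.support,
      (f.coeff n = g.coeff n ∧ ball (p + lam n) (2 / s) ⊆ r • K) ∨
      (f.coeff n = 0 ∧ ball (p + lam n) (2 / s) ⊆ (r • K)ᶜ))
    (hsub : f.coeff.support ⊆ g.coeff.support) (x : E N) :
    I ((s * r) • K) (fun ζ => ∑ n ∈ g.coeff.support,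
      ((A⁻¹ * g.coeff n : ℝ) : ℂ) * χ (ζ - s • (p + lam n))) x =
      ((A⁻¹ : ℝ) : ℂ) * (trX χ x * (ee x (s • p) * ev lam (s • x) f)) := by
  rw [transfer_I_sum hχ hχc g.coeff.support (fun n => ((A⁻¹ * g.coeff n : ℝ) : ℂ))
    (fun n => s • (p + lam n)) x, ev_eq]
  rw [Finset.sum_subset hsub (f := fun n => ((f.coeff n : ℝ) : ℂ) * ee (s • x) (lam n))
    (fun n _ hn => by
      rw [Finsupp.notMem_support_iff.1 hn, Complex.ofReal_zero, zero_mul])]
  rw [Finset.mul_sum, Finset.mul_sum, Finset.mul_sum]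
  refine Finset.sum_congr rfl fun n hn => ?_
  rcases hin n hn with ⟨h5, h6⟩ | ⟨h5, h6⟩
  · have h7 : ball (s • (p + lam n)) 2 ⊆ (s * r) • K := by
      rw [← weak_dil hs]; exact transfer_ball' hs h6
    rw [transfer_I_in hχ2 (s • (p + lam n)) h7 x, h5, smul_add, ee_add,
      transfer_ee_smul s x (lam n)]
    push_cast
    ring
  · have h7 : ball (s • (p + lam n)) 2 ⊆ ((s * r) • K)ᶜ := by
      rw [← weak_dil hs]
      exact transfer_ball' (A := (r • K)ᶜ) hs h6
    rw [transfer_I_out hχ2 (s • (p + lam n)) h7 x, h5]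
    simp

/-- the elementary inequality on a ball -/
theorem weak_ball {Q : Set (E N)} (hQ : MeasurableSet Q) (hQf : volume Q ≠ ⊤) {φ : E N → ℂ}
    (hφ : Continuous φ) {μ B : ℝ} (hμ : 0 < μ) (hB : 0 < B) (hb : ∀ x, ‖φ x‖ ≤ B)
    (hint : 3 / 4 * μ * (volume Q).toReal ≤ ‖∫ x in Q, φ x‖) :
    ENNReal.ofReal (μ / (4 * B)) * volume Q ≤ volume {x | x ∈ Q ∧ μ / 2 < ‖φ x‖} := by
  set D : Set (E N) := {x | x ∈ Q ∧ μ / 2 < ‖φ x‖} with hD
  have hDm : MeasurableSet D :=
    hQ.inter (isOpen_lt continuous_const hφ.norm).measurableSet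
  have hDQ : D ⊆ Q := fun x hx => hx.1
  have hDf : volume D ≠ ⊤ := measure_ne_top_of_subset hDQ hQf
  have h1 : ‖∫ x in Q, φ x‖ ≤ ∫ x in Q, ‖φ x‖ := norm_integral_le_integral_norm _
  have hc1 : IntegrableOn (fun _ : E N => μ / 2) Q := integrableOn_const hQf
  have hc2 : IntegrableOn (D.indicator fun _ : E N => B) Q :=
    (integrableOn_const (C := B) hQf).indicator hDm
  have hfi : IntegrableOn (fun x => ‖φ x‖) Q := by
    refine Integrable.mono' (integrableOn_const (C := B) hQf)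
      hφ.norm.aestronglyMeasurable.restrict (Eventually.of_forall fun x => ?_)
    rw [norm_norm]
    exact hb x
  have h2 : ∫ x in Q, ‖φ x‖ ≤ ∫ x in Q, (μ / 2 + D.indicator (fun _ : E N => B) x) := by
    refine setIntegral_mono_on hfi (hc1.add hc2) hQ fun x hx => ?_
    by_cases hxD : x ∈ D
    · rw [indicator_of_mem hxD]
      have := hb x
      linarith
    · rw [indicator_of_notMem hxD, add_zero]
      by_contra hcon
      exact hxD ⟨hx, not_le.1 hcon⟩
  have h3 : ∫ x in Q, (μ / 2 + D.indicator (fun _ : E N => B) x) =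
      μ / 2 * (volume Q).toReal + B * (volume D).toReal := by
    rw [integral_add hc1 hc2, setIntegral_const, setIntegral_indicator hDm,
      inter_eq_self_of_subset_right hDQ, setIntegral_const]
    simp only [smul_eq_mul, Measure.real]
    ring
  have h4 : μ / (4 * B) * (volume Q).toReal ≤ (volume D).toReal := by
    have h5 : 3 / 4 * μ * (volume Q).toReal ≤
        μ / 2 * (volume Q).toReal + B * (volume D).toReal := by
      rw [← h3]; exact hint.trans (h1.trans h2)
    rw [div_mul_eq_mul_div, div_le_iff₀ (by positivity)]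
    linarith
  calc ENNReal.ofReal (μ / (4 * B)) * volume Q
      = ENNReal.ofReal (μ / (4 * B)) * ENNReal.ofReal (volume Q).toReal := by
        rw [ENNReal.ofReal_toReal hQf]
    _ = ENNReal.ofReal (μ / (4 * B) * (volume Q).toReal) := by
        rw [ENNReal.ofReal_mul (by positivity)]
    _ ≤ ENNReal.ofReal (volume D).toReal := ENNReal.ofReal_le_ofReal h4
    _ = volume D := ENNReal.ofReal_toReal hDf

/-- the combination is at most the maximum -/
theorem weak_sup (lam : (ℕ →₀ ℤ) →+ E N) (J : Finset ℕ) (f W : ℕ → TP) (y : E N) (c : ℝ)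
    (hc : 0 ≤ c) (hW : ∑ i ∈ J, ‖ev lam y (W i)‖ ≤ 1) (hf : ∀ i ∈ J, ‖ev lam y (f i)‖ ≤ c) :
    ‖ev lam y (∑ i ∈ J, W i * f i)‖ ≤ c := by
  rw [map_sum]
  calc ‖∑ i ∈ J, ev lam y (W i * f i)‖ ≤ ∑ i ∈ J, ‖ev lam y (W i * f i)‖ := norm_sum_le _ _
    _ ≤ ∑ i ∈ J, ‖ev lam y (W i)‖ * c := by
        refine Finset.sum_le_sum fun i hi => ?_
        rw [map_mul, norm_mul]
        exact mul_le_mul_of_nonneg_left (hf i hi) (norm_nonneg _)
    _ = (∑ i ∈ J, ‖ev lam y (W i)‖) * c := by rw [Finset.sum_mul]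
    _ ≤ 1 * c := mul_le_mul_of_nonneg_right hW hc
    _ = c := one_mul _

theorem weak (hX : S_chi) (hR : S_riem) : S_weak := by
  intro N t m ht
  set R0 : ℝ := ∑ i ∈ Finset.range m, (‖(t i).1‖ + (t i).2) with hR0
  have hR0nn : 0 ≤ R0 := Finset.sum_nonneg fun i _ => add_nonneg (norm_nonneg _) (ht i).le
  have hballs : ∀ i < m, ∀ x ∈ closedBall (t i).1 (t i).2, ‖x‖ ≤ R0 := by
    intro i hi x hx
    have h1 : ‖x‖ ≤ ‖(t i).1‖ + (t i).2 := by
      have h2 : ‖x - (t i).1‖ ≤ (t i).2 := by rw [← dist_eq_norm]; exact mem_closedBall.1 hx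
      calc ‖x‖ = ‖(t i).1 + (x - (t i).1)‖ := by congr 1; abel
        _ ≤ ‖(t i).1‖ + ‖x - (t i).1‖ := norm_add_le _ _
        _ ≤ _ := by linarith
    refine h1.trans ?_
    exact Finset.single_le_sum (f := fun i => ‖(t i).1‖ + (t i).2)
      (fun j _ => add_nonneg (norm_nonneg _) (ht j).le) (Finset.mem_range.2 hi)
  obtain ⟨χ, κ0, hχ, hχc, hχ2, hκ0, hχκ, ha0, haT⟩ := hX N R0 hR0nn
  set a : ℝ := (∫⁻ s, ‖χ s‖ₑ ^ 2).toReal with ha
  have hapos : 0 < a := ENNReal.toReal_pos ha0 haT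
  have haof : ENNReal.ofReal a = ∫⁻ s, ‖χ s‖ₑ ^ 2 := ENNReal.ofReal_toReal haT
  have hsa : 0 < √a := Real.sqrt_pos.2 hapos
  refine ⟨κ0 / (2 * √a), by positivity, ?_⟩
  intro K lam p J R g f W B hRpos h1 h2 h3 h4 h5 hB h6 hμ hSg ρ
  set h : TP := ∑ i ∈ J, W i * f i with hh
  set μ : ℝ := h.coeff 0 with hμdef
  set Sg : ℝ := ∑ n ∈ g.coeff.support, (g.coeff n) ^ 2 with hSgdef
  set A : ℝ := √a * √Sg with hA
  have hsSg : 0 < √Sg := Real.sqrt_pos.2 hSg
  have hApos : 0 < A := mul_pos hsa hsSg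
  have hA2 : A ^ 2 = a * Sg := by
    rw [hA, mul_pow, Real.sq_sqrt hapos.le, Real.sq_sqrt hSg.le]
  -- conditions for large s
  have e1 : ∀ᶠ s : ℝ in atTop, ∀ i ∈ J, ∀ n ∈ g.coeff.support,
      ((f i).coeff n = g.coeff n ∧ ball (p + lam n) (2 / s) ⊆ R i • K) ∨
      ((f i).coeff n = 0 ∧ ball (p + lam n) (2 / s) ⊆ (R i • K)ᶜ) := by
    refine (Finset.eventually_all J).2 fun i hi => (Finset.eventually_all _).2 fun n hn => ?_
    rcases h1 i hi n with hc | hc | hc
    · filter_upwards [transfer_ball hc.2] with s hs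
      exact Or.inl ⟨hc.1, hs⟩
    · filter_upwards [transfer_ball hc.2] with s hs
      exact Or.inr ⟨hc.1, hs⟩
    · exact absurd hc.2 (Finsupp.mem_support_iff.1 hn)
  have e2 : ∀ᶠ s : ℝ in atTop, ∀ n ∈ g.coeff.support, ∀ n' ∈ g.coeff.support, n ≠ n' →
      4 ≤ s * dist (p + lam n) (p + lam n') := by
    refine (Finset.eventually_all _).2 fun n hn => (Finset.eventually_all _).2 fun n' hn' => ?_
    by_cases hnn : n = n'
    · exact Eventually.of_forall fun R h => absurd hnn h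
    · have h7 : 0 < dist (p + lam n) (p + lam n') :=
        dist_pos.2 fun h => hnn (h2 n hn n' hn' (add_left_cancel h))
      have h8 : Tendsto (fun s : ℝ => s * dist (p + lam n) (p + lam n')) atTop atTop :=
        tendsto_id.atTop_mul_const h7
      filter_upwards [h8.eventually_ge_atTop 4] with s hs _
      exact hs
  have e3 : ∀ᶠ s : ℝ in atTop, ∀ n ∈ g.coeff.support, ρ + 2 ≤ s * ‖p + lam n‖ := by
    refine (Finset.eventually_all _).2 fun n hn => ?_
    have h7 : 0 < ‖p + lam n‖ := norm_pos_iff.2 (h4 n hn)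
    exact (tendsto_id.atTop_mul_const h7).eventually_ge_atTop (ρ + 2)
  have hfin : ∀ i, volume (closedBall (t i).1 (t i).2) ≠ ⊤ := fun i =>
    (measure_closedBall_lt_top).ne
  have e4 : ∀ᶠ s : ℝ in atTop, ∀ i ∈ Finset.range m,
      3 / 4 * μ * (volume (closedBall (t i).1 (t i).2)).toReal ≤
        ‖∫ x in closedBall (t i).1 (t i).2, ev lam (s • x) h‖ := by
    refine (Finset.eventually_all _).2 fun i _ => ?_
    have h7 : 0 < (volume (closedBall (t i).1 (t i).2)).toReal :=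
      ENNReal.toReal_pos (measure_closedBall_pos volume _ (ht i)).ne' (hfin i)
    have h8 := (hR N lam h h3 (t i).1 (t i).2).norm
    have h9 : ‖((h.coeff 0 : ℝ) : ℂ) * ((volume (closedBall (t i).1 (t i).2)).toReal : ℂ)‖ =
        μ * (volume (closedBall (t i).1 (t i).2)).toReal := by
      rw [norm_mul, Complex.norm_real, Complex.norm_real, Real.norm_of_nonneg hμ.le,
        Real.norm_of_nonneg h7.le]
    rw [h9] at h8
    have h10 : 3 / 4 * μ * (volume (closedBall (t i).1 (t i).2)).toReal <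
        μ * (volume (closedBall (t i).1 (t i).2)).toReal := by
      have := mul_pos hμ h7
      linarith
    filter_upwards [h8.eventually (lt_mem_nhds h10)] with s hs
    exact hs.le
  obtain ⟨s, hs1, hs2, hs3, hs4, hs0⟩ :=
    (e1.and (e2.and (e3.and (e4.and (eventually_gt_atTop 0))))).exists
  -- the function
  set c : (ℕ →₀ ℤ) → ℂ := fun n => ((A⁻¹ * g.coeff n : ℝ) : ℂ) with hc
  have hsub : ∀ i ∈ J, (f i).coeff.support ⊆ g.coeff.support := by
    intro i hi n hn
    rw [Finsupp.mem_support_iff] at hn ⊢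
    intro h0
    rcases h1 i hi n with hcc | hcc | hcc
    · exact hn (hcc.1.trans h0)
    · exact hn hcc.1
    · exact hn hcc.1
  refine ⟨fun ζ => ∑ n ∈ g.coeff.support, c n * χ (ζ - s • (p + lam n)),
    J.image fun i => s * R i, ?_, ?_, ?_, ?_, ?_, ?_⟩
  · refine ContDiff.sum fun n _ => contDiff_const.mul ?_
    exact hχ.comp (contDiff_id.sub contDiff_const)
  · exact transfer_compact hχc g.coeff.support c (fun n => s • (p + lam n))
  · intro ξ hξ
    refine Finset.sum_eq_zero fun n hn => ?_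
    have h7 : χ (ξ - s • (p + lam n)) = 0 := by
      by_contra hne
      have h8 := hχ2 _ hne
      have h9 := hs3 n hn
      have h10 : ‖s • (p + lam n)‖ = s * ‖p + lam n‖ := by
        rw [norm_smul, Real.norm_of_nonneg hs0.le]
      have h11 : ‖s • (p + lam n)‖ ≤ ‖ξ‖ + ‖ξ - s • (p + lam n)‖ := by
        calc ‖s • (p + lam n)‖ = ‖ξ - (ξ - s • (p + lam n))‖ := by congr 1; abel
          _ ≤ _ := norm_sub_le _ _
      linarith
    rw [h7, mul_zero]
  · have hnorm := transfer_norm hχ.continuous hχ2 g.coeff.support c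
      (fun n => s • (p + lam n)) (by
        intro n hn n' hn' hnn
        rw [dist_smul₀, Real.norm_of_nonneg hs0.le]
        exact hs2 n hn n' hn' hnn)
    rw [hnorm, ← haof]
    have h7 : (∑ n ∈ g.coeff.support, ‖c n‖ₑ ^ 2) = ENNReal.ofReal (Sg / A ^ 2) := by
      have h8 : ∀ n ∈ g.coeff.support, ‖c n‖ₑ ^ 2 = ENNReal.ofReal ((g.coeff n) ^ 2 / A ^ 2) := by
        intro n _
        rw [← ofReal_norm, ← ENNReal.ofReal_pow (norm_nonneg _)]
        congr 1
        rw [hc]
        simp only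
        rw [Complex.norm_real, Real.norm_eq_abs, sq_abs, mul_pow, inv_pow]
        field_simp
      rw [Finset.sum_congr rfl h8, ← ENNReal.ofReal_sum_of_nonneg fun n _ => by positivity,
        ← Finset.sum_div]
    rw [h7, ← ENNReal.ofReal_mul (by positivity), hA2]
    have h8 : Sg / (a * Sg) * a = 1 := by field_simp
    rw [h8, ENNReal.ofReal_one]
  · intro r hr
    obtain ⟨i, hi, rfl⟩ := Finset.mem_image.1 hr
    exact mul_pos hs0 (hRpos i hi)
  · intro i hi
    have hcont : Continuous fun x : E N => ev lam (s • x) h := transfer_cont lam h s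
    have hbd : ∀ x : E N, ‖ev lam (s • x) h‖ ≤ B := fun x =>
      weak_sup lam J f W (s • x) B hB.le (h5 _) fun j hj => h6 j hj _
    refine (weak_ball (φ := fun x : E N => ev lam (s • x) h)
      isClosed_closedBall.measurableSet (hfin i) hcont hμ hB hbd
      (hs4 i (Finset.mem_range.2 hi))).trans (measure_mono ?_)
    rintro x ⟨hxQ, hx⟩
    refine ⟨hxQ, ?_⟩
    -- some index of J
    obtain ⟨j, hj, hjx⟩ : ∃ j ∈ J, μ / 2 < ‖ev lam (s • x) (f j)‖ := by
      by_contra hcon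
      push Not at hcon
      exact absurd hx (not_lt.2 (weak_sup lam J f W (s • x) (μ / 2) (by positivity) (h5 _) hcon))
    refine ⟨s * R j, Finset.mem_image_of_mem _ hj, ?_⟩
    have hI := weak_I (K := K) (lam := lam) (p := p) (g := g) (f := f j) (r := R j) hs0
      hχ.continuous hχc hχ2 A (hs1 j hj) (hsub j hj) x
    rw [hI, norm_mul, norm_mul, norm_mul, norm_ee, one_mul, Complex.norm_real,
      Real.norm_of_nonneg (inv_nonneg.2 hApos.le)]
    have h7 := hχκ x (hballs i hi x hxQ)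
    have h8 : κ0 / (2 * √a) * μ / √Sg = A⁻¹ * (κ0 * (μ / 2)) := by
      rw [hA]; field_simp
    rw [h8]
    refine mul_lt_mul_of_pos_left ?_ (inv_pos.2 hApos)
    calc κ0 * (μ / 2) < κ0 * ‖ev lam (s • x) (f j)‖ := mul_lt_mul_of_pos_left hjx hκ0
      _ ≤ ‖trX χ x‖ * ‖ev lam (s • x) (f j)‖ := mul_le_mul_of_nonneg_right h7 (norm_nonneg _)

end Pool.Agent.H311.CB
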