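import Pool.Agent.H311.CB.AeDiv
import Pool.Agent.H311.CB.Series
import Pool.Agent.H311.CB.Density
import Pool.Agent.H311.CB.Glide
import Pool.Agent.H311.CB.Opn
import Pool.Agent.H311.CB.Chi
import Pool.Agent.H311.CB.Riem
import Pool.Agent.H311.CB.Weak
import Pool.Agent.H311.CB.Supb
import Pool.Agent.H311.CB.HumpL
import Pool.Agent.H311.CB.Lim1
import Pool.Agent.H311.CB.Lim2
import Pool.Agent.H311.CB.Lim3
import Pool.Agent.H311.CB.NoFM

/-!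
# Almost everywhere divergence for typical and for smooth convex bodies
-/

set_option autoImplicit false

open MeasureTheory Metric Set Filter Topology
open scoped ENNReal NNReal Real RealInnerProductSpace ContDiff Pointwise

namespace Pool.Agent.H311.CB

open Pool.Agent.H311.PM

theorem humpL : S_hump := hump (weak chi riem) supb

theorem typical_ae (k : ℕ) :
    IsMeagre {K : ConvexBody (E (k + 3)) | ¬ AeDiv (K : Set (E (k + 3)))} :=
  meagre_not_aeDiv poly cone vertex humpL (lim1 poly) lim2 opn density glide fine k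

theorem smooth_ae (k : ℕ) {ε : ℝ} (hε : 0 < ε) :
    ∃ Θ : E (k + 3) → ℝ, ContDiff ℝ ∞ Θ ∧ ConvexOn ℝ univ Θ ∧
      (∀ ζ : E (k + 3), ‖ζ‖ ≤ 2 → |Θ ζ - ‖ζ‖ ^ 2| ≤ ε ∧
        ∀ h : E (k + 3), |fderiv ℝ Θ ζ h - 2 * ⟪ζ, h⟫| ≤ ε * ‖h‖) ∧
      {ζ | Θ ζ ≤ 1} ⊆ closedBall 0 2 ∧
      (∀ ζ h : E (k + 3), (ζ 0 ≠ 0 ∨ ζ 1 ≠ 0) → h ≠ 0 →
        0 < iteratedDeriv 2 (fun t : ℝ => Θ (ζ + t • h)) 0) ∧
      AeDiv {ζ | Θ ζ ≤ 1} ∧
      ∀ C : ℝ≥0, ¬ FM (fun R : {R : ℝ // 0 < R} => (R : ℝ) • {ζ | Θ ζ ≤ 1}) C := by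
  obtain ⟨Θ, h1, h2, h3, h4, h5, h6⟩ :=
    smooth_body2 (series funs smoothsum terms) humpL (lim1 poly) lim3 cone2 k hε
  obtain ⟨t, ht⟩ := fine (k + 3)
  refine ⟨Θ, h1, h2, h3, h4, h5, ?_, ?_⟩
  · refine aeDiv_of_hump density glide ht (by norm_num : (0 : ℝ) < 1 / 40) (by norm_num : (0 : ℝ) < 2)
      h4 (h1.continuous.measurable measurableSet_Iic) ?_
    intro m
    exact h6 t ht.1 m m m
  · exact nofm (k + 3) _ (1 / 40) t (by norm_num) (ht.1 0) (fun M => h6 t ht.1 M 0 1)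

end Pool.Agent.H311.CB
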