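import Pool.Agent.H311.CB.Defs3

/-!
# Calculus for the smooth bodies
-/

set_option autoImplicit false

open MeasureTheory Metric Set Filter Topology
open scoped ENNReal NNReal Real RealInnerProductSpace ContDiff Pointwise

namespace Pool.Agent.H311.CB

open Pool.Agent.H311.PM

theorem iter2_nonneg {f : ℝ → ℝ} (hf : ContDiff ℝ ∞ f) (hc : ConvexOn ℝ univ f) (x : ℝ) :
    0 ≤ iteratedDeriv 2 f x := by
  rw [iteratedDeriv_succ, iteratedDeriv_one]
  have h1 : MonotoneOn (deriv f) univ := hc.monotoneOn_deriv fun y _ =>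
    (hf.differentiable (by simp)).differentiableAt
  have h2 : Monotone (deriv f) := monotoneOn_univ.1 h1
  exact Monotone.deriv_nonneg h2

theorem norm_sq_split {k : ℕ} (ζ : E (k + 3)) :
    ‖ζ‖ ^ 2 = ζ 0 ^ 2 + ζ 1 ^ 2 + ∑ i : Fin (k + 1), ζ i.succ.succ ^ 2 := by
  rw [EuclideanSpace.norm_sq_eq, Fin.sum_univ_succ, Fin.sum_univ_succ]
  simp only [Real.norm_eq_abs, sq_abs]
  rw [← add_assoc]
  rfl

theorem inner_split {k : ℕ} (ζ h : E (k + 3)) :
    ⟪ζ, h⟫ = ζ 0 * h 0 + ζ 1 * h 1 + ∑ i : Fin (k + 1), ζ i.succ.succ * h i.succ.succ := by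
  rw [PiLp.inner_apply, Fin.sum_univ_succ, Fin.sum_univ_succ]
  simp only [RCLike.inner_apply, conj_trivial]
  rw [← add_assoc]
  congr 1
  · congr 1
    · ring
    · exact mul_comm _ _
  · exact Finset.sum_congr rfl fun i _ => mul_comm _ _

/-- the function of two variables -/
noncomputable def PhiF (β : ℝ → ℝ) (S : ℝ × ℝ → ℝ) (ρ θ : ℝ) (z : ℝ × ℝ) : ℝ :=
  ρ ^ 2 * β ((z.1 ^ 2 + z.2 ^ 2) / ρ ^ 2) + θ * S z

theorem contDiff_PhiF {β : ℝ → ℝ} {S : ℝ × ℝ → ℝ} (hβ : ContDiff ℝ ∞ β) (hS : ContDiff ℝ ∞ S)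
    (ρ θ : ℝ) : ContDiff ℝ ∞ (PhiF β S ρ θ) := by
  unfold PhiF
  refine (contDiff_const.mul (hβ.comp ?_)).add (contDiff_const.mul hS)
  exact ((contDiff_fst.pow 2).add (contDiff_snd.pow 2)).div_const _

theorem contDiff_coord {N : ℕ} (i : Fin N) : ContDiff ℝ ∞ fun x : E N => x i :=
  (contDiff_piLp_apply (p := 2) (i := i) : ContDiff ℝ ∞ fun x : E N => x i)

theorem contDiff_theta {k : ℕ} {Φ : ℝ × ℝ → ℝ} (hΦ : ContDiff ℝ ∞ Φ) :
    ContDiff ℝ ∞ (theta (k := k) Φ) := by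
  unfold theta
  refine (hΦ.comp ((contDiff_coord 0).prodMk (contDiff_coord 1))).add ?_
  exact ContDiff.sum fun i _ => (contDiff_coord _).pow 2

theorem convexOn_sq : ConvexOn ℝ univ fun x : ℝ => x ^ 2 := by
  exact (Even.convexOn_pow (n := 2) even_two)

theorem convexOn_q : ConvexOn ℝ univ fun z : ℝ × ℝ => z.1 ^ 2 + z.2 ^ 2 := by
  refine ConvexOn.add ?_ ?_
  · exact convexOn_sq.comp_linearMap (LinearMap.fst ℝ ℝ ℝ)
  · exact convexOn_sq.comp_linearMap (LinearMap.snd ℝ ℝ ℝ)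

theorem convexOn_PhiF {β : ℝ → ℝ} {S : ℝ × ℝ → ℝ} (hβ : ConvexOn ℝ univ β) (hm : Monotone β)
    (hS : ConvexOn ℝ univ S) {ρ θ : ℝ} (hθ : 0 ≤ θ) : ConvexOn ℝ univ (PhiF β S ρ θ) := by
  unfold PhiF
  refine ConvexOn.add ?_ (hS.smul hθ)
  refine ConvexOn.smul (sq_nonneg ρ) ?_
  have h1 : ConvexOn ℝ univ fun z : ℝ × ℝ => (z.1 ^ 2 + z.2 ^ 2) / ρ ^ 2 := by
    have := convexOn_q.smul (c := (ρ ^ 2)⁻¹) (by positivity)
    refine this.congr fun z _ => ?_
    simp only [smul_eq_mul]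
    rw [div_eq_inv_mul]
  have h2 : ConvexOn ℝ ((fun z : ℝ × ℝ => (z.1 ^ 2 + z.2 ^ 2) / ρ ^ 2) '' univ) β := by
    refine hβ.subset (subset_univ _) ?_
    have hc : Continuous fun z : ℝ × ℝ => (z.1 ^ 2 + z.2 ^ 2) / ρ ^ 2 := by fun_prop
    have : IsPreconnected ((fun z : ℝ × ℝ => (z.1 ^ 2 + z.2 ^ 2) / ρ ^ 2) '' univ) :=
      isPreconnected_univ.image _ hc.continuousOn
    exact this.ordConnected.convex
  exact h2.comp h1 (hm.monotoneOn _)

theorem convexOn_theta {k : ℕ} {Φ : ℝ × ℝ → ℝ} (hΦ : ConvexOn ℝ univ Φ) :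
    ConvexOn ℝ univ (theta (k := k) Φ) := by
  unfold theta
  let L : E (k + 3) →ₗ[ℝ] ℝ × ℝ :=
    { toFun := fun ζ => (ζ 0, ζ 1)
      map_add' := fun _ _ => rfl
      map_smul' := fun _ _ => rfl }
  have h1 : ConvexOn ℝ univ fun ζ : E (k + 3) => Φ (ζ 0, ζ 1) := hΦ.comp_linearMap L
  refine ConvexOn.add h1 ?_
  have h2 : ∀ i : Fin (k + 1), ConvexOn ℝ univ fun ζ : E (k + 3) => ζ i.succ.succ ^ 2 := by
    intro i
    let l : E (k + 3) →ₗ[ℝ] ℝ :=
      { toFun := fun ζ => ζ i.succ.succ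
        map_add' := fun _ _ => rfl
        map_smul' := fun _ _ => rfl }
    exact convexOn_sq.comp_linearMap l
  have h3 : ∀ s : Finset (Fin (k + 1)), ConvexOn ℝ univ
      fun ζ : E (k + 3) => ∑ i ∈ s, ζ i.succ.succ ^ 2 := by
    intro s
    induction s using Finset.induction_on with
    | empty => simpa using convexOn_const (0 : ℝ) (convex_univ (𝕜 := ℝ) (E := E (k + 3)))
    | insert i s hi ih =>
      simp only [Finset.sum_insert hi]
      exact (h2 i).add ih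
  exact h3 Finset.univ

/-- restriction of a convex function to a line -/
theorem convexOn_line {V : Type*} [AddCommGroup V] [Module ℝ V] {f : V → ℝ}
    (hf : ConvexOn ℝ univ f) (z h : V) : ConvexOn ℝ univ fun t : ℝ => f (z + t • h) := by
  have := hf.comp_affineMap (AffineMap.lineMap z (z + h) : ℝ →ᵃ[ℝ] V)
  refine this.congr fun t _ => ?_
  simp only [Function.comp_apply, AffineMap.lineMap_apply]
  congr 1
  simp [add_comm]


theorem two_le_inf : ((2 : ℕ) : WithTop ℕ∞) ≤ (((⊤ : ℕ∞)) : WithTop ℕ∞) :=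
  WithTop.coe_le_coe.2 (le_top : ((2 : ℕ) : ℕ∞) ≤ ⊤)

theorem iter2_sq (a b : ℝ) : iteratedDeriv 2 (fun t : ℝ => (a + t * b) ^ 2) 0 = 2 * b ^ 2 := by
  have h1 : deriv (fun t : ℝ => (a + t * b) ^ 2) = fun t => 2 * (a + t * b) * b := by
    ext t
    have h : HasDerivAt (fun t : ℝ => (a + t * b) ^ 2) (2 * (a + t * b) * b) t := by
      have h2 : HasDerivAt (fun t : ℝ => a + t * b) b t := by
        simpa using ((hasDerivAt_id t).mul_const b).const_add a
      have h3 := h2.fun_pow 2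
      simpa using h3
    exact h.deriv
  rw [iteratedDeriv_succ, iteratedDeriv_one, h1]
  have h : HasDerivAt (fun t : ℝ => 2 * (a + t * b) * b) (2 * b ^ 2) 0 := by
    have h2 : HasDerivAt (fun t : ℝ => a + t * b) b 0 := by
      simpa using ((hasDerivAt_id (0 : ℝ)).mul_const b).const_add a
    have h3 := (h2.const_mul 2).mul_const b
    rw [show 2 * b ^ 2 = 2 * b * b by ring]
    exact h3
  exact h.deriv

/-- positivity of the second derivatives of `theta` -/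
theorem theta_hess {k : ℕ} {β : ℝ → ℝ} {S : ℝ × ℝ → ℝ} (hβs : ContDiff ℝ ∞ β)
    (hβ : ConvexOn ℝ univ β) (hm : Monotone β) (hSs : ContDiff ℝ ∞ S)
    (hSh : ∀ z : ℝ × ℝ, z ≠ 0 → ∀ h : ℝ × ℝ, h ≠ 0 →
        0 < iteratedDeriv 2 (fun t : ℝ => S (z + t • h)) 0) {ρ θ : ℝ} (hθ : 0 < θ)
    (ζ h : E (k + 3)) (hζ : (ζ 0, ζ 1) ≠ (0 : ℝ × ℝ)) (hh : h ≠ 0) :
    0 < iteratedDeriv 2 (fun t : ℝ => theta (PhiF β S ρ θ) (ζ + t • h)) 0 := by
  set z : ℝ × ℝ := (ζ 0, ζ 1) with hz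
  set w : ℝ × ℝ := (h 0, h 1) with hw
  have hlin : ContDiff ℝ ∞ fun t : ℝ => z + t • w :=
    contDiff_const.add (contDiff_id.smul contDiff_const)
  -- the three parts
  have hf1 : ContDiff ℝ ∞ fun t : ℝ => PhiF β (fun _ => 0) ρ 0 (z + t • w) :=
    (contDiff_PhiF hβs contDiff_const ρ 0).comp hlin
  have hf2 : ContDiff ℝ ∞ fun t : ℝ => S (z + t • w) := hSs.comp hlin
  have hf3 : ∀ i : Fin (k + 1), ContDiff ℝ ∞ fun t : ℝ =>
      (ζ i.succ.succ + t * h i.succ.succ) ^ 2 := fun i =>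
    (contDiff_const.add (contDiff_id.mul contDiff_const)).pow 2
  have hsum : (fun t : ℝ => theta (PhiF β S ρ θ) (ζ + t • h)) = fun t =>
      (PhiF β (fun _ => 0) ρ 0 (z + t • w) + θ * S (z + t • w)) +
        ∑ i : Fin (k + 1), (ζ i.succ.succ + t * h i.succ.succ) ^ 2 := by
    ext t
    unfold theta PhiF
    simp only [PiLp.add_apply, PiLp.smul_apply, smul_eq_mul]
    have h1 : z + t • w = (ζ 0 + t * h 0, ζ 1 + t * h 1) := rfl
    rw [h1]
    ring
  have hc1 : 0 ≤ iteratedDeriv 2 (fun t : ℝ => PhiF β (fun _ => 0) ρ 0 (z + t • w)) 0 :=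
    iter2_nonneg hf1 (convexOn_line
      (convexOn_PhiF hβ hm (convexOn_const (0 : ℝ) convex_univ) le_rfl) z w) 0
  have hc3 : ∀ s : Finset (Fin (k + 1)), iteratedDeriv 2 (fun t : ℝ =>
      ∑ i ∈ s, (ζ i.succ.succ + t * h i.succ.succ) ^ 2) 0 =
      ∑ i ∈ s, 2 * h i.succ.succ ^ 2 := by
    intro s
    induction s using Finset.induction_on with
    | empty =>
      simp only [Finset.sum_empty]
      rw [iteratedDeriv_succ, iteratedDeriv_one]
      simp
    | insert i s hi ih =>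
      simp only [Finset.sum_insert hi]
      rw [← ih, ← iter2_sq (ζ i.succ.succ) (h i.succ.succ)]
      exact iteratedDeriv_add ((hf3 i).contDiffAt.of_le two_le_inf)
        ((ContDiff.sum fun j _ => hf3 j).contDiffAt.of_le two_le_inf)
  rw [hsum]
  have e1 : iteratedDeriv 2 (fun t : ℝ => (PhiF β (fun _ => 0) ρ 0 (z + t • w) +
      θ * S (z + t • w)) + ∑ i : Fin (k + 1), (ζ i.succ.succ + t * h i.succ.succ) ^ 2) 0 =
      (iteratedDeriv 2 (fun t : ℝ => PhiF β (fun _ => 0) ρ 0 (z + t • w)) 0 +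
        θ * iteratedDeriv 2 (fun t : ℝ => S (z + t • w)) 0) +
        ∑ i : Fin (k + 1), 2 * h i.succ.succ ^ 2 := by
    rw [← hc3 Finset.univ, ← iteratedDeriv_const_mul θ (hf2.contDiffAt.of_le two_le_inf),
      ← iteratedDeriv_fun_add (hf1.contDiffAt.of_le two_le_inf)
        ((contDiff_const.mul hf2).contDiffAt.of_le two_le_inf)]
    exact iteratedDeriv_fun_add ((hf1.add (contDiff_const.mul hf2)).contDiffAt.of_le two_le_inf)
        ((ContDiff.sum fun j _ => hf3 j).contDiffAt.of_le two_le_inf)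
  rw [e1]
  have hs0 : 0 ≤ ∑ i : Fin (k + 1), 2 * h i.succ.succ ^ 2 :=
    Finset.sum_nonneg fun i _ => by positivity
  by_cases hw0 : w = 0
  · -- then another coordinate of `h` is nonzero
    have h0 : iteratedDeriv 2 (fun t : ℝ => S (z + t • w)) 0 = 0 := by
      rw [hw0]
      simp only [smul_zero, add_zero]
      rw [iteratedDeriv_succ, iteratedDeriv_one]
      simp
    rw [h0, mul_zero, add_zero]
    have h1 : 0 < ∑ i : Fin (k + 1), 2 * h i.succ.succ ^ 2 := by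
      refine lt_of_le_of_ne hs0 fun hcon => hh ?_
      have h2 := (Finset.sum_eq_zero_iff_of_nonneg (fun i _ => by positivity)).1 hcon.symm
      have h3 : ‖h‖ ^ 2 = 0 := by
        rw [norm_sq_split]
        have h4 : h 0 = 0 := congrArg Prod.fst hw0
        have h5 : h 1 = 0 := congrArg Prod.snd hw0
        rw [h4, h5]
        have h6 : ∑ i : Fin (k + 1), h i.succ.succ ^ 2 = 0 := by
          refine Finset.sum_eq_zero fun i hi => ?_
          have := h2 i hi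
          linarith
        rw [h6]
        norm_num
      exact norm_eq_zero.1 (pow_eq_zero_iff two_ne_zero |>.1 h3)
    linarith
  · have h1 := hSh z hζ w hw0
    have h2 : 0 < θ * iteratedDeriv 2 (fun t : ℝ => S (z + t • w)) 0 := mul_pos hθ h1
    linarith

end Pool.Agent.H311.CB
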