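import Pool.Agent.H311.PM.Asm

/-!
# Typical convex bodies: definitions and interfaces
-/

set_option autoImplicit false

open MeasureTheory Metric Set Filter Topology
open scoped ENNReal NNReal Real RealInnerProductSpace ContDiff Pointwise

namespace Pool.Agent.H311.CB

open Pool.Agent.H311.PM

/-- trigonometric polynomials with real coefficients in the variables `z_v`, `v ∈ ℕ` -/
abbrev TP := AddMonoidAlgebra ℝ (ℕ →₀ ℤ)

theorem ee_zero {N : ℕ} (x : E N) : ee x 0 = 1 := by simp [ee]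

theorem ee_add {N : ℕ} (x ξ η : E N) : ee x (ξ + η) = ee x ξ * ee x η := by
  unfold ee
  rw [← Complex.exp_add, inner_add_right]
  congr 1
  push_cast
  ring

/-- evaluation at `x ∈ ℝᴺ` of a trigonometric polynomial, when the monomial `n` has the
frequency `lam n ∈ ℝᴺ` -/
noncomputable def ev {N : ℕ} (lam : (ℕ →₀ ℤ) →+ E N) (x : E N) : TP →ₐ[ℝ] ℂ :=
  AddMonoidAlgebra.lift ℝ ℂ (ℕ →₀ ℤ)
    { toFun := fun n => ee x (lam n.toAdd)
      map_one' := by simp [ee_zero]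
      map_mul' := fun a b => by simp [ee_add] }

theorem ev_eq {N : ℕ} (lam : (ℕ →₀ ℤ) →+ E N) (x : E N) (g : TP) :
    ev lam x g = ∑ n ∈ g.coeff.support, (g.coeff n : ℂ) * ee x (lam n) := by
  unfold ev
  rw [AddMonoidAlgebra.lift_apply]
  simp [Finsupp.sum]

/-- (T1) TRANSFERENCE from `L²(ℝᴺ)` to trigonometric polynomials.

Paper proof. Let `S = g.coeff.support`, `h = ∑ i ∈ J, W i * f i`. Take a smooth `χ : E N → ℂ` with
compact support and `a = ∫ ‖χ‖² > 0` (a `ContDiffBump`, cf. `Pool.Agent.H311.PM.exists_chi`), support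
in `ball 0 ρ`. For `δ > 0` let `G ζ = ∑ n ∈ S, g.coeff n * χ ((ζ - lam n)/δ)`, smooth with compact
support. For small `δ` the supports of the summands are disjoint, so `∫⁻ ‖G‖ₑ² = δ^N a ∑ (g.coeff n)²`,
and each summand is supported in `𝒜 i` or in its complement; so
`I (𝒜 i) G x = ∑ n, (f i).coeff n * ∫ e(x·ζ) χ((ζ - lam n)/δ) dζ = δ^N X(δ x) ev lam x (f i)`, where
`X y = ∫ e(y·η) χ η dη`, `e = ee`. (The sum runs over `n ∈ S`; `(f i).coeff` vanishes outside `S`.)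
`FM 𝒜 C` gives `δ^(2N) ∫⁻ ‖X(δ x)‖² sup_i ‖ev lam x (f i)‖² ≤ C δ^N a ∑ (g.coeff n)²`, that is, for
the measure `dμ = δ^N ‖X(δ x)‖² / a dx` (a probability measure by Plancherel, cf.
`Pool.Agent.H311.PM.plancherel`), `∫ sup_i ‖ev lam x (f i)‖² dμ ≤ C ∑ (g.coeff n)²`. Since
`‖ev lam x h‖ ≤ ∑ ‖ev lam x (W i)‖ ‖ev lam x (f i)‖ ≤ sup_i ‖ev lam x (f i)‖` (`ev lam x` is an
algebra homomorphism), `(∫ ‖ev lam x h‖ dμ)² ≤ ∫ ‖ev lam x h‖² dμ ≤ C ∑ (g.coeff n)²`. Finally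
`∫ ev lam x h dμ = ∑ n, h.coeff n * (1/a) ∫ ‖X y‖² e(y·(lam n)/δ) dy` (substitution `y = δ x`), and as
`δ → 0` the terms with `lam n ≠ 0` tend to `0` by the Riemann-Lebesgue lemma
(`tendsto_integral_exp_inner_smul_cocompact`), the term `n = 0` is `h.coeff 0`. -/
def S_transfer : Prop :=
  ∀ (N : ℕ) (ι : Type) (𝒜 : ι → Set (E N)) (C : ℝ≥0), (∀ i, MeasurableSet (𝒜 i)) → FM 𝒜 C →
    ∀ (lam : (ℕ →₀ ℤ) →+ E N) (J : Finset ι) (g : TP) (f W : ι → TP),
      (∀ i ∈ J, ∀ n, ((f i).coeff n = g.coeff n ∧ lam n ∈ interior (𝒜 i)) ∨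
        ((f i).coeff n = 0 ∧ lam n ∈ interior (𝒜 i)ᶜ) ∨
        ((f i).coeff n = 0 ∧ g.coeff n = 0)) →
      (∀ n ∈ g.coeff.support, ∀ m ∈ g.coeff.support, lam n = lam m → n = m) →
      (∀ n ∈ (∑ i ∈ J, W i * f i).coeff.support, lam n = 0 → n = 0) →
      (∀ x : E N, ∑ i ∈ J, ‖ev lam x (W i)‖ ≤ 1) →
      ((∑ i ∈ J, W i * f i).coeff 0) ^ 2 ≤ C * ∑ n ∈ g.coeff.support, (g.coeff n) ^ 2

/-- (T2a) Convergence of convex bodies in the Hausdorff metric.

Paper proof. The frontier of `K0` is a null set (`Convex.addHaar_frontier`), so let `x ∉ frontier K0`.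
If `x ∉ K0`: `infDist x K0 = d > 0` and `dist (K j) K0 < d` eventually, so `x ∉ K j`. If
`x ∈ interior K0`, say `ball x r ⊆ K0`: if `x ∉ K j`, separate (`geometric_hahn_banach_point_closed`
or the nearest point projection): there is a unit vector `u` with `⟪u, y⟫ < ⟪u, x⟫` for all
`y ∈ K j`; the point `z = x + (r/2) u` is in `K0` and has distance at least `r/2` from `K j`, hence
`dist (K j) K0 ≥ r/2`, which fails for large `j`. -/
def S_conv : Prop :=
  ∀ (N : ℕ) (K : ℕ → ConvexBody (E N)) (K0 : ConvexBody (E N)), Tendsto K atTop (𝓝 K0) →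
    ∀ᵐ x : E N, ∀ᶠ j in atTop, (x ∈ (K j : Set (E N)) ↔ x ∈ (K0 : Set (E N)))

/-- (T2b) The space of convex bodies is a Baire space.

Paper proof. It is a complete metric space: the map from `ConvexBody` to
`TopologicalSpace.NonemptyCompacts` (Hausdorff metric, complete in Mathlib) is an isometry whose
range (the convex sets) is closed: if `K j → K` in Hausdorff distance, `K j` convex,
`x, y ∈ K`, choose `x j, y j ∈ K j` with `x j → x`, `y j → y`; then `t x j + (1-t) y j ∈ K j` and its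
limit is in `K`. (One can also prove directly that Cauchy sequences converge.) -/
def S_baire : Prop := ∀ N : ℕ, BaireSpace (ConvexBody (E N))

/-- sublinear functions of two variables -/
structure Sublin (ψ : ℝ → ℝ → ℝ) : Prop where
  hom : ∀ t : ℝ, 0 ≤ t → ∀ x y, ψ (t * x) (t * y) = t * ψ x y
  sub : ∀ x y x' y', ψ (x + x') (y + y') ≤ ψ x y + ψ x' y'
  bdd : ∃ M : ℝ, ∀ x y, |ψ x y| ≤ M * (|x| + |y|)

/-- (T2c) Convex bodies with a prescribed vertex are dense.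

Paper proof. Let `K1 = K + closedBall 0 (ε/4)` (convex, compact, nonempty interior;
`dist K K1 ≤ ε/4`). Take a point `x1 ≠ 0` of `K1`, `u = x1/‖x1‖`, `l = ⟪u, ·⟫` and
`h = max_{K1} l ≥ ‖x1‖ > 0`, attained at `x0`. Let `ball z0 ρ ⊆ K1`, so `l z0 ≤ h - ρ/2`. Let `D` be the
diameter of `K1`. Let `0 < η < h` be small. The point `p = (1-s) x0 + s z0` is in the interior of `K1`
for `0 < s ≤ 1` and `l p > h - η` for small `s`; so `l p > 0`. Since `k + 3 ≥ 3` there are orthonormal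
vectors `α, β` orthogonal to `p`; put `a = c ⟪α, ·⟫`, `b = c ⟪β, ·⟫` with `c > 0` so small that
`|ψ (a x) (b x)| ≤ η` on `K1` (`Sublin.bdd`). `a, b, l` are linearly independent since `l p ≠ 0` and
`a p = b p = 0`. Put `K' = {x ∈ K1 | l (x - p) + ψ (a x) (b x) ≤ 0}`; it is convex (`ψ` is
sublinear, so `x ↦ ψ (a x) (b x)` is convex), closed (continuity of `ψ`: `ψ` is convex and
finite, or from `hom`, `sub`, `bdd`: `|ψ(x,y) - ψ(x',y')| ≤ M(|x-x'|+|y-y'|)`), and near `p`, an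
interior point of `K1`, it is as required. `dist K1 K'` is small: for `x ∈ K1` put
`x' = x + t (z0 - x)`, `t = 4η/ρ ≤ 1`; `l x' ≤ (1-t) h + t (h - ρ/2) = h - 2η ≤ l p - η`, so `x' ∈ K'`
(also `K'` is nonempty), and `‖x - x'‖ ≤ t D ≤ 4ηD/ρ`. Choose `η` so that this is `≤ ε/4`. -/
def S_vertex : Prop :=
  ∀ (k : ℕ) (ψ : ℝ → ℝ → ℝ), Sublin ψ → ∀ (K : ConvexBody (E (k + 3))) (ε : ℝ), 0 < ε →
    ∃ (K' : ConvexBody (E (k + 3))) (p : E (k + 3)) (l a b : E (k + 3) →L[ℝ] ℝ),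
      dist K K' < ε ∧ l p ≠ 0 ∧ a p = 0 ∧ b p = 0 ∧ LinearIndependent ℝ ![a, b, l] ∧
      ∀ᶠ x in 𝓝 p, (x ∈ (K' : Set (E (k + 3))) ↔ l (x - p) + ψ (a x) (b x) ≤ 0)

/-- (T3) Laurent polynomials close to the sign of the cosine.

Paper proof. Let `q x = (3x - x³)/2`; it maps `[-1,1]` into itself, is odd, and `|q x| ≥ |x|`,
`x q x ≥ x²` there. Let `Q m` be the `m`-th iterate (a polynomial) and `c = Q m (X)` in the
algebra `AddMonoidAlgebra ℝ ℤ`, where `X = (T + T⁻¹)/2` (`T = single 1 1`, `T⁻¹ = single (-1) 1`), so that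
the evaluation at `z = e^{iθ}` is `Q m (cos θ)`, of absolute value `≤ 1`. The symmetry
`c.coeff (-n) = c.coeff n` holds since `X` is fixed by the automorphism `n ↦ -n`. By orthogonality
`∑ c_n² = (1/2π) ∫ (Q m (cos θ))² dθ → 1` as `m → ∞`, by dominated convergence: for
`x ∈ [-1,1]`, `x ≠ 0`, the sequence `|Q m x|` is nondecreasing and its limit `y ∈ (0,1]` satisfies
`q y = y`, so `y = 1`. Finally `c.coeff 1 = (1/2π) ∫ Q m (cos θ) cos θ dθ ≥ (1/2π) ∫ cos² θ dθ = 1/2`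
(the coefficients are real and symmetric). -/
def S_poly : Prop :=
  ∀ ε : ℝ, 0 < ε → ∃ c : AddMonoidAlgebra ℝ ℤ, (∀ n, c.coeff (-n) = c.coeff n) ∧
    (∀ z : ℂ, ‖z‖ = 1 → ‖∑ n ∈ c.coeff.support, (c.coeff n : ℂ) * z ^ n‖ ≤ 1) ∧
    1 / 2 ≤ c.coeff 1 ∧ 1 - ε ≤ ∑ n ∈ c.coeff.support, (c.coeff n) ^ 2

end Pool.Agent.H311.CB
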