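import Pool.Agent.H311.CB.Defs

/-!
# Typical convex bodies: the cone, and the blow-up at a vertex
-/

set_option autoImplicit false

open MeasureTheory Metric Set Filter Topology
open scoped ENNReal NNReal Real RealInnerProductSpace ContDiff Pointwise

namespace Pool.Agent.H311.CB

open Pool.Agent.H311.PM

/-- (T4) THE CONE. The order of lacunary characters may be prescribed by a sublinear function.

Paper proof. Let `S = ∑_{v<M} t v`. Let `Q ≥ 1` be a large real number (depending on `M, K, S`).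
`lam i = 2 t i / Q^i ≥ 0`, `h i (x,y) = lam i ((i + 1/2) x - y)`, `g j = - ∑_{i<j} h i` (linear
functionals on `ℝ²`), `ψ = max_{j ≤ M} g j` (for example `Finset.sup'` over `range (M+1)`; sublinear,
bounded as required). `ξ a = (Q^a, a Q^a)`, `τ a = t a - g a (ξ a)`, `Z a` has the coordinates
`(Q^a, a Q^a, τ a, 0, …, 0)`. For `i, a`: `h i (ξ a) = lam i Q^a (i - a + 1/2)`; so `h a (ξ a) = t a`, and
for `i > a`: `0 ≤ h i (ξ a) ≤ 2 t i (i - a + 1/2) / Q ≤ 2 S (M+1) / Q`.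
First claim. Let `v < M`, `n v = 1`, `n w = 0` for `w > v`, `|n a| ≤ K`, and
`(X, Y) = ∑_{a<M} n a • ξ a`. Then `(i + 1/2) X - Y = ∑_{a≤v} n a Q^a (i + 1/2 - a)`, the term `a = v` is
`(i + 1/2 - v) Q^v`, of absolute value `≥ Q^v/2`, and the sum of the others is at most
`K M (M+1) Q^(v-1) ≤ Q^v/2` in absolute value (`i ≤ M`) if `Q ≥ 2 K M (M+1)`. So `h i (X,Y) ≥ 0` for
`v ≤ i ≤ M` and `h i (X,Y) ≤ 0` for `i < v`; hence `g j (X,Y)` increases for `j ≤ v` and decreases for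
`j ≥ v`: `ψ (X,Y) = g v (X,Y)`. So the quantity is `∑_{a≤v} n a (τ a + g v (ξ a))`, where
`τ a + g v (ξ a) = t a - ∑_{a≤i<v} h i (ξ a)` equals `t v` for `a = v` and `- ∑_{a<i<v} h i (ξ a)` for
`a < v`, of absolute value `≤ 2 S M (M+1) / Q`. Total error `≤ 2 S K M² (M+1) / Q ≤ 1/4`.
Second claim. If `n ≠ 0` on `range M`, let `v` be the largest index `< M` with `n v ≠ 0`; the coordinate
`0` of the sum is `∑_{a≤v} n a Q^a`, of absolute value `≥ Q^v - 2 K M Q^(v-1) > 0` if `Q > 2 K M`. -/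
def S_cone : Prop :=
  ∀ (k M K : ℕ) (t : ℕ → ℝ), (∀ v, 0 < t v) → ∃ (ψ : ℝ → ℝ → ℝ) (Z : ℕ → E (k + 3)), Sublin ψ ∧
    (∀ v < M, ∀ n : ℕ → ℤ, n v = 1 → (∀ w, v < w → n w = 0) → (∀ a, |n a| ≤ K) →
      |(∑ a ∈ Finset.range M, n a • Z a) 2 + ψ ((∑ a ∈ Finset.range M, n a • Z a) 0)
        ((∑ a ∈ Finset.range M, n a • Z a) 1) - t v| ≤ 1 / 4) ∧
    (∀ n : ℕ → ℤ, (∀ a, |n a| ≤ 2 * K) → ∑ a ∈ Finset.range M, n a • Z a = 0 →
      ∀ a < M, n a = 0)

/-- (T2d) BLOW-UP AT A VERTEX. Compare `Pool.Agent.H311.PM.blow` in `Pool/Agent/H311/PM/Asm.lean`, whose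
proof has the same structure.

Paper proof. Since `a, b, l` are linearly independent there is a linear isomorphism `T` of `E (k+3)`
with `a (T ζ) = ζ 0`, `b (T ζ) = ζ 1`, `l (T ζ) = ζ 2` (extend `a, b, l` to a basis of the dual
space; or: the map `(a, b, l)` to `ℝ³` is onto, choose preimages `e0, e1, e2` of the unit vectors and
extend them by a basis of its kernel, cf. `Pool.Agent.H311.PM.exists_basis`). Let `δ = 1/(j+1)` and
`R = 1 + δ r / l p`, which is positive for large `j` (use the value `1` otherwise). The set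
`B j r = {ζ | p + T (δ • ζ) ∈ R • K'}` has `FM (B j) C` by `FM.comp`, `FM.translate`, `FM.linear`
(in `Pool/Agent/H311/PM/Basic.lean`, `Schw.lean`) and the limit is
`{ζ | ζ 2 + ψ (ζ 0) (ζ 1) ≤ r}` for EVERY `ζ` (`FM.of_tendsto`): for large `j` the point
`x = R⁻¹ • (p + δ • T ζ)` is in the neighbourhood of `p`, and
`R (l (x - p) + ψ (a x) (b x)) = l (p + δ T ζ) - R l p + ψ (δ ζ 0) (δ ζ 1)
= δ (ζ 2 - r + ψ (ζ 0) (ζ 1))` (`a p = b p = 0`, homogeneity). The sets are measurable since `ψ` is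
continuous (`|ψ(x,y) - ψ(x',y')| ≤ M(|x-x'|+|y-y'|)` by `sub` and `bdd`). -/
def S_blow : Prop :=
  ∀ (k : ℕ) (ψ : ℝ → ℝ → ℝ), Sublin ψ → ∀ (K' : Set (E (k + 3))), MeasurableSet K' →
    ∀ (p : E (k + 3)) (l a b : E (k + 3) →L[ℝ] ℝ), l p ≠ 0 → a p = 0 → b p = 0 →
      LinearIndependent ℝ ![a, b, l] →
      (∀ᶠ x in 𝓝 p, (x ∈ K' ↔ l (x - p) + ψ (a x) (b x) ≤ 0)) →
      ∀ C : ℝ≥0, FM (fun R : {R : ℝ // 0 < R} => (R : ℝ) • K') C →
        FM (fun r : ℝ => {ζ : E (k + 3) | ζ 2 + ψ (ζ 0) (ζ 1) ≤ r}) C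

end Pool.Agent.H311.CB
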