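import Pool.Agent.H311.CB.Lower
import Pool.Agent.H311.CB.Transfer
import Pool.Agent.H311.CB.Blow2

/-!
# Almost everywhere divergence: definitions and interfaces

Goal: for a typical convex body `K` of `ℝᵈ`, `d ≥ 3`, and for the smooth bodies of `Smooth.lean`,
there is `G ∈ L²` such that `I (R • K) G x` is unbounded as `R → ∞` for almost every `x`.
(`Pool.Agent.H311.PM.I`, `ee`: see `Pool/Agent/H311/PM/Basic.lean`.)
-/

set_option autoImplicit false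

open MeasureTheory Metric Set Filter Topology
open scoped ENNReal NNReal Real RealInnerProductSpace ContDiff Pointwise

namespace Pool.Agent.H311.CB

open Pool.Agent.H311.PM

/-- a function of norm at most `1`, vanishing on the ball of radius `ρ`, with partial integrals
larger than `M` on more than the proportion `c` of each of the first `m` balls of the list `t` -/
def Hump {N : ℕ} (K : Set (E N)) (c M ρ : ℝ) (t : ℕ → E N × ℝ) (m : ℕ) : Prop :=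
  ∃ (G : E N → ℂ) (F : Finset ℝ), ContDiff ℝ ∞ G ∧ HasCompactSupport G ∧
    (∀ ξ, ‖ξ‖ < ρ → G ξ = 0) ∧ ∫⁻ ξ, ‖G ξ‖ₑ ^ 2 ≤ 1 ∧ (∀ R ∈ F, 0 < R) ∧
    ∀ i < m, ENNReal.ofReal c * volume (closedBall (t i).1 (t i).2) <
      volume {x | x ∈ closedBall (t i).1 (t i).2 ∧ ∃ R ∈ F, M < ‖I (R • K) G x‖}

/-- a list of balls which contains arbitrarily small balls around every point -/
def Fine {N : ℕ} (t : ℕ → E N × ℝ) : Prop :=
  (∀ i, 0 < (t i).2) ∧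
    ∀ x : E N, ∀ ε : ℝ, 0 < ε → ∃ i, (t i).2 < ε ∧ x ∈ closedBall (t i).1 (t i).2

/-- (G1) There is a fine list of balls.

Paper proof. Enumerate the pairs `(denseSeq a, 1/(b+1))`, `(a, b) ∈ ℕ × ℕ` (`Nat.unpair`). -/
def S_fine : Prop := ∀ N : ℕ, ∃ t : ℕ → E N × ℝ, Fine t

/-- (G2) DENSITY. If the sets `A k` eventually fill a fixed proportion of each ball of a fine list,
almost every point is in infinitely many of them.

Paper proof. Let `S n = ⋂_{k ≥ n} (A k)ᶜ`; the complement of the conclusion is `⋃ S n`, so let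
`0 < volume (S n)`. By the Lebesgue density theorem for balls which need not be centred
(`IsUnifLocDoublingMeasure.ae_tendsto_measure_inter_div`, with `K = 1`) there is `x ∈ S n` such that
`volume (S n ∩ closedBall (w j) (δ j)) / volume (closedBall (w j) (δ j)) → 1` whenever `δ j → 0+` and
`x ∈ closedBall (w j) (δ j)`. Choose for `j` an index `i j` with `(t (i j)).2 < 1/(j+1)` and
`x ∈ closedBall (t (i j)).1 (t (i j)).2`. But for every `i`, taking some `k ≥ n` large enough,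
`volume (S n ∩ Q i) ≤ volume (Q i \ A k) ≤ (1 - c) volume (Q i)`, `Q i = closedBall (t i).1 (t i).2`.
Contradiction. -/
def S_density : Prop :=
  ∀ (N : ℕ) (t : ℕ → E N × ℝ), Fine t → ∀ c : ℝ, 0 < c → ∀ A : ℕ → Set (E N),
    (∀ k, MeasurableSet (A k)) →
    (∀ i, ∀ᶠ k in atTop, ENNReal.ofReal c * volume (closedBall (t i).1 (t i).2) ≤
      volume (A k ∩ closedBall (t i).1 (t i).2)) →
    ∀ᵐ x : E N, ∃ᶠ k in atTop, x ∈ A k

/-- (G3) GLIDING HUMP.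

Paper proof. (a) For real `M, ρ` and `k : ℕ` take a natural number `m ≥ max M, ρ, k`; `Hump K c m m t m`
gives `(G, F)` with all the properties for `M, ρ` and the first `k` balls. So choose functions
`g k ρ` (smooth, compact support, `∫⁻ ‖g k ρ‖ₑ² ≤ 1`, vanishing on `‖ξ‖ < ρ`), `F k ρ` (finite subset of
`(0, ∞)`) with
`ENNReal.ofReal c * volume Q i ≤ volume {x ∈ Q i | ∃ R ∈ F k ρ, 2^k (k + 1 + k ρ) < ‖I (R • K) (g k ρ) x‖}`
for `i < k`. (b) Choose `Φ k ρ ≥ ρ + 1` such that `g k ρ ξ = 0` for `‖ξ‖ ≥ Φ k ρ`, `r₁ * R ≤ Φ k ρ` (even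
`r₁ * R < Φ k ρ`) for `R ∈ F k ρ` and `∫ ‖g k ρ‖ ≤ Φ k ρ`. Put `ρ 0 = 1`, `ρ (k+1) = max (Φ k (ρ k)) (r₁ (k + 2))`
(so that `r₁ k < ρ k` for all `k`; start with `ρ 0 = 1`, fine since `r₁ * 0 < 1`). Write `G k = g k (ρ k)`,
`F k = F k (ρ k)`; `G k` is supported in `ρ k ≤ ‖ξ‖ < ρ (k+1)`, so at each `ξ` at most one `G k ξ` is nonzero.
(c) `G ξ = ∑' k, 2^(-k) G k ξ`. `‖G ξ‖ₑ² = ∑' k, ‖2^(-k) G k ξ‖ₑ²` (one nonzero term), so
`∫⁻ ‖G‖ₑ² = ∑' 4^(-k) ∫⁻ ‖G k‖ₑ² < ∞` and `MemLp G 2`; `G` is measurable (pointwise limit of the partial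
sums, or it is a locally finite sum of continuous functions, so continuous).
(d) Let `A k = {x | ∃ R ∈ F k, 2^k (k + 1 + k ρ k) < ‖I (R • K) (G k) x‖}` (open, as `I (R • K) (G k)` is
continuous: `continuous_I`). Let `x ∈ A k`, with `R ∈ F k`. `R • K ⊆ closedBall 0 (R r₁)`. Since
`I (R • K) (G k) x ≠ 0` we have `ρ k ≤ R r₁` and so `R ≥ ρ k / r₁ ≥ k`. For `j > k`, `G j` vanishes on `R • K`,
since `R r₁ < ρ (k+1) ≤ ρ j`. So on `R • K`, `G = ∑_{j ≤ k} 2^(-j) G j` and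
`I (R • K) G x = ∑_{j ≤ k} 2^(-j) I (R • K) (G j) x`, where `‖I (R • K) (G j) x‖ ≤ ∫ ‖G j‖ ≤ ρ (j+1) ≤ ρ k` for
`j < k`. Hence `‖I (R • K) G x‖ ≥ 2^(-k) 2^k (k + 1 + k ρ k) - k ρ k > k`. -/
def S_glide : Prop :=
  ∀ (N : ℕ) (t : ℕ → E N × ℝ) (c : ℝ) (K : Set (E N)) (r₁ : ℝ), 0 < r₁ → K ⊆ closedBall 0 r₁ →
    MeasurableSet K → (∀ m : ℕ, Hump K c m m t m) →
    ∃ (G : E N → ℂ) (A : ℕ → Set (E N)), MemLp G 2 ∧ (∀ k, MeasurableSet (A k)) ∧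
      (∀ i, ∀ᶠ k in atTop, ENNReal.ofReal c * volume (closedBall (t i).1 (t i).2) ≤
        volume (A k ∩ closedBall (t i).1 (t i).2)) ∧
      ∀ k : ℕ, ∀ x ∈ A k, ∃ R : ℝ, (k : ℝ) ≤ R ∧ (k : ℝ) < ‖I (R • K) G x‖

/-- (G4) The property `Hump` is open with respect to the Hausdorff metric.

Paper proof. The same `(G, F)` works. For `R ∈ F` and all `x`, `I (R • K j) G x → I (R • K0) G x`
(`Pool.Agent.H311.PM.tendsto_I`, with `conv` (file `Conv.lean`), and `ae_dil`, `meas_dil` as in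
`isClosed_good` in `Typical.lean`). Let `B j = {x ∈ Q i | ∃ R ∈ F, M < ‖I (R • K j) G x‖}`, `B` the same set for `K0`;
`x ∈ B` implies `x ∈ B j` for all large `j`, so by Fatou (`lintegral_liminf_le` for the indicators, or
`measure_liminf`-type lemmas) `volume B ≤ liminf volume (B j)`, and
`ENNReal.ofReal c * volume (Q i) < volume B` gives the inequality for all large `j`, for each of the
finitely many `i < m`. -/
def S_open : Prop :=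
  ∀ (N : ℕ) (c M ρ : ℝ) (t : ℕ → E N × ℝ) (m : ℕ) (K : ℕ → ConvexBody (E N))
    (K0 : ConvexBody (E N)), Tendsto K atTop (𝓝 K0) → Hump (K0 : Set (E N)) c M ρ t m →
    ∀ᶠ j in atTop, Hump (K j : Set (E N)) c M ρ t m

/-- (G5) A bump whose transform is large on a given ball.

Paper proof. Let `b` be a real `ContDiffBump` at `0` with outer radius `r < min 2 (1/(8 (R0 + 1)))`,
`χ = b`. For `‖x‖ ≤ R0` and `b η ≠ 0`: `|2π ⟪x, η⟫| ≤ π/4`, so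
`Re (trX χ x) = ∫ cos (2π ⟪x, η⟫) b η ≥ (1/2) ∫ b > 0`. -/
def S_chi : Prop :=
  ∀ (N : ℕ) (R0 : ℝ), 0 ≤ R0 → ∃ (χ : E N → ℂ) (κ : ℝ), ContDiff ℝ ∞ χ ∧ HasCompactSupport χ ∧
    (∀ x, χ x ≠ 0 → ‖x‖ < 2) ∧ 0 < κ ∧ (∀ x, ‖x‖ ≤ R0 → κ ≤ ‖trX χ x‖) ∧
    (∫⁻ s, ‖χ s‖ₑ ^ 2) ≠ 0 ∧ (∫⁻ s, ‖χ s‖ₑ ^ 2) ≠ ⊤

/-- (G6) Riemann-Lebesgue on a ball.

Paper proof. `ev lam (s • x) h = ∑ n ∈ h.coeff.support, h.coeff n * ee x (s • lam n)` (`ev_eq`). The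
integral over the ball of the term `n = 0` is `h.coeff 0 * volume`; for `n ≠ 0`, `lam n ≠ 0` and
`∫_Q ee x (s • lam n) dx → 0` as `s → ∞` by the Riemann-Lebesgue lemma for the indicator of `Q`
(`tendsto_integral_exp_inner_smul_cocompact`, and `‖s • lam n‖ → ∞`; see how `Transfer.lean` uses it). -/
def S_riem : Prop :=
  ∀ (N : ℕ) (lam : (ℕ →₀ ℤ) →+ E N) (h : TP), (∀ n ∈ h.coeff.support, lam n = 0 → n = 0) →
    ∀ (x0 : E N) (r : ℝ), Tendsto (fun s : ℝ => ∫ x in closedBall x0 r, ev lam (s • x) h) atTop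
      (𝓝 ((h.coeff 0 : ℂ) * (volume (closedBall x0 r)).toReal))

/-- (G7) WEAK TYPE TRANSFERENCE (assume `S_chi` and `S_riem` as hypotheses:
`theorem weak (hχ : S_chi) (hR : S_riem) : S_weak`).

Paper proof. Let `R0` be such that the first `m` balls are contained in `closedBall 0 R0`; take `χ, κ0`
from `S_chi`, `a = ∫ ‖χ‖²`, `κ = κ0/(2 √a)`. Let `S = g.coeff.support`, `h = ∑ i ∈ J, W i * f i`,
`P n = p + lam n`. For `s > 0` large let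
`G ζ = A⁻¹ ∑_{n ∈ S} g.coeff n * χ (ζ - s • P n)`, `A = √(a ∑ (g.coeff n)²)`; for `s` large the points
`s • P n` are `4`-separated, so `∫⁻ ‖G‖ₑ² = 1` (`transfer_norm`), and have norm `≥ ρ + 2`
(`P n ≠ 0`), so `G` vanishes on `‖ξ‖ < ρ`; `F = {s * R i | i ∈ J}`. If `P n ∈ interior (R i • K)` then
`ball (P n) r ⊆ R i • K` for some `r > 0` and `ball (s • P n) 2 ⊆ (s * R i) • K` for `s ≥ 2/r`; the same for
the complement. So (`transfer_I_in`, `transfer_I_out`, `transfer_I_sum`)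
`I ((s * R i) • K) G x = A⁻¹ ∑_n (f i).coeff n * ee x (s • P n) * trX χ x
= A⁻¹ * trX χ x * ee x (s • p) * ev lam (s • x) (f i)`, of norm `A⁻¹ ‖trX χ x‖ ‖ev lam (s • x) (f i)‖`.
Let `Q` be one of the balls. By `S_riem`, for `s` large `‖∫_Q ev lam (s • x) h‖ ≥ (3/4) μ |Q|`,
`μ = h.coeff 0`. For all `y`, `‖ev lam y h‖ ≤ ∑ ‖ev lam y (W i)‖ ‖ev lam y (f i)‖ ≤ sup_i ‖ev lam y (f i)‖ ≤ B`.
With `D = {x ∈ Q | μ/2 < ‖ev lam (s • x) h‖}`: `(3/4) μ |Q| ≤ (μ/2) |Q| + B |D|`, so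
`|D| ≥ μ/(4B) |Q|`. For `x ∈ D` there is `i ∈ J` with `‖ev lam (s • x) (f i)‖ > μ/2`, and then
`‖I ((s * R i) • K) G x‖ > A⁻¹ κ0 μ/2 = κ μ / √(∑ (g.coeff n)²)`. -/
def S_weak : Prop :=
  ∀ (N : ℕ) (t : ℕ → E N × ℝ) (m : ℕ), (∀ i, 0 < (t i).2) → ∃ κ : ℝ, 0 < κ ∧
    ∀ (K : Set (E N)) (lam : (ℕ →₀ ℤ) →+ E N) (p : E N) (J : Finset ℕ) (R : ℕ → ℝ) (g : TP)
      (f W : ℕ → TP) (B : ℝ), (∀ i ∈ J, 0 < R i) →
      (∀ i ∈ J, ∀ n, ((f i).coeff n = g.coeff n ∧ p + lam n ∈ interior (R i • K)) ∨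
        ((f i).coeff n = 0 ∧ p + lam n ∈ interior (R i • K)ᶜ) ∨
        ((f i).coeff n = 0 ∧ g.coeff n = 0)) →
      (∀ n ∈ g.coeff.support, ∀ n' ∈ g.coeff.support, lam n = lam n' → n = n') →
      (∀ n ∈ (∑ i ∈ J, W i * f i).coeff.support, lam n = 0 → n = 0) →
      (∀ n ∈ g.coeff.support, p + lam n ≠ 0) →
      (∀ x : E N, ∑ i ∈ J, ‖ev lam x (W i)‖ ≤ 1) →
      0 < B → (∀ i ∈ J, ∀ x, ‖ev lam x (f i)‖ ≤ B) →
      0 < (∑ i ∈ J, W i * f i).coeff 0 → 0 < ∑ n ∈ g.coeff.support, (g.coeff n) ^ 2 →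
      ∀ ρ : ℝ, ∃ (G : E N → ℂ) (F : Finset ℝ), ContDiff ℝ ∞ G ∧ HasCompactSupport G ∧
        (∀ ξ, ‖ξ‖ < ρ → G ξ = 0) ∧ ∫⁻ ξ, ‖G ξ‖ₑ ^ 2 ≤ 1 ∧ (∀ r ∈ F, 0 < r) ∧
        ∀ i < m, ENNReal.ofReal ((∑ i ∈ J, W i * f i).coeff 0 / (4 * B)) *
            volume (closedBall (t i).1 (t i).2) ≤
          volume {x | x ∈ closedBall (t i).1 (t i).2 ∧ ∃ r ∈ F,
            κ * (∑ i ∈ J, W i * f i).coeff 0 / √(∑ n ∈ g.coeff.support, (g.coeff n) ^ 2) <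
              ‖I (r • K) G x‖}

/-- the bound for Laurent polynomials on the circle -/
def Bdd1 (c : LP) : Prop :=
  ∀ z : ℂ, ‖z‖ = 1 → ‖∑ n ∈ c.coeff.support, (c.coeff n : ℂ) * z ^ n‖ ≤ 1

/-- (G8) The partial sums of the tree are bounded by the number of levels.

Paper proof. `ev lam x (W c v)` is real and nonnegative (`ev_W`), and
`∑ v ∈ Ico (2^k) (2^(k+1)), W c v = W c 1 = 1` (`leaf_sum`, as in `sum_ev_W`), so
`∑ v ∈ Ico 1 (2^L), ‖ev lam x (W c v)‖ = L` (sum over the levels `k < L`, induction on `L`, as in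
`total_eq`). `‖ev lam x (F c v)‖ = ‖ev lam x (W c v)‖ ‖ev lam x (jj v T1)‖ = ‖ev lam x (W c v)‖`
(`jj_single`, `norm_ee`), and `fC c L C` is a sum of some of the `F c v`, `v ∈ Ico 1 (2^L)`. -/
def S_sup : Prop :=
  ∀ (N : ℕ) (lam : (ℕ →₀ ℤ) →+ E N) (x : E N) (c : LP), Sym c → Bdd1 c → ∀ L C : ℕ,
    ‖ev lam x (fC c L C)‖ ≤ L

/-- the dilates of `K` order the frequencies of the tree with `L` levels as required -/
def Sim {N : ℕ} (K : Set (E N)) (L : ℕ) : Prop :=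
  ∃ (c : LP) (lam : (ℕ →₀ ℤ) →+ E N) (p : E N) (R : ℕ → ℝ), Sym c ∧ Bdd1 c ∧ 1 / 2 ≤ c.coeff 1 ∧
    1 - 1 / (L : ℝ) ≤ ∑ n ∈ c.coeff.support, (c.coeff n) ^ 2 ∧
    (∀ i ∈ Finset.Ico (2 ^ L) (2 ^ (L + 1)), 0 < R i ∧ ∀ n,
      ((fC c L i).coeff n = (gL c L).coeff n ∧ p + lam n ∈ interior (R i • K)) ∨
      ((fC c L i).coeff n = 0 ∧ p + lam n ∈ interior (R i • K)ᶜ) ∨
      ((fC c L i).coeff n = 0 ∧ (gL c L).coeff n = 0)) ∧
    (∀ n ∈ (gL c L).coeff.support, ∀ n' ∈ (gL c L).coeff.support, lam n = lam n' → n = n') ∧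
    (∀ n ∈ (∑ i ∈ Finset.Ico (2 ^ L) (2 ^ (L + 1)), W c i * fC c L i).coeff.support,
      lam n = 0 → n = 0) ∧
    ∀ n ∈ (gL c L).coeff.support, p + lam n ≠ 0

/-- (G9) FROM THE TREE TO HUMPS (`theorem hump (hW : S_weak) (hS : S_sup) : S_hump`).

Paper proof. Apply `S_weak` with `J = Ico (2^L) (2^(L+1))`, `g = gL c L`, `f = fC c L`, `W = W c`,
`B = L`. As in the proof of `exists_cone` (file `Lower.lean`, part `conclusion`), with
`G = ∑ v ∈ Ico 1 (2^L), M0 (W c v * W c v)`: `G ≥ L/2`, `∑ (g.coeff n)² = G` (`norm_eq`), and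
`(∑ W i * f i).coeff 0 = G * (c.coeff 1 / 2) ≥ G/4` (`mean_eq`). So the proportion is at least
`(G/4)/(4L) ≥ 1/32 > 1/40`, and the level is `κ G (c.coeff 1/2)/√G ≥ κ √G/4 ≥ κ √(L/2)/4 ≥ M` if `L ≥ L0`.
`∑ ‖ev lam x (W c i)‖ ≤ 1` is `sum_ev_W`. (The volumes of the balls are positive and finite.) -/
def S_hump : Prop :=
  ∀ (N : ℕ) (t : ℕ → E N × ℝ) (m : ℕ), (∀ i, 0 < (t i).2) → ∀ M : ℝ, ∃ L0 : ℕ, 0 < L0 ∧
    ∀ L, L0 ≤ L → ∀ K : Set (E N), Sim K L → ∀ ρ : ℝ, Hump K (1 / 40) M ρ t m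

/-- `K` has suitable blow-ups which converge to the sets `{ζ 2 + ψ (ζ 0) (ζ 1) ≤ r}`, in the sense of
interior points. -/
def LocLim {k : ℕ} (K : Set (E (k + 3))) (ψ : ℝ → ℝ → ℝ) : Prop :=
  ∃ (p : ℕ → E (k + 3)) (T : ℕ → E (k + 3) →ₗ[ℝ] E (k + 3)) (R : ℕ → ℝ → ℝ),
    (∀ j, Function.Injective (T j)) ∧ (∀ r, ∀ᶠ j in atTop, 0 < R j r) ∧
    (∀ ζ, ∀ᶠ j in atTop, p j + T j ζ ≠ 0) ∧
    (∀ (ζ : E (k + 3)) (r : ℝ), ζ 2 + ψ (ζ 0) (ζ 1) < r →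
      ∀ᶠ j in atTop, p j + T j ζ ∈ interior (R j r • K)) ∧
    (∀ (ζ : E (k + 3)) (r : ℝ), r < ζ 2 + ψ (ζ 0) (ζ 1) →
      ∀ᶠ j in atTop, p j + T j ζ ∈ interior (R j r • K)ᶜ)

/-- (G10) `LocLim` gives `Sim` (`theorem lim1 (hP : S_poly) : S_lim1`).

Paper proof. As for `exists_LK` (`Lower2.lean`; there the sets are `{ζ 2 + ψ (ζ 0) (ζ 1) ≤ i + 1/2}`
themselves). Take `c` from `S_poly` with `ε = 1/L`, `K0 = K1 + K2` the bounds for the exponents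
(`bound_exists`). Given `ψ, Z` with the windows and `K` with `LocLim K ψ`: for `n` in the support of
`gL c L`, say `(F c v).coeff n ≠ 0`, `|(lamZ Z n) 2 + ψ .. - pos L v| ≤ 1/4`, so for each
`i ∈ Ico (2^L) (2^(L+1))` the number is `< i + 1/2` if `pos L v ≤ i`, `> i + 1/2` otherwise. These are
finitely many conditions, so for some large `j` all `p j + T j (lamZ Z n)` are in the interior of
`R j (i + 1/2) • K` resp. of the complement, the radii are positive, and the points are `≠ 0`. Put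
`lam = T j ∘ lamZ Z`, `p = p j`, `R i = R j (i + 1/2)`. Injectivity and nondegeneracy as in
`exists_LK`, `T j` being injective. -/
def S_lim1 : Prop :=
  ∀ (k L : ℕ), 0 < L → ∃ K0 : ℕ, ∀ (ψ : ℝ → ℝ → ℝ) (Z : ℕ → E (k + 3)),
      (∀ v < 2 ^ L, ∀ n : ℕ → ℤ, n v = 1 → (∀ w, v < w → n w = 0) → (∀ a, |n a| ≤ K0) →
        |(∑ a ∈ Finset.range (2 ^ L), n a • Z a) 2 + ψ ((∑ a ∈ Finset.range (2 ^ L), n a • Z a) 0)
          ((∑ a ∈ Finset.range (2 ^ L), n a • Z a) 1) - (pos L v : ℝ)| ≤ 1 / 4) →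
      (∀ n : ℕ → ℤ, (∀ a, |n a| ≤ 2 * K0) → ∑ a ∈ Finset.range (2 ^ L), n a • Z a = 0 →
        ∀ a < 2 ^ L, n a = 0) →
      ∀ K : Set (E (k + 3)), LocLim K ψ → Sim K L

/-- (G11) A vertex gives `LocLim`. Compare the proof of `blowv` (file `BlowV.lean`).

Paper proof. `T` linear isomorphism with `a (T ζ) = ζ 0`, `b (T ζ) = ζ 1`, `l (T ζ) = ζ 2` (see `blowv`).
`p j = p`, `T j = δ • T`, `δ = 1/(j+1)`, `R j r = 1 + δ r / l p → 1`. Let `R = R j r > 0`,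
`x = p + δ • T ζ`. There is an open neighbourhood `V` of `p` on which the local description of `K'` holds;
for `y` with `R⁻¹ • y ∈ V` (an open set of `y`) we have `y ∈ R • K'` iff `R⁻¹ • y ∈ K'` iff
`φ y ≤ 0`, where `φ y = l (R⁻¹ • y - p) + ψ (a (R⁻¹ • y)) (b (R⁻¹ • y))` is continuous (`blowv_cont`).
For large `j`, `R⁻¹ • x ∈ V`, and `φ x = R⁻¹ δ (ζ 2 - r + ψ (ζ 0) (ζ 1))` (computed in `blowv`). If this
is `< 0`, the open set `{y | R⁻¹ • y ∈ V, φ y < 0}` is contained in `R • K'`; if `> 0`, the open set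
`{y | R⁻¹ • y ∈ V, φ y > 0}` is contained in the complement. `p + δ T ζ → p ≠ 0` (`l p ≠ 0`). -/
def S_lim2 : Prop :=
  ∀ (k : ℕ) (ψ : ℝ → ℝ → ℝ), Sublin ψ → ∀ (K' : Set (E (k + 3))),
    ∀ (p : E (k + 3)) (l a b : E (k + 3) →L[ℝ] ℝ), l p ≠ 0 → a p = 0 → b p = 0 →
      LinearIndependent ℝ ![a, b, l] →
      (∀ᶠ x in 𝓝 p, (x ∈ K' ↔ l (x - p) + ψ (a x) (b x) ≤ 0)) → LocLim K' ψ

/-- (G12) A smooth body which blows up to `ψ` has the property `LocLim`. Compare the proof of `blow2`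
(file `Blow2.lean`); most of it can be copied.

Paper proof. `T j = blow2_map ..` (injective: `blow2_inj`), `p j = blow2_pt ..`,
`R j r = 1 + om j * r`. In the proof of `blow2` it is shown for EVERY `ζ` (the hypothesis `hζ` is only
used at the end) that `D j / e j → ζ 2 + ψ (ζ 0) (ζ 1) - r`, where
`D j = theta Φ (ρ j • (p j + T j ζ)) - 1`, `ρ j = (R j r)⁻¹`. So for `ζ 2 + ψ (ζ 0) (ζ 1) < r`, for large `j`
`theta Φ ((R j r)⁻¹ • (p j + T j ζ)) < 1`, and the open set `{y | theta Φ ((R j r)⁻¹ • y) < 1}`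
(`theta Φ` is continuous) contains the point and is contained in `R j r • {theta Φ ≤ 1}`. The same for
`> 1` and the complement. `p j + T j ζ ≠ 0`: its coordinate `2` is `z j * (1 + om j * ζ 2)`, positive for
large `j` (`om j → 0`). -/
def S_lim3 : Prop :=
  ∀ (k : ℕ) (ψ : ℝ → ℝ → ℝ), Sublin ψ → ∀ Φ : ℝ × ℝ → ℝ, Continuous Φ → Φ 0 < 1 →
    BlowsUpTo Φ ψ → LocLim {ζ : E (k + 3) | theta Φ ζ ≤ 1} ψ

/-- (G13) Humps exclude the maximal estimate.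

Paper proof. Let `Q = closedBall (t 0).1 (t 0).2`, `M > 0` real. `Hump K c M 0 t 1` gives `(G, F)` with
`c |Q| < |{x ∈ Q | ∃ R ∈ F, M < ‖I (R • K) G x‖}| ≤ M⁻² ∫⁻ (sup_{R ∈ F} ‖I (R • K) G x‖ₑ)² ≤ C M⁻²`
(Markov, `mul_meas_ge_le_lintegral`, measurability: `measurable_sup` or `continuous_I`; `FM` applied to
the finite set of the elements of `F` as elements of the subtype). Let `M → ∞`. -/
def S_noFM : Prop :=
  ∀ (N : ℕ) (K : Set (E N)) (c : ℝ) (t : ℕ → E N × ℝ), 0 < c → 0 < (t 0).2 →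
    (∀ M : ℝ, Hump K c M 0 t 1) →
    ∀ C : ℝ≥0, ¬ FM (fun R : {R : ℝ // 0 < R} => (R : ℝ) • K) C

end Pool.Agent.H311.CB
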