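import Pool.Agent.H311.CB.Tree2
import Pool.Agent.H311.CB.BlowV

/-!
# Lower bounds for the maximal functions of cones
-/

set_option autoImplicit false

open MeasureTheory Finset
open scoped BigOperators ENNReal NNReal

namespace Pool.Agent.H311.CB

open Pool.Agent.H311.PM

/-- the frequency of the monomial `n` -/
noncomputable def lamZ {N : ℕ} (Z : ℕ → E N) : (ℕ →₀ ℤ) →+ E N :=
  Finsupp.liftAddHom fun v => (smulAddHom ℤ (E N)).flip (Z v)

theorem lamZ_apply {N : ℕ} (Z : ℕ → E N) (n : ℕ →₀ ℤ) : lamZ Z n = n.sum fun v m => m • Z v := by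
  unfold lamZ
  rw [Finsupp.liftAddHom_apply]
  rfl

theorem lamZ_eq {N : ℕ} (Z : ℕ → E N) {M : ℕ} {n : ℕ →₀ ℤ} (hn : ∀ w, M ≤ w → n w = 0) :
    lamZ Z n = ∑ a ∈ range M, n a • Z a := by
  rw [lamZ_apply]
  refine Finsupp.sum_of_support_subset n ?_ _ (fun i _ => zero_smul ℤ _)
  intro w hw
  rw [Finset.mem_range]
  by_contra h
  exact (Finsupp.mem_support_iff.1 hw) (hn w (not_lt.1 h))

theorem bound_exists (A : TP) : ∃ K : ℕ, ∀ n, A.coeff n ≠ 0 → ∀ a, |n a| ≤ (K : ℤ) := by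
  classical
  refine ⟨∑ n ∈ A.coeff.support, ∑ a ∈ n.support, (n a).natAbs, fun n hn a => ?_⟩
  have h1 : n ∈ A.coeff.support := Finsupp.mem_support_iff.2 hn
  by_cases ha : n a = 0
  · rw [ha]
    simp only [abs_zero]
    exact Int.natCast_nonneg _
  · have h2 : (n a).natAbs ≤ ∑ a ∈ n.support, (n a).natAbs :=
      Finset.single_le_sum (f := fun a => (n a).natAbs) (fun _ _ => Nat.zero_le _)
        (Finsupp.mem_support_iff.2 ha)
    have h3 : ∑ a ∈ n.support, (n a).natAbs ≤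
        ∑ n ∈ A.coeff.support, ∑ a ∈ n.support, (n a).natAbs :=
      Finset.single_le_sum (f := fun n : ℕ →₀ ℤ => ∑ a ∈ n.support, (n a).natAbs)
        (fun _ _ => Nat.zero_le _) h1
    rw [Int.abs_eq_natAbs]
    exact_mod_cast h2.trans h3

theorem coeff_F_ne {c : LP} {L v w : ℕ} (hv : v ∈ Ico 1 (2 ^ L)) (hw : w ∈ Ico 1 (2 ^ L))
    {n : ℕ →₀ ℤ} (h : (F c v).coeff n ≠ 0) (hne : w ≠ v) : (F c w).coeff n = 0 := by
  by_contra hcon
  have h1 := F_supp (Finset.mem_Ico.1 hv).1 h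
  have h2 := F_supp (Finset.mem_Ico.1 hw).1 hcon
  rcases lt_or_gt_of_ne hne with h3 | h3
  · have := h2.2 v h3
    rw [h1.1] at this
    exact one_ne_zero this
  · have := h1.2 w h3
    rw [h2.1] at this
    exact one_ne_zero this

theorem coeff_gL {c : LP} {L v : ℕ} (hv : v ∈ Ico 1 (2 ^ L)) {n : ℕ →₀ ℤ}
    (h : (F c v).coeff n ≠ 0) : (gL c L).coeff n = (F c v).coeff n := by
  unfold gL
  rw [AddMonoidAlgebra.coeff_sum, Finsupp.finsetSum_apply]
  exact Finset.sum_eq_single v (fun w hw hne => coeff_F_ne hv hw h hne) (fun h' => absurd hv h')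

theorem coeff_fC {c : LP} {L C v : ℕ} (hv : v ∈ Ico 1 (2 ^ L)) {n : ℕ →₀ ℤ}
    (h : (F c v).coeff n ≠ 0) :
    (fC c L C).coeff n = if pos L v ≤ C then (F c v).coeff n else 0 := by
  unfold fC
  rw [AddMonoidAlgebra.coeff_sum, Finsupp.finsetSum_apply]
  split_ifs with hp
  · refine Finset.sum_eq_single v (fun w hw hne => coeff_F_ne hv (Finset.mem_filter.1 hw).1 h hne)
      (fun h' => absurd (Finset.mem_filter.2 ⟨hv, hp⟩) h')
  · refine Finset.sum_eq_zero fun w hw => ?_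
    refine coeff_F_ne hv (Finset.mem_filter.1 hw).1 h ?_
    rintro rfl
    exact hp (Finset.mem_filter.1 hw).2

theorem exists_F {c : LP} {L : ℕ} {n : ℕ →₀ ℤ} (h : (gL c L).coeff n ≠ 0) :
    ∃ v ∈ Ico 1 (2 ^ L), (F c v).coeff n ≠ 0 := by
  by_contra hcon
  push Not at hcon
  apply h
  unfold gL
  rw [AddMonoidAlgebra.coeff_sum, Finsupp.finsetSum_apply]
  exact Finset.sum_eq_zero hcon

theorem fC_zero {c : LP} {L C : ℕ} {n : ℕ →₀ ℤ} (h : (gL c L).coeff n = 0) :
    (fC c L C).coeff n = 0 := by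
  unfold fC
  rw [AddMonoidAlgebra.coeff_sum, Finsupp.finsetSum_apply]
  refine Finset.sum_eq_zero fun v hv => ?_
  by_contra hcon
  have hv' := (Finset.mem_filter.1 hv).1
  rw [coeff_gL hv' hcon] at h
  exact hcon h

theorem F_low (c : LP) {v : ℕ} (hv : 1 ≤ v) : F c v ∈ low (v + 1) :=
  (low (v + 1)).mul_mem (low_mono (by omega) (W_low_self c hv)) (jj_mem_low v T1)

theorem gL_low (c : LP) (L : ℕ) : gL c L ∈ low (2 ^ L) := by
  refine (low (2 ^ L)).sum_mem fun v hv => ?_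
  have := Finset.mem_Ico.1 hv
  exact low_mono (by omega) (F_low c this.1)

theorem fC_low (c : LP) (L C : ℕ) : fC c L C ∈ low (2 ^ L) := by
  refine (low (2 ^ L)).sum_mem fun v hv => ?_
  have := Finset.mem_Ico.1 (Finset.mem_filter.1 hv).1
  exact low_mono (by omega) (F_low c this.1)

theorem h_low (c : LP) (L : ℕ) :
    ∑ C ∈ Ico (2 ^ L) (2 ^ (L + 1)), W c C * fC c L C ∈ low (2 ^ L) := by
  refine (low (2 ^ L)).sum_mem fun C hC => (low (2 ^ L)).mul_mem ?_ (fC_low c L C)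
  have h1 := Finset.mem_Ico.1 hC
  have h2 : 1 ≤ 2 ^ L := Nat.one_le_two_pow
  rcases Nat.eq_zero_or_pos L with h | h
  · subst h
    have : C = 1 := by simp at h1; omega
    rw [this, W_one]
    exact Subalgebra.one_mem _
  · refine low_mono ?_ (W_low c (by omega))
    rw [pow_succ] at h1
    omega

/-! ### Evaluation -/

theorem ev_jj {N : ℕ} (lam : (ℕ →₀ ℤ) →+ E N) (x : E N) (v : ℕ) (b : LP) :
    ev lam x (jj v b) = ∑ n ∈ b.coeff.support, (b.coeff n : ℂ) *
      (ee x (lam (Finsupp.single v 1))) ^ n := by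
  have hz : ee x (lam (Finsupp.single v 1)) ≠ 0 := by
    intro h
    have := norm_ee x (lam (Finsupp.single v 1))
    rw [h, norm_zero] at this
    exact zero_ne_one this
  have hpow : ∀ n : ℤ, ee x (lam (Finsupp.single v n)) = (ee x (lam (Finsupp.single v 1))) ^ n := by
    intro n
    have h1 : ∀ m : ℕ, ee x (lam (Finsupp.single v (m : ℤ))) =
        (ee x (lam (Finsupp.single v 1))) ^ m := by
      intro m
      induction m with
      | zero => simp [ee_zero]
      | succ m ih =>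
        rw [Nat.cast_succ, Finsupp.single_add, map_add, ee_add, ih, pow_succ]
    rcases Int.eq_nat_or_neg n with ⟨m, rfl | rfl⟩
    · rw [h1, zpow_natCast]
    · rw [zpow_neg, zpow_natCast, ← h1]
      have h2 : ee x (lam (Finsupp.single v (-(m : ℤ)))) * ee x (lam (Finsupp.single v (m : ℤ))) =
          1 := by
        rw [← ee_add, ← map_add, ← Finsupp.single_add, neg_add_cancel, Finsupp.single_zero,
          map_zero, ee_zero]
      exact eq_inv_of_mul_eq_one_left h2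
  have hs : ∀ (k : ℤ) (r : ℝ), ev lam x (jj v (AddMonoidAlgebra.single k r)) =
      r * (ee x (lam (Finsupp.single v 1))) ^ k := by
    intro k r
    rw [jj_single, ← hpow k]
    unfold ev
    rw [AddMonoidAlgebra.lift_single]
    simp
  have hb : b = ∑ n ∈ b.coeff.support, AddMonoidAlgebra.single n (b.coeff n) := by
    ext m
    rw [AddMonoidAlgebra.coeff_sum, Finsupp.finsetSum_apply]
    simp only [AddMonoidAlgebra.coeff_single, Finsupp.single_apply]
    rw [Finset.sum_ite_eq' b.coeff.support m]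
    split_ifs with h
    · rfl
    · exact Finsupp.notMem_support_iff.1 h
  conv_lhs => rw [hb, map_sum, map_sum]
  exact Finset.sum_congr rfl fun n _ => hs n _

/-- the value of a symmetric Laurent polynomial is real -/
theorem ev_real {N : ℕ} (lam : (ℕ →₀ ℤ) →+ E N) (x : E N) {c : LP} (hc : Sym c)
    (hc1 : ∀ z : ℂ, ‖z‖ = 1 → ‖∑ n ∈ c.coeff.support, (c.coeff n : ℂ) * z ^ n‖ ≤ 1) (v : ℕ) :
    ∃ s : ℝ, -1 ≤ s ∧ s ≤ 1 ∧ ev lam x (jj v c) = s := by
  set z := ee x (lam (Finsupp.single v 1)) with hz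
  have hz1 : ‖z‖ = 1 := norm_ee _ _
  have h1 := ev_jj lam x v c
  have hconj : (starRingEnd ℂ) (ev lam x (jj v c)) = ev lam x (jj v c) := by
    rw [h1, map_sum]
    have h2 : ∀ n ∈ c.coeff.support, (starRingEnd ℂ) ((c.coeff n : ℂ) * z ^ n) =
        (c.coeff (-n) : ℂ) * z ^ (-n) := by
      intro n _
      rw [map_mul, Complex.conj_ofReal, hc n, map_zpow₀]
      congr 1
      have h3 : (starRingEnd ℂ) z = z⁻¹ := by
        rw [Complex.inv_def, Complex.normSq_eq_norm_sq, hz1]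
        simp
      rw [h3, inv_zpow, zpow_neg]
    rw [Finset.sum_congr rfl h2]
    refine Finset.sum_nbij' (fun n => -n) (fun n => -n) ?_ ?_ ?_ ?_ ?_
    · intro n hn
      rw [Finsupp.mem_support_iff] at hn ⊢
      rw [hc n]
      exact hn
    · intro n hn
      rw [Finsupp.mem_support_iff] at hn ⊢
      rw [hc n]
      exact hn
    · intro n _
      exact neg_neg n
    · intro n _
      exact neg_neg n
    · intro n _
      rfl
  obtain ⟨s, hs⟩ := Complex.conj_eq_iff_real.1 hconj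
  have h4 : |s| ≤ 1 := by
    have h5 := hc1 z hz1
    rw [← h1, hs, Complex.norm_real] at h5
    exact h5
  exact ⟨s, (abs_le.1 h4).1, (abs_le.1 h4).2, hs⟩

theorem ev_W {N : ℕ} (lam : (ℕ →₀ ℤ) →+ E N) (x : E N) {c : LP} (hc : Sym c)
    (hc1 : ∀ z : ℂ, ‖z‖ = 1 → ‖∑ n ∈ c.coeff.support, (c.coeff n : ℂ) * z ^ n‖ ≤ 1) {v : ℕ}
    (hv : 1 ≤ v) : ∃ r : ℝ, 0 ≤ r ∧ ev lam x (W c v) = r := by
  refine W_ind c (fun _ A => ∃ r : ℝ, 0 ≤ r ∧ ev lam x A = r) ⟨1, zero_le_one, by simp⟩ ?_ v hv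
  rintro v _ A ⟨r, hr, hA⟩
  obtain ⟨s, hs1, hs2, hs⟩ := ev_real lam x hc hc1 v
  constructor
  · refine ⟨r * ((1 / 2) * (1 - s)), mul_nonneg hr (by linarith), ?_⟩
    rw [map_mul, hA, pb, map_smul, map_sub, map_one, map_smul, map_sub, map_one, hs]
    push_cast
    rw [Complex.real_smul]
    push_cast
    ring
  · refine ⟨r * ((1 / 2) * (1 + s)), mul_nonneg hr (by linarith), ?_⟩
    rw [map_mul, hA, pa, map_smul, map_add, map_one, map_smul, map_add, map_one, hs]
    push_cast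
    rw [Complex.real_smul]
    push_cast
    ring

theorem sum_ev_W {N : ℕ} (lam : (ℕ →₀ ℤ) →+ E N) (x : E N) {c : LP} (hc : Sym c)
    (hc1 : ∀ z : ℂ, ‖z‖ = 1 → ‖∑ n ∈ c.coeff.support, (c.coeff n : ℂ) * z ^ n‖ ≤ 1) (L : ℕ) :
    ∑ C ∈ Ico (2 ^ L) (2 ^ (L + 1)), ‖ev lam x (W c C)‖ ≤ 1 := by
  have h1 : ∑ C ∈ Ico (2 ^ L) (2 ^ (L + 1)), W c C = 1 := by
    have h := leaf_sum c L (a := 1) (b := 2) le_rfl (by norm_num)
    rw [one_mul, show 2 * 2 ^ L = 2 ^ (L + 1) by ring] at h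
    rw [h]
    simp [W_one]
  have h2 : ∀ C ∈ Ico (2 ^ L) (2 ^ (L + 1)), (‖ev lam x (W c C)‖ : ℂ) = ev lam x (W c C) := by
    intro C hC
    have h3 : 1 ≤ 2 ^ L := Nat.one_le_two_pow
    obtain ⟨r, hr, h4⟩ := ev_W lam x hc hc1 (v := C) (by
      have := (Finset.mem_Ico.1 hC).1
      omega)
    rw [h4, Complex.norm_real, Real.norm_of_nonneg hr]
  have h5 : ((∑ C ∈ Ico (2 ^ L) (2 ^ (L + 1)), ‖ev lam x (W c C)‖ : ℝ) : ℂ) = 1 := by
    rw [Complex.ofReal_sum, Finset.sum_congr rfl h2, ← map_sum, h1, map_one]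
  exact (Complex.ofReal_eq_one.1 h5).le

/-- LOWER BOUND: for every constant there is a cone which violates the maximal estimate. -/
theorem exists_cone (hT : S_transfer) (hP : S_poly) (hC : S_cone) (k : ℕ) (C : ℝ≥0) :
    ∃ ψ : ℝ → ℝ → ℝ, Sublin ψ ∧
      ¬ FM (fun r : ℝ => {ζ : E (k + 3) | ζ 2 + ψ (ζ 0) (ζ 1) ≤ r}) C := by
  -- the number of levels
  obtain ⟨L, hL⟩ := exists_nat_gt (32 * (C : ℝ))
  have hL0 : 0 < (L : ℝ) := lt_of_le_of_lt (by positivity) hL
  obtain ⟨c, hc, hc1, hc2, hc3⟩ := hP (1 / L) (by positivity)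
  have hcs : Sym c := hc
  obtain ⟨K1, hK1⟩ := bound_exists (gL c L)
  obtain ⟨K2, hK2⟩ := bound_exists (∑ C ∈ Ico (2 ^ L) (2 ^ (L + 1)), W c C * fC c L C)
  set K := K1 + K2 with hK
  obtain ⟨ψ, Z, hψ, hZ1, hZ2⟩ := hC k (2 ^ L) K (fun v => (pos L v : ℝ)) (fun v => by
    unfold pos
    positivity)
  refine ⟨ψ, hψ, fun hFM => ?_⟩
  have hcont : Continuous fun ζ : E (k + 3) => ζ 2 + ψ (ζ 0) (ζ 1) := by
    have h1 := blowv_cont hψ
    have h2 : Continuous fun ζ : E (k + 3) => (ζ 0, ζ 1) := by fun_prop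
    have h3 : Continuous fun ζ : E (k + 3) => ψ (ζ 0) (ζ 1) := h1.comp h2
    exact (by fun_prop : Continuous fun ζ : E (k + 3) => ζ 2).add h3
  have hFM' := hFM.comp (fun i : ℕ => (i : ℝ) + 1 / 2)
  -- the frequencies
  have hlam : ∀ v ∈ Ico 1 (2 ^ L), ∀ n : ℕ →₀ ℤ, (F c v).coeff n ≠ 0 →
      |(lamZ Z n) 2 + ψ ((lamZ Z n) 0) ((lamZ Z n) 1) - pos L v| ≤ 1 / 4 := by
    intro v hv n hn
    have h1 := F_supp (Finset.mem_Ico.1 hv).1 hn
    have h2 : (gL c L).coeff n ≠ 0 := by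
      rw [coeff_gL hv hn]
      exact hn
    have h3 : ∀ a, |n a| ≤ (K : ℤ) := fun a => (hK1 n h2 a).trans (by
      rw [hK]; push_cast; linarith [Int.natCast_nonneg K2])
    have h4 := hZ1 v (Finset.mem_Ico.1 hv).2 n h1.1 h1.2 h3
    rw [lamZ_eq Z (gL_low c L n h2)]
    exact h4
  have hres := hT (k + 3) ℕ (fun i => {ζ : E (k + 3) | ζ 2 + ψ (ζ 0) (ζ 1) ≤ (i : ℝ) + 1 / 2}) C
    (fun i => hcont.measurable measurableSet_Iic) hFM' (lamZ Z) (Ico (2 ^ L) (2 ^ (L + 1)))
    (gL c L) (fC c L) (W c) ?_ ?_ ?_ ?_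
  · -- conclusion
    have hm := mean_eq hcs L
    have hn := norm_eq hcs L
    have ht := total_eq hcs L
    set G : ℝ := ∑ v ∈ Ico 1 (2 ^ L), M0 (W c v * W c v) with hG
    rw [hn] at hres
    have h0 : (∑ C ∈ Ico (2 ^ L) (2 ^ (L + 1)), W c C * fC c L C).coeff 0 =
        G * (c.coeff 1 / 2) := hm
    rw [h0] at hres
    set ρ : ℝ := (1 + ∑ n ∈ c.coeff.support, (c.coeff n) ^ 2) / 2 with hρ
    have hρ1 : 1 - 1 / (2 * L) ≤ ρ := by
      rw [hρ]
      have : 1 / (2 * (L : ℝ)) = 1 / L / 2 := by field_simp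
      rw [this]
      linarith
    have hρ0 : 0 ≤ ρ := by
      rw [hρ]
      have : 0 ≤ ∑ n ∈ c.coeff.support, (c.coeff n) ^ 2 := Finset.sum_nonneg fun _ _ => sq_nonneg _
      linarith
    have hGL : (L : ℝ) / 2 ≤ G := by
      rw [ht]
      have h1 : ∀ j ∈ range L, (1 / 2 : ℝ) ≤ ρ ^ j := by
        intro j hj
        have hjL : (j : ℝ) ≤ L := by exact_mod_cast (Finset.mem_range.1 hj).le
        have hL1 : (1 : ℝ) ≤ L := by
          have : 1 ≤ L := by
            have := Finset.mem_range.1 hj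
            omega
          exact_mod_cast this
        have h2 : -2 ≤ ρ - 1 := by linarith
        have h3 := one_add_mul_le_pow h2 j
        rw [show (1 : ℝ) + (ρ - 1) = ρ by ring] at h3
        refine le_trans ?_ h3
        have h4 : -(1 / (2 * L)) ≤ ρ - 1 := by linarith
        have h5 : (j : ℝ) * (-(1 / (2 * L))) ≤ j * (ρ - 1) :=
          mul_le_mul_of_nonneg_left h4 (Nat.cast_nonneg j)
        have h6 : (j : ℝ) * (1 / (2 * L)) ≤ 1 / 2 := by
          calc (j : ℝ) * (1 / (2 * L)) ≤ L * (1 / (2 * L)) :=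
                mul_le_mul_of_nonneg_right hjL (by positivity)
            _ = 1 / 2 := by field_simp
        linarith
      calc (L : ℝ) / 2 = ∑ _j ∈ range L, (1 / 2 : ℝ) := by
            rw [Finset.sum_const, Finset.card_range, nsmul_eq_mul]; ring
        _ ≤ _ := Finset.sum_le_sum h1
    have hG0 : 0 < G := by linarith
    have hc4 : 1 / 4 ≤ c.coeff 1 / 2 := by linarith
    have h5 : (G * (1 / 4)) ^ 2 ≤ C * G := by
      refine le_trans ?_ hres
      refine pow_le_pow_left₀ (by positivity) ?_ 2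
      exact mul_le_mul_of_nonneg_left hc4 hG0.le
    have h6 : G * (1 / 16) ≤ C := by
      have : G * (G * (1 / 16)) ≤ G * C := by nlinarith
      exact le_of_mul_le_mul_left this hG0
    linarith
  · -- classification
    intro i hi n
    by_cases hg : (gL c L).coeff n = 0
    · exact Or.inr (Or.inr ⟨fC_zero hg, hg⟩)
    · obtain ⟨v, hv, hn⟩ := exists_F hg
      have h1 := hlam v hv n hn
      rw [abs_le] at h1
      rw [coeff_fC hv hn, coeff_gL hv hn]
      by_cases hp : pos L v ≤ i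
      · left
        rw [if_pos hp]
        refine ⟨rfl, ?_⟩
        rw [mem_interior]
        refine ⟨{ζ : E (k + 3) | ζ 2 + ψ (ζ 0) (ζ 1) < (i : ℝ) + 1 / 2}, ?_,
          isOpen_lt hcont continuous_const, ?_⟩
        · intro ζ hζ
          have hζ' : ζ 2 + ψ (ζ 0) (ζ 1) < (i : ℝ) + 1 / 2 := hζ
          exact hζ'.le
        · show (lamZ Z n) 2 + ψ ((lamZ Z n) 0) ((lamZ Z n) 1) < (i : ℝ) + 1 / 2
          have : (pos L v : ℝ) ≤ i := by exact_mod_cast hp
          linarith [h1.2]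
      · right; left
        rw [if_neg hp]
        refine ⟨rfl, ?_⟩
        rw [mem_interior]
        refine ⟨{ζ : E (k + 3) | (i : ℝ) + 1 / 2 < ζ 2 + ψ (ζ 0) (ζ 1)}, ?_,
          isOpen_lt continuous_const hcont, ?_⟩
        · intro ζ hζ h
          have hζ' : (i : ℝ) + 1 / 2 < ζ 2 + ψ (ζ 0) (ζ 1) := hζ
          have h' : ζ 2 + ψ (ζ 0) (ζ 1) ≤ (i : ℝ) + 1 / 2 := h
          exact absurd hζ' (not_lt.2 h')
        · show (i : ℝ) + 1 / 2 < (lamZ Z n) 2 + ψ ((lamZ Z n) 0) ((lamZ Z n) 1)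
          have : (i : ℝ) + 1 ≤ (pos L v : ℝ) := by exact_mod_cast not_le.1 hp
          linarith [h1.1]
  · -- injectivity
    intro n hn m hm h
    have hn' := Finsupp.mem_support_iff.1 hn
    have hm' := Finsupp.mem_support_iff.1 hm
    have h1 : lamZ Z (n - m) = 0 := by rw [map_sub, h, sub_self]
    have hlow : ∀ w, 2 ^ L ≤ w → (n - m) w = 0 := by
      intro w hw
      rw [Finsupp.sub_apply, gL_low c L n hn' w hw, gL_low c L m hm' w hw, sub_zero]
    rw [lamZ_eq Z hlow] at h1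
    have h2 := hZ2 (n - m) (fun a => ?_) h1
    · ext a
      by_cases ha : a < 2 ^ L
      · have := h2 a ha
        rw [Pi.sub_apply] at this
        omega
      · rw [gL_low c L n hn' a (not_lt.1 ha), gL_low c L m hm' a (not_lt.1 ha)]
    · rw [Pi.sub_apply]
      have h3 := hK1 n hn' a
      have h4 := hK1 m hm' a
      rw [abs_le] at h3 h4 ⊢
      have : (K : ℤ) = K1 + K2 := by rw [hK]; push_cast; ring
      have := Int.natCast_nonneg K2
      constructor <;> linarith [h3.1, h3.2, h4.1, h4.2]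
  · -- non-degeneracy
    intro n hn h
    have hn' := Finsupp.mem_support_iff.1 hn
    have hlow : ∀ w, 2 ^ L ≤ w → n w = 0 := h_low c L n hn'
    rw [lamZ_eq Z hlow] at h
    have h2 := hZ2 n (fun a => ?_) h
    · ext a
      by_cases ha : a < 2 ^ L
      · exact h2 a ha
      · exact hlow a (not_lt.1 ha)
    · have h3 := hK2 n hn' a
      have : (K : ℤ) = K1 + K2 := by rw [hK]; push_cast; ring
      have h5 := Int.natCast_nonneg K1
      have h6 := Int.natCast_nonneg K2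
      linarith
  · intro x
    exact sum_ev_W (lamZ Z) x hcs hc1 L

end Pool.Agent.H311.CB
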