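import Pool.Agent.H311.CB.Calc

/-!
# The smooth bodies are close to the ball
-/

set_option autoImplicit false

open MeasureTheory Metric Set Filter Topology
open scoped ENNReal NNReal Real RealInnerProductSpace ContDiff Pointwise

namespace Pool.Agent.H311.CB

open Pool.Agent.H311.PM

theorem norm_pair_le {k : ℕ} (ζ : E (k + 3)) : ‖((ζ 0, ζ 1) : ℝ × ℝ)‖ ≤ ‖ζ‖ := by
  rw [Prod.norm_def]
  exact max_le (PiLp.norm_apply_le ζ 0) (PiLp.norm_apply_le ζ 1)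

theorem rho_beta {β : ℝ → ℝ} (hβ : IsBeta β) {ρ : ℝ} (hρ : 0 < ρ) {q : ℝ} (hq : 0 ≤ q) :
    q - 4 * ρ ^ 2 ≤ ρ ^ 2 * β (q / ρ ^ 2) ∧ ρ ^ 2 * β (q / ρ ^ 2) ≤ q := by
  have h0 : 0 ≤ q / ρ ^ 2 := by positivity
  have h1 := hβ.le _ h0
  have h2 := hβ.far _ h0
  have h3 : ρ ^ 2 * (q / ρ ^ 2) = q := by field_simp
  have h4 : 0 ≤ ρ ^ 2 := sq_nonneg _
  constructor
  · nlinarith [mul_le_mul_of_nonneg_left h2 h4]
  · nlinarith [mul_le_mul_of_nonneg_left h1 h4]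

theorem theta_near {k : ℕ} {β : ℝ → ℝ} (hβ : IsBeta β) {S : ℝ × ℝ → ℝ} {ρ θ B : ℝ} (hρ : 0 < ρ)
    (hθ : 0 ≤ θ) (hB : ∀ z : ℝ × ℝ, ‖z‖ ≤ 2 → |S z| ≤ B) (ζ : E (k + 3)) (hζ : ‖ζ‖ ≤ 2) :
    |theta (PhiF β S ρ θ) ζ - ‖ζ‖ ^ 2| ≤ 4 * ρ ^ 2 + θ * B := by
  have h1 := rho_beta hβ hρ (q := ζ 0 ^ 2 + ζ 1 ^ 2) (by positivity)
  have h2 : |θ * S (ζ 0, ζ 1)| ≤ θ * B := by
    rw [abs_mul, abs_of_nonneg hθ]
    exact mul_le_mul_of_nonneg_left (hB _ ((norm_pair_le ζ).trans hζ)) hθ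
  rw [abs_le] at h2
  rw [norm_sq_split, theta, PhiF, abs_le]
  constructor <;> nlinarith [h1.1, h1.2, h2.1, h2.2, sq_nonneg ρ]

theorem theta_sub {k : ℕ} {β : ℝ → ℝ} (hβ : IsBeta β) {S : ℝ × ℝ → ℝ} (hS : ∀ z, 0 ≤ S z)
    {ρ θ : ℝ} (hρ : 0 < ρ) (hρ2 : ρ ^ 2 ≤ 3 / 4) (hθ : 0 ≤ θ) :
    {ζ : E (k + 3) | theta (PhiF β S ρ θ) ζ ≤ 1} ⊆ closedBall 0 2 := by
  intro ζ hζ
  have hζ' : theta (PhiF β S ρ θ) ζ ≤ 1 := hζ
  have h1 := rho_beta hβ hρ (q := ζ 0 ^ 2 + ζ 1 ^ 2) (by positivity)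
  have h2 : 0 ≤ θ * S (ζ 0, ζ 1) := mul_nonneg hθ (hS _)
  have h3 : ‖ζ‖ ^ 2 ≤ 2 ^ 2 := by
    rw [norm_sq_split]
    rw [theta, PhiF] at hζ'
    simp only at hζ'
    nlinarith [h1.1]
  rw [mem_closedBall_zero_iff]
  exact (sq_le_sq₀ (norm_nonneg _) (by norm_num)).1 h3

theorem theta_deriv_near {k : ℕ} {β : ℝ → ℝ} (hβ : IsBeta β) {S : ℝ × ℝ → ℝ}
    (hSs : ContDiff ℝ ∞ S) {ρ θ B : ℝ} (hρ : 0 < ρ) (hθ : 0 ≤ θ)
    (hB : ∀ z : ℝ × ℝ, ‖z‖ ≤ 2 → ‖fderiv ℝ S z‖ ≤ B) (ζ h : E (k + 3)) (hζ : ‖ζ‖ ≤ 2) :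
    |fderiv ℝ (theta (k := k) (PhiF β S ρ θ)) ζ h - 2 * ⟪ζ, h⟫| ≤ (4 * ρ + θ * B) * ‖h‖ := by
  have hΘ : ContDiff ℝ ∞ (theta (k := k) (PhiF β S ρ θ)) :=
    contDiff_theta (contDiff_PhiF hβ.smooth hSs ρ θ)
  have hd : HasFDerivAt (theta (k := k) (PhiF β S ρ θ))
      (fderiv ℝ (theta (k := k) (PhiF β S ρ θ)) ζ) ζ :=
    ((hΘ.differentiable (by simp)) ζ).hasFDerivAt
  -- derivative along the line
  have hline : HasDerivAt (fun t : ℝ => ζ + t • h) h 0 := by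
    simpa using ((hasDerivAt_id (0 : ℝ)).smul_const h).const_add ζ
  have hd' : HasFDerivAt (theta (k := k) (PhiF β S ρ θ))
      (fderiv ℝ (theta (k := k) (PhiF β S ρ θ)) ζ) (ζ + (0 : ℝ) • h) := by
    simpa using hd
  have e1 : HasDerivAt (fun t : ℝ => theta (k := k) (PhiF β S ρ θ) (ζ + t • h))
      (fderiv ℝ (theta (k := k) (PhiF β S ρ θ)) ζ h) 0 := by
    have e0 : HasFDerivAt (theta (k := k) (PhiF β S ρ θ))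
      (fderiv ℝ (theta (k := k) (PhiF β S ρ θ)) ζ) ((fun t : ℝ => ζ + t • h) 0) := hd'
    exact e0.comp_hasDerivAt (0 : ℝ) hline
  -- direct computation
  set z : ℝ × ℝ := (ζ 0, ζ 1) with hz
  set w : ℝ × ℝ := (h 0, h 1) with hw
  have hsq : ∀ a b : ℝ, HasDerivAt (fun t : ℝ => (a + t * b) ^ 2) (2 * a * b) 0 := by
    intro a b
    have h2 : HasDerivAt (fun t : ℝ => a + t * b) b 0 := by
      simpa using ((hasDerivAt_id (0 : ℝ)).mul_const b).const_add a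
    have h3 := h2.fun_pow 2
    simpa using h3
  have hq : HasDerivAt (fun t : ℝ => ((ζ 0 + t * h 0) ^ 2 + (ζ 1 + t * h 1) ^ 2) / ρ ^ 2)
      ((2 * ζ 0 * h 0 + 2 * ζ 1 * h 1) / ρ ^ 2) 0 :=
    ((hsq (ζ 0) (h 0)).add (hsq (ζ 1) (h 1))).div_const _
  have hβd : HasDerivAt β (deriv β ((ζ 0 ^ 2 + ζ 1 ^ 2) / ρ ^ 2))
      (((ζ 0 + 0 * h 0) ^ 2 + (ζ 1 + 0 * h 1) ^ 2) / ρ ^ 2) := by
    have : DifferentiableAt ℝ β ((ζ 0 ^ 2 + ζ 1 ^ 2) / ρ ^ 2) :=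
      (hβ.smooth.differentiable (by simp)) _
    simpa using this.hasDerivAt
  have e2a := (hβd.comp (0 : ℝ) hq).const_mul (ρ ^ 2)
  have hlin2 : HasDerivAt (fun t : ℝ => z + t • w) w 0 := by
    simpa using ((hasDerivAt_id (0 : ℝ)).smul_const w).const_add z
  have hSd : HasFDerivAt S (fderiv ℝ S z) (z + (0 : ℝ) • w) := by
    simpa using ((hSs.differentiable (by simp)) z).hasFDerivAt
  have e2b := (hSd.comp_hasDerivAt 0 hlin2).const_mul θ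
  have e2c : HasDerivAt (fun t : ℝ => ∑ i : Fin (k + 1), (ζ i.succ.succ + t * h i.succ.succ) ^ 2)
      (∑ i : Fin (k + 1), 2 * ζ i.succ.succ * h i.succ.succ) 0 :=
    HasDerivAt.fun_sum fun i _ => hsq _ _
  have e2 := (e2a.add e2b).add e2c
  have hsum : (fun t : ℝ => theta (k := k) (PhiF β S ρ θ) (ζ + t • h)) = fun t =>
      (ρ ^ 2 * (β ∘ fun t : ℝ => ((ζ 0 + t * h 0) ^ 2 + (ζ 1 + t * h 1) ^ 2) / ρ ^ 2) t +
        θ * (S ∘ fun t : ℝ => z + t • w) t) +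
        ∑ i : Fin (k + 1), (ζ i.succ.succ + t * h i.succ.succ) ^ 2 := by
    ext t
    rfl
  rw [hsum] at e1
  have huniq := e1.unique e2
  rw [huniq, inner_split]
  set b' : ℝ := deriv β ((ζ 0 ^ 2 + ζ 1 ^ 2) / ρ ^ 2) with hb'
  have hρ2 : ρ ^ 2 ≠ 0 := by positivity
  have e3 : ρ ^ 2 * (b' * ((2 * ζ 0 * h 0 + 2 * ζ 1 * h 1) / ρ ^ 2)) +
      θ * (fderiv ℝ S z) w + ∑ i : Fin (k + 1), 2 * ζ i.succ.succ * h i.succ.succ -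
      2 * (ζ 0 * h 0 + ζ 1 * h 1 + ∑ i : Fin (k + 1), ζ i.succ.succ * h i.succ.succ) =
      (b' - 1) * (2 * (ζ 0 * h 0 + ζ 1 * h 1)) + θ * (fderiv ℝ S z) w := by
    have h5 : ∑ i : Fin (k + 1), 2 * ζ i.succ.succ * h i.succ.succ =
        2 * ∑ i : Fin (k + 1), ζ i.succ.succ * h i.succ.succ := by
      rw [Finset.mul_sum]
      exact Finset.sum_congr rfl fun i _ => by ring
    rw [h5]
    field_simp
    ring
  rw [e3]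
  have h6 : |θ * (fderiv ℝ S z) w| ≤ θ * B * ‖h‖ := by
    rw [abs_mul, abs_of_nonneg hθ, mul_assoc]
    refine mul_le_mul_of_nonneg_left ?_ hθ
    have h7 : ‖(fderiv ℝ S z) w‖ ≤ ‖fderiv ℝ S z‖ * ‖w‖ := ContinuousLinearMap.le_opNorm _ _
    have h8 := hB z ((norm_pair_le ζ).trans hζ)
    have h9 := norm_pair_le h
    have h10 : 0 ≤ ‖w‖ := norm_nonneg _
    have h11 : 0 ≤ B := (norm_nonneg _).trans h8
    calc |(fderiv ℝ S z) w| = ‖(fderiv ℝ S z) w‖ := rfl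
      _ ≤ ‖fderiv ℝ S z‖ * ‖w‖ := h7
      _ ≤ B * ‖h‖ := mul_le_mul h8 h9 h10 h11
  have h12 : |(b' - 1) * (2 * (ζ 0 * h 0 + ζ 1 * h 1))| ≤ 4 * ρ * ‖h‖ := by
    by_cases hcase : 4 ≤ (ζ 0 ^ 2 + ζ 1 ^ 2) / ρ ^ 2
    · have : b' = 1 := hβ.one _ hcase
      rw [this, sub_self, zero_mul, abs_zero]
      positivity
    · have h13 : ζ 0 ^ 2 + ζ 1 ^ 2 ≤ (2 * ρ) ^ 2 := by
        have h14 : (ζ 0 ^ 2 + ζ 1 ^ 2) / ρ ^ 2 < 4 := not_le.1 hcase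
        rw [div_lt_iff₀ (by positivity)] at h14
        nlinarith
      have h15 : |b' - 1| ≤ 1 := by
        have := hβ.bd ((ζ 0 ^ 2 + ζ 1 ^ 2) / ρ ^ 2)
        rw [abs_le]
        constructor <;> linarith [this.1, this.2]
      have h16 : |ζ 0 * h 0 + ζ 1 * h 1| ≤ 2 * ρ * ‖h‖ := by
        refine abs_le_of_sq_le_sq ?_ (by positivity)
        have h17 : (ζ 0 * h 0 + ζ 1 * h 1) ^ 2 ≤ (ζ 0 ^ 2 + ζ 1 ^ 2) * (h 0 ^ 2 + h 1 ^ 2) := by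
          nlinarith [sq_nonneg (ζ 0 * h 1 - ζ 1 * h 0)]
        have h18 : h 0 ^ 2 + h 1 ^ 2 ≤ ‖h‖ ^ 2 := by
          rw [norm_sq_split]
          have : 0 ≤ ∑ i : Fin (k + 1), h i.succ.succ ^ 2 :=
            Finset.sum_nonneg fun i _ => sq_nonneg _
          linarith
        calc (ζ 0 * h 0 + ζ 1 * h 1) ^ 2 ≤ (ζ 0 ^ 2 + ζ 1 ^ 2) * (h 0 ^ 2 + h 1 ^ 2) := h17
          _ ≤ (2 * ρ) ^ 2 * ‖h‖ ^ 2 := mul_le_mul h13 h18 (by positivity) (by positivity)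
          _ = (2 * ρ * ‖h‖) ^ 2 := by ring
      rw [abs_mul, abs_mul, abs_two]
      calc |b' - 1| * (2 * |ζ 0 * h 0 + ζ 1 * h 1|) ≤ 1 * (2 * (2 * ρ * ‖h‖)) :=
            mul_le_mul h15 (by linarith) (by positivity) zero_le_one
        _ = 4 * ρ * ‖h‖ := by ring
  calc |(b' - 1) * (2 * (ζ 0 * h 0 + ζ 1 * h 1)) + θ * (fderiv ℝ S z) w|
      ≤ |(b' - 1) * (2 * (ζ 0 * h 0 + ζ 1 * h 1))| + |θ * (fderiv ℝ S z) w| := abs_add_le _ _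
    _ ≤ 4 * ρ * ‖h‖ + θ * B * ‖h‖ := add_le_add h12 h6
    _ = (4 * ρ + θ * B) * ‖h‖ := by ring

end Pool.Agent.H311.CB
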