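import Pool.Agent.H311.CB.Defs2

/-!
# The tree of trigonometric polynomials
-/

set_option autoImplicit false

open Finset
open scoped BigOperators

namespace Pool.Agent.H311.CB

open Pool.Agent.H311.PM

/-- Laurent polynomials in one variable -/
abbrev LP := AddMonoidAlgebra ℝ ℤ

/-- the embedding of the Laurent polynomials in the variable `z_v` -/
noncomputable def jj (v : ℕ) : LP →ₐ[ℝ] TP :=
  AddMonoidAlgebra.mapDomainAlgHom ℝ ℝ (Finsupp.singleAddHom v)

theorem jj_single (v : ℕ) (k : ℤ) (r : ℝ) :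
    jj v (AddMonoidAlgebra.single k r) = AddMonoidAlgebra.single (Finsupp.single v k) r := by
  unfold jj
  rw [AddMonoidAlgebra.mapDomainAlgHom_apply, AddMonoidAlgebra.mapDomain_single]
  rfl

/-- inversion of all variables -/
noncomputable def inv : TP ≃ₐ[ℝ] TP := AddMonoidAlgebra.domCongr ℝ ℝ (AddEquiv.neg (ℕ →₀ ℤ))

theorem coeff_inv (A : TP) (n : ℕ →₀ ℤ) : (inv A).coeff n = A.coeff (-n) := by
  unfold inv
  rw [AddMonoidAlgebra.coeff_domCongr]
  rfl

/-- the constant coefficient -/
noncomputable def M0 (A : TP) : ℝ := A.coeff 0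

theorem M0_add (A B : TP) : M0 (A + B) = M0 A + M0 B := by
  simp [M0, AddMonoidAlgebra.coeff_add]

theorem M0_sum {ι : Type*} (s : Finset ι) (A : ι → TP) : M0 (∑ i ∈ s, A i) = ∑ i ∈ s, M0 (A i) := by
  simp [M0, AddMonoidAlgebra.coeff_sum]

theorem exists_of_coeff_mul {A B : TP} {n : ℕ →₀ ℤ} (h : (A * B).coeff n ≠ 0) :
    ∃ m l, A.coeff m ≠ 0 ∧ B.coeff l ≠ 0 ∧ n = m + l := by
  by_contra hcon
  push Not at hcon
  apply h
  rw [AddMonoidAlgebra.coeff_mul_apply_left]
  refine Finset.sum_eq_zero fun m hm => ?_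
  have h1 : A.coeff m ≠ 0 := Finsupp.mem_support_iff.1 hm
  by_cases h2 : B.coeff (-m + n) = 0
  · simp only
    rw [h2, mul_zero]
  · exact absurd (by abel) (hcon m (-m + n) h1 h2)

/-- the trigonometric polynomials in the variables `z_w`, `w < v` -/
def low (v : ℕ) : Subalgebra ℝ TP where
  carrier := {A | ∀ n, A.coeff n ≠ 0 → ∀ w, v ≤ w → n w = 0}
  mul_mem' := by
    intro A B hA hB n hn w hw
    obtain ⟨m, l, hm, hl, rfl⟩ := exists_of_coeff_mul hn
    rw [Finsupp.add_apply, hA m hm w hw, hB l hl w hw, add_zero]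
  add_mem' := by
    intro A B hA hB n hn w hw
    rw [AddMonoidAlgebra.coeff_add, Finsupp.add_apply] at hn
    by_cases h : A.coeff n = 0
    · rw [h, zero_add] at hn
      exact hB n hn w hw
    · exact hA n h w hw
  algebraMap_mem' := by
    intro r n hn w _
    by_cases h : n = 0
    · rw [h]; rfl
    · exfalso
      apply hn
      have : (algebraMap ℝ TP r) = AddMonoidAlgebra.single 0 r := rfl
      rw [this, AddMonoidAlgebra.coeff_single, Finsupp.single_apply, if_neg (Ne.symm h)]

theorem low_mono {v w : ℕ} (h : v ≤ w) : low v ≤ low w := by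
  intro A hA n hn u hu
  exact hA n hn u (h.trans hu)

theorem jj_mem_low (v : ℕ) (b : LP) : jj v b ∈ low (v + 1) := by
  induction b using AddMonoidAlgebra.induction_linear with
  | zero => rw [map_zero]; exact (low (v + 1)).zero_mem
  | add x y hx hy => rw [map_add]; exact (low (v + 1)).add_mem hx hy
  | single k r =>
    rw [jj_single]
    intro n hn w hw
    rw [AddMonoidAlgebra.coeff_single, Finsupp.single_apply] at hn
    have h1 : Finsupp.single v k = n := by
      by_contra h
      rw [if_neg h] at hn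
      exact hn rfl
    rw [← h1, Finsupp.single_apply, if_neg (by omega)]

/-- INDEPENDENCE -/
theorem M0_mul_jj {v : ℕ} {A : TP} (hA : A ∈ low v) (b : LP) :
    M0 (A * jj v b) = M0 A * b.coeff 0 := by
  induction b using AddMonoidAlgebra.induction_linear with
  | zero => simp [M0]
  | add x y hx hy =>
    rw [map_add, mul_add, M0_add, hx, hy, AddMonoidAlgebra.coeff_add, Finsupp.add_apply, mul_add]
  | single k r =>
    rw [jj_single]
    unfold M0
    rw [AddMonoidAlgebra.coeff_mul_single_apply, AddMonoidAlgebra.coeff_single,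
      Finsupp.single_apply]
    by_cases hk : k = 0
    · rw [if_pos hk, hk]
      simp
    · rw [if_neg hk, mul_zero]
      have : A.coeff (0 + -Finsupp.single v k) = 0 := by
        by_contra h
        have h2 := hA _ h v le_rfl
        simp at h2
        exact hk h2
      rw [this, zero_mul]

theorem sum_sq_eq (A : TP) : ∑ n ∈ A.coeff.support, (A.coeff n) ^ 2 = M0 (A * inv A) := by
  unfold M0
  rw [AddMonoidAlgebra.coeff_mul_apply_left]
  refine Finset.sum_congr rfl fun n _ => ?_
  show A.coeff n ^ 2 = A.coeff n * (inv A).coeff (-n + 0)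
  rw [coeff_inv]
  simp [pow_two]

theorem inv_jj (v : ℕ) (b : LP) :
    inv (jj v b) = jj v (AddMonoidAlgebra.domCongr ℝ ℝ (AddEquiv.neg ℤ) b) := by
  induction b using AddMonoidAlgebra.induction_linear with
  | zero => simp
  | add x y hx hy => rw [map_add, map_add, map_add, map_add, hx, hy]
  | single k r =>
    rw [AddMonoidAlgebra.domCongr_single, jj_single, jj_single]
    unfold inv
    rw [AddMonoidAlgebra.domCongr_single]
    congr 1
    ext w
    simp [Finsupp.single_apply]

/-- symmetric Laurent polynomials -/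
def Sym (b : LP) : Prop := ∀ n, b.coeff (-n) = b.coeff n

theorem inv_jj_sym {b : LP} (hb : Sym b) (v : ℕ) : inv (jj v b) = jj v b := by
  rw [inv_jj]
  congr 1
  ext n
  rw [AddMonoidAlgebra.coeff_domCongr]
  exact hb n

/-- the weight of the right child -/
noncomputable def pa (c : LP) : LP := (1 / 2 : ℝ) • (1 + c)

/-- the weight of the left child -/
noncomputable def pb (c : LP) : LP := (1 / 2 : ℝ) • (1 - c)

theorem pa_add_pb (c : LP) : pa c + pb c = 1 := by
  unfold pa pb
  rw [← smul_add, add_add_sub_cancel, ← two_smul ℝ (1 : LP), smul_smul]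
  norm_num

theorem Sym.one : Sym (1 : LP) := by
  intro n
  rw [AddMonoidAlgebra.one_def, AddMonoidAlgebra.coeff_single, Finsupp.single_apply,
    Finsupp.single_apply]
  congr 1
  simp [eq_comm]

theorem Sym.pa {c : LP} (hc : Sym c) : Sym (pa c) := by
  intro n
  unfold CB.pa
  simp only [AddMonoidAlgebra.coeff_smul, AddMonoidAlgebra.coeff_add, Finsupp.smul_apply,
    Finsupp.add_apply, hc n, Sym.one n]

theorem Sym.pb {c : LP} (hc : Sym c) : Sym (pb c) := by
  intro n
  unfold CB.pb
  simp only [AddMonoidAlgebra.coeff_smul, AddMonoidAlgebra.coeff_sub, Finsupp.smul_apply,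
    Finsupp.sub_apply, hc n, Sym.one n]

/-- the weights of the nodes of the binary tree (heap order, the root is `1`) -/
noncomputable def W (c : LP) : ℕ → TP
  | 0 => 1
  | 1 => 1
  | (n + 2) => W c ((n + 2) / 2) * jj ((n + 2) / 2) (if (n + 2) % 2 = 1 then pa c else pb c)
decreasing_by omega

theorem W_one (c : LP) : W c 1 = 1 := by
  rw [W]

theorem W_even (c : LP) {v : ℕ} (hv : 1 ≤ v) : W c (2 * v) = W c v * jj v (pb c) := by
  obtain ⟨m, rfl⟩ : ∃ m, v = m + 1 := ⟨v - 1, by omega⟩
  have h1 : 2 * (m + 1) = 2 * m + 2 := by ring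
  rw [h1, W, show (2 * m + 2) / 2 = m + 1 by omega, if_neg (by omega)]

theorem W_odd (c : LP) {v : ℕ} (hv : 1 ≤ v) : W c (2 * v + 1) = W c v * jj v (pa c) := by
  obtain ⟨m, rfl⟩ : ∃ m, v = m + 1 := ⟨v - 1, by omega⟩
  have h1 : 2 * (m + 1) + 1 = (2 * m + 1) + 2 := by ring
  rw [h1, W, show (2 * m + 1 + 2) / 2 = m + 1 by omega, if_pos (by omega)]

theorem W_split (c : LP) {v : ℕ} (hv : 1 ≤ v) : W c (2 * v) + W c (2 * v + 1) = W c v := by
  rw [W_even c hv, W_odd c hv, ← mul_add, ← map_add, add_comm (pb c), pa_add_pb, map_one, mul_one]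

theorem W_ind (c : LP) (P : ℕ → TP → Prop) (h1 : P 1 1)
    (h2 : ∀ v, 1 ≤ v → ∀ A, P v A → P (2 * v) (A * jj v (pb c)) ∧
      P (2 * v + 1) (A * jj v (pa c))) : ∀ v, 1 ≤ v → P v (W c v) := by
  intro v
  induction v using Nat.strong_induction_on with
  | _ v ih =>
    intro hv
    rcases eq_or_lt_of_le hv with h | h
    · rw [← h, W_one]
      exact h1
    · rcases Nat.even_or_odd' v with ⟨m, hm | hm⟩
      · have hm1 : 1 ≤ m := by omega
        rw [hm, W_even c hm1]
        exact (h2 m hm1 _ (ih m (by omega) hm1)).1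
      · have hm1 : 1 ≤ m := by omega
        rw [hm, W_odd c hm1]
        exact (h2 m hm1 _ (ih m (by omega) hm1)).2

theorem W_low (c : LP) {v : ℕ} (hv : 1 ≤ v) : W c v ∈ low (v / 2 + 1) := by
  refine W_ind c (fun v A => A ∈ low (v / 2 + 1)) (Subalgebra.one_mem _) ?_ v hv
  intro v hv A hA
  have hA' : A ∈ low (v + 1) := low_mono (by omega) hA
  constructor
  · rw [show 2 * v / 2 = v by omega]
    exact (low (v + 1)).mul_mem hA' (jj_mem_low v _)
  · rw [show (2 * v + 1) / 2 = v by omega]
    exact (low (v + 1)).mul_mem hA' (jj_mem_low v _)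

theorem inv_W {c : LP} (hc : Sym c) {v : ℕ} (hv : 1 ≤ v) : inv (W c v) = W c v := by
  refine W_ind c (fun _ A => inv A = A) (map_one _) ?_ v hv
  intro v _ A hA
  constructor
  · rw [map_mul, hA, inv_jj_sym hc.pb]
  · rw [map_mul, hA, inv_jj_sym hc.pa]

end Pool.Agent.H311.CB
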