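import Pool.Agent.H311.CB.Tree

/-!
# The tree of trigonometric polynomials: the maximal partial sums are large
-/

set_option autoImplicit false

open Finset
open scoped BigOperators

namespace Pool.Agent.H311.CB

open Pool.Agent.H311.PM

/-- the variable -/
noncomputable def T1 : LP := AddMonoidAlgebra.single 1 1

/-- the function of the node `v` -/
noncomputable def F (c : LP) (v : ℕ) : TP := W c v * jj v T1

theorem sum_pairs (g : ℕ → TP) {a b : ℕ} (hab : a ≤ b) :
    ∑ C ∈ Ico (2 * a) (2 * b), g C = ∑ w ∈ Ico a b, (g (2 * w) + g (2 * w + 1)) := by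
  induction b, hab using Nat.le_induction with
  | base => simp
  | succ b hb ih =>
    rw [Finset.sum_Ico_succ_top hb, ← ih, show 2 * (b + 1) = 2 * b + 1 + 1 by ring,
      Finset.sum_Ico_succ_top (by omega), Finset.sum_Ico_succ_top (by omega), add_assoc]

theorem leaf_sum (c : LP) (j : ℕ) : ∀ {a b : ℕ}, 1 ≤ a → a ≤ b →
    ∑ C ∈ Ico (a * 2 ^ j) (b * 2 ^ j), W c C = ∑ w ∈ Ico a b, W c w := by
  induction j with
  | zero => intro a b _ _; simp
  | succ j ih =>
    intro a b ha hab
    rw [show a * 2 ^ (j + 1) = 2 * (a * 2 ^ j) by ring, show b * 2 ^ (j + 1) = 2 * (b * 2 ^ j) by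
      ring, sum_pairs _ (Nat.mul_le_mul_right _ hab), ← ih ha hab]
    refine Finset.sum_congr rfl fun w hw => W_split c ?_
    have h1 := (Finset.mem_Ico.1 hw).1
    have h2 : 1 ≤ a * 2 ^ j := Nat.mul_pos ha (by positivity)
    omega

/-- the position of the node `v` in the order of the partial sums, in the tree with `L` levels -/
def pos (L v : ℕ) : ℕ := (2 * v + 1) * 2 ^ (L - 1 - Nat.log 2 v)

/-- the partial sum for the leaf `C` -/
noncomputable def fC (c : LP) (L C : ℕ) : TP := ∑ v ∈ (Ico 1 (2 ^ L)).filter (fun v => pos L v ≤ C), F c v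

/-- the whole sum -/
noncomputable def gL (c : LP) (L : ℕ) : TP := ∑ v ∈ Ico 1 (2 ^ L), F c v

theorem rest_eq (c : LP) {L v : ℕ} (hv : 1 ≤ v) (hvL : v < 2 ^ L) :
    ∑ C ∈ (Ico (2 ^ L) (2 ^ (L + 1))).filter (fun C => pos L v ≤ C), W c C =
      W c (2 * v + 1) + ∑ w ∈ Ico (v + 1) (2 ^ (Nat.log 2 v + 1)), W c w := by
  set k := Nat.log 2 v with hk
  have hk1 : 2 ^ k ≤ v := Nat.pow_log_le_self 2 (by omega)
  have hk2 : v < 2 ^ (k + 1) := Nat.lt_pow_succ_log_self (by norm_num) v
  have hkL : k < L := by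
    by_contra h
    push Not at h
    have : 2 ^ L ≤ 2 ^ k := Nat.pow_le_pow_right (by norm_num) h
    omega
  obtain ⟨e, he⟩ : ∃ e, L = k + 1 + e := ⟨L - (k + 1), by omega⟩
  have hpos : pos L v = (2 * v + 1) * 2 ^ e := by
    unfold pos
    rw [← hk, show L - 1 - k = e by omega]
  have h1 : 2 ^ L ≤ pos L v := by
    rw [hpos, he, pow_add]
    refine Nat.mul_le_mul_right _ ?_
    rw [pow_succ]
    omega
  have h2 : (Ico (2 ^ L) (2 ^ (L + 1))).filter (fun C => pos L v ≤ C) =
      Ico ((2 * v + 1) * 2 ^ e) (2 ^ (k + 2) * 2 ^ e) := by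
    rw [← hpos, ← pow_add, show k + 2 + e = L + 1 by omega]
    ext C
    simp only [Finset.mem_filter, Finset.mem_Ico]
    omega
  have hk3 : 2 ^ (k + 2) = 2 * 2 ^ (k + 1) := by rw [pow_succ]; ring
  rw [h2, leaf_sum c e (by omega) (by rw [hk3]; omega), Finset.sum_eq_sum_Ico_succ_bot (by
    rw [hk3]; omega)]
  congr 1
  rw [hk3, show 2 * v + 1 + 1 = 2 * (v + 1) by ring, sum_pairs _ (by omega)]
  refine Finset.sum_congr rfl fun w hw => W_split c ?_
  have := (Finset.mem_Ico.1 hw).1
  omega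

theorem W_low' (c : LP) {v w : ℕ} (hv : 1 ≤ v) (h1 : v ≤ w) (h2 : w < 2 ^ (Nat.log 2 v + 1)) :
    W c w ∈ low v := by
  rcases eq_or_lt_of_le hv with h | h
  · -- `v = 1`
    rw [← h] at h2
    simp at h2
    have : w = 1 := by omega
    rw [this, W_one]
    exact Subalgebra.one_mem _
  · refine low_mono ?_ (W_low c (by omega))
    have hk1 : 2 ^ (Nat.log 2 v) ≤ v := Nat.pow_log_le_self 2 (by omega)
    rw [pow_succ] at h2
    have hk0 : 2 ≤ 2 ^ (Nat.log 2 v) := by
      have : 1 ≤ Nat.log 2 v := Nat.log_pos (by norm_num) (by omega)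
      calc 2 = 2 ^ 1 := by norm_num
        _ ≤ _ := Nat.pow_le_pow_right (by norm_num) this
    omega

theorem W_low_self (c : LP) {v : ℕ} (hv : 1 ≤ v) : W c v ∈ low v :=
  W_low' c hv le_rfl (Nat.lt_pow_succ_log_self (by norm_num) v)

theorem T1_coeff_zero : T1.coeff 0 = 0 := by
  unfold T1
  rw [AddMonoidAlgebra.coeff_single, Finsupp.single_apply, if_neg (by norm_num)]

theorem T1_pa {c : LP} (hc : Sym c) : (T1 * pa c).coeff 0 = c.coeff 1 / 2 := by
  unfold T1 pa
  rw [AddMonoidAlgebra.coeff_single_mul_apply, AddMonoidAlgebra.coeff_smul,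
    AddMonoidAlgebra.coeff_add, Finsupp.smul_apply, Finsupp.add_apply,
    AddMonoidAlgebra.one_def, AddMonoidAlgebra.coeff_single, Finsupp.single_apply,
    if_neg (by norm_num), add_zero, hc 1, smul_eq_mul]
  ring

/-- the correlation of the node function with the sum of the weights of the leaves behind it -/
theorem corr {c : LP} (hc : Sym c) {L v : ℕ} (hv : 1 ≤ v) (hvL : v < 2 ^ L) :
    M0 (F c v * ∑ C ∈ (Ico (2 ^ L) (2 ^ (L + 1))).filter (fun C => pos L v ≤ C), W c C) =
      M0 (W c v * W c v) * (c.coeff 1 / 2) := by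
  rw [rest_eq c hv hvL, mul_add, M0_add, Finset.mul_sum, M0_sum]
  have hl := W_low_self c hv
  have h1 : M0 (F c v * W c (2 * v + 1)) = M0 (W c v * W c v) * (c.coeff 1 / 2) := by
    rw [W_odd c hv, F, show W c v * (jj v) T1 * (W c v * (jj v) (pa c)) =
      W c v * W c v * jj v (T1 * pa c) by rw [map_mul]; ring,
      M0_mul_jj ((low v).mul_mem hl hl), T1_pa hc]
  have h2 : ∑ w ∈ Ico (v + 1) (2 ^ (Nat.log 2 v + 1)), M0 (F c v * W c w) = 0 := by
    refine Finset.sum_eq_zero fun w hw => ?_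
    have hw' := Finset.mem_Ico.1 hw
    rw [F, show W c v * (jj v) T1 * W c w = W c v * W c w * jj v T1 by ring,
      M0_mul_jj ((low v).mul_mem hl (W_low' c hv (by omega) hw'.2)), T1_coeff_zero, mul_zero]
  rw [h1, h2, add_zero]

/-- the mean of the linearised maximal partial sum -/
theorem mean_eq {c : LP} (hc : Sym c) (L : ℕ) :
    M0 (∑ C ∈ Ico (2 ^ L) (2 ^ (L + 1)), W c C * fC c L C) =
      (∑ v ∈ Ico 1 (2 ^ L), M0 (W c v * W c v)) * (c.coeff 1 / 2) := by
  have h1 : ∑ C ∈ Ico (2 ^ L) (2 ^ (L + 1)), W c C * fC c L C =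
      ∑ v ∈ Ico 1 (2 ^ L), F c v *
        ∑ C ∈ (Ico (2 ^ L) (2 ^ (L + 1))).filter (fun C => pos L v ≤ C), W c C := by
    simp only [fC, Finset.mul_sum, Finset.sum_filter]
    rw [Finset.sum_comm]
    refine Finset.sum_congr rfl fun v _ => Finset.sum_congr rfl fun C _ => ?_
    split_ifs
    · ring
    · simp
  rw [h1, M0_sum, Finset.sum_mul]
  refine Finset.sum_congr rfl fun v hv => ?_
  have := Finset.mem_Ico.1 hv
  exact corr hc this.1 this.2

theorem inv_jj_T1 (v : ℕ) : inv (jj v T1) = jj v (AddMonoidAlgebra.single (-1) 1) := by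
  rw [inv_jj, T1, AddMonoidAlgebra.domCongr_single]
  rfl

theorem M0_inv (A : TP) : M0 (inv A) = M0 A := by
  unfold M0
  rw [coeff_inv, neg_zero]

/-- the sum of the squares of the coefficients -/
theorem norm_eq {c : LP} (hc : Sym c) (L : ℕ) :
    ∑ n ∈ (gL c L).coeff.support, ((gL c L).coeff n) ^ 2 =
      ∑ v ∈ Ico 1 (2 ^ L), M0 (W c v * W c v) := by
  rw [sum_sq_eq, gL, map_sum, Finset.sum_mul_sum, M0_sum]
  refine Finset.sum_congr rfl fun v hv => ?_
  have hv1 := (Finset.mem_Ico.1 hv).1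
  rw [M0_sum, Finset.sum_eq_single v]
  · have h1 : F c v * inv (F c v) = W c v * W c v * jj v (T1 * AddMonoidAlgebra.single (-1) 1) := by
      unfold F
      rw [map_mul, inv_W hc hv1, inv_jj_T1, map_mul]
      ring
    rw [h1, M0_mul_jj ((low v).mul_mem (W_low_self c hv1) (W_low_self c hv1))]
    unfold T1
    rw [AddMonoidAlgebra.single_mul_single, AddMonoidAlgebra.coeff_single]
    simp
  · intro w hw hwv
    have hw1 := (Finset.mem_Ico.1 hw).1
    have key : ∀ a b : ℕ, 1 ≤ a → a < b → M0 (F c a * inv (F c b)) = 0 := by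
      intro a b ha hab
      have hb : 1 ≤ b := by omega
      have h2 : F c a * inv (F c b) =
          (W c a * jj a T1 * W c b) * jj b (AddMonoidAlgebra.single (-1) 1) := by
        unfold F
        rw [map_mul, inv_W hc hb, inv_jj_T1]
        ring
      rw [h2, M0_mul_jj]
      · rw [AddMonoidAlgebra.coeff_single, Finsupp.single_apply, if_neg (by norm_num), mul_zero]
      · refine (low b).mul_mem ((low b).mul_mem ?_ ?_) (W_low_self c hb)
        · exact low_mono hab.le (W_low_self c ha)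
        · exact low_mono hab (jj_mem_low a T1)
    rcases lt_or_gt_of_ne hwv with h | h
    · have h3 : F c v * inv (F c w) = inv (F c w * inv (F c v)) := by
        rw [map_mul]
        have : inv (inv (F c v)) = F c v := by
          ext n
          rw [coeff_inv, coeff_inv, neg_neg]
        rw [this, mul_comm]
      rw [h3, M0_inv]
      exact key w v hw1 h
    · exact key v w hv1 h
  · intro h
    exact absurd hv h

theorem coeff_sq_sum (c : LP) (hc : Sym c) : (c * c).coeff 0 = ∑ n ∈ c.coeff.support, (c.coeff n) ^ 2 := by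
  rw [AddMonoidAlgebra.coeff_mul_apply_left]
  refine Finset.sum_congr rfl fun n _ => ?_
  show c.coeff n * c.coeff (-n + 0) = c.coeff n ^ 2
  rw [add_zero, hc n, pow_two]

theorem pa_pb_sq (c : LP) (hc : Sym c) : (pa c * pa c + pb c * pb c).coeff 0 =
    (1 + ∑ n ∈ c.coeff.support, (c.coeff n) ^ 2) / 2 := by
  have h1 : pa c * pa c + pb c * pb c = (1 / 2 : ℝ) • (1 + c * c) := by
    unfold pa pb
    simp only [smul_mul_smul_comm]
    rw [← smul_add, show (1 + c) * (1 + c) + (1 - c) * (1 - c) = (2 : ℝ) • (1 + c * c) by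
      rw [two_smul]; ring, smul_smul]
    norm_num
  rw [h1, AddMonoidAlgebra.coeff_smul, AddMonoidAlgebra.coeff_add, Finsupp.smul_apply,
    Finsupp.add_apply, coeff_sq_sum c hc, AddMonoidAlgebra.one_def, AddMonoidAlgebra.coeff_single]
  simp
  ring

/-- the squares of the weights at depth `k` -/
theorem level_eq {c : LP} (hc : Sym c) (k : ℕ) :
    ∑ v ∈ Ico (2 ^ k) (2 ^ (k + 1)), M0 (W c v * W c v) =
      ((1 + ∑ n ∈ c.coeff.support, (c.coeff n) ^ 2) / 2) ^ k := by
  induction k with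
  | zero =>
    simp [W_one, M0, AddMonoidAlgebra.one_def]
  | succ k ih =>
    have h1 : ∑ v ∈ Ico (2 ^ (k + 1)) (2 ^ (k + 1 + 1)), W c v * W c v =
        ∑ w ∈ Ico (2 ^ k) (2 ^ (k + 1)), (W c w * W c w) * jj w (pa c * pa c + pb c * pb c) := by
      rw [show 2 ^ (k + 1 + 1) = 2 * 2 ^ (k + 1) by ring, show 2 ^ (k + 1) = 2 * 2 ^ k by ring,
        sum_pairs (fun v => W c v * W c v) (by omega)]
      refine Finset.sum_congr rfl fun w hw => ?_
      have hw1 : 1 ≤ w := by
        have := (Finset.mem_Ico.1 hw).1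
        have h2 : 1 ≤ 2 ^ k := Nat.one_le_two_pow
        omega
      rw [W_even c hw1, W_odd c hw1, map_add, map_mul, map_mul]
      ring
    rw [← M0_sum, h1, M0_sum, pow_succ ((1 + ∑ n ∈ c.coeff.support, (c.coeff n) ^ 2) / 2) k, ← ih,
      Finset.sum_mul]
    refine Finset.sum_congr rfl fun w hw => ?_
    have hw1 : 1 ≤ w := by
      have := (Finset.mem_Ico.1 hw).1
      have h2 : 1 ≤ 2 ^ k := Nat.one_le_two_pow
      omega
    rw [M0_mul_jj ((low w).mul_mem (W_low_self c hw1) (W_low_self c hw1)), pa_pb_sq c hc]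

theorem total_eq {c : LP} (hc : Sym c) (L : ℕ) :
    ∑ v ∈ Ico 1 (2 ^ L), M0 (W c v * W c v) =
      ∑ k ∈ range L, ((1 + ∑ n ∈ c.coeff.support, (c.coeff n) ^ 2) / 2) ^ k := by
  induction L with
  | zero => simp
  | succ L ih =>
    rw [Finset.sum_range_succ, ← ih, ← level_eq hc L]
    exact (Finset.sum_Ico_consecutive _ Nat.one_le_two_pow
      (Nat.pow_le_pow_right (by norm_num) (by omega))).symm

/-- the support of the function of a node -/
theorem F_supp {c : LP} {v : ℕ} (hv : 1 ≤ v) {n : ℕ →₀ ℤ} (hn : (F c v).coeff n ≠ 0) :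
    n v = 1 ∧ ∀ w, v < w → n w = 0 := by
  unfold F at hn
  obtain ⟨m, l, hm, hl, rfl⟩ := exists_of_coeff_mul hn
  unfold T1 at hl
  rw [jj_single, AddMonoidAlgebra.coeff_single, Finsupp.single_apply] at hl
  have hl' : Finsupp.single v 1 = l := by
    by_contra h
    rw [if_neg h] at hl
    exact hl rfl
  have hm' := W_low_self c hv m hm
  constructor
  · rw [Finsupp.add_apply, hm' v le_rfl, ← hl', Finsupp.single_apply, if_pos rfl, zero_add]
  · intro w hw
    rw [Finsupp.add_apply, hm' w hw.le, ← hl', Finsupp.single_apply, if_neg (by omega), zero_add]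

end Pool.Agent.H311.CB
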